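import Mathlib
set_option autoImplicit false

/-!
Real flow roots are bounded.  Definitions.

`MG V I` : multigraph on the vertex type `V`, edges `I`.  For an equivalence relation `r` on `V` and
a set `S` of edges the minor 'vertices glued along `r`, edges `S`' has the normalised flow polynomial
  m q r S = sum over A in powerset S of (1+p)^|A| (-p)^|S \ A| q^(number of classes of r join conn A),
  p = 1/(q-1).
-/

namespace Pool.Agent.H753R2.FR

open Finset

/-- a multigraph with vertices `V` and edges `I`: the two ends of an edge -/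
structure MG (V I : Type) where
  x : I → V
  y : I → V

section setoids
variable {V : Type}

/-- all elements of `K` are glued together, nothing else -/
def mg (K : Finset V) : Setoid V where
  r a b := a = b ∨ (a ∈ K ∧ b ∈ K)
  iseqv := by
    refine ⟨fun a => Or.inl rfl, ?_, ?_⟩
    · rintro a b (h | h)
      · exact Or.inl h.symm
      · exact Or.inr ⟨h.2, h.1⟩
    · rintro a b c (h | h) (h' | h')
      · exact Or.inl (h.trans h')
      · exact Or.inr (by rw [h]; exact h')
      · exact Or.inr (by rw [← h']; exact h)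
      · exact Or.inr ⟨h.1, h'.2⟩

/-- `a` and `b` are glued together, nothing else -/
def pr (a b : V) : Setoid V where
  r c d := c = d ∨ ((c = a ∨ c = b) ∧ (d = a ∨ d = b))
  iseqv := by
    refine ⟨fun a => Or.inl rfl, ?_, ?_⟩
    · rintro c d (h | h)
      · exact Or.inl h.symm
      · exact Or.inr ⟨h.2, h.1⟩
    · rintro c d e (h | h) (h' | h')
      · exact Or.inl (h.trans h')
      · exact Or.inr (by rw [h]; exact h')
      · exact Or.inr (by rw [← h']; exact h)
      · exact Or.inr ⟨h.1, h'.2⟩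

/-- number of classes -/
noncomputable def cl (s : Setoid V) : ℕ := Nat.card (Quotient s)

/-- the restriction of `s` to `W`: outside `W` everything is a singleton -/
def pat (W : Finset V) (s : Setoid V) : Setoid V where
  r a b := a = b ∨ (a ∈ W ∧ b ∈ W ∧ s a b)
  iseqv := by
    refine ⟨fun a => Or.inl rfl, ?_, ?_⟩
    · rintro a b (h | h)
      · exact Or.inl h.symm
      · exact Or.inr ⟨h.2.1, h.1, s.symm h.2.2⟩
    · rintro a b c (h | h) (h' | h')
      · exact Or.inl (h.trans h')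
      · exact Or.inr (by rw [h]; exact h')
      · exact Or.inr (by rw [← h']; exact h)
      · exact Or.inr ⟨h.1, h'.2.1, s.trans h.2.2 h'.2.2⟩

/-- the elements of `Z` are isolated in `r` -/
def Free (r : Setoid V) (Z : Finset V) : Prop := ∀ a ∈ Z, ∀ b, r a b → a = b

end setoids

section graphs
variable {V I : Type} [DecidableEq V] [DecidableEq I] [Fintype V] [Fintype I]

/-- connectivity through the edges of `A` -/
def conn (G : MG V I) (A : Finset I) : Setoid V := A.sup (fun e => pr (G.x e) (G.y e))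

/-- weight of the set `A` of open edges inside the set `S` of edges -/
noncomputable def wt (q : ℝ) (S A : Finset I) : ℝ :=
  ∏ e ∈ S, if e ∈ A then (1 + 1 / (q - 1)) else (-(1 / (q - 1)))

/-- the normalised flow polynomial of the minor `(r, S)` -/
noncomputable def m (G : MG V I) (q : ℝ) (r : Setoid V) (S : Finset I) : ℝ :=
  ∑ A ∈ S.powerset, wt q S A * q ^ (cl (r ⊔ conn G A))

/-- edges inside `D` -/
def E (G : MG V I) (D : Finset V) : Finset I :=
  univ.filter (fun e => G.x e ∈ D ∧ G.y e ∈ D)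

/-- edges between `Y` and `T` -/
def cut (G : MG V I) (Y T : Finset V) : Finset I :=
  univ.filter (fun e => (G.x e ∈ Y ∧ G.y e ∈ T) ∨ (G.x e ∈ T ∧ G.y e ∈ Y))

/-- `D` is connected after gluing `K` -/
def Kconn (G : MG V I) (D K : Finset V) : Prop :=
  ∀ Z, Z ⊆ D \ K → Z.Nonempty → (cut G Z (D \ Z)).Nonempty

/-- no element of `Z` is an end of an edge of `O` -/
def Untouched (G : MG V I) (O : Finset I) (Z : Finset V) : Prop :=
  ∀ e ∈ O, G.x e ∉ Z ∧ G.y e ∉ Z

/-- ends in `Y` of the edges between `Y` and `T` -/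
def ends (G : MG V I) (Y T : Finset V) : Finset V :=
  Y.filter (fun v => ∃ e ∈ cut G Y T, G.x e = v ∨ G.y e = v)

/-- elements of `R` touched by `O` -/
def legs (G : MG V I) (O : Finset I) (R : Finset V) : Finset V :=
  R.filter (fun v => ∃ e ∈ O, G.x e = v ∨ G.y e = v)

/-- what the minimal counterexample gives: positivity and the merging inequality for smaller minors -/
structure Hyp (G : MG V I) (q : ℝ) : Prop where
  nn : ∀ (r : Setoid V) (S : Finset I), (r ≠ ⊥ ∨ S ≠ univ) → 0 ≤ m G q r S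
  mono : ∀ (r : Setoid V) (S : Finset I) (a b : V), S.card + 2 ≤ Fintype.card I →
    m G q r S ≤ q * m G q (r ⊔ pr a b) S

/-- the bound for the domain `D` with root set `K`, special set `W`, in the presence of the outer
edges `O` -/
def Bd (G : MG V I) (q : ℝ) (O : Finset I) (D K W : Finset V) (ρ : ℝ) : Prop :=
  ∀ r : Setoid V, mg K ≤ r → Free r (D \ W) →
    ∀ f : Setoid V → ℝ, (∀ s, |f s| ≤ 1) →
      |∑ A ∈ (E G D).powerset,
          f (pat W (conn G A ⊔ mg K)) * (wt q (E G D) A * m G q (r ⊔ conn G A) O)|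
        ≤ ρ * m G q (r ⊔ mg W) (E G D ∪ O)

/-- the product bound for two disjoint domains -/
def PB2 (G : MG V I) (q : ℝ) (O : Finset I) (D₁ K₁ W₁ D₂ K₂ W₂ : Finset V) (β : ℝ) : Prop :=
  ∀ r : Setoid V, mg K₁ ≤ r → mg K₂ ≤ r → Free r (D₁ \ W₁) → Free r (D₂ \ W₂) →
    ∀ F : Setoid V → Setoid V → ℝ, (∀ s t, |F s t| ≤ 1) →
    ∀ κ : ℝ, (κ = q ∨ (κ = 1 ∧ ∃ k₁ ∈ W₁, ∃ k₂ ∈ W₂, r k₁ k₂)) →
      |∑ A ∈ (E G D₁).powerset, ∑ B ∈ (E G D₂).powerset,
          F (pat W₁ (conn G A ⊔ mg K₁)) (pat W₂ (conn G B ⊔ mg K₂)) *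
            (wt q (E G D₁) A * wt q (E G D₂) B * m G q (r ⊔ conn G A ⊔ conn G B) O)|
        ≤ β * κ * m G q (r ⊔ mg (W₁ ∪ W₂)) (E G D₁ ∪ E G D₂ ∪ O)

/-- the family of sets `Y` in the expansion: `u` in `Y`, `Y` connected and disjoint from `K`, the rest of
`D` connected to `K` -/
noncomputable def fam (G : MG V I) (D K : Finset V) (u : V) : Finset (Finset V) := by
  classical
  exact (D \ K).powerset.filter (fun Y => u ∈ Y ∧ Kconn G Y {u} ∧ Kconn G (D \ Y) K)

/-- the claim 'gluing one more vertex costs at most a factor 2' -/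
def LC (G : MG V I) (q : ℝ) (O : Finset I) (D K : Finset V) : Prop :=
  ∀ v ∈ D \ K, ∀ r : Setoid V, mg K ≤ r → Free r (D \ K) →
    m G q (r ⊔ mg (insert v K)) (E G D ∪ O) ≤ 2 * m G q r (E G D ∪ O)

/-- `s` and `t` agree on `U` -/
def AgreeOn {V : Type} (U : Set V) (s t : Setoid V) : Prop := ∀ a ∈ U, ∀ b ∈ U, (s a b ↔ t a b)

/-- `t` relates only elements of `U` -/
def Supp {V : Type} (U : Set V) (t : Setoid V) : Prop := ∀ a b, t a b → a = b ∨ (a ∈ U ∧ b ∈ U)

/-- the isoperimetric profile -/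
noncomputable def gg (s : ℕ) : ℝ := (11 / 10) * (s : ℝ) ^ ((1 : ℝ) / 3)

/-- the properties of the minimal thin set `X` -/
structure Thin (G : MG V I) (X : Finset V) : Prop where
  two_le : 2 ≤ X.card
  iso : ∀ Q, Q ⊆ X → Q.Nonempty → Q ≠ X → gg (min Q.card (X \ Q).card) ≤ ((cut G Q (X \ Q)).card : ℝ)
  two : ∀ Q, Q ⊆ X → Q.Nonempty → Q ≠ X → 2 ≤ (cut G Q (X \ Q)).card
  leg : ∀ Q, Q ⊆ X → Q.Nonempty → 2 * Q.card ≤ X.card →
    (cut G Q Xᶜ).card ≤ 2 * (cut G Q (X \ Q)).card
  simple : ∀ Q, Q ⊆ X → (E G Q).card ≤ Q.card ^ 2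

/-- no edge is a bridge -/
def Bridgeless (G : MG V I) : Prop := ∀ e : I, conn G (univ.erase e) (G.x e) (G.y e)

/-- a configuration: alive domain `D`, dead set `Δ` glued to nothing but with all its neighbours in `K`,
root set `K`, special set `W` containing all the vertices of `D` with a neighbour in `X \ (D ∪ Δ)` -/
structure Cfg (G : MG V I) (X D Δ K W : Finset V) : Prop where
  hD : D ⊆ X
  hΔ : Δ ⊆ X
  disj : Disjoint D Δ
  hKW : K ⊆ W
  hWD : W ⊆ D
  hK : K.Nonempty
  con : Kconn G D K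
  dead : cut G Δ (D \ K) = ∅
  bdry : cut G (D \ W) (X \ (D ∪ Δ)) = ∅

/-- the reference set `P` of a configuration (small sets have at least two boundary edges in `P`);
`φ = 0` if this also holds for the small sets containing the roots -/
structure Ref (G : MG V I) (X D Δ K P : Finset V) (s₁ φ : ℕ) : Prop where
  hPX : P ⊆ X
  hDP : D ∪ Δ ⊆ P
  free : ∀ Z, Z ⊆ D \ K → Z.Nonempty → Z.card ≤ s₁ → 2 ≤ (cut G Z (P \ Z)).card
  root : φ = 0 → ∀ T, K ⊆ T → T ⊆ D → T ≠ D → (T ∪ Δ).card ≤ s₁ →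
    2 ≤ (cut G (T ∪ Δ) (P \ (T ∪ Δ))).card

end graphs

end Pool.Agent.H753R2.FR
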