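import Mathlib
import Pool.Agent.H753R2.FR.Defs
set_option autoImplicit false

/-! Task A1 (helper662): equivalence relations and number of classes. -/

namespace Pool.Agent.H753R2.FR

open Finset

section A1
variable {V : Type}

theorem pr_le_iff {r : Setoid V} {a b : V} : pr a b ≤ r ↔ r a b := by
  constructor
  · intro h
    exact h (Or.inr ⟨Or.inl rfl, Or.inr rfl⟩)
  · rintro h c d (rfl | ⟨rfl | rfl, rfl | rfl⟩)
    · exact r.refl _
    · exact r.refl _
    · exact h
    · exact r.symm h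
    · exact r.refl _

theorem mg_le_iff {r : Setoid V} {K : Finset V} : mg K ≤ r ↔ ∀ a ∈ K, ∀ b ∈ K, r a b := by
  constructor
  · intro h a ha b hb
    exact h (Or.inr ⟨ha, hb⟩)
  · rintro h a b (rfl | ⟨ha, hb⟩)
    · exact r.refl _
    · exact h a ha b hb

/-- the join with one pair -/
def a1_sp (r : Setoid V) (a b : V) : Setoid V where
  r c d := r c d ∨ (r c a ∧ r b d) ∨ (r c b ∧ r a d)
  iseqv := by
    refine ⟨fun c => Or.inl (r.refl c), ?_, ?_⟩
    · rintro c d (h | ⟨h1, h2⟩ | ⟨h1, h2⟩)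
      · exact Or.inl (r.symm h)
      · exact Or.inr (Or.inr ⟨r.symm h2, r.symm h1⟩)
      · exact Or.inr (Or.inl ⟨r.symm h2, r.symm h1⟩)
    · rintro c d e (h | ⟨h1, h2⟩ | ⟨h1, h2⟩) (g | ⟨g1, g2⟩ | ⟨g1, g2⟩)
      · exact Or.inl (r.trans h g)
      · exact Or.inr (Or.inl ⟨r.trans h g1, g2⟩)
      · exact Or.inr (Or.inr ⟨r.trans h g1, g2⟩)
      · exact Or.inr (Or.inl ⟨h1, r.trans h2 g⟩)
      · exact Or.inr (Or.inl ⟨h1, g2⟩)
      · exact Or.inl (r.trans h1 g2)
      · exact Or.inr (Or.inr ⟨h1, r.trans h2 g⟩)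
      · exact Or.inl (r.trans h1 g2)
      · exact Or.inr (Or.inr ⟨h1, g2⟩)

theorem sup_pr_iff {r : Setoid V} {a b c d : V} :
    (r ⊔ pr a b) c d ↔ r c d ∨ (r c a ∧ r b d) ∨ (r c b ∧ r a d) := by
  constructor
  · intro h
    have h1 : r ⊔ pr a b ≤ a1_sp r a b := by
      refine sup_le (fun c d hcd => Or.inl hcd) ?_
      rw [pr_le_iff]
      exact Or.inr (Or.inl ⟨r.refl _, r.refl _⟩)
    exact h1 h
  · have hr : r ≤ r ⊔ pr a b := le_sup_left
    have hp : (r ⊔ pr a b) a b := pr_le_iff.1 (le_sup_right : pr a b ≤ r ⊔ pr a b)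
    rintro (h | ⟨h1, h2⟩ | ⟨h1, h2⟩)
    · exact hr h
    · exact (r ⊔ pr a b).trans (hr h1) ((r ⊔ pr a b).trans hp (hr h2))
    · exact (r ⊔ pr a b).trans (hr h1) ((r ⊔ pr a b).trans ((r ⊔ pr a b).symm hp) (hr h2))

theorem mg_insert [DecidableEq V] {K : Finset V} {k v : V} (hk : k ∈ K) :
    mg (insert v K) = mg K ⊔ pr k v := by
  apply le_antisymm
  · rw [mg_le_iff]
    have h1 : mg K ≤ mg K ⊔ pr k v := le_sup_left
    have hp : (mg K ⊔ pr k v) k v := pr_le_iff.1 (le_sup_right : pr k v ≤ mg K ⊔ pr k v)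
    have h2 : ∀ a ∈ insert v K, (mg K ⊔ pr k v) a k := by
      intro a ha
      rcases Finset.mem_insert.1 ha with rfl | ha
      · exact (mg K ⊔ pr k a).symm hp
      · exact h1 (Or.inr ⟨ha, hk⟩)
    intro a ha b hb
    exact (mg K ⊔ pr k v).trans (h2 a ha) ((mg K ⊔ pr k v).symm (h2 b hb))
  · refine sup_le ?_ ?_
    · rw [mg_le_iff]
      intro a ha b hb
      exact Or.inr ⟨Finset.mem_insert_of_mem ha, Finset.mem_insert_of_mem hb⟩
    · rw [pr_le_iff]
      exact Or.inr ⟨Finset.mem_insert_of_mem hk, Finset.mem_insert_self _ _⟩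

theorem mg_singleton (v : V) : mg ({v} : Finset V) = ⊥ := by
  apply le_antisymm _ bot_le
  rw [mg_le_iff]
  intro a ha b hb
  rw [Finset.mem_singleton] at ha hb
  subst ha hb
  exact (⊥ : Setoid V).refl _

theorem cl_sup_pr_of_rel {s : Setoid V} {a b : V} (h : s a b) : cl (s ⊔ pr a b) = cl s := by
  rw [sup_eq_left.2 (pr_le_iff.2 h)]

/-- the natural map between quotients -/
def a1_map {r s : Setoid V} (h : r ≤ s) : Quotient r → Quotient s :=
  Quotient.map' id h

theorem a1_map_mk {r s : Setoid V} (h : r ≤ s) (a : V) :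
    a1_map h (Quotient.mk r a) = Quotient.mk s a := rfl

theorem a1_map_surj {r s : Setoid V} (h : r ≤ s) : Function.Surjective (a1_map h) := by
  intro y
  induction y using Quotient.inductionOn with
  | h a => exact ⟨Quotient.mk r a, rfl⟩

theorem cl_sup_pr_of_not [Finite V] {s : Setoid V} {a b : V} (h : ¬ s a b) :
    cl (s ⊔ pr a b) + 1 = cl s := by
  classical
  have hle : s ≤ s ⊔ pr a b := le_sup_left
  have hbij : Function.Bijective
      (fun x : {x : Quotient s // x ≠ Quotient.mk s b} => a1_map hle x.1) := by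
    constructor
    · rintro ⟨x, hx⟩ ⟨y, hy⟩ hxy
      induction x using Quotient.inductionOn with
      | h c =>
      induction y using Quotient.inductionOn with
      | h d =>
      simp only [a1_map_mk] at hxy
      have h1 : (s ⊔ pr a b) c d := Quotient.exact hxy
      apply Subtype.ext
      apply Quotient.sound
      rcases sup_pr_iff.1 h1 with h2 | ⟨-, h2⟩ | ⟨h2, -⟩
      · exact h2
      · exact absurd (Quotient.sound (s.symm h2)) hy
      · exact absurd (Quotient.sound h2) hx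
    · intro y
      induction y using Quotient.inductionOn with
      | h c =>
      by_cases hc : s c b
      · refine ⟨⟨Quotient.mk s a, fun hab => h (Quotient.exact hab)⟩, ?_⟩
        show a1_map hle (Quotient.mk s a) = _
        rw [a1_map_mk]
        apply Quotient.sound
        exact sup_pr_iff.2 (Or.inr (Or.inl ⟨s.refl _, s.symm hc⟩))
      · exact ⟨⟨Quotient.mk s c, fun hcb => hc (Quotient.exact hcb)⟩, rfl⟩
  unfold cl
  rw [← Nat.card_congr (Equiv.ofBijective _ hbij),
    ← Nat.card_congr (Equiv.optionSubtypeNe (Quotient.mk s b)), Finite.card_option]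

theorem a1_cl_le_succ [Finite V] (s : Setoid V) (a b : V) : cl s ≤ cl (s ⊔ pr a b) + 1 := by
  by_cases h : s a b
  · rw [cl_sup_pr_of_rel h]
    omega
  · rw [cl_sup_pr_of_not h]

theorem cl_bot [Fintype V] : cl (⊥ : Setoid V) = Fintype.card V := by
  unfold cl
  rw [← Nat.card_eq_fintype_card]
  refine Nat.card_congr (Equiv.ofBijective (Quotient.mk (⊥ : Setoid V)) ⟨?_, ?_⟩).symm
  · intro a b hab
    have h1 : (⊥ : Setoid V) a b := Quotient.exact hab
    exact h1
  · intro y
    induction y using Quotient.inductionOn with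
    | h a => exact ⟨a, rfl⟩

theorem cl_anti [Finite V] {r s : Setoid V} (h : r ≤ s) : cl s ≤ cl r :=
  Nat.card_le_card_of_surjective (a1_map h) (a1_map_surj h)

/-- if `r ≤ s` and the number of classes is the same, then `r = s` -/
theorem eq_of_cl_eq [Finite V] {r s : Setoid V} (h : r ≤ s) (hc : cl r = cl s) : r = s := by
  apply le_antisymm h
  intro a b hab
  by_contra hcon
  have h1 := cl_sup_pr_of_not hcon
  have h2 : cl s ≤ cl (r ⊔ pr a b) := cl_anti (sup_le h (pr_le_iff.2 hab))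
  omega

/-- go from `r` to `s ≥ r` by gluing one pair at a time -/
theorem chain_induction [Finite V] {r s : Setoid V} (h : r ≤ s) (P : Setoid V → Prop) (h0 : P r)
    (h1 : ∀ t a b, r ≤ t → t ≤ s → s a b → ¬ t a b → P t → P (t ⊔ pr a b)) : P s := by
  have key : ∀ n : ℕ, ∀ t : Setoid V, cl t = n → r ≤ t → t ≤ s → P t → P s := by
    intro n
    induction n with
    | zero =>
      intro t hn hrt hts hP
      by_cases hts' : t = s
      · rw [← hts']; exact hP
      · exfalso
        have : ∃ a b, s a b ∧ ¬ t a b := by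
          by_contra hcon
          push Not at hcon
          exact hts' (le_antisymm hts fun a b hab => hcon a b hab)
        obtain ⟨a, b, -, hb⟩ := this
        have := cl_sup_pr_of_not hb
        omega
    | succ n ih =>
      intro t hn hrt hts hP
      by_cases hts' : t = s
      · rw [← hts']; exact hP
      · have : ∃ a b, s a b ∧ ¬ t a b := by
          by_contra hcon
          push Not at hcon
          exact hts' (le_antisymm hts fun a b hab => hcon a b hab)
        obtain ⟨a, b, ha, hb⟩ := this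
        have h2 := cl_sup_pr_of_not hb
        exact ih (t ⊔ pr a b) (by omega) (hrt.trans le_sup_left)
          (sup_le hts (pr_le_iff.2 ha)) (h1 t a b hrt hts ha hb hP)
  exact key (cl r) r rfl le_rfl h h0

/-- submodularity -/
theorem cl_submod [Finite V] {a b : Setoid V} (h : a ≤ b) (s : Setoid V) :
    cl (a ⊔ s) + cl b ≤ cl a + cl (b ⊔ s) := by
  refine chain_induction h (fun t => cl (a ⊔ s) + cl t ≤ cl a + cl (t ⊔ s)) ?_ ?_
  · omega
  · intro t c d _ _ _ hcd hP
    have h1 := cl_sup_pr_of_not hcd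
    have h2 := a1_cl_le_succ (t ⊔ s) c d
    have h3 : t ⊔ s ⊔ pr c d = t ⊔ pr c d ⊔ s := by
      rw [sup_right_comm]
    rw [h3] at h2
    omega

/-- auxiliary relation for `agree_sup` -/
def a1_w {U : Set V} {s s' t : Setoid V} (h : AgreeOn U s s') : Setoid V where
  r x y := s x y ∨ ∃ u ∈ U, ∃ v ∈ U, s x u ∧ (s' ⊔ t) u v ∧ s v y
  iseqv := by
    refine ⟨fun c => Or.inl (s.refl c), ?_, ?_⟩
    · rintro x y (h1 | ⟨u, hu, v, hv, h1, h2, h3⟩)
      · exact Or.inl (s.symm h1)
      · exact Or.inr ⟨v, hv, u, hu, s.symm h3, (s' ⊔ t).symm h2, s.symm h1⟩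
    · rintro x y z (h1 | ⟨u, hu, v, hv, h1, h2, h3⟩) (g1 | ⟨u', hu', v', hv', g1, g2, g3⟩)
      · exact Or.inl (s.trans h1 g1)
      · exact Or.inr ⟨u', hu', v', hv', s.trans h1 g1, g2, g3⟩
      · exact Or.inr ⟨u, hu, v, hv, h1, h2, s.trans h3 g1⟩
      · have e1 : s v u' := s.trans h3 g1
        have e2 : s' v u' := (h v hv u' hu').1 e1
        have e3 : (s' ⊔ t) v u' := (le_sup_left : s' ≤ s' ⊔ t) e2
        exact Or.inr ⟨u, hu, v', hv', h1,
          (s' ⊔ t).trans h2 ((s' ⊔ t).trans e3 g2), g3⟩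

theorem a1_agree_half {U : Set V} {s s' t : Setoid V} (h : AgreeOn U s s') (ht : Supp U t)
    {a b : V} (ha : a ∈ U) (hb : b ∈ U) (hab : (s ⊔ t) a b) : (s' ⊔ t) a b := by
  have h1 : s ⊔ t ≤ a1_w (t := t) h := by
    refine sup_le (fun x y hxy => Or.inl hxy) ?_
    intro x y hxy
    rcases ht x y hxy with rfl | ⟨hx, hy⟩
    · exact Or.inl (s.refl _)
    · exact Or.inr ⟨x, hx, y, hy, s.refl _, (le_sup_right : t ≤ s' ⊔ t) hxy, s.refl _⟩
  have hl : s' ≤ s' ⊔ t := le_sup_left
  rcases h1 hab with h2 | ⟨u, hu, v, hv, h2, h3, h4⟩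
  · exact hl ((h a ha b hb).1 h2)
  · exact (s' ⊔ t).trans (hl ((h a ha u hu).1 h2))
      ((s' ⊔ t).trans h3 (hl ((h v hv b hb).1 h4)))

theorem agree_sup {U : Set V} {s s' t : Setoid V} (h : AgreeOn U s s') (ht : Supp U t) :
    AgreeOn U (s ⊔ t) (s' ⊔ t) := by
  intro a ha b hb
  refine ⟨a1_agree_half h ht ha hb, a1_agree_half ?_ ht ha hb⟩
  intro c hc d hd
  exact (h c hc d hd).symm

theorem agree_cl [Finite V] {U : Set V} {s s' t : Setoid V} (h : AgreeOn U s s') (ht : Supp U t) :
    cl s + cl (s' ⊔ t) = cl s' + cl (s ⊔ t) := by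
  refine chain_induction (bot_le : ⊥ ≤ t)
    (fun w => cl s + cl (s' ⊔ w) = cl s' + cl (s ⊔ w)) ?_ ?_
  · rw [sup_bot_eq, sup_bot_eq, add_comm]
  · intro w a b _ hwt hab hnab hP
    have hne : a ≠ b := by
      rintro rfl
      exact hnab (w.refl _)
    rcases ht a b hab with hab' | ⟨ha, hb⟩
    · exact absurd hab' hne
    · have hw : Supp U w := fun x y hxy => ht x y (hwt hxy)
      have h1 := agree_sup h hw a ha b hb
      rw [← sup_assoc, ← sup_assoc]
      by_cases h2 : (s ⊔ w) a b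
      · rw [cl_sup_pr_of_rel h2, cl_sup_pr_of_rel (h1.1 h2), hP]
      · have h3 := cl_sup_pr_of_not h2
        have h4 := cl_sup_pr_of_not (fun h5 => h2 (h1.2 h5))
        omega

variable {I : Type} [DecidableEq V] [DecidableEq I] [Fintype V] [Fintype I] (G : MG V I)

theorem conn_empty : conn G ∅ = ⊥ := Finset.sup_empty

theorem conn_insert (e : I) (A : Finset I) :
    conn G (insert e A) = conn G A ⊔ pr (G.x e) (G.y e) := by
  unfold conn
  rw [Finset.sup_insert, sup_comm]

theorem conn_union (A B : Finset I) : conn G (A ∪ B) = conn G A ⊔ conn G B := by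
  unfold conn
  rw [Finset.sup_union]

theorem conn_mono {A B : Finset I} (h : A ⊆ B) : conn G A ≤ conn G B := by
  unfold conn
  exact Finset.sup_mono h

theorem conn_le_iff {A : Finset I} {r : Setoid V} :
    conn G A ≤ r ↔ ∀ e ∈ A, r (G.x e) (G.y e) := by
  unfold conn
  rw [Finset.sup_le_iff]
  exact forall₂_congr fun e _ => pr_le_iff

theorem cl_conn (s : Setoid V) (B : Finset I) : cl s ≤ cl (s ⊔ conn G B) + B.card := by
  induction B using Finset.induction_on with
  | empty => rw [conn_empty, sup_bot_eq]; simp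
  | insert e B he ih =>
    rw [conn_insert, ← sup_assoc, Finset.card_insert_of_notMem he]
    have := a1_cl_le_succ (s ⊔ conn G B) (G.x e) (G.y e)
    omega

/-- `conn G A` for edges inside `D` relates only elements of `D` -/
theorem supp_conn {D : Finset V} {A : Finset I} (h : A ⊆ E G D) : Supp (↑D : Set V) (conn G A) := by
  intro a b hab
  have h1 : conn G A ≤ mg D := by
    rw [conn_le_iff]
    intro e he
    have h2 := h he
    unfold E at h2
    rw [Finset.mem_filter] at h2
    exact Or.inr h2.2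
  exact h1 hab

/-- `D` connected after gluing `K`: all the edges of `D` together with `K` glue the whole of `D` -/
theorem kconn_mg {D K : Finset V} (hKD : K ⊆ D) (hK : K.Nonempty) (h : Kconn G D K) :
    mg D ≤ conn G (E G D) ⊔ mg K := by
  classical
  obtain ⟨k₀, hk₀⟩ := hK
  obtain ⟨t, ht⟩ : ∃ t, t = conn G (E G D) ⊔ mg K := ⟨_, rfl⟩
  rw [← ht]
  have hmg : mg K ≤ t := by rw [ht]; exact le_sup_right
  have hcn : conn G (E G D) ≤ t := by rw [ht]; exact le_sup_left
  have hedge : ∀ e, G.x e ∈ D → G.y e ∈ D → t (G.x e) (G.y e) := by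
    intro e hx hy
    refine (conn_le_iff G).1 hcn e ?_
    unfold E
    rw [Finset.mem_filter]
    exact ⟨Finset.mem_univ _, hx, hy⟩
  have hall : ∀ v ∈ D, t v k₀ := by
    by_contra hcon
    push Not at hcon
    obtain ⟨v, hv, hvk⟩ := hcon
    have hZ : (D.filter fun v => ¬ t v k₀) ⊆ D \ K := by
      intro z hz
      rw [Finset.mem_filter] at hz
      rw [Finset.mem_sdiff]
      exact ⟨hz.1, fun hzK => hz.2 (hmg (Or.inr ⟨hzK, hk₀⟩))⟩
    obtain ⟨e, he⟩ := h _ hZ ⟨v, Finset.mem_filter.2 ⟨hv, hvk⟩⟩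
    unfold cut at he
    simp only [Finset.mem_filter, Finset.mem_univ, true_and, Finset.mem_sdiff, not_and,
      not_not] at he
    rcases he with ⟨⟨h1, h2⟩, h3, h4⟩ | ⟨⟨h3, h4⟩, h1, h2⟩
    · exact h2 (t.trans (hedge e h1 h3) (h4 h3))
    · exact h2 (t.trans (t.symm (hedge e h3 h1)) (h4 h3))
  rw [mg_le_iff]
  intro a ha b hb
  exact t.trans (hall a ha) (t.symm (hall b hb))

end A1

end Pool.Agent.H753R2.FR
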