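import Mathlib
import Pool.Agent.H753R2.FR.Defs
import Pool.Agent.H753R2.FR.T_A1
set_option autoImplicit false

namespace Pool.Agent.H753R2.FR

open Finset



/-! ### Task A2 : the polynomial m -/
section A2
variable {V I : Type} [DecidableEq V] [DecidableEq I] [Fintype V] [Fintype I] (G : MG V I) (q : ℝ)

theorem wt_union {S S' A A' : Finset I} (h : Disjoint S S') (hA : A ⊆ S) (hA' : A' ⊆ S') :
    wt q (S ∪ S') (A ∪ A') = wt q S A * wt q S' A' := by
  unfold wt
  rw [prod_union h]
  congr 1
  · apply prod_congr rfl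
    intro e he
    have : e ∉ A' := fun h' => (Finset.disjoint_left.mp h he) (hA' h')
    simp [this]
  · apply prod_congr rfl
    intro e he
    have : e ∉ A := fun h' => (Finset.disjoint_right.mp h he) (hA h')
    simp [this]

theorem wt_eq {S A : Finset I} (hA : A ⊆ S) :
    wt q S A = (1 + 1 / (q - 1)) ^ A.card * (-(1 / (q - 1))) ^ (S \ A).card := by
  unfold wt
  rw [prod_ite, prod_const, prod_const]
  congr 2
  · congr 1
    ext e; simp only [mem_filter]
    exact ⟨fun h => h.2, fun h => ⟨hA h, h⟩⟩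
  · congr 1
    ext e; simp only [mem_filter, mem_sdiff]

/-- sum over the subsets of a disjoint union -/
theorem sum_powerset_union {S T : Finset I} (h : Disjoint S T) (φ : Finset I → ℝ) :
    ∑ A ∈ (S ∪ T).powerset, φ A = ∑ A ∈ S.powerset, ∑ B ∈ T.powerset, φ (A ∪ B) := by
  rw [← sum_product']
  symm
  refine sum_nbij' (fun p => p.1 ∪ p.2) (fun C => (C ∩ S, C ∩ T)) ?_ ?_ ?_ ?_ ?_
  · rintro ⟨A, B⟩ hp
    simp only [mem_product, mem_powerset] at hp ⊢
    exact union_subset_union hp.1 hp.2
  · intro C hC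
    simp only [mem_product, mem_powerset] at hC ⊢
    exact ⟨inter_subset_right, inter_subset_right⟩
  · rintro ⟨A, B⟩ hp
    simp only [mem_product, mem_powerset] at hp
    simp only [Prod.mk.injEq]
    constructor
    · ext e
      simp only [mem_inter, mem_union]
      constructor
      · rintro ⟨h1 | h1, h2⟩
        · exact h1
        · exact absurd (hp.2 h1) (Finset.disjoint_left.mp h h2)
      · intro h1; exact ⟨Or.inl h1, hp.1 h1⟩
    · ext e
      simp only [mem_inter, mem_union]
      constructor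
      · rintro ⟨h1 | h1, h2⟩
        · exact absurd h2 (Finset.disjoint_left.mp h (hp.1 h1))
        · exact h1
      · intro h1; exact ⟨Or.inr h1, hp.2 h1⟩
  · intro C hC
    simp only [mem_powerset] at hC
    simp only
    rw [← inter_union_distrib_left]
    exact inter_eq_left.mpr hC
  · rintro ⟨A, B⟩ _; rfl

theorem m_union {S O : Finset I} (h : Disjoint S O) (r : Setoid V) :
    m G q r (S ∪ O) = ∑ A ∈ S.powerset, wt q S A * m G q (r ⊔ conn G A) O := by
  unfold m
  rw [sum_powerset_union h]
  apply sum_congr rfl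
  intro A hA
  rw [mul_sum]
  apply sum_congr rfl
  intro B hB
  rw [wt_union q h (mem_powerset.mp hA) (mem_powerset.mp hB), conn_union, sup_assoc]
  ring

theorem m_empty (r : Setoid V) : m G q r ∅ = q ^ cl r := by
  unfold m
  rw [powerset_empty, sum_singleton, conn_empty, sup_bot_eq]
  simp [wt]

theorem m_insert {S : Finset I} {e : I} (h : e ∉ S) (r : Setoid V) :
    m G q r (insert e S) =
      (1 + 1 / (q - 1)) * m G q (r ⊔ pr (G.x e) (G.y e)) S - 1 / (q - 1) * m G q r S := by
  have hd : Disjoint ({e} : Finset I) S := by simpa using h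
  rw [insert_eq, m_union G q hd]
  have e1 : ({e} : Finset I).powerset = {∅, {e}} := by
    ext A; simp [Finset.subset_singleton_iff]
  rw [e1, sum_pair (Finset.singleton_ne_empty e).symm]
  have e2 : conn G {e} = pr (G.x e) (G.y e) := by
    have := conn_insert G e ∅
    rw [conn_empty, bot_sup_eq] at this
    simpa using this
  rw [conn_empty, e2, sup_bot_eq]
  simp only [wt, prod_singleton, notMem_empty, if_false, mem_singleton, if_true]
  ring

/-- loops may be removed -/
theorem m_loops {S O : Finset I} (r : Setoid V) (h : ∀ e ∈ S, r (G.x e) (G.y e)) :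
    m G q r (O ∪ S) = m G q r O := by
  induction S using Finset.induction_on with
  | empty => rw [union_empty]
  | insert e S _ ih =>
    have ih' := ih (fun e' he' => h e' (mem_insert_of_mem he'))
    rw [union_insert]
    by_cases he : e ∈ O ∪ S
    · rw [insert_eq_of_mem he, ih']
    · rw [m_insert G q he]
      have e1 : r ⊔ pr (G.x e) (G.y e) = r :=
        sup_eq_left.mpr (pr_le_iff.mpr (h e (mem_insert_self e S)))
      rw [e1, ih']
      ring

theorem m_bridge (hq : 1 < q) {S : Finset I} {e : I} (he : e ∉ S) (r : Setoid V)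
    (h : ¬ (r ⊔ conn G S) (G.x e) (G.y e)) : m G q r (insert e S) = 0 := by
  rw [m_insert G q he]
  unfold m
  rw [mul_sum, mul_sum, ← sum_sub_distrib]
  apply sum_eq_zero
  intro A hA
  have hA' : ¬ (r ⊔ conn G A) (G.x e) (G.y e) := fun h' =>
    h ((sup_le_sup_left (conn_mono G (mem_powerset.mp hA)) r) h')
  have h1 := cl_sup_pr_of_not hA'
  have e1 : r ⊔ pr (G.x e) (G.y e) ⊔ conn G A = r ⊔ conn G A ⊔ pr (G.x e) (G.y e) := by
    rw [sup_assoc, sup_assoc, sup_comm (pr _ _)]
  rw [e1, ← h1, pow_succ]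
  have : q - 1 ≠ 0 := by linarith
  field_simp
  ring

theorem m_disc (hq : 1 < q) {S : Finset I} {a b : V} (r : Setoid V)
    (h : ¬ (r ⊔ conn G S) a b) : q * m G q (r ⊔ pr a b) S = m G q r S := by
  unfold m
  rw [mul_sum]
  apply sum_congr rfl
  intro A hA
  have hA' : ¬ (r ⊔ conn G A) a b := fun h' =>
    h ((sup_le_sup_left (conn_mono G (mem_powerset.mp hA)) r) h')
  have h1 := cl_sup_pr_of_not hA'
  have e1 : r ⊔ pr a b ⊔ conn G A = r ⊔ conn G A ⊔ pr a b := by
    rw [sup_assoc, sup_assoc, sup_comm (pr _ _)]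
  rw [e1, ← h1, pow_succ]
  ring

/-- iterated merging inequality -/
theorem m_mono (hq : 1 < q) (hH : Hyp G q) {S : Finset I} (hS : S.card + 2 ≤ Fintype.card I)
    {r s : Setoid V} (h : r ≤ s) : m G q r S ≤ q ^ (cl r - cl s) * m G q s S := by
  refine chain_induction h (fun t => m G q r S ≤ q ^ (cl r - cl t) * m G q t S) (by simp) ?_
  intro t a b hrt _ _ hnt ih
  have h1 := cl_sup_pr_of_not hnt
  have h2 := cl_anti hrt
  have h3 : cl r - cl (t ⊔ pr a b) = (cl r - cl t) + 1 := by omega
  have h4 := hH.mono t S a b hS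
  rw [h3, pow_succ, mul_assoc]
  exact ih.trans (mul_le_mul_of_nonneg_left h4 (by positivity))

/-- everything in `U` is glued -/
def suppSet (U : Set V) : Setoid V where
  r a b := a = b ∨ (a ∈ U ∧ b ∈ U)
  iseqv := by
    refine ⟨fun a => Or.inl rfl, ?_, ?_⟩
    · rintro a b (h | h)
      · exact Or.inl h.symm
      · exact Or.inr ⟨h.2, h.1⟩
    · rintro a b c (h | h) (h' | h')
      · exact Or.inl (h.trans h')
      · exact Or.inr (by rw [h]; exact h')
      · exact Or.inr (by rw [← h']; exact h)
      · exact Or.inr ⟨h.1, h'.2⟩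

theorem supp_iff {U : Set V} {t : Setoid V} : Supp U t ↔ t ≤ suppSet U := by
  constructor
  · intro h a b hab; exact h a b hab
  · intro h a b hab; exact h hab

/-- only the restriction to the touched vertices matters -/
theorem m_agree {U : Set V} {s s' r : Setoid V} {O : Finset I} (h : AgreeOn U s s') (hr : Supp U r)
    (hO : ∀ e ∈ O, G.x e ∈ U ∧ G.y e ∈ U) :
    q ^ cl s' * m G q (s ⊔ r) O = q ^ cl s * m G q (s' ⊔ r) O := by
  unfold m
  rw [mul_sum, mul_sum]
  apply sum_congr rfl
  intro B hB
  have ht : Supp U (r ⊔ conn G B) := by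
    rw [supp_iff] at hr ⊢
    refine sup_le hr ?_
    rw [conn_le_iff]
    intro e he
    exact Or.inr (hO e (mem_powerset.mp hB he))
  have h1 := agree_cl h ht
  rw [sup_assoc, sup_assoc]
  calc q ^ cl s' * (wt q O B * q ^ cl (s ⊔ (r ⊔ conn G B)))
      = wt q O B * (q ^ (cl s' + cl (s ⊔ (r ⊔ conn G B)))) := by rw [pow_add]; ring
    _ = wt q O B * (q ^ (cl s + cl (s' ⊔ (r ⊔ conn G B)))) := by rw [h1]
    _ = _ := by rw [pow_add]; ring

end A2

end Pool.Agent.H753R2.FR
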