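import Mathlib
import Pool.Agent.H753R2.FR.Defs
set_option autoImplicit false

namespace Pool.Agent.H753R2.FR

open Finset

section D
variable {V I : Type} [DecidableEq V] [DecidableEq I] [Fintype V] [Fintype I] (G : MG V I)

/-- `O` consists of edges not inside `X` -/
def Outer (G : MG V I) (X : Finset V) (O : Finset I) : Prop :=
  ∀ e ∈ O, ¬ (G.x e ∈ X ∧ G.y e ∈ X)

/-- the energy -/
noncomputable def en (G : MG V I) (a A : ℝ) (Q : Finset V → ℝ) (D Δ K W P : Finset V) (φ : ℕ) : ℝ :=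
  a * ((W \ K).card : ℝ) + A * (2 * ((cut G (D ∪ Δ) (P \ (D ∪ Δ))).card : ℝ) + φ) + Q (D ∪ Δ)

noncomputable def Q0 (G : MG V I) (X : Finset V) (K₀ : ℝ) (S : Finset V) : ℝ :=
  K₀ * (((cut G S (X \ S)).card : ℝ) - gg S.card / 2)

noncomputable def Q1 (G : MG V I) (X : Finset V) (K₁ : ℝ) (S : Finset V) : ℝ :=
  K₁ * ((cut G S (X \ S)).card : ℝ)

/-- the energy bounds of a level hold for all configurations with `|D \ W| ≤ n` and `|D| < N` -/
def LB (G : MG V I) (q : ℝ) (X : Finset V) (O : Finset I) (s₁ : ℕ) (a A : ℝ) (Q : Finset V → ℝ)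
    (dom : Finset V → Prop) (n N : ℕ) : Prop :=
  ∀ D Δ K W P φ, Cfg G X D Δ K W → Ref G X D Δ K P s₁ φ → dom (D ∪ Δ) → (D \ W).card ≤ n →
    D.card < N → Bd G q O D K W (Real.exp (en G a A Q D Δ K W P φ))

/-- all the claims 'gluing one more vertex costs a factor 2' with at most `n` remaining vertices -/
def LL (G : MG V I) (q : ℝ) (X : Finset V) (n : ℕ) : Prop :=
  ∀ O, Outer G X O → ∀ D K, D ⊆ X → K ⊆ D → K.Nonempty → cut G (D \ K) (X \ D) = ∅ →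
    (D \ K).card ≤ n → LC G q O D K

/-- the requirements on the potential `Q` of a level; `ℓ` bounds the number of touched vertices of a
resolved domain -/
structure Lev (G : MG V I) (X : Finset V) (s₁ : ℕ) (a₀ A₀ K₀ a A Cq : ℝ) (Q ℓ : Finset V → ℝ)
    (dom : Finset V → Prop) : Prop where
  sub : ∀ S T, dom S → T ⊆ S → T.Nonempty → T ⊆ X → dom T
  ne : ∀ S, dom S → S ≠ X
  nn : ∀ S, dom S → S ⊆ X → S.Nonempty → 0 ≤ Q S
  lnn : ∀ S, 0 ≤ ℓ S
  q1 : ∀ R T, R ⊆ X → T ⊆ X → Disjoint R T → R.Nonempty → T.Nonempty → R.card ≤ T.card →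
    Q0 G X K₀ R + Q T + (a₀ + 1) * ℓ R ≤ Q (R ∪ T) + Cq * ((cut G R T).card : ℝ)
  q2 : ∀ R T, R ⊆ X → T ⊆ X → Disjoint R T → R.Nonempty → T.Nonempty → R.card ≤ T.card →
    ((cut G R T).card : ℝ) ≤ gg R.card / 50 →
    Q0 G X K₀ R + Q T + (a₀ + 1) * ℓ R + (2 * a + 4 * A + 4) * ((cut G R T).card : ℝ) ≤ Q (R ∪ T)
  q3 : ∀ R T, R ⊆ X → T ⊆ X → Disjoint R T → R.Nonempty → T.Nonempty → R.card ≤ T.card →
    (cut G R T).card = 1 → Q T ≤ Q (R ∪ T) + K₀

end D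

end Pool.Agent.H753R2.FR
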