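import Mathlib
import Pool.Agent.H753R2.FR.Defs

set_option autoImplicit false

namespace Pool.Agent.H753R2.FR

open Finset

/-! ### Task C : the isoperimetric profile and the thin set -/
section C

theorem C_cube (a : ℕ) : ((a : ℝ) ^ ((1 : ℝ) / 3)) ^ 3 = a := by
  rw [← Real.rpow_natCast, ← Real.rpow_mul (Nat.cast_nonneg a)]
  norm_num

theorem C_nn (a : ℕ) : 0 ≤ (a : ℝ) ^ ((1 : ℝ) / 3) := by positivity

theorem C_mono {a b : ℕ} (h : a ≤ b) : (a : ℝ) ^ ((1 : ℝ) / 3) ≤ (b : ℝ) ^ ((1 : ℝ) / 3) :=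
  Real.rpow_le_rpow (Nat.cast_nonneg a) (by exact_mod_cast h) (by norm_num)

theorem C_one {a : ℕ} (h : 1 ≤ a) : 1 ≤ (a : ℝ) ^ ((1 : ℝ) / 3) := by
  have := C_mono h
  simpa using this

/-- the basic inequality -/
theorem C_gap {a b : ℕ} (h : a ≤ b) : ((a + b : ℕ) : ℝ) ^ ((1 : ℝ) / 3) ≤
    (b : ℝ) ^ ((1 : ℝ) / 3) + 26 / 100 * (a : ℝ) ^ ((1 : ℝ) / 3) := by
  set x := (a : ℝ) ^ ((1 : ℝ) / 3) with hx
  set y := (b : ℝ) ^ ((1 : ℝ) / 3) with hy
  have hx0 : 0 ≤ x := C_nn a
  have hy0 : 0 ≤ y := C_nn b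
  have hxy : x ≤ y := C_mono h
  have hx3 : x ^ 3 = a := C_cube a
  have hy3 : y ^ 3 = b := C_cube b
  set z := ((a + b : ℕ) : ℝ) ^ ((1 : ℝ) / 3) with hz
  have hz0 : 0 ≤ z := C_nn (a + b)
  have hz3 : z ^ 3 = x ^ 3 + y ^ 3 := by
    rw [hx3, hy3, hz, C_cube (a + b)]; push_cast; ring
  refine le_of_pow_le_pow_left₀ (n := 3) (by norm_num) (by positivity) ?_
  rw [hz3]
  have h1 : x ^ 3 ≤ x * y ^ 2 := by
    have : x ^ 2 ≤ y ^ 2 := by gcongr
    calc x ^ 3 = x * x ^ 2 := by ring
      _ ≤ x * y ^ 2 := mul_le_mul_of_nonneg_left this hx0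
  have h2 : x ^ 3 ≤ x ^ 2 * y := by
    calc x ^ 3 = x ^ 2 * x := by ring
      _ ≤ x ^ 2 * y := mul_le_mul_of_nonneg_left hxy (by positivity)
  have h3 : 0 ≤ x ^ 3 := by positivity
  nlinarith [h1, h2, h3]

theorem gg_nonneg (s : ℕ) : 0 ≤ gg s := by
  unfold gg; positivity

theorem gg_mono {a b : ℕ} (h : a ≤ b) : gg a ≤ gg b := by
  unfold gg
  have := C_mono h
  linarith

theorem gg_one_le {a : ℕ} (h : 1 ≤ a) : 1 < gg a := by
  unfold gg
  have := C_one h
  linarith

theorem gg_gap {a b : ℕ} (h : a ≤ b) : gg (a + b) + (37 / 50) * gg a ≤ gg a + gg b := by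
  unfold gg
  have := C_gap h
  linarith

theorem gg_large (N : ℝ) : ∃ s₁ : ℕ, ∀ s, s₁ < s → N < gg s := by
  obtain ⟨M, hM⟩ := exists_nat_gt |N|
  refine ⟨M ^ 3, fun s hs => ?_⟩
  have h1 : (M : ℝ) ≤ (s : ℝ) ^ ((1 : ℝ) / 3) := by
    refine le_of_pow_le_pow_left₀ (n := 3) (by norm_num) (C_nn s) ?_
    rw [C_cube]
    exact_mod_cast hs.le
  unfold gg
  have h2 := le_abs_self N
  have h3 : (0 : ℝ) ≤ |N| := abs_nonneg N
  linarith

theorem gg_sub (a b : ℕ) : gg (a + b) ≤ gg a + gg b := by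
  rcases le_total a b with h | h
  · have := gg_gap h
    have := gg_nonneg a
    linarith
  · have h1 := gg_gap h
    have := gg_nonneg b
    rw [add_comm b a] at h1
    linarith

/-- subadditivity of the symmetrised profile -/
theorem gg_sym {a b N : ℕ} (h : a + b ≤ N) :
    gg (min (a + b) (N - (a + b))) ≤ gg (min a (N - a)) + gg (min b (N - b)) := by
  rcases le_total a (N - a) with h1 | h1
  · rcases le_total b (N - b) with h2 | h2
    · rw [min_eq_left h1, min_eq_left h2]
      exact (gg_mono (min_le_left _ _)).trans (gg_sub a b)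
    · rw [min_eq_right h2]
      have h3 : gg (min (a + b) (N - (a + b))) ≤ gg (N - b) :=
        gg_mono ((min_le_right _ _).trans (by omega))
      have := gg_nonneg (min a (N - a))
      linarith
  · rw [min_eq_right h1]
    have h3 : gg (min (a + b) (N - (a + b))) ≤ gg (N - a) :=
      gg_mono ((min_le_right _ _).trans (by omega))
    have := gg_nonneg (min b (N - b))
    linarith

variable {V I : Type} [DecidableEq V] [DecidableEq I] [Fintype V] [Fintype I] (G : MG V I)

theorem C_cut_comm (A B : Finset V) : cut G A B = cut G B A := by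
  ext e
  simp only [cut, mem_filter, mem_univ, true_and]
  tauto

theorem C_cut_add {A B D : Finset V} (hAB : Disjoint A B) (hAD : Disjoint A D)
    (hBD : Disjoint B D) :
    (cut G A (B ∪ D)).card = (cut G A B).card + (cut G A D).card := by
  have h1 : cut G A (B ∪ D) = cut G A B ∪ cut G A D := by
    ext e
    simp only [cut, mem_filter, mem_univ, true_and, mem_union]
    tauto
  rw [h1, card_union_of_disjoint]
  rw [Finset.disjoint_left]
  intro e he he'
  simp only [cut, mem_filter, mem_univ, true_and] at he he'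
  rw [Finset.disjoint_left] at hAB hAD hBD
  rcases he with ⟨h2, h3⟩ | ⟨h2, h3⟩
  · rcases he' with ⟨h4, h5⟩ | ⟨h4, h5⟩
    · exact hBD h3 h5
    · exact hAD h2 h4
  · rcases he' with ⟨h4, h5⟩ | ⟨h4, h5⟩
    · exact hAD h3 h5
    · exact hBD h2 h4

/-- the three boundary counts -/
theorem C_counts {Q X : Finset V} (hQ : Q ⊆ X) :
    (cut G Q Qᶜ).card = (cut G Q (X \ Q)).card + (cut G Q Xᶜ).card ∧
    (cut G (X \ Q) (X \ Q)ᶜ).card = (cut G Q (X \ Q)).card + (cut G (X \ Q) Xᶜ).card ∧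
    (cut G X Xᶜ).card = (cut G Q Xᶜ).card + (cut G (X \ Q) Xᶜ).card := by
  have d1 : Disjoint Q (X \ Q) := Finset.disjoint_sdiff
  have d2 : Disjoint Q Xᶜ := by
    rw [Finset.disjoint_left]
    intro v hv hv'
    exact (Finset.mem_compl.1 hv') (hQ hv)
  have d3 : Disjoint (X \ Q) Xᶜ := by
    rw [Finset.disjoint_left]
    intro v hv hv'
    exact (Finset.mem_compl.1 hv') (Finset.mem_sdiff.1 hv).1
  have e1 : Qᶜ = (X \ Q) ∪ Xᶜ := by
    ext v
    simp only [mem_compl, mem_union, mem_sdiff]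
    have := @hQ v
    tauto
  have e2 : (X \ Q)ᶜ = Q ∪ Xᶜ := by
    ext v
    simp only [mem_compl, mem_union, mem_sdiff]
    have := @hQ v
    tauto
  have e3 : X = Q ∪ (X \ Q) := by
    ext v
    simp only [mem_union, mem_sdiff]
    have := @hQ v
    tauto
  refine ⟨?_, ?_, ?_⟩
  · conv_lhs => rw [e1]
    exact C_cut_add G d1 d2 d3
  · conv_lhs => rw [e2]
    rw [C_cut_add G d1.symm d3 d2, C_cut_comm G (X \ Q) Q]
  · rw [C_cut_comm G X Xᶜ]
    have h := C_cut_add G (A := Xᶜ) (B := Q) (D := X \ Q) d2.symm d3.symm d1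
    rw [← e3] at h
    rw [h, C_cut_comm G Xᶜ Q, C_cut_comm G Xᶜ (X \ Q)]

theorem exists_thin [Nonempty V] (hdeg : ∀ v, 3 ≤ (cut G {v} {v}ᶜ).card)
    (hloop : ∀ e, G.x e ≠ G.y e)
    (hsimple : ∀ e e', ((G.x e = G.x e' ∧ G.y e = G.y e') ∨ (G.x e = G.y e' ∧ G.y e = G.x e')) →
      e = e') : ∃ X, Thin G X := by
  classical
  -- the thin sets
  let P : Finset V → Prop := fun X => X.Nonempty ∧
    ((cut G X Xᶜ).card : ℝ) < 3 * (X.card : ℝ) ^ ((1 : ℝ) / 3)
  have hex : ∃ X, P X := by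
    refine ⟨univ, univ_nonempty, ?_⟩
    have h0 : cut G univ (univ : Finset V)ᶜ = ∅ := by
      ext e
      simp [cut]
    rw [h0, card_empty]
    have h1 : 1 ≤ (univ : Finset V).card := Finset.card_pos.2 univ_nonempty
    have h2 := C_one h1
    push_cast
    linarith
  obtain ⟨X, hX, hmin⟩ : ∃ X, P X ∧ ∀ Y, P Y → X.card ≤ Y.card := by
    have hs : ((univ : Finset (Finset V)).filter P).Nonempty := by
      obtain ⟨X, hX⟩ := hex
      exact ⟨X, by rw [mem_filter]; exact ⟨mem_univ _, hX⟩⟩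
    obtain ⟨X, hX, hm⟩ := Finset.exists_min_image _ (fun X : Finset V => X.card) hs
    rw [mem_filter] at hX
    exact ⟨X, hX.2, fun Y hY => hm Y (by rw [mem_filter]; exact ⟨mem_univ _, hY⟩)⟩
  have hnt : ∀ Y : Finset V, Y.Nonempty → Y.card < X.card →
      3 * (Y.card : ℝ) ^ ((1 : ℝ) / 3) ≤ ((cut G Y Yᶜ).card : ℝ) := by
    intro Y hY hlt
    by_contra hc
    push Not at hc
    have := hmin Y ⟨hY, hc⟩
    omega
  have htwo : 2 ≤ X.card := by
    by_contra hc
    have h1 : X.card = 1 := by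
      have := Finset.card_pos.2 hX.1
      omega
    obtain ⟨v, hv⟩ := Finset.card_eq_one.1 h1
    have h2 := hX.2
    rw [h1, hv] at h2
    have h3 := hdeg v
    norm_num at h2
    omega
  -- the main estimate
  have hmain : ∀ Q, Q ⊆ X → Q.Nonempty → Q ≠ X →
      (111 / 100) * ((min Q.card (X \ Q).card : ℕ) : ℝ) ^ ((1 : ℝ) / 3) <
        ((cut G Q (X \ Q)).card : ℝ) := by
    intro Q hQ hQn hQX
    have hRn : (X \ Q).Nonempty := by
      rw [Finset.sdiff_nonempty]
      intro h
      exact hQX (Finset.Subset.antisymm hQ h)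
    have hcard : Q.card + (X \ Q).card = X.card := by
      rw [add_comm]; exact Finset.card_sdiff_add_card_eq_card hQ
    have hq1 := Finset.card_pos.2 hQn
    have hr1 := Finset.card_pos.2 hRn
    obtain ⟨c1, c2, c3⟩ := C_counts G hQ
    have t1 := hnt Q hQn (by omega)
    have t2 := hnt (X \ Q) hRn (by omega)
    have t3 := hX.2
    rw [c1] at t1
    rw [c2] at t2
    rw [c3, ← hcard] at t3
    push_cast at t1 t2 t3
    rcases le_total Q.card (X \ Q).card with h | h
    · rw [min_eq_left h]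
      have g := C_gap h
      push_cast at g
      linarith
    · rw [min_eq_right h]
      have g := C_gap h
      push_cast at g
      rw [add_comm ((X \ Q).card : ℝ) (Q.card : ℝ)] at g
      linarith
  refine ⟨X, htwo, ?_, ?_, ?_, ?_⟩
  · intro Q hQ hQn hQX
    have h1 := hmain Q hQ hQn hQX
    unfold gg
    have h2 := C_nn (min Q.card (X \ Q).card)
    linarith
  · intro Q hQ hQn hQX
    have h1 := hmain Q hQ hQn hQX
    have hRn : (X \ Q).Nonempty := by
      rw [Finset.sdiff_nonempty]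
      intro h
      exact hQX (Finset.Subset.antisymm hQ h)
    have h2 : 1 ≤ min Q.card (X \ Q).card :=
      le_min (Finset.card_pos.2 hQn) (Finset.card_pos.2 hRn)
    have h3 := C_one h2
    have h4 : (1 : ℝ) < ((cut G Q (X \ Q)).card : ℝ) := by linarith
    have h5 : 1 < (cut G Q (X \ Q)).card := by exact_mod_cast h4
    omega
  · intro Q hQ hQn h2Q
    have hq1 := Finset.card_pos.2 hQn
    have hQX : Q ≠ X := by
      rintro rfl
      omega
    have h1 := hmain Q hQ hQn hQX
    have hcard : Q.card + (X \ Q).card = X.card := by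
      rw [add_comm]; exact Finset.card_sdiff_add_card_eq_card hQ
    have hle : Q.card ≤ (X \ Q).card := by omega
    rw [min_eq_left hle] at h1
    have hRn : (X \ Q).Nonempty := Finset.card_pos.1 (by omega)
    obtain ⟨c1, c2, c3⟩ := C_counts G hQ
    have t2 := hnt (X \ Q) hRn (by omega)
    have t3 := hX.2
    rw [c2] at t2
    rw [c3, ← hcard] at t3
    push_cast at t2 t3
    have g := C_gap hle
    push_cast at g
    have h0 := C_nn Q.card
    have h5 : ((cut G Q Xᶜ).card : ℝ) ≤ 2 * ((cut G Q (X \ Q)).card : ℝ) := by linarith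
    exact_mod_cast h5
  · intro Q hQ
    have h1 : (E G Q).card ≤ (Q ×ˢ Q).card := by
      refine Finset.card_le_card_of_injOn (fun e => (G.x e, G.y e)) ?_ ?_
      · intro e he
        simp only [E, coe_filter, mem_univ, true_and, Set.mem_ofPred_eq] at he
        simp only [coe_product, Set.mem_prod, mem_coe]
        exact he
      · intro e _ e' _ hee
        simp only [Prod.mk.injEq] at hee
        exact hsimple e e' (Or.inl hee)
    rw [Finset.card_product] at h1
    rw [sq]
    exact h1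

end C

end Pool.Agent.H753R2.FR
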