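import Mathlib
import Pool.Agent.H753R2.FR.Defs
set_option autoImplicit false

/-! Real flow roots are bounded: sub-configurations, first part (task D2a). -/

namespace Pool.Agent.H753R2.FR

open Finset

section D2
variable {V I : Type} [DecidableEq V] [DecidableEq I] [Fintype V] [Fintype I] (G : MG V I)

theorem D2a_mem_cut {Y T : Finset V} {e : I} : e ∈ cut G Y T ↔
    (G.x e ∈ Y ∧ G.y e ∈ T) ∨ (G.x e ∈ T ∧ G.y e ∈ Y) := by
  simp [cut]

theorem D2a_cut_comm (Y T : Finset V) : cut G Y T = cut G T Y := by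
  ext e
  rw [D2a_mem_cut, D2a_mem_cut]
  tauto

theorem D2a_cut_mono {Y Y' T T' : Finset V} (hY : Y ⊆ Y') (hT : T ⊆ T') :
    cut G Y T ⊆ cut G Y' T' := by
  intro e
  rw [D2a_mem_cut, D2a_mem_cut]
  rintro (⟨h1, h2⟩ | ⟨h1, h2⟩)
  · exact Or.inl ⟨hY h1, hT h2⟩
  · exact Or.inr ⟨hT h1, hY h2⟩

/-- counting boundary edges of a disjoint union -/
theorem cut_split {A B P : Finset V} (hAB : Disjoint A B) (hP : A ∪ B ⊆ P) :
    (cut G A (P \ A)).card + (cut G B (P \ B)).card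
      = (cut G (A ∪ B) (P \ (A ∪ B))).card + 2 * (cut G A B).card := by
  have h1 : ∀ v, v ∈ A → v ∉ B := fun v hv hv' => disjoint_left.1 hAB hv hv'
  have h2 : ∀ v, v ∈ A → v ∈ P := fun v hv => hP (mem_union_left _ hv)
  have h3 : ∀ v, v ∈ B → v ∈ P := fun v hv => hP (mem_union_right _ hv)
  unfold cut
  rw [card_filter, card_filter, card_filter, card_filter, ← sum_add_distrib, mul_sum,
    ← sum_add_distrib]
  refine sum_congr rfl fun e _ => ?_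
  have a1 := h1 (G.x e)
  have a2 := h2 (G.x e)
  have a3 := h3 (G.x e)
  have b1 := h1 (G.y e)
  have b2 := h2 (G.y e)
  have b3 := h3 (G.y e)
  simp only [mem_sdiff, mem_union]
  by_cases c1 : G.x e ∈ A <;> by_cases c2 : G.x e ∈ B <;> by_cases c3 : G.x e ∈ P <;>
    by_cases d1 : G.y e ∈ A <;> by_cases d2 : G.y e ∈ B <;> by_cases d3 : G.y e ∈ P <;>
    simp_all

/-- no edges between `Z` and the dead set -/
theorem cut_dead {X D Δ K W Z : Finset V} (h : Cfg G X D Δ K W) (hZ : Z ⊆ D \ K) :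
    cut G Z ((D \ Z) ∪ Δ) = cut G Z (D \ Z) := by
  have hd : ∀ e, ¬ ((G.x e ∈ Δ ∧ G.y e ∈ D \ K) ∨ (G.x e ∈ D \ K ∧ G.y e ∈ Δ)) := by
    intro e he
    have := (D2a_mem_cut G (Y := Δ) (T := D \ K)).2 he
    rw [h.dead] at this
    simp at this
  ext e
  rw [D2a_mem_cut, D2a_mem_cut, mem_union, mem_union]
  have h1 := hd e
  have h2 := @hZ (G.x e)
  have h3 := @hZ (G.y e)
  tauto

theorem cfg_Z {X D Δ K W Z WZ : Finset V} {z₀ : V} (h : Cfg G X D Δ K W) (hZ : Z ⊆ D \ K)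
    (hz₀ : z₀ ∈ WZ) (hWZ : (W ∩ Z) ∪ ends G Z (D \ Z) ⊆ WZ) (hWZ' : WZ ⊆ Z)
    (hc : Kconn G Z {z₀}) : Cfg G X Z ∅ {z₀} WZ := by
  have hZD : Z ⊆ D := fun z hz => (mem_sdiff.1 (hZ hz)).1
  have key : ∀ (e : I) (a b : V), ((G.x e = a ∧ G.y e = b) ∨ (G.x e = b ∧ G.y e = a)) →
      a ∈ Z \ WZ → b ∈ X \ (Z ∪ ∅) → False := by
    intro e a b hab ha hb
    rw [mem_sdiff] at ha hb
    rw [union_empty] at hb
    have haW : a ∉ W := fun hw => ha.2 (hWZ (mem_union_left _ (mem_inter.2 ⟨hw, ha.1⟩)))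
    have haD := mem_sdiff.1 (hZ ha.1)
    by_cases hbD : b ∈ D
    · apply ha.2
      apply hWZ
      apply mem_union_right
      unfold ends
      rw [mem_filter]
      refine ⟨ha.1, e, ?_, ?_⟩
      · rw [D2a_mem_cut, mem_sdiff, mem_sdiff]
        rcases hab with ⟨h1, h2⟩ | ⟨h1, h2⟩
        · left; rw [h1, h2]; exact ⟨ha.1, hbD, hb.2⟩
        · right; rw [h1, h2]; exact ⟨⟨hbD, hb.2⟩, ha.1⟩
      · rcases hab with ⟨h1, h2⟩ | ⟨h1, h2⟩
        · exact Or.inl h1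
        · exact Or.inr h2
    · by_cases hbΔ : b ∈ Δ
      · have : e ∈ cut G Δ (D \ K) := by
          rw [D2a_mem_cut]
          rcases hab with ⟨h1, h2⟩ | ⟨h1, h2⟩
          · right; rw [h1, h2]; exact ⟨hZ ha.1, hbΔ⟩
          · left; rw [h1, h2]; exact ⟨hbΔ, hZ ha.1⟩
        rw [h.dead] at this
        simp at this
      · have : e ∈ cut G (D \ W) (X \ (D ∪ Δ)) := by
          rw [D2a_mem_cut, mem_sdiff, mem_sdiff, mem_sdiff, mem_sdiff, mem_union, mem_union]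
          rcases hab with ⟨h1, h2⟩ | ⟨h1, h2⟩
          · left; rw [h1, h2]; exact ⟨⟨haD.1, haW⟩, hb.1, by tauto⟩
          · right; rw [h1, h2]; exact ⟨⟨hb.1, by tauto⟩, haD.1, haW⟩
        rw [h.bdry] at this
        simp at this
  refine ⟨hZD.trans h.hD, empty_subset _, disjoint_empty_right _, ?_, hWZ', singleton_nonempty _,
    hc, ?_, ?_⟩
  · rw [singleton_subset_iff]
    exact hz₀
  · ext e
    rw [D2a_mem_cut]
    simp
  · rw [eq_empty_iff_forall_notMem]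
    intro e he
    rw [D2a_mem_cut] at he
    rcases he with ⟨h1, h2⟩ | ⟨h1, h2⟩
    · exact key e _ _ (Or.inl ⟨rfl, rfl⟩) h1 h2
    · exact key e _ _ (Or.inr ⟨rfl, rfl⟩) h2 h1

theorem cfg_T {X D Δ K W Z WT : Finset V} (h : Cfg G X D Δ K W) (hZ : Z ⊆ D \ K)
    (hWT : (W \ Z) ∪ ends G (D \ Z) Z ⊆ WT) (hWT' : WT ⊆ D \ Z)
    (hc : Kconn G (D \ Z) K) : Cfg G X (D \ Z) Δ K WT := by
  have key : ∀ (e : I) (a b : V), ((G.x e = a ∧ G.y e = b) ∨ (G.x e = b ∧ G.y e = a)) →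
      a ∈ (D \ Z) \ WT → b ∈ X \ ((D \ Z) ∪ Δ) → False := by
    intro e a b hab ha hb
    rw [mem_sdiff, mem_sdiff] at ha
    rw [mem_sdiff, mem_union, mem_sdiff] at hb
    have haW : a ∉ W := fun hw => ha.2 (hWT (mem_union_left _ (mem_sdiff.2 ⟨hw, ha.1.2⟩)))
    by_cases hbD : b ∈ D
    · have hbZ : b ∈ Z := by tauto
      apply ha.2
      apply hWT
      apply mem_union_right
      unfold ends
      rw [mem_filter]
      refine ⟨mem_sdiff.2 ha.1, e, ?_, ?_⟩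
      · rw [D2a_mem_cut, mem_sdiff, mem_sdiff]
        rcases hab with ⟨h1, h2⟩ | ⟨h1, h2⟩
        · left; rw [h1, h2]; exact ⟨ha.1, hbZ⟩
        · right; rw [h1, h2]; exact ⟨hbZ, ha.1⟩
      · rcases hab with ⟨h1, h2⟩ | ⟨h1, h2⟩
        · exact Or.inl h1
        · exact Or.inr h2
    · have : e ∈ cut G (D \ W) (X \ (D ∪ Δ)) := by
        rw [D2a_mem_cut, mem_sdiff, mem_sdiff, mem_sdiff, mem_sdiff, mem_union, mem_union]
        rcases hab with ⟨h1, h2⟩ | ⟨h1, h2⟩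
        · left; rw [h1, h2]; exact ⟨⟨ha.1.1, haW⟩, hb.1, by tauto⟩
        · right; rw [h1, h2]; exact ⟨⟨hb.1, by tauto⟩, ha.1.1, haW⟩
      rw [h.bdry] at this
      simp at this
  refine ⟨sdiff_subset.trans h.hD, h.hΔ, ?_, ?_, hWT', h.hK, hc, ?_, ?_⟩
  · exact disjoint_of_subset_left sdiff_subset h.disj
  · intro k hk
    apply hWT
    apply mem_union_left
    rw [mem_sdiff]
    exact ⟨h.hKW hk, fun hz => (mem_sdiff.1 (hZ hz)).2 hk⟩
  · rw [← subset_empty, ← h.dead]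
    exact D2a_cut_mono G (Subset.refl _) (sdiff_subset_sdiff sdiff_subset (Subset.refl _))
  · rw [eq_empty_iff_forall_notMem]
    intro e he
    rw [D2a_mem_cut] at he
    rcases he with ⟨h1, h2⟩ | ⟨h1, h2⟩
    · exact key e _ _ (Or.inl ⟨rfl, rfl⟩) h1 h2
    · exact key e _ _ (Or.inr ⟨rfl, rfl⟩) h2 h1

/-- reference sets in the piece case -/
theorem ref_P {X D Δ K W Z : Finset V} {u : V} (s₁ : ℕ) (h : Cfg G X D Δ K W) (hZ : Z ⊆ D \ K)
    (hu : u ∈ Z)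
    (h2 : ∀ Z', Z' ⊆ D \ K → Z'.Nonempty → 2 ≤ (cut G Z' (D \ Z')).card) :
    (Ref G X Z ∅ {u} (D ∪ Δ) s₁ 0 ∧
      (cut G (Z ∪ ∅) ((D ∪ Δ) \ (Z ∪ ∅))).card = (cut G Z (D \ Z)).card) ∧
    (Ref G X (D \ Z) Δ K (D ∪ Δ) s₁ 0 ∧
      (cut G ((D \ Z) ∪ Δ) ((D ∪ Δ) \ ((D \ Z) ∪ Δ))).card = (cut G Z (D \ Z)).card) := by
  have hZD : Z ⊆ D := fun z hz => (mem_sdiff.1 (hZ hz)).1
  have hdis : ∀ v, v ∈ D → v ∉ Δ := fun v h1 h2 => disjoint_left.1 h.disj h1 h2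
  have hbig : ∀ Z', Z' ⊆ D \ K → Z'.Nonempty → 2 ≤ (cut G Z' ((D ∪ Δ) \ Z')).card := by
    intro Z' h1 h3
    refine (h2 Z' h1 h3).trans (card_le_card (D2a_cut_mono G (Subset.refl _) ?_))
    exact sdiff_subset_sdiff subset_union_left (Subset.refl _)
  have e1 : (D ∪ Δ) \ Z = (D \ Z) ∪ Δ := by
    ext v
    have := hdis v
    have := @hZD v
    simp only [mem_sdiff, mem_union]
    tauto
  have e2 : (D ∪ Δ) \ ((D \ Z) ∪ Δ) = Z := by
    ext v
    have := hdis v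
    have := @hZD v
    simp only [mem_sdiff, mem_union]
    tauto
  refine ⟨⟨⟨union_subset h.hD h.hΔ, ?_, ?_, ?_⟩, ?_⟩, ⟨⟨union_subset h.hD h.hΔ, ?_, ?_, ?_⟩, ?_⟩⟩
  · rw [union_empty]
    exact hZD.trans subset_union_left
  · intro Z' h1 h3 _
    exact hbig Z' (h1.trans (sdiff_subset.trans hZ)) h3
  · intro _ T h1 h3 _ _
    rw [union_empty]
    exact hbig T (h3.trans hZ) ⟨u, h1 (mem_singleton_self u)⟩
  · rw [union_empty, e1, cut_dead G h hZ]
  · exact union_subset_union sdiff_subset (Subset.refl _)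
  · intro Z' h1 h3 _
    exact hbig Z' (h1.trans (sdiff_subset_sdiff sdiff_subset (Subset.refl _))) h3
  · intro _ T h1 h3 h4 _
    have hTD : T ⊆ D := h3.trans sdiff_subset
    have e3 : (D ∪ Δ) \ (T ∪ Δ) = D \ T := by
      ext v
      have := hdis v
      simp only [mem_sdiff, mem_union]
      tauto
    have e4 : T = D \ (D \ T) := by
      ext v
      have := @hTD v
      simp only [mem_sdiff]
      tauto
    have hs : D \ T ⊆ D \ K := sdiff_subset_sdiff (Subset.refl _) h1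
    rw [e3, D2a_cut_comm]
    have h5 := h2 (D \ T) hs ⟨u, mem_sdiff.2 ⟨hZD hu, fun h6 => (mem_sdiff.1 (h3 h6)).2 hu⟩⟩
    rw [← cut_dead G h hs, ← e4] at h5
    exact h5
  · rw [e2, D2a_cut_comm, cut_dead G h hZ]

/-- reference sets in the cheap cut case -/
theorem ref_C {X D Δ K W Z P : Finset V} {z₀ : V} {s₁ φ : ℕ} (h : Cfg G X D Δ K W)
    (hP : Ref G X D Δ K P s₁ φ) (hZ : Z ⊆ D \ K) (hz₀ : z₀ ∈ Z) :
    Ref G X Z ∅ {z₀} P s₁ 0 ∧ Ref G X (D \ Z) Δ K P s₁ φ ∧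
    (cut G (Z ∪ ∅) (P \ (Z ∪ ∅))).card + (cut G ((D \ Z) ∪ Δ) (P \ ((D \ Z) ∪ Δ))).card
      = (cut G (D ∪ Δ) (P \ (D ∪ Δ))).card + 2 * (cut G Z (D \ Z)).card := by
  have hZD : Z ⊆ D := fun z hz => (mem_sdiff.1 (hZ hz)).1
  have hdis : ∀ v, v ∈ D → v ∉ Δ := fun v h1 h2 => disjoint_left.1 h.disj h1 h2
  refine ⟨⟨hP.hPX, ?_, ?_, ?_⟩, ⟨hP.hPX, ?_, ?_, ?_⟩, ?_⟩
  · rw [union_empty]
    exact hZD.trans (subset_union_left.trans hP.hDP)
  · intro Z' h1 h3 h4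
    exact hP.free Z' (h1.trans (sdiff_subset.trans hZ)) h3 h4
  · intro _ T h1 h3 _ h5
    rw [union_empty] at h5 ⊢
    exact hP.free T (h3.trans hZ) ⟨z₀, h1 (mem_singleton_self z₀)⟩ h5
  · exact (union_subset_union sdiff_subset (Subset.refl _)).trans hP.hDP
  · intro Z' h1 h3 h4
    exact hP.free Z' (h1.trans (sdiff_subset_sdiff sdiff_subset (Subset.refl _))) h3 h4
  · intro hφ T h1 h3 _ h5
    refine hP.root hφ T h1 (h3.trans sdiff_subset) ?_ h5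
    rintro rfl
    exact (mem_sdiff.1 (h3 (hZD hz₀))).2 hz₀
  · have e1 : Z ∪ ((D \ Z) ∪ Δ) = D ∪ Δ := by
      ext v
      have := @hZD v
      simp only [mem_sdiff, mem_union]
      tauto
    have hd : Disjoint Z ((D \ Z) ∪ Δ) := by
      rw [disjoint_left]
      intro v hv hv'
      rw [mem_union, mem_sdiff] at hv'
      rcases hv' with h1 | h1
      · exact h1.2 hv
      · exact hdis v (hZD hv) h1
    have h1 := cut_split G (P := P) hd (by rw [e1]; exact hP.hDP)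
    rw [e1, cut_dead G h hZ] at h1
    rw [union_empty]
    exact h1

end D2

end Pool.Agent.H753R2.FR
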