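import Mathlib
import Pool.Agent.H753R2.FR.DefsD
import Pool.Agent.H753R2.FR.T_C
import Pool.Agent.H753R2.FR.T_D2a
set_option autoImplicit false

/-!
Task D4: the potentials of the two levels (helper998).
-/

namespace Pool.Agent.H753R2.FR

open Finset

section D4
variable {V I : Type} [DecidableEq V] [DecidableEq I] [Fintype V] [Fintype I] (G : MG V I)

namespace TD4

/-- facts on two disjoint parts of `X` -/
theorem facts {X : Finset V} (hX : Thin G X) {R T : Finset V} (hR : R ⊆ X) (hT : T ⊆ X)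
    (hRT : Disjoint R T) (hRn : R.Nonempty) (hTn : T.Nonempty) (hc : R.card ≤ T.card) :
    ((cut G R (X \ R)).card : ℝ) + ((cut G T (X \ T)).card : ℝ) =
      ((cut G (R ∪ T) (X \ (R ∪ T))).card : ℝ) + 2 * ((cut G R T).card : ℝ) ∧
    gg R.card ≤ ((cut G R (X \ R)).card : ℝ) ∧ (2 : ℝ) ≤ ((cut G R (X \ R)).card : ℝ) ∧
    gg (R ∪ T).card + (37 / 50) * gg R.card ≤ gg R.card + gg T.card ∧ 0 ≤ gg R.card := by
  have hRX : R ≠ X := by
    rintro rfl
    obtain ⟨t, ht⟩ := hTn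
    exact Finset.disjoint_left.1 hRT (hT ht) ht
  have hTX : T ⊆ X \ R := by
    intro t ht
    rw [mem_sdiff]
    exact ⟨hT ht, fun h => Finset.disjoint_left.1 hRT h ht⟩
  refine ⟨?_, ?_, ?_, ?_, gg_nonneg _⟩
  · exact_mod_cast cut_split G hRT (union_subset hR hT)
  · have h1 := hX.iso R hR hRn hRX
    rwa [min_eq_left (hc.trans (card_le_card hTX))] at h1
  · exact_mod_cast hX.two R hR hRn hRX
  · rw [card_union_of_disjoint hRT]
    exact gg_gap hc

end TD4

theorem lev0 {X : Finset V} (hX : Thin G X) {a₀ A₀ K₀ : ℝ} (hK : 0 ≤ K₀)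
    (h : 2 * a₀ + 4 * A₀ + 4 ≤ 16 * K₀) (s₁ : ℕ) :
    Lev G X s₁ a₀ A₀ K₀ a₀ A₀ (2 * K₀) (Q0 G X K₀) (fun _ => 0)
      (fun S => 2 * S.card ≤ X.card) := by
  have hne : ∀ S : Finset V, 2 * S.card ≤ X.card → S ≠ X := by
    rintro S hS rfl
    have := hX.two_le
    omega
  refine ⟨?_, hne, ?_, fun _ => le_rfl, ?_, ?_, ?_⟩
  · intro S T hS hTS _ _
    have := card_le_card hTS
    show 2 * T.card ≤ X.card
    have hS' : 2 * S.card ≤ X.card := hS
    omega
  · intro S hS hSX hSn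
    have h1 := hX.iso S hSX hSn (hne S hS)
    have h2 : S.card ≤ (X \ S).card := by
      rw [card_sdiff_of_subset hSX]
      have hS' : 2 * S.card ≤ X.card := hS
      omega
    rw [min_eq_left h2] at h1
    have h3 := gg_nonneg S.card
    unfold Q0
    apply mul_nonneg hK
    linarith
  · intro R T hR hT hRT hRn hTn hc
    obtain ⟨f1, f2, f3, f4, f5⟩ := TD4.facts G hX hR hT hRT hRn hTn hc
    unfold Q0
    have h1 : 0 ≤ K₀ * (gg R.card + gg T.card - gg (R ∪ T).card) :=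
      mul_nonneg hK (by linarith)
    have h2 : K₀ * ((cut G R (X \ R)).card : ℝ) + K₀ * ((cut G T (X \ T)).card : ℝ) =
      K₀ * ((cut G (R ∪ T) (X \ (R ∪ T))).card : ℝ) + K₀ * (2 * ((cut G R T).card : ℝ)) := by
      rw [← mul_add, f1, mul_add]
    linarith
  · intro R T hR hT hRT hRn hTn hc hcut
    obtain ⟨f1, f2, f3, f4, f5⟩ := TD4.facts G hX hR hT hRT hRn hTn hc
    unfold Q0
    have h1 : 0 ≤ K₀ * (gg T.card + gg R.card - gg (R ∪ T).card - 37 / 50 * gg R.card) :=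
      mul_nonneg hK (by linarith)
    have h2 : K₀ * ((cut G R (X \ R)).card : ℝ) + K₀ * ((cut G T (X \ T)).card : ℝ) =
      K₀ * ((cut G (R ∪ T) (X \ (R ∪ T))).card : ℝ) + K₀ * (2 * ((cut G R T).card : ℝ)) := by
      rw [← mul_add, f1, mul_add]
    have h3 : (2 * a₀ + 4 * A₀ + 4) * ((cut G R T).card : ℝ) ≤
        16 * K₀ * ((cut G R T).card : ℝ) := mul_le_mul_of_nonneg_right h (Nat.cast_nonneg _)
    have h4 : 0 ≤ K₀ * (gg R.card / 50 - ((cut G R T).card : ℝ)) :=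
      mul_nonneg hK (by linarith)
    have h5 : 0 ≤ K₀ * gg R.card := mul_nonneg hK f5
    linarith
  · intro R T hR hT hRT hRn hTn hc hcut
    obtain ⟨f1, f2, f3, f4, f5⟩ := TD4.facts G hX hR hT hRT hRn hTn hc
    unfold Q0
    rw [hcut] at f1
    have h1 : 0 ≤ K₀ * (1 - ((cut G T (X \ T)).card : ℝ) + gg T.card / 2 +
        ((cut G (R ∪ T) (X \ (R ∪ T))).card : ℝ) - gg (R ∪ T).card / 2) := by
      apply mul_nonneg hK
      push_cast at f1
      linarith
    linarith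

theorem lev1 {X : Finset V} (hX : Thin G X) {a₀ A₀ K₀ a A K₁ : ℝ} (ha₀ : 0 ≤ a₀) (hK : 0 ≤ K₀)
    (ha : 0 ≤ a) (hA : 0 ≤ A)
    (h : K₀ + 2 * (a₀ + 1) + (2 * a + 4 * A + 4) / 50 ≤ (24 / 25) * K₁) (s₁ : ℕ) :
    Lev G X s₁ a₀ A₀ K₀ a A (2 * K₁) (Q1 G X K₁) (fun S => 2 * ((cut G S (X \ S)).card : ℝ))
      (fun S => S ≠ X ∧ S ⊆ X) := by
  have hK1 : 0 ≤ K₁ := by linarith
  refine ⟨?_, fun S hS => hS.1, ?_, fun S => by positivity, ?_, ?_, ?_⟩
  · intro S T hS hTS _ hTX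
    refine ⟨?_, hTX⟩
    rintro rfl
    exact hS.1 (Subset.antisymm hS.2 hTS)
  · intro S _ _ _
    unfold Q1
    positivity
  · intro R T hR hT hRT hRn hTn hc
    obtain ⟨f1, f2, f3, f4, f5⟩ := TD4.facts G hX hR hT hRT hRn hTn hc
    unfold Q0 Q1
    have h2 : K₁ * ((cut G R (X \ R)).card : ℝ) + K₁ * ((cut G T (X \ T)).card : ℝ) =
      K₁ * ((cut G (R ∪ T) (X \ (R ∪ T))).card : ℝ) + K₁ * (2 * ((cut G R T).card : ℝ)) := by
      rw [← mul_add, f1, mul_add]
    have h5 : 0 ≤ K₀ * gg R.card := mul_nonneg hK f5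
    have h6 : 0 ≤ (K₁ - K₀ - 2 * (a₀ + 1)) * ((cut G R (X \ R)).card : ℝ) :=
      mul_nonneg (by linarith) (by linarith)
    linarith
  · intro R T hR hT hRT hRn hTn hc hcut
    obtain ⟨f1, f2, f3, f4, f5⟩ := TD4.facts G hX hR hT hRT hRn hTn hc
    unfold Q0 Q1
    have h2 : K₁ * ((cut G R (X \ R)).card : ℝ) + K₁ * ((cut G T (X \ T)).card : ℝ) =
      K₁ * ((cut G (R ∪ T) (X \ (R ∪ T))).card : ℝ) + K₁ * (2 * ((cut G R T).card : ℝ)) := by
      rw [← mul_add, f1, mul_add]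
    have h5 : 0 ≤ K₀ * gg R.card := mul_nonneg hK f5
    have h6 : 0 ≤ ((24 / 25) * K₁ - K₀ - 2 * (a₀ + 1) - (2 * a + 4 * A + 4) / 50) *
        ((cut G R (X \ R)).card : ℝ) := mul_nonneg (by linarith) (by linarith)
    have h7 : ((cut G R T).card : ℝ) ≤ ((cut G R (X \ R)).card : ℝ) / 50 := by linarith
    have h8 : 0 ≤ (2 * a + 4 * A + 4 + 2 * K₁) *
        (((cut G R (X \ R)).card : ℝ) / 50 - ((cut G R T).card : ℝ)) :=
      mul_nonneg (by linarith) (by linarith)
    linarith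
  · intro R T hR hT hRT hRn hTn hc hcut
    obtain ⟨f1, f2, f3, f4, f5⟩ := TD4.facts G hX hR hT hRT hRn hTn hc
    unfold Q1
    rw [hcut] at f1
    push_cast at f1
    have h1 : 0 ≤ K₁ * (((cut G (R ∪ T) (X \ (R ∪ T))).card : ℝ) -
        ((cut G T (X \ T)).card : ℝ)) := mul_nonneg hK1 (by linarith)
    linarith

/-- touched vertices of a set are at most twice its inner boundary -/
theorem legs_le {X : Finset V} (hX : Thin G X) {O : Finset I} (hO : Outer G X O) {R : Finset V}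
    (hR : R ⊆ X) (hRn : R.Nonempty) (hc : 2 * R.card ≤ X.card) :
    ((legs G O R).card : ℝ) ≤ 2 * ((cut G R (X \ R)).card : ℝ) := by
  have h1 := hX.leg R hR hRn hc
  have h2 : (legs G O R).card ≤ (cut G R Xᶜ).card := by
    have h3 : legs G O R ⊆ (cut G R Xᶜ).image (fun e => if G.x e ∈ R then G.x e else G.y e) := by
      intro v hv
      unfold legs at hv
      rw [mem_filter] at hv
      obtain ⟨hvR, e, he, hev⟩ := hv
      have h4 := hO e he
      rw [mem_image]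
      rcases hev with hev | hev
      · refine ⟨e, ?_, ?_⟩
        · simp only [cut, mem_filter, mem_univ, true_and, mem_compl]
          left
          rw [hev]
          refine ⟨hvR, fun h5 => h4 ⟨?_, h5⟩⟩
          rw [hev]
          exact hR hvR
        · rw [hev, if_pos hvR]
      · have h6 : G.x e ∉ X := fun h5 => h4 ⟨h5, by rw [hev]; exact hR hvR⟩
        refine ⟨e, ?_, ?_⟩
        · simp only [cut, mem_filter, mem_univ, true_and, mem_compl]
          right
          rw [hev]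
          exact ⟨h6, hvR⟩
        · rw [if_neg (fun h5 => h6 (hR h5)), hev]
    exact (card_le_card h3).trans card_image_le
  have h3 : (legs G O R).card ≤ 2 * (cut G R (X \ R)).card := h2.trans h1
  exact_mod_cast h3

end D4

end Pool.Agent.H753R2.FR
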