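import Mathlib
import Pool.Agent.H753R2.FR.Defs
import Pool.Agent.H753R2.FR.T_A1
import Pool.Agent.H753R2.FR.T_A2
set_option autoImplicit false

/-!
Task A3: the product bound.
-/

namespace Pool.Agent.H753R2.FR

open Finset

section A3
variable {V I : Type} [DecidableEq V] [DecidableEq I] [Fintype V] [Fintype I] (G : MG V I) (q : ℝ)

private theorem a3_supp_sup {U : Set V} {s t : Setoid V} (hs : Supp U s) (ht : Supp U t) :
    Supp U (s ⊔ t) := by
  let z : Setoid V :=
    { r := fun a b => a = b ∨ (a ∈ U ∧ b ∈ U)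
      iseqv := by
        refine ⟨fun a => Or.inl rfl, ?_, ?_⟩
        · rintro a b (h | h)
          · exact Or.inl h.symm
          · exact Or.inr ⟨h.2, h.1⟩
        · rintro a b c (h | h) (h' | h')
          · exact Or.inl (h.trans h')
          · exact Or.inr (by rw [h]; exact h')
          · exact Or.inr (by rw [← h']; exact h)
          · exact Or.inr ⟨h.1, h'.2⟩ }
  have h1 : s ⊔ t ≤ z := sup_le (fun a b h => hs a b h) (fun a b h => ht a b h)
  exact fun a b h => h1 h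

private theorem a3_supp_mono {U U' : Set V} (h : U ⊆ U') {s : Setoid V} (hs : Supp U s) :
    Supp U' s := fun a b hab => (hs a b hab).imp id fun h1 => ⟨h h1.1, h h1.2⟩

private theorem a3_supp_mg {U : Set V} {K : Finset V} (h : ∀ v ∈ K, v ∈ U) : Supp U (mg K) :=
  fun a b hab => by
    rcases hab with hab | hab
    · exact Or.inl hab
    · exact Or.inr ⟨h a hab.1, h b hab.2⟩

private theorem a3_supp_free {r : Setoid V} {Z : Finset V} :
    Free r Z ↔ Supp ({v | v ∉ Z} : Set V) r := by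
  constructor
  · intro h a b hab
    by_cases hne : a = b
    · exact Or.inl hne
    · refine Or.inr ⟨fun ha => hne (h a ha b hab), fun hb => hne (h b hb a (r.symm hab)).symm⟩
  · intro h a ha b hab
    rcases h a b hab with h1 | ⟨h1, _⟩
    · exact h1
    · exact absurd ha h1

private theorem a3_mg_mono {K K' : Finset V} (h : K ⊆ K') : mg K ≤ mg K' := by
  intro a b hab
  rcases hab with hab | hab
  · exact Or.inl hab
  · exact Or.inr ⟨h hab.1, h hab.2⟩

theorem pb2_symm {O : Finset I} {D₁ K₁ W₁ D₂ K₂ W₂ : Finset V} {β : ℝ}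
    (h : PB2 G q O D₁ K₁ W₁ D₂ K₂ W₂ β) : PB2 G q O D₂ K₂ W₂ D₁ K₁ W₁ β := by
  intro r h1 h2 h3 h4 F hF κ hκ
  have hκ' : κ = q ∨ (κ = 1 ∧ ∃ k₁ ∈ W₁, ∃ k₂ ∈ W₂, r k₁ k₂) := by
    rcases hκ with hκ | ⟨hκ, k1, hk1, k2, hk2, hk⟩
    · exact Or.inl hκ
    · exact Or.inr ⟨hκ, k2, hk2, k1, hk1, r.symm hk⟩
  have key := h r h2 h1 h4 h3 (fun s t => F t s) (fun s t => hF t s) κ hκ'
  rw [Finset.sum_comm] at key
  rw [Finset.union_comm W₂ W₁, Finset.union_comm (E G D₂) (E G D₁)]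
  refine le_trans (le_of_eq ?_) key
  congr 1
  refine Finset.sum_congr rfl fun A _ => Finset.sum_congr rfl fun B _ => ?_
  rw [sup_right_comm r, mul_comm (wt q (E G D₂) A)]

private theorem a3_count {r s : Setoid V} {WR WT : Finset V} (hs : s ≤ mg WR) {k₁ k₂ : V}
    (hk₁ : k₁ ∈ WR) (hk₂ : k₂ ∈ WT) :
    cl (r ⊔ s ⊔ mg WT) + cl (mg WR) ≤ cl (r ⊔ mg (WR ∪ WT)) + cl s + 1 ∧
      (r k₁ k₂ → cl (r ⊔ s ⊔ mg WT) + cl (mg WR) ≤ cl (r ⊔ mg (WR ∪ WT)) + cl s) := by
  have hsub1 : mg WR ≤ mg (WR ∪ WT) := a3_mg_mono Finset.subset_union_left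
  have hsub2 : mg WT ≤ mg (WR ∪ WT) := a3_mg_mono Finset.subset_union_right
  have hpr : pr k₁ k₂ ≤ mg (WR ∪ WT) := by
    rw [pr_le_iff]
    exact Or.inr ⟨Finset.mem_union_left _ hk₁, Finset.mem_union_right _ hk₂⟩
  have heq : mg WR ⊔ mg WT ⊔ pr k₁ k₂ = mg (WR ∪ WT) := by
    refine le_antisymm (sup_le (sup_le hsub1 hsub2) hpr) ?_
    rw [mg_le_iff]
    set z := mg WR ⊔ mg WT ⊔ pr k₁ k₂ with hz
    have z1 : mg WR ≤ z := le_sup_left.trans le_sup_left
    have z2 : mg WT ≤ z := le_sup_right.trans le_sup_left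
    have z3 : z k₁ k₂ := (le_sup_right : pr k₁ k₂ ≤ z) (Or.inr ⟨Or.inl rfl, Or.inr rfl⟩)
    have hk : ∀ a ∈ WR ∪ WT, z a k₁ := by
      intro a ha
      rcases Finset.mem_union.1 ha with h | h
      · exact z1 (Or.inr ⟨h, hk₁⟩)
      · exact z.trans (z2 (Or.inr ⟨h, hk₂⟩)) (z.symm z3)
    intro a ha b hb
    exact z.trans (hk a ha) (z.symm (hk b hb))
  constructor
  · have e1 := cl_submod (a := s ⊔ mg WT) (b := mg (WR ∪ WT)) (sup_le (hs.trans hsub1) hsub2) r
    have e2 := cl_submod (a := s) (b := mg WR) hs (mg WT)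
    have e3 := a1_cl_le_succ (mg WR ⊔ mg WT) k₁ k₂
    rw [heq] at e3
    have e4 : s ⊔ mg WT ⊔ r = r ⊔ s ⊔ mg WT := by
      rw [sup_comm (s ⊔ mg WT) r, sup_assoc]
    rw [e4, sup_comm (mg (WR ∪ WT)) r] at e1
    omega
  · intro hr
    have hprr : pr k₁ k₂ ≤ r := pr_le_iff.2 hr
    have e1 := cl_submod (a := s ⊔ mg WT ⊔ pr k₁ k₂) (b := mg (WR ∪ WT))
      (sup_le (sup_le (hs.trans hsub1) hsub2) hpr) r
    have e2 := cl_submod (a := s) (b := mg WR) hs (mg WT ⊔ pr k₁ k₂)
    have e4 : s ⊔ mg WT ⊔ pr k₁ k₂ ⊔ r = r ⊔ s ⊔ mg WT := by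
      rw [sup_assoc (s ⊔ mg WT), sup_eq_right.2 hprr, sup_comm (s ⊔ mg WT) r, sup_assoc]
    rw [e4, sup_comm (mg (WR ∪ WT)) r] at e1
    rw [← sup_assoc, ← sup_assoc, heq] at e2
    omega

/-- `R` is resolved (bound without outer edges, all touched vertices special) -/
theorem pb (hq : 1 < q) (hH : Hyp G q) {O : Finset I} {R KR WR T KT WT : Finset V} {ρR ρT : ℝ}
    (hRT : Disjoint R T) (hKR : KR ⊆ WR) (hWR : WR ⊆ R) (hKT : KT ⊆ WT) (hWT : WT ⊆ T)
    (hKR' : KR.Nonempty) (hKT' : KT.Nonempty)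
    (hO : Untouched G O (R \ WR)) (hOR : Disjoint O (E G R)) (hOT : Disjoint O (E G T))
    (hcard : (E G T ∪ O).card + 2 ≤ Fintype.card I)
    (hρR : 0 ≤ ρR) (hρT : 0 ≤ ρT)
    (hR : Bd G q ∅ R KR WR ρR) (hT : Bd G q O T KT WT ρT) :
    PB2 G q O R KR WR T KT WT (ρR * ρT) := by
  classical
  intro r hr1 hr2 hf1 hf2 F hF κ hκ
  have hq0 : 0 < q := by linarith
  have hRT' : ∀ v, v ∈ R → v ∈ T → False := fun v h1 h2 => Finset.disjoint_left.1 hRT h1 h2
  set U : Set V := {v | v ∉ R \ WR} with hU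
  have hUR : ∀ v, v ∈ U → v ∈ R → v ∈ WR := by
    intro v h1 h2
    by_contra h3
    exact h1 (Finset.mem_sdiff.2 ⟨h2, h3⟩)
  have hUT : ∀ v ∈ T, v ∈ U := fun v hv h => hRT' v (Finset.mem_sdiff.1 h).1 hv
  have hUWR : ∀ v ∈ WR, v ∈ U := fun v hv h => (Finset.mem_sdiff.1 h).2 hv
  have suppr : Supp U r := a3_supp_free.1 hf1
  have suppT : ∀ B, B ⊆ E G T → Supp U (conn G B) := fun B hB =>
    a3_supp_mono (fun v hv => hUT v hv) (supp_conn G hB)
  have hOU : ∀ e ∈ O, G.x e ∈ U ∧ G.y e ∈ U := fun e he => hO e he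
  have hETU : ∀ e ∈ E G T ∪ O, G.x e ∈ U ∧ G.y e ∈ U := by
    intro e he
    rcases Finset.mem_union.1 he with h | h
    · have := (Finset.mem_filter.1 h).2
      exact ⟨hUT _ this.1, hUT _ this.2⟩
    · exact hOU e h
  obtain ⟨kR, hkR⟩ := hKR'
  obtain ⟨kT, hkT⟩ := hKT'
  set rs := r ⊔ mg (WR ∪ WT) with hrs
  set M' := m G q rs (E G T ∪ O) with hM'
  have hM'0 : 0 ≤ M' := hH.nn _ _ (Or.inr fun h => by
    rw [h, Finset.card_univ] at hcard
    omega)
  have hκ0 : 0 < κ := by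
    rcases hκ with h | ⟨h, _⟩ <;> rw [h]
    · exact hq0
    · exact one_pos
  set C := ρT * κ * (q ^ cl (mg WR))⁻¹ * M' with hC
  have hC0 : 0 ≤ C := by positivity
  set g : Setoid V → ℝ := fun s => (q ^ cl s)⁻¹ *
    ∑ B ∈ (E G T).powerset, F s (pat WT (conn G B ⊔ mg KT)) *
      (wt q (E G T) B * m G q (r ⊔ s ⊔ conn G B) O) with hg
  -- the bound for `g`
  have hgb : ∀ s, s ≤ mg WR → |g s| ≤ C := by
    intro s hs
    have hfs : Free (r ⊔ s) (T \ WT) := by
      rw [a3_supp_free] at hf2 ⊢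
      refine a3_supp_sup hf2 ?_
      intro a b hab
      rcases hs hab with h | ⟨h1, h2⟩
      · exact Or.inl h
      · refine Or.inr ⟨fun h => hRT' a (hWR h1) (Finset.mem_sdiff.1 h).1,
          fun h => hRT' b (hWR h2) (Finset.mem_sdiff.1 h).1⟩
    have hb := hT (r ⊔ s) (hr2.trans le_sup_left) hfs (F s) (hF s)
    have hle : r ⊔ s ⊔ mg WT ≤ rs := by
      refine sup_le (sup_le le_sup_left ?_) ?_
      · exact (hs.trans (a3_mg_mono Finset.subset_union_left)).trans le_sup_right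
      · exact (a3_mg_mono Finset.subset_union_right).trans le_sup_right
    have hmm := m_mono G q hq hH hcard hle
    have hcls : cl (mg WR) ≤ cl s := cl_anti hs
    have hclr : cl rs ≤ cl (r ⊔ s ⊔ mg WT) := cl_anti hle
    have hpow : q ^ (cl (r ⊔ s ⊔ mg WT) - cl rs) ≤ κ * (q ^ cl s * (q ^ cl (mg WR))⁻¹) := by
      have e0 : q ^ cl s * (q ^ cl (mg WR))⁻¹ = q ^ (cl s - cl (mg WR)) := by
        rw [pow_sub₀ q hq0.ne' hcls]
      rw [e0]
      rcases hκ with h | ⟨h, k1, hk1, k2, hk2, hk⟩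
      · rw [h, ← pow_succ']
        refine pow_le_pow_right₀ hq.le ?_
        have := (a3_count (r := r) (s := s) (WR := WR) (WT := WT) hs (hKR hkR) (hKT hkT)).1
        rw [← hrs] at this
        omega
      · rw [h, one_mul]
        refine pow_le_pow_right₀ hq.le ?_
        have := (a3_count (r := r) (s := s) (WR := WR) (WT := WT) hs hk1 hk2).2 hk
        rw [← hrs] at this
        omega
    have hqs : 0 < q ^ cl s := pow_pos hq0 _
    calc |g s| = (q ^ cl s)⁻¹ * |∑ B ∈ (E G T).powerset, F s (pat WT (conn G B ⊔ mg KT)) *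
          (wt q (E G T) B * m G q (r ⊔ s ⊔ conn G B) O)| := by
            simp only [hg]
            rw [abs_mul, abs_of_pos (inv_pos.2 hqs)]
      _ ≤ (q ^ cl s)⁻¹ * (ρT * (κ * (q ^ cl s * (q ^ cl (mg WR))⁻¹) * M')) := by
            refine mul_le_mul_of_nonneg_left (hb.trans ?_) (inv_nonneg.2 hqs.le)
            refine mul_le_mul_of_nonneg_left ?_ hρT
            exact hmm.trans (mul_le_mul_of_nonneg_right hpow hM'0)
      _ = C := by
            rw [hC]
            field_simp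
  -- rewrite the sum
  set f : Setoid V → ℝ := fun s => if s ≤ mg WR then g s / C else 0 with hf
  have hf1' : ∀ s, |f s| ≤ 1 := by
    intro s
    simp only [hf]
    split_ifs with h
    · rw [abs_div, abs_of_nonneg hC0]
      exact div_le_one_of_le₀ (hgb s h) hC0
    · simp
  have hfC : ∀ s, s ≤ mg WR → g s = f s * C := by
    intro s hs
    simp only [hf]
    rw [if_pos hs]
    by_cases hC1 : C = 0
    · have := hgb s hs
      rw [hC1] at this ⊢
      rw [mul_zero]
      exact abs_nonpos_iff.1 this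
    · field_simp
  have hRb := hR (mg KR) (le_refl _) (by
    rw [a3_supp_free]
    refine a3_supp_mg fun v hv h => ?_
    exact (Finset.mem_sdiff.1 h).2 (hKR hv)) f hf1'
  have hmgsup : mg KR ⊔ mg WR = mg WR := sup_eq_right.2 (a3_mg_mono hKR)
  rw [hmgsup, Finset.union_empty] at hRb
  have hmain : ∑ A ∈ (E G R).powerset, ∑ B ∈ (E G T).powerset,
          F (pat WR (conn G A ⊔ mg KR)) (pat WT (conn G B ⊔ mg KT)) *
            (wt q (E G R) A * wt q (E G T) B * m G q (r ⊔ conn G A ⊔ conn G B) O) =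
      C * ∑ A ∈ (E G R).powerset,
          f (pat WR (conn G A ⊔ mg KR)) * (wt q (E G R) A * m G q (mg KR ⊔ conn G A) ∅) := by
    rw [Finset.mul_sum]
    refine Finset.sum_congr rfl fun A hA => ?_
    rw [Finset.mem_powerset] at hA
    set sA := conn G A ⊔ mg KR with hsA
    have hpi : pat WR sA ≤ mg WR := by
      intro a b hab
      rcases hab with h | ⟨h1, h2, _⟩
      · exact Or.inl h
      · exact Or.inr ⟨h1, h2⟩
    have hsuppA : Supp (R : Set V) sA :=
      a3_supp_sup (supp_conn G hA) (a3_supp_mg fun v hv => hWR (hKR hv))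
    have hag : AgreeOn U sA (pat WR sA) := by
      intro a ha b hb
      constructor
      · intro hab
        rcases hsuppA a b hab with h | ⟨h1, h2⟩
        · exact Or.inl h
        · exact Or.inr ⟨hUR a ha h1, hUR b hb h2, hab⟩
      · rintro (h | ⟨_, _, h⟩)
        · rw [h]
        · exact h
    have hterm : ∀ B ∈ (E G T).powerset, m G q (r ⊔ conn G A ⊔ conn G B) O =
        q ^ cl sA * ((q ^ cl (pat WR sA))⁻¹ * m G q (r ⊔ pat WR sA ⊔ conn G B) O) := by
      intro B hB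
      rw [Finset.mem_powerset] at hB
      have h1 := m_agree G q hag (a3_supp_sup suppr (suppT B hB)) hOU
      have e1 : sA ⊔ (r ⊔ conn G B) = r ⊔ conn G A ⊔ conn G B := by
        rw [hsA]
        have : mg KR ⊔ r = r := sup_eq_right.2 hr1
        rw [sup_assoc, ← sup_assoc (mg KR), this, ← sup_assoc, sup_comm (conn G A) r]
      have e2 : pat WR sA ⊔ (r ⊔ conn G B) = r ⊔ pat WR sA ⊔ conn G B := by
        rw [← sup_assoc, sup_comm (pat WR sA) r]
      rw [e1, e2] at h1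
      have hqs : q ^ cl (pat WR sA) ≠ 0 := pow_ne_zero _ hq0.ne'
      rw [← mul_assoc, mul_comm (q ^ cl sA), mul_assoc, ← h1, ← mul_assoc, inv_mul_cancel₀ hqs,
        one_mul]
    have e5 : m G q (mg KR ⊔ conn G A) ∅ = q ^ cl sA := by
      rw [m_empty, sup_comm]
    have e6 : C * (f (pat WR sA) * (wt q (E G R) A * m G q (mg KR ⊔ conn G A) ∅)) =
        g (pat WR sA) * (wt q (E G R) A * q ^ cl sA) := by
      rw [e5, hfC _ hpi]
      ring
    rw [e6]
    simp only [hg]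
    rw [Finset.mul_sum, Finset.sum_mul]
    refine Finset.sum_congr rfl fun B hB => ?_
    rw [hterm B hB]
    ring
  rw [hmain, abs_mul, abs_of_nonneg hC0]
  refine (mul_le_mul_of_nonneg_left hRb hC0).trans (le_of_eq ?_)
  -- the product formula
  have hdisj : Disjoint (E G R) (E G T ∪ O) := by
    rw [Finset.disjoint_union_right]
    refine ⟨?_, hOR.symm⟩
    rw [Finset.disjoint_left]
    intro e h1 h2
    exact hRT' _ (Finset.mem_filter.1 h1).2.1 (Finset.mem_filter.1 h2).2.1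
  have hfin : m G q rs (E G R ∪ (E G T ∪ O)) = (q ^ cl (mg WR))⁻¹ * M' * m G q (mg WR) (E G R) := by
    rw [m_union G q hdisj]
    have e7 : m G q (mg WR) (E G R) = ∑ A ∈ (E G R).powerset, wt q (E G R) A *
        q ^ cl (mg WR ⊔ conn G A) := rfl
    rw [e7, Finset.mul_sum]
    refine Finset.sum_congr rfl fun A hA => ?_
    rw [Finset.mem_powerset] at hA
    have hsuppA : Supp (R : Set V) (conn G A ⊔ mg WR) :=
      a3_supp_sup (supp_conn G hA) (a3_supp_mg fun v hv => hWR hv)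
    have hag : AgreeOn U (conn G A ⊔ mg WR) (mg WR) := by
      intro a ha b hb
      constructor
      · intro hab
        rcases hsuppA a b hab with h | ⟨h1, h2⟩
        · exact Or.inl h
        · exact Or.inr ⟨hUR a ha h1, hUR b hb h2⟩
      · intro h
        exact (le_sup_right : mg WR ≤ conn G A ⊔ mg WR) h
    have hsuppU : Supp U rs := by
      refine a3_supp_sup suppr (a3_supp_mg fun v hv => ?_)
      rcases Finset.mem_union.1 hv with h | h
      · exact hUWR v h
      · exact hUT v (hWT h)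
    have h1 := m_agree G q hag hsuppU hETU
    have hWRrs : mg WR ≤ rs := (a3_mg_mono Finset.subset_union_left).trans le_sup_right
    have e1 : conn G A ⊔ mg WR ⊔ rs = rs ⊔ conn G A := by
      rw [sup_assoc, sup_eq_right.2 hWRrs, sup_comm]
    rw [e1, sup_eq_right.2 hWRrs, sup_comm (conn G A)] at h1
    have hqs : q ^ cl (mg WR) ≠ 0 := pow_ne_zero _ hq0.ne'
    have h2 : m G q (rs ⊔ conn G A) (E G T ∪ O) =
        (q ^ cl (mg WR))⁻¹ * (q ^ cl (mg WR ⊔ conn G A) * M') := by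
      rw [hM', ← h1, ← mul_assoc, inv_mul_cancel₀ hqs, one_mul]
    rw [h2]
    ring
  rw [Finset.union_assoc, hfin, hC]
  ring

end A3

end Pool.Agent.H753R2.FR
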