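import Mathlib
import Pool.Agent.H753R2.FR.Defs
set_option autoImplicit false

/-!
Task A4: decomposition of the configurations where `u` is not joined to `K` (helper998).
-/

namespace Pool.Agent.H753R2.FR

open Finset

section A4
variable {V I : Type} [DecidableEq V] [DecidableEq I] [Fintype V] [Fintype I] (G : MG V I) (q : ℝ)

namespace TA4

omit [DecidableEq V] [DecidableEq I] [Fintype V] [Fintype I] in
theorem pr_le {r : Setoid V} {a b : V} (h : r a b) : pr a b ≤ r := by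
  rintro c d (h' | ⟨h1 | h1, h2 | h2⟩)
  · rw [h']
  · rw [h1, h2]
  · rw [h1, h2]; exact h
  · rw [h1, h2]; exact r.symm h
  · rw [h1, h2]

omit [DecidableEq V] [DecidableEq I] [Fintype V] [Fintype I] in
theorem conn_le {A : Finset I} {r : Setoid V} (h : ∀ e ∈ A, r (G.x e) (G.y e)) :
    conn G A ≤ r :=
  Finset.sup_le fun e he => pr_le (h e he)

omit [DecidableEq V] [DecidableEq I] [Fintype V] [Fintype I] in
theorem conn_edge {A : Finset I} {e : I} (he : e ∈ A) : conn G A (G.x e) (G.y e) := by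
  have h : pr (G.x e) (G.y e) ≤ conn G A :=
    Finset.le_sup (f := fun e => pr (G.x e) (G.y e)) he
  exact h (Or.inr ⟨Or.inl rfl, Or.inr rfl⟩)

/-- the equivalence relation with the two classes `C` and its complement -/
def two (C : Finset V) : Setoid V where
  r a b := (a ∈ C ↔ b ∈ C)
  iseqv := ⟨fun _ => Iff.rfl, fun h => h.symm, fun h h' => h.trans h'⟩

omit [DecidableEq V] [DecidableEq I] [Fintype V] [Fintype I] in
theorem mg_le_two {K C : Finset V} (h : Disjoint K C ∨ K ⊆ C) : mg K ≤ two C := by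
  rintro a b (h' | ⟨h1, h2⟩)
  · rw [h']
  · rcases h with h | h
    · exact ⟨fun h3 => absurd h3 (Finset.disjoint_left.1 h h1),
        fun h3 => absurd h3 (Finset.disjoint_left.1 h h2)⟩
    · exact ⟨fun _ => h h2, fun _ => h h1⟩

omit [DecidableEq V] [DecidableEq I] [Fintype V] [Fintype I] in
theorem le_two {K C : Finset V} {A : Finset I} (hK : Disjoint K C ∨ K ⊆ C)
    (hA : ∀ e ∈ A, (G.x e ∈ C ↔ G.y e ∈ C)) : conn G A ⊔ mg K ≤ two C :=
  sup_le (conn_le G hA) (mg_le_two hK)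

omit [DecidableEq V] [DecidableEq I] [Fintype V] [Fintype I] in
theorem rel_edge {K : Finset V} {A : Finset I} {e : I} (he : e ∈ A) :
    (conn G A ⊔ mg K) (G.x e) (G.y e) :=
  (le_sup_left : conn G A ≤ conn G A ⊔ mg K) (conn_edge G he)

omit [DecidableEq V] [DecidableEq I] [Fintype V] [Fintype I] in
theorem rel_K {K : Finset V} {A : Finset I} {a b : V} (ha : a ∈ K) (hb : b ∈ K) :
    (conn G A ⊔ mg K) a b :=
  (le_sup_right : mg K ≤ conn G A ⊔ mg K) (Or.inr ⟨ha, hb⟩)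

theorem mem_cut {Y T : Finset V} {e : I} : e ∈ cut G Y T ↔
    (G.x e ∈ Y ∧ G.y e ∈ T) ∨ (G.x e ∈ T ∧ G.y e ∈ Y) := by
  simp [cut]

theorem mem_E {D : Finset V} {e : I} : e ∈ E G D ↔ G.x e ∈ D ∧ G.y e ∈ D := by
  simp [E]

open Classical in
/-- the cluster of `K` -/
noncomputable def CC (D K : Finset V) (k₀ : V) (A : Finset I) : Finset V :=
  D.filter (fun v => (conn G A ⊔ mg K) v k₀)

open Classical in
/-- the piece containing `u` -/
noncomputable def YY (D K : Finset V) (u k₀ : V) (A : Finset I) : Finset V :=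
  (D \ CC G D K k₀ A).filter (fun v => conn G (E G (D \ CC G D K k₀ A)) v u)

variable {D K : Finset V} {u k₀ : V}

theorem mem_CC {A : Finset I} {v : V} :
    v ∈ CC G D K k₀ A ↔ v ∈ D ∧ (conn G A ⊔ mg K) v k₀ := by
  simp [CC]

theorem mem_YY {A : Finset I} {v : V} : v ∈ YY G D K u k₀ A ↔
    (v ∈ D ∧ v ∉ CC G D K k₀ A) ∧ conn G (E G (D \ CC G D K k₀ A)) v u := by
  simp [YY]

/-- a neighbour in `D` of `Y` which is not in `C` is in `Y` -/
theorem nbr_YY {A : Finset I} {e : I} {a b : V}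
    (hab : (G.x e = a ∧ G.y e = b) ∨ (G.x e = b ∧ G.y e = a)) (ha : a ∈ YY G D K u k₀ A)
    (hb : b ∈ D) : b ∈ YY G D K u k₀ A ∨ b ∈ CC G D K k₀ A := by
  by_cases hbC : b ∈ CC G D K k₀ A
  · exact Or.inr hbC
  left
  rw [mem_YY] at ha ⊢
  refine ⟨⟨hb, hbC⟩, ?_⟩
  have he : e ∈ E G (D \ CC G D K k₀ A) := by
    rw [mem_E, mem_sdiff, mem_sdiff]
    rcases hab with ⟨h1, h2⟩ | ⟨h1, h2⟩
    · rw [h1, h2]; exact ⟨ha.1, hb, hbC⟩
    · rw [h1, h2]; exact ⟨⟨hb, hbC⟩, ha.1⟩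
  have h3 := conn_edge G he
  rcases hab with ⟨h1, h2⟩ | ⟨h1, h2⟩
  · rw [h1, h2] at h3
    exact Setoid.trans' _ (Setoid.symm' _ h3) ha.2
  · rw [h1, h2] at h3
    exact Setoid.trans' _ h3 ha.2

theorem not_open {A : Finset I} {e : I} {a b : V}
    (hab : (G.x e = a ∧ G.y e = b) ∨ (G.x e = b ∧ G.y e = a)) (ha : a ∈ YY G D K u k₀ A)
    (hb : b ∈ D) (hbY : b ∉ YY G D K u k₀ A) : e ∉ A := by
  intro he
  have hbC : b ∈ CC G D K k₀ A := (nbr_YY G hab ha hb).resolve_left hbY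
  rw [mem_YY] at ha
  apply ha.1.2
  rw [mem_CC] at hbC ⊢
  refine ⟨ha.1.1, ?_⟩
  have h3 := rel_edge (K := K) G he
  rcases hab with ⟨h1, h2⟩ | ⟨h1, h2⟩
  · rw [h1, h2] at h3
    exact Setoid.trans' _ h3 hbC.2
  · rw [h1, h2] at h3
    exact Setoid.trans' _ (Setoid.symm' _ h3) hbC.2

/-- (1) the piece belongs to the family -/
theorem YY_mem_fam (hk₀ : k₀ ∈ K) (hKD : K ⊆ D) (hu : u ∈ D \ K) (hD : Kconn G D K)
    {A : Finset I} (hA : A ⊆ E G D) (hn : ¬ (conn G A ⊔ mg K) u k₀) :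
    YY G D K u k₀ A ∈ fam G D K u := by
  rw [mem_sdiff] at hu
  have hKC : K ⊆ CC G D K k₀ A := fun k hk => (mem_CC G).2 ⟨hKD hk, rel_K G hk hk₀⟩
  have huY : u ∈ YY G D K u k₀ A := by
    rw [mem_YY, mem_CC]
    exact ⟨⟨hu.1, fun h => hn h.2⟩, Setoid.refl' _ u⟩
  have hYD : YY G D K u k₀ A ⊆ D := fun v hv => ((mem_YY G).1 hv).1.1
  have hYK : ∀ v ∈ YY G D K u k₀ A, v ∉ K := fun v hv hk => ((mem_YY G).1 hv).1.2 (hKC hk)
  classical
  unfold fam
  rw [mem_filter, mem_powerset]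
  refine ⟨fun v hv => mem_sdiff.2 ⟨hYD hv, hYK v hv⟩, huY, ?_, ?_⟩
  · intro Z hZ hZn
    by_contra hcut
    rw [not_nonempty_iff_eq_empty] at hcut
    obtain ⟨z, hz⟩ := hZn
    have hle : conn G (E G (D \ CC G D K k₀ A)) ≤ two Z := by
      apply conn_le
      intro e he
      rw [mem_E, mem_sdiff, mem_sdiff] at he
      constructor
      · intro h1
        by_contra h2
        have h3 := (mem_sdiff.1 (hZ h1)).1
        have h4 : G.y e ∈ YY G D K u k₀ A :=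
          (nbr_YY G (Or.inl ⟨rfl, rfl⟩) h3 he.2.1).resolve_right he.2.2
        have h5 : e ∈ cut G Z (YY G D K u k₀ A \ Z) :=
          (mem_cut G).2 (Or.inl ⟨h1, mem_sdiff.2 ⟨h4, h2⟩⟩)
        rw [hcut] at h5
        exact absurd h5 (notMem_empty e)
      · intro h1
        by_contra h2
        have h3 := (mem_sdiff.1 (hZ h1)).1
        have h4 : G.x e ∈ YY G D K u k₀ A :=
          (nbr_YY G (Or.inr ⟨rfl, rfl⟩) h3 he.1.1).resolve_right he.1.2
        have h5 : e ∈ cut G Z (YY G D K u k₀ A \ Z) :=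
          (mem_cut G).2 (Or.inr ⟨mem_sdiff.2 ⟨h4, h2⟩, h1⟩)
        rw [hcut] at h5
        exact absurd h5 (notMem_empty e)
    have h6 : z ∈ Z ↔ u ∈ Z := hle ((mem_YY G).1 (mem_sdiff.1 (hZ hz)).1).2
    exact (mem_sdiff.1 (hZ (h6.1 hz))).2 (mem_singleton_self u)
  · intro Z hZ hZn
    by_contra hcut
    rw [not_nonempty_iff_eq_empty] at hcut
    have hZ' : ∀ z ∈ Z, z ∈ D ∧ z ∉ YY G D K u k₀ A ∧ z ∉ K := by
      intro z hz
      have := hZ hz
      rw [mem_sdiff, mem_sdiff] at this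
      exact ⟨this.1.1, this.1.2, this.2⟩
    -- an edge of `D` leaving `Z` goes to `Y`
    have hout : ∀ (e : I) (a b : V), ((G.x e = a ∧ G.y e = b) ∨ (G.x e = b ∧ G.y e = a)) →
        a ∈ Z → b ∈ D → b ∉ Z → b ∈ YY G D K u k₀ A := by
      intro e a b hab ha hb hbZ
      by_contra hbY
      have h5 : e ∈ cut G Z ((D \ YY G D K u k₀ A) \ Z) := by
        rw [mem_cut, mem_sdiff, mem_sdiff, mem_sdiff, mem_sdiff]
        rcases hab with ⟨h1, h2⟩ | ⟨h1, h2⟩
        · rw [h1, h2]; exact Or.inl ⟨ha, ⟨hb, hbY⟩, hbZ⟩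
        · rw [h1, h2]; exact Or.inr ⟨⟨⟨hb, hbY⟩, hbZ⟩, ha⟩
      rw [hcut] at h5
      exact absurd h5 (notMem_empty e)
    obtain ⟨e, he⟩ := hD Z (fun z hz => mem_sdiff.2 ⟨(hZ' z hz).1, (hZ' z hz).2.2⟩) hZn
    obtain ⟨a, b, hab, ha, hb⟩ : ∃ a b, ((G.x e = a ∧ G.y e = b) ∨ (G.x e = b ∧ G.y e = a)) ∧
        a ∈ Z ∧ b ∈ D \ Z := by
      rw [mem_cut] at he
      rcases he with ⟨h1, h2⟩ | ⟨h1, h2⟩
      · exact ⟨_, _, Or.inl ⟨rfl, rfl⟩, h1, h2⟩
      · exact ⟨_, _, Or.inr ⟨rfl, rfl⟩, h2, h1⟩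
    rw [mem_sdiff] at hb
    have hbY := hout e a b hab ha hb.1 hb.2
    have haC : a ∈ CC G D K k₀ A :=
      (nbr_YY G (hab.symm) hbY (hZ' a ha).1).resolve_left (hZ' a ha).2.1
    have hle : conn G A ⊔ mg K ≤ two Z := by
      apply le_two
      · left
        rw [Finset.disjoint_left]
        exact fun k hk hkZ => (hZ' k hkZ).2.2 hk
      · intro e' he'
        have h7 := (mem_E G).1 (hA he')
        constructor
        · intro h1
          by_contra h2
          have h3 := hout e' _ _ (Or.inl ⟨rfl, rfl⟩) h1 h7.2 h2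
          exact not_open G (Or.inr ⟨rfl, rfl⟩) h3 h7.1 (hZ' _ h1).2.1 he'
        · intro h1
          by_contra h2
          have h3 := hout e' _ _ (Or.inr ⟨rfl, rfl⟩) h1 h7.1 h2
          exact not_open G (Or.inl ⟨rfl, rfl⟩) h3 h7.2 (hZ' _ h1).2.1 he'
    have h6 : a ∈ Z ↔ k₀ ∈ Z := hle ((mem_CC G).1 haC).2
    exact (hZ' _ (h6.1 ha)).2.2 hk₀

/-- (2) the open edges avoid the cut, and the outer ends of the cut are joined to `K` in `A₂` -/
theorem YY_spec (hk₀ : k₀ ∈ K) (hKD : K ⊆ D) {A : Finset I} (hA : A ⊆ E G D) :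
    A = (A ∩ E G (YY G D K u k₀ A)) ∪ (A ∩ E G (D \ YY G D K u k₀ A)) ∧
    ∀ v ∈ ends G (D \ YY G D K u k₀ A) (YY G D K u k₀ A),
      (conn G (A ∩ E G (D \ YY G D K u k₀ A)) ⊔ mg K) v k₀ := by
  have hKC : K ⊆ CC G D K k₀ A := fun k hk => (mem_CC G).2 ⟨hKD hk, rel_K G hk hk₀⟩
  have hYK : ∀ v ∈ YY G D K u k₀ A, v ∉ K := fun v hv hk => ((mem_YY G).1 hv).1.2 (hKC hk)
  have hsplit : ∀ e ∈ A, (G.x e ∈ YY G D K u k₀ A ∧ G.y e ∈ YY G D K u k₀ A) ∨
      (G.x e ∉ YY G D K u k₀ A ∧ G.y e ∉ YY G D K u k₀ A) := by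
    intro e he
    have h7 := (mem_E G).1 (hA he)
    by_cases h1 : G.x e ∈ YY G D K u k₀ A
    · left
      refine ⟨h1, ?_⟩
      by_contra h2
      exact not_open G (Or.inl ⟨rfl, rfl⟩) h1 h7.2 h2 he
    · right
      refine ⟨h1, fun h2 => ?_⟩
      exact not_open G (Or.inr ⟨rfl, rfl⟩) h2 h7.1 h1 he
  refine ⟨?_, ?_⟩
  · ext e
    rw [mem_union, mem_inter, mem_inter, mem_E, mem_E, mem_sdiff, mem_sdiff]
    constructor
    · intro he
      have h7 := (mem_E G).1 (hA he)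
      rcases hsplit e he with h | h
      · exact Or.inl ⟨he, h⟩
      · exact Or.inr ⟨he, ⟨h7.1, h.1⟩, h7.2, h.2⟩
    · rintro (h | h)
      · exact h.1
      · exact h.1
  · intro v hv
    unfold ends at hv
    rw [mem_filter, mem_sdiff] at hv
    obtain ⟨⟨hvD, hvY⟩, e, he, hev⟩ := hv
    have hvC : v ∈ CC G D K k₀ A := by
      rw [mem_cut, mem_sdiff, mem_sdiff] at he
      rcases he with ⟨h1, h2⟩ | ⟨h1, h2⟩
      · rcases hev with h | h
        · rw [← h]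
          exact (nbr_YY G (Or.inr ⟨rfl, rfl⟩) h2 h1.1).resolve_left h1.2
        · rw [h] at h2; exact absurd h2 hvY
      · rcases hev with h | h
        · rw [h] at h1; exact absurd h1 hvY
        · rw [← h]
          exact (nbr_YY G (Or.inl ⟨rfl, rfl⟩) h1 h2.1).resolve_left h2.2
    -- the relation generated by `A` restricted to the outside of `Y`
    set Y := YY G D K u k₀ A with hY
    set r2 := conn G (A ∩ E G (D \ Y)) ⊔ mg K with hr2
    let s : Setoid V :=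
      { r := fun a b => (a ∈ Y ↔ b ∈ Y) ∧ (a ∉ Y → r2 a b)
        iseqv := by
          refine ⟨fun a => ⟨Iff.rfl, fun _ => r2.refl' a⟩, ?_, ?_⟩
          · rintro a b ⟨h1, h2⟩
            exact ⟨h1.symm, fun h => r2.symm' (h2 (fun h3 => h (h1.1 h3)))⟩
          · rintro a b c ⟨h1, h2⟩ ⟨h3, h4⟩
            exact ⟨h1.trans h3, fun h => r2.trans' (h2 h) (h4 fun h5 => h (h1.2 h5))⟩ }
    have hle : conn G A ⊔ mg K ≤ s := by
      apply sup_le
      · apply conn_le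
        intro e' he'
        have h7 := (mem_E G).1 (hA he')
        rcases hsplit e' he' with h | h
        · exact ⟨⟨fun _ => h.2, fun _ => h.1⟩, fun h' => absurd h.1 h'⟩
        · refine ⟨⟨fun h' => absurd h' h.1, fun h' => absurd h' h.2⟩, fun _ => ?_⟩
          apply rel_edge
          rw [mem_inter, mem_E, mem_sdiff, mem_sdiff]
          exact ⟨he', ⟨h7.1, h.1⟩, h7.2, h.2⟩
      · rintro a b (h' | ⟨h1, h2⟩)
        · rw [h']
        · refine ⟨⟨fun h => absurd h1 (hYK a h), fun h => absurd h2 (hYK b h)⟩, fun _ => ?_⟩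
          exact rel_K G h1 h2
    have h8 : s v k₀ := hle ((mem_CC G).1 hvC).2
    exact h8.2 hvY

/-- (3) the converse -/
theorem YY_eq (hk₀ : k₀ ∈ K) {Y : Finset V} (hY : Y ∈ fam G D K u) {A₁ A₂ : Finset I}
    (h₁ : A₁ ⊆ E G Y) (h₂ : A₂ ⊆ E G (D \ Y))
    (h₃ : ∀ v ∈ ends G (D \ Y) Y, (conn G A₂ ⊔ mg K) v k₀) :
    A₁ ∪ A₂ ⊆ E G D ∧ ¬ (conn G (A₁ ∪ A₂) ⊔ mg K) u k₀ ∧ YY G D K u k₀ (A₁ ∪ A₂) = Y := by
  classical
  unfold fam at hY
  rw [mem_filter, mem_powerset] at hY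
  obtain ⟨hYD, huY, hYc, -⟩ := hY
  have hYD' : ∀ v ∈ Y, v ∈ D ∧ v ∉ K := fun v hv => mem_sdiff.1 (hYD hv)
  have hle : conn G (A₁ ∪ A₂) ⊔ mg K ≤ two Y := by
    apply le_two
    · left
      rw [Finset.disjoint_left]
      exact fun k hk hkZ => (hYD' k hkZ).2 hk
    · intro e he
      rcases mem_union.1 he with he | he
      · have := (mem_E G).1 (h₁ he)
        exact ⟨fun _ => this.2, fun _ => this.1⟩
      · have := (mem_E G).1 (h₂ he)
        rw [mem_sdiff, mem_sdiff] at this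
        exact ⟨fun h => absurd h this.1.2, fun h => absurd h this.2.2⟩
  have hk₀Y : k₀ ∉ Y := fun h => (hYD' _ h).2 hk₀
  have hCY : ∀ v ∈ CC G D K k₀ (A₁ ∪ A₂), v ∉ Y := by
    intro v hv hvY
    have : v ∈ Y ↔ k₀ ∈ Y := hle ((mem_CC G).1 hv).2
    exact hk₀Y (this.1 hvY)
  have hmono : conn G A₂ ⊔ mg K ≤ conn G (A₁ ∪ A₂) ⊔ mg K :=
    sup_le_sup_right (Finset.sup_mono subset_union_right) _
  refine ⟨?_, ?_, ?_⟩
  · intro e he
    rw [mem_E]
    rcases mem_union.1 he with he | he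
    · have := (mem_E G).1 (h₁ he)
      exact ⟨(hYD' _ this.1).1, (hYD' _ this.2).1⟩
    · have := (mem_E G).1 (h₂ he)
      rw [mem_sdiff, mem_sdiff] at this
      exact ⟨this.1.1, this.2.1⟩
  · intro h
    have : u ∈ Y ↔ k₀ ∈ Y := hle h
    exact hk₀Y (this.1 huY)
  · set C := CC G D K k₀ (A₁ ∪ A₂) with hC
    apply Finset.Subset.antisymm
    · intro v hv
      rw [mem_YY] at hv
      have hle2 : conn G (E G (D \ C)) ≤ two Y := by
        apply conn_le
        intro e he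
        rw [mem_E, mem_sdiff, mem_sdiff] at he
        constructor
        · intro h1
          by_contra h2
          apply he.2.2
          rw [hC, mem_CC]
          refine ⟨he.2.1, hmono (h₃ _ ?_)⟩
          unfold ends
          rw [mem_filter, mem_sdiff]
          refine ⟨⟨he.2.1, h2⟩, e, ?_, Or.inr rfl⟩
          rw [mem_cut, mem_sdiff]
          exact Or.inr ⟨h1, mem_sdiff.2 ⟨he.2.1, h2⟩⟩
        · intro h1
          by_contra h2
          apply he.1.2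
          rw [hC, mem_CC]
          refine ⟨he.1.1, hmono (h₃ _ ?_)⟩
          unfold ends
          rw [mem_filter, mem_sdiff]
          refine ⟨⟨he.1.1, h2⟩, e, ?_, Or.inl rfl⟩
          rw [mem_cut, mem_sdiff]
          exact Or.inl ⟨⟨he.1.1, h2⟩, h1⟩
      have : v ∈ Y ↔ u ∈ Y := hle2 hv.2
      exact this.2 huY
    · intro v hv
      rw [mem_YY]
      refine ⟨⟨(hYD' v hv).1, fun h => hCY v h hv⟩, ?_⟩
      by_contra hvn
      set Z := Y.filter (fun w => ¬ conn G (E G (D \ C)) w u) with hZ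
      obtain ⟨e, he⟩ := hYc Z (by
        intro w hw
        rw [hZ, mem_filter] at hw
        rw [mem_sdiff, mem_singleton]
        refine ⟨hw.1, fun h => hw.2 ?_⟩
        rw [h]) ⟨v, by rw [hZ, mem_filter]; exact ⟨hv, hvn⟩⟩
      obtain ⟨a, b, hab, ha, hb⟩ :
          ∃ a b, ((G.x e = a ∧ G.y e = b) ∨ (G.x e = b ∧ G.y e = a)) ∧ a ∈ Z ∧ b ∈ Y \ Z := by
        rw [mem_cut] at he
        rcases he with ⟨h1, h2⟩ | ⟨h1, h2⟩
        · exact ⟨_, _, Or.inl ⟨rfl, rfl⟩, h1, h2⟩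
        · exact ⟨_, _, Or.inr ⟨rfl, rfl⟩, h2, h1⟩
      rw [hZ, mem_filter] at ha
      rw [mem_sdiff, hZ, mem_filter, not_and, not_not] at hb
      have hbu := hb.2 hb.1
      have haD : a ∈ D \ C := mem_sdiff.2 ⟨(hYD' a ha.1).1, fun h => hCY a h ha.1⟩
      have hbD : b ∈ D \ C := mem_sdiff.2 ⟨(hYD' b hb.1).1, fun h => hCY b h hb.1⟩
      apply ha.2
      rcases hab with ⟨h1, h2⟩ | ⟨h1, h2⟩
      · have h3 : conn G (E G (D \ C)) (G.x e) (G.y e) :=
          conn_edge G ((mem_E G).2 ⟨by rw [h1]; exact haD, by rw [h2]; exact hbD⟩)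
        rw [h1, h2] at h3
        exact Setoid.trans' _ h3 hbu
      · have h3 : conn G (E G (D \ C)) (G.x e) (G.y e) :=
          conn_edge G ((mem_E G).2 ⟨by rw [h1]; exact hbD, by rw [h2]; exact haD⟩)
        rw [h1, h2] at h3
        exact Setoid.trans' _ (Setoid.symm' _ h3) hbu

/-- the weights -/
theorem wt_split {Y : Finset V} (hYD : Y ⊆ D) {A₁ A₂ : Finset I}
    (h₁ : A₁ ⊆ E G Y) (h₂ : A₂ ⊆ E G (D \ Y)) :
    wt q (E G D) (A₁ ∪ A₂) =
      (-(1 / (q - 1))) ^ (cut G Y (D \ Y)).card * (wt q (E G Y) A₁ * wt q (E G (D \ Y)) A₂) := by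
  have hE : E G D = (E G Y ∪ E G (D \ Y)) ∪ cut G Y (D \ Y) := by
    ext e
    rw [mem_union, mem_union, mem_E, mem_E, mem_E, mem_cut, mem_sdiff, mem_sdiff]
    constructor
    · rintro ⟨h1, h2⟩
      by_cases h3 : G.x e ∈ Y <;> by_cases h4 : G.y e ∈ Y
      · exact Or.inl (Or.inl ⟨h3, h4⟩)
      · exact Or.inr (Or.inl ⟨h3, h2, h4⟩)
      · exact Or.inr (Or.inr ⟨⟨h1, h3⟩, h4⟩)
      · exact Or.inl (Or.inr ⟨⟨h1, h3⟩, h2, h4⟩)
    · rintro ((h | h) | (h | h))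
      · exact ⟨hYD h.1, hYD h.2⟩
      · exact ⟨h.1.1, h.2.1⟩
      · exact ⟨hYD h.1, h.2.1⟩
      · exact ⟨h.1.1, hYD h.2⟩
  have hd1 : Disjoint (E G Y) (E G (D \ Y)) := by
    rw [Finset.disjoint_left]
    intro e h1 h2
    rw [mem_E] at h1 h2
    exact (mem_sdiff.1 h2.1).2 h1.1
  have hd2 : Disjoint (E G Y ∪ E G (D \ Y)) (cut G Y (D \ Y)) := by
    rw [Finset.disjoint_left]
    intro e h1 h2
    rw [mem_cut] at h2
    rcases mem_union.1 h1 with h1 | h1
    · rw [mem_E] at h1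
      rcases h2 with h2 | h2
      · exact (mem_sdiff.1 h2.2).2 h1.2
      · exact (mem_sdiff.1 h2.1).2 h1.1
    · rw [mem_E, mem_sdiff, mem_sdiff] at h1
      rcases h2 with h2 | h2
      · exact h1.1.2 h2.1
      · exact h1.2.2 h2.2
  unfold wt
  rw [hE, prod_union hd2, prod_union hd1]
  have e1 : ∏ e ∈ E G Y, (if e ∈ A₁ ∪ A₂ then (1 + 1 / (q - 1)) else (-(1 / (q - 1)))) =
      ∏ e ∈ E G Y, (if e ∈ A₁ then (1 + 1 / (q - 1)) else (-(1 / (q - 1)))) := by
    refine prod_congr rfl fun e he => ?_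
    have : (e ∈ A₁ ∪ A₂) ↔ e ∈ A₁ := by
      rw [mem_union]
      exact ⟨fun h => h.resolve_right fun h' => (Finset.disjoint_left.1 hd1 he) (h₂ h'),
        Or.inl⟩
    simp only [this]
  have e2 : ∏ e ∈ E G (D \ Y), (if e ∈ A₁ ∪ A₂ then (1 + 1 / (q - 1)) else (-(1 / (q - 1)))) =
      ∏ e ∈ E G (D \ Y), (if e ∈ A₂ then (1 + 1 / (q - 1)) else (-(1 / (q - 1)))) := by
    refine prod_congr rfl fun e he => ?_
    have : (e ∈ A₁ ∪ A₂) ↔ e ∈ A₂ := by
      rw [mem_union]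
      exact ⟨fun h => h.resolve_left fun h' => (Finset.disjoint_left.1 hd1 (h₁ h')) he,
        Or.inr⟩
    simp only [this]
  have e3 : ∏ e ∈ cut G Y (D \ Y), (if e ∈ A₁ ∪ A₂ then (1 + 1 / (q - 1)) else (-(1 / (q - 1)))) =
      (-(1 / (q - 1))) ^ (cut G Y (D \ Y)).card := by
    rw [← prod_const]
    refine prod_congr rfl fun e he => ?_
    have : e ∉ A₁ ∪ A₂ := by
      intro h
      refine Finset.disjoint_left.1 hd2 ?_ he
      rcases mem_union.1 h with h | h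
      · exact mem_union_left _ (h₁ h)
      · exact mem_union_right _ (h₂ h)
    rw [if_neg this]
  rw [e1, e2, e3]
  ring

end TA4

open Classical in
theorem comb {D K : Finset V} {u k₀ : V} (hk₀ : k₀ ∈ K) (hKD : K ⊆ D) (hu : u ∈ D \ K)
    (hD : Kconn G D K) (φ : Finset I → ℝ) :
    ∑ A ∈ (E G D).powerset.filter (fun A => ¬ (conn G A ⊔ mg K) u k₀), wt q (E G D) A * φ A
      = ∑ Y ∈ fam G D K u, (-(1 / (q - 1))) ^ (cut G Y (D \ Y)).card *
          ∑ A ∈ (E G Y).powerset,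
            ∑ B ∈ (E G (D \ Y)).powerset.filter
              (fun B => ∀ v ∈ ends G (D \ Y) Y, (conn G B ⊔ mg K) v k₀),
                wt q (E G Y) A * wt q (E G (D \ Y)) B * φ (A ∪ B) := by
  rw [← Finset.sum_fiberwise_of_maps_to (t := fam G D K u)
    (g := fun A => TA4.YY G D K u k₀ A) (by
      intro A hA
      rw [mem_filter, mem_powerset] at hA
      exact TA4.YY_mem_fam G hk₀ hKD hu hD hA.1 hA.2)]
  refine Finset.sum_congr rfl fun Y hY => ?_
  have hYfam := hY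
  have hYD : Y ⊆ D := by
    unfold fam at hY
    rw [mem_filter, mem_powerset] at hY
    exact fun v hv => (mem_sdiff.1 (hY.1 hv)).1
  rw [← Finset.sum_product', Finset.mul_sum]
  refine Finset.sum_nbij' (fun A => (A ∩ E G Y, A ∩ E G (D \ Y))) (fun p => p.1 ∪ p.2) ?_ ?_ ?_ ?_ ?_
  · intro A hA
    rw [mem_filter, mem_filter, mem_powerset] at hA
    obtain ⟨⟨h1, h2⟩, h3⟩ := hA
    rw [mem_product, mem_powerset, mem_filter, mem_powerset]
    refine ⟨inter_subset_right, inter_subset_right, ?_⟩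
    have h4 := (TA4.YY_spec G (u := u) hk₀ hKD h1).2
    rw [h3] at h4
    exact h4
  · rintro ⟨A₁, A₂⟩ hA
    rw [mem_product, mem_powerset, mem_filter, mem_powerset] at hA
    obtain ⟨h1, h2, h3⟩ := hA
    obtain ⟨h4, h5, h6⟩ := TA4.YY_eq G hk₀ hYfam h1 h2 h3
    rw [mem_filter, mem_filter, mem_powerset]
    exact ⟨⟨h4, h5⟩, h6⟩
  · intro A hA
    rw [mem_filter, mem_filter, mem_powerset] at hA
    obtain ⟨⟨h1, h2⟩, h3⟩ := hA
    have h4 := (TA4.YY_spec G (u := u) hk₀ hKD h1).1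
    rw [h3] at h4
    exact h4.symm
  · rintro ⟨A₁, A₂⟩ hA
    rw [mem_product, mem_powerset, mem_filter, mem_powerset] at hA
    obtain ⟨h1, h2, h3⟩ := hA
    have hd1 : Disjoint (E G Y) (E G (D \ Y)) := by
      rw [Finset.disjoint_left]
      intro e h1 h2
      rw [TA4.mem_E] at h1 h2
      exact (mem_sdiff.1 h2.1).2 h1.1
    have e1 : (A₁ ∪ A₂) ∩ E G Y = A₁ := by
      rw [union_inter_distrib_right, inter_eq_left.2 h1,
        disjoint_iff_inter_eq_empty.1 ((hd1.mono_right h2).symm), union_empty]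
    have e2 : (A₁ ∪ A₂) ∩ E G (D \ Y) = A₂ := by
      rw [union_inter_distrib_right, inter_eq_left.2 h2,
        disjoint_iff_inter_eq_empty.1 (hd1.mono_left h1), empty_union]
    rw [Prod.mk.injEq]
    exact ⟨e1, e2⟩
  · intro A hA
    rw [mem_filter, mem_filter, mem_powerset] at hA
    obtain ⟨⟨h1, h2⟩, h3⟩ := hA
    have h4 := (TA4.YY_spec G (u := u) hk₀ hKD h1).1
    rw [h3] at h4
    have h5 := TA4.wt_split G q hYD (A₁ := A ∩ E G Y) (A₂ := A ∩ E G (D \ Y))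
      inter_subset_right inter_subset_right
    rw [← h4] at h5
    simp only
    rw [← h4, h5]
    ring

end A4

end Pool.Agent.H753R2.FR
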