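import Mathlib
import Pool.Agent.H753R2.FR.Defs
import Pool.Agent.H753R2.FR.T_A1
import Pool.Agent.H753R2.FR.T_A2
import Pool.Agent.H753R2.FR.T_A4
set_option autoImplicit false

/-!
Task A5: the expansion step.
-/

namespace Pool.Agent.H753R2.FR

open Finset

section A5
variable {V I : Type} [DecidableEq V] [DecidableEq I] [Fintype V] [Fintype I] (G : MG V I) (q : ℝ)

private theorem a5_supp_sup {U : Set V} {s t : Setoid V} (hs : Supp U s) (ht : Supp U t) :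
    Supp U (s ⊔ t) := by
  let z : Setoid V :=
    { r := fun a b => a = b ∨ (a ∈ U ∧ b ∈ U)
      iseqv := by
        refine ⟨fun a => Or.inl rfl, ?_, ?_⟩
        · rintro a b (h | h)
          · exact Or.inl h.symm
          · exact Or.inr ⟨h.2, h.1⟩
        · rintro a b c (h | h) (h' | h')
          · exact Or.inl (h.trans h')
          · exact Or.inr (by rw [h]; exact h')
          · exact Or.inr (by rw [← h']; exact h)
          · exact Or.inr ⟨h.1, h'.2⟩ }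
  have h1 : s ⊔ t ≤ z := sup_le (fun a b h => hs a b h) (fun a b h => ht a b h)
  exact fun a b h => h1 h

private theorem a5_supp_mono {U U' : Set V} (h : U ⊆ U') {s : Setoid V} (hs : Supp U s) :
    Supp U' s := fun a b hab => (hs a b hab).imp id fun h1 => ⟨h h1.1, h h1.2⟩

private theorem a5_supp_mg {U : Set V} {K : Finset V} (h : (K : Set V) ⊆ U) : Supp U (mg K) :=
  fun a b hab => by
    rcases hab with hab | hab
    · exact Or.inl hab
    · exact Or.inr ⟨h hab.1, h hab.2⟩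

private theorem a5_supp_pr {U : Set V} {a b : V} (ha : a ∈ U) (hb : b ∈ U) : Supp U (pr a b) := by
  intro c d h
  rcases h with h | ⟨h1, h2⟩
  · exact Or.inl h
  · refine Or.inr ⟨?_, ?_⟩
    · rcases h1 with rfl | rfl
      · exact ha
      · exact hb
    · rcases h2 with rfl | rfl
      · exact ha
      · exact hb

private theorem a5_supp_pat {W : Finset V} {s : Setoid V} : Supp (W : Set V) (pat W s) := by
  intro a b h
  rcases h with h | ⟨h1, h2, _⟩
  · exact Or.inl h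
  · exact Or.inr ⟨h1, h2⟩

private theorem a5_pat_congr {W : Finset V} {s t : Setoid V} (h : AgreeOn (W : Set V) s t) :
    pat W s = pat W t := by
  ext a b
  constructor
  · rintro (h1 | ⟨h1, h2, h3⟩)
    · exact Or.inl h1
    · exact Or.inr ⟨h1, h2, (h a h1 b h2).1 h3⟩
  · rintro (h1 | ⟨h1, h2, h3⟩)
    · exact Or.inl h1
    · exact Or.inr ⟨h1, h2, (h a h1 b h2).2 h3⟩

/-- `P` on `Y`, `Q` on `T`, an additional gluing `X` -/
private theorem a5_agree {Y T WY WT W : Finset V} (hYT : Disjoint Y T) (hWY : WY ⊆ Y)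
    (hWT : WT ⊆ T) {P Q X : Setoid V} (hP : Supp (Y : Set V) P) (hQ : Supp (T : Set V) Q)
    (hW1 : W ∩ Y ⊆ WY) (hW2 : W ∩ T ⊆ WT)
    (hX : Supp ({v | (v ∈ Y → v ∈ WY) ∧ (v ∈ T → v ∈ WT)} : Set V) X) :
    pat W (P ⊔ Q ⊔ X) = pat W (pat WY P ⊔ pat WT Q ⊔ X) := by
  have hdis : ∀ v, v ∈ Y → v ∈ T → False := fun v h1 h2 => Finset.disjoint_left.1 hYT h1 h2
  set U : Set V := {v | v ∈ Y → v ∈ WY} with hU
  set U' : Set V := {v | v ∈ T → v ∈ WT} with hU'
  have hX1 : Supp U X := a5_supp_mono (fun v hv => hv.1) hX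
  have hX2 : Supp U' X := a5_supp_mono (fun v hv => hv.2) hX
  have h1 : AgreeOn U P (pat WY P) := by
    intro a ha b hb
    constructor
    · intro hab
      rcases hP a b hab with h | ⟨h2, h3⟩
      · exact Or.inl h
      · exact Or.inr ⟨ha h2, hb h3, hab⟩
    · rintro (h | ⟨_, _, h⟩)
      · rw [h]
      · exact h
  have h2 : AgreeOn U' Q (pat WT Q) := by
    intro a ha b hb
    constructor
    · intro hab
      rcases hQ a b hab with h | ⟨h2, h3⟩
      · exact Or.inl h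
      · exact Or.inr ⟨ha h2, hb h3, hab⟩
    · rintro (h | ⟨_, _, h⟩)
      · rw [h]
      · exact h
  have h3 : AgreeOn U (P ⊔ (Q ⊔ X)) (pat WY P ⊔ (Q ⊔ X)) := by
    refine agree_sup h1 (a5_supp_sup (a5_supp_mono ?_ hQ) hX1)
    intro v hv hvY
    exact (hdis v hvY hv).elim
  have h4 : AgreeOn U' (Q ⊔ (pat WY P ⊔ X)) (pat WT Q ⊔ (pat WY P ⊔ X)) := by
    refine agree_sup h2 (a5_supp_sup (a5_supp_mono ?_ a5_supp_pat) hX2)
    intro v hv hvT
    exact (hdis v (hWY hv) hvT).elim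
  apply a5_pat_congr
  intro a ha b hb
  have haU : a ∈ U := fun h => hW1 (Finset.mem_inter.2 ⟨ha, h⟩)
  have hbU : b ∈ U := fun h => hW1 (Finset.mem_inter.2 ⟨hb, h⟩)
  have haU' : a ∈ U' := fun h => hW2 (Finset.mem_inter.2 ⟨ha, h⟩)
  have hbU' : b ∈ U' := fun h => hW2 (Finset.mem_inter.2 ⟨hb, h⟩)
  have e1 : P ⊔ Q ⊔ X = P ⊔ (Q ⊔ X) := sup_assoc _ _ _
  have e2 : pat WY P ⊔ (Q ⊔ X) = Q ⊔ (pat WY P ⊔ X) := by
    rw [← sup_assoc, ← sup_assoc, sup_comm Q]
  have e3 : pat WT Q ⊔ (pat WY P ⊔ X) = pat WY P ⊔ pat WT Q ⊔ X := by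
    rw [← sup_assoc, sup_comm (pat WT Q)]
  rw [e1, h3 a haU b hbU, e2, h4 a haU' b hbU', e3]

private theorem a5_mem_cut {Y T : Finset V} {e : I} : e ∈ cut G Y T ↔
    (G.x e ∈ Y ∧ G.y e ∈ T) ∨ (G.x e ∈ T ∧ G.y e ∈ Y) := by
  simp [cut]

/-- the edges of `D` -/
private theorem a5_E {D Y : Finset V} (hY : Y ⊆ D) :
    E G D = E G Y ∪ E G (D \ Y) ∪ cut G Y (D \ Y) := by
  ext e
  have a1 := @hY (G.x e)
  have a2 := @hY (G.y e)
  simp only [Finset.mem_union, a5_mem_cut, Finset.mem_sdiff, E, Finset.mem_filter,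
    Finset.mem_univ, true_and]
  by_cases p1 : G.x e ∈ Y <;> by_cases p2 : G.y e ∈ Y <;> by_cases p3 : G.x e ∈ D <;>
    by_cases p4 : G.y e ∈ D <;> simp_all

theorem expand (hq : 1 < q) {O : Finset I} {D K W : Finset V} {u k₀ : V} (hk₀ : k₀ ∈ K)
    (hKW : K ⊆ W) (hWD : W ⊆ D) (hu : u ∈ W \ K) (hD : Kconn G D K) (hO : Disjoint O (E G D))
    (WY WT : Finset V → Finset V) (β : Finset V → ℝ)
    (hWY : ∀ Y ∈ fam G D K u, (W ∩ Y) ∪ ends G Y (D \ Y) ⊆ WY Y ∧ WY Y ⊆ Y)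
    (hWT : ∀ Y ∈ fam G D K u, (W \ Y) ∪ ends G (D \ Y) Y ⊆ WT Y ∧ WT Y ⊆ D \ Y)
    (hPB : ∀ Y ∈ fam G D K u, PB2 G q O Y {u} (WY Y) (D \ Y) K (WT Y) (β Y))
    (r : Setoid V) (hr : mg K ≤ r) (hfree : Free r (D \ W))
    (f : Setoid V → ℝ) (hf : ∀ s, |f s| ≤ 1) :
    |∑ A ∈ (E G D).powerset,
        f (pat W (conn G A ⊔ mg K)) * (wt q (E G D) A * m G q (r ⊔ conn G A) O)
      - ∑ A ∈ (E G D).powerset,
        f (pat W (conn G A ⊔ mg (insert u K))) *
          (wt q (E G D) A * m G q (r ⊔ pr k₀ u ⊔ conn G A) O)|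
      ≤ ∑ Y ∈ fam G D K u, (1 / (q - 1)) ^ (cut G Y (D \ Y)).card *
          ((q + 1) * β Y * m G q (r ⊔ mg (WY Y ∪ WT Y)) (E G D ∪ O)) := by
  classical
  have huW : u ∈ W := (Finset.mem_sdiff.1 hu).1
  have huK : u ∉ K := (Finset.mem_sdiff.1 hu).2
  have huD : u ∈ D \ K := Finset.mem_sdiff.2 ⟨hWD huW, huK⟩
  have hKD : K ⊆ D := hKW.trans hWD
  have hq1 : 0 < q - 1 := by linarith
  -- the two parts
  set φ1 : Finset I → ℝ := fun A => f (pat W (conn G A ⊔ mg K)) * m G q (r ⊔ conn G A) O with hφ1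
  set φ2 : Finset I → ℝ := fun A => f (pat W (conn G A ⊔ mg (insert u K))) *
    m G q (r ⊔ pr k₀ u ⊔ conn G A) O with hφ2
  have hzero : ∀ A, (conn G A ⊔ mg K) u k₀ → φ1 A - φ2 A = 0 := by
    intro A hA
    have e1 : r ⊔ pr k₀ u ⊔ conn G A = r ⊔ conn G A := by
      have hle : pr k₀ u ≤ r ⊔ conn G A := by
        rw [pr_le_iff]
        have h1 : conn G A ⊔ mg K ≤ r ⊔ conn G A := sup_le le_sup_right (hr.trans le_sup_left)
        exact (r ⊔ conn G A).symm (h1 hA)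
      rw [sup_assoc, sup_comm (pr k₀ u), ← sup_assoc]
      exact sup_eq_left.2 hle
    have e2 : conn G A ⊔ mg (insert u K) = conn G A ⊔ mg K := by
      rw [mg_insert hk₀, ← sup_assoc]
      refine sup_eq_left.2 ?_
      rw [pr_le_iff]
      exact (conn G A ⊔ mg K).symm hA
    simp only [hφ1, hφ2, e1, e2, sub_self]
  have hsum : ∑ A ∈ (E G D).powerset,
        f (pat W (conn G A ⊔ mg K)) * (wt q (E G D) A * m G q (r ⊔ conn G A) O)
      - ∑ A ∈ (E G D).powerset,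
        f (pat W (conn G A ⊔ mg (insert u K))) *
          (wt q (E G D) A * m G q (r ⊔ pr k₀ u ⊔ conn G A) O) =
      ∑ Y ∈ fam G D K u, (-(1 / (q - 1))) ^ (cut G Y (D \ Y)).card *
          ∑ A ∈ (E G Y).powerset,
            ∑ B ∈ (E G (D \ Y)).powerset.filter
              (fun B => ∀ v ∈ ends G (D \ Y) Y, (conn G B ⊔ mg K) v k₀),
                wt q (E G Y) A * wt q (E G (D \ Y)) B * (φ1 (A ∪ B) - φ2 (A ∪ B)) := by
    rw [← comb G q hk₀ hKD huD hD (fun A => φ1 A - φ2 A), Finset.sum_filter,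
      ← Finset.sum_sub_distrib]
    refine Finset.sum_congr rfl fun A _ => ?_
    have e3 : f (pat W (conn G A ⊔ mg K)) * (wt q (E G D) A * m G q (r ⊔ conn G A) O) -
        f (pat W (conn G A ⊔ mg (insert u K))) *
          (wt q (E G D) A * m G q (r ⊔ pr k₀ u ⊔ conn G A) O) =
          wt q (E G D) A * (φ1 A - φ2 A) := by
      simp only [hφ1, hφ2]; ring
    rw [e3]
    by_cases h : (conn G A ⊔ mg K) u k₀
    · rw [if_neg (not_not.2 h), hzero A h, mul_zero]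
    · rw [if_pos h]
  rw [hsum]
  refine (Finset.abs_sum_le_sum_abs _ _).trans ?_
  refine Finset.sum_le_sum fun Y hY => ?_
  have hYm : (Y ⊆ D \ K) ∧ u ∈ Y ∧ Kconn G Y {u} ∧ Kconn G (D \ Y) K := by
    unfold fam at hY
    simpa using hY
  obtain ⟨hYDK, huY, -, -⟩ := hYm
  have hYD : Y ⊆ D := hYDK.trans Finset.sdiff_subset
  have hKY : ∀ v ∈ K, v ∉ Y := fun v hv hvY => (Finset.mem_sdiff.1 (hYDK hvY)).2 hv
  obtain ⟨hWY1, hWY2⟩ := hWY Y hY
  obtain ⟨hWT1, hWT2⟩ := hWT Y hY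
  have hYT : Disjoint Y (D \ Y) := Finset.disjoint_sdiff
  have hKWT : K ⊆ WT Y := fun v hv => hWT1 (Finset.mem_union_left _
    (Finset.mem_sdiff.2 ⟨hKW hv, hKY v hv⟩))
  have hk₀WT : k₀ ∈ WT Y := hKWT hk₀
  have huWY : u ∈ WY Y := hWY1 (Finset.mem_union_left _ (Finset.mem_inter.2 ⟨huW, huY⟩))
  have hKT : K ⊆ D \ Y := fun v hv => Finset.mem_sdiff.2 ⟨hKD hv, hKY v hv⟩
  have hW1 : W ∩ Y ⊆ WY Y := Finset.subset_union_left.trans hWY1
  have hW2 : W ∩ (D \ Y) ⊆ WT Y := by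
    intro v hv
    obtain ⟨h1, h2⟩ := Finset.mem_inter.1 hv
    exact hWT1 (Finset.mem_union_left _ (Finset.mem_sdiff.2 ⟨h1, (Finset.mem_sdiff.1 h2).2⟩))
  have hmgu : mg ({u} : Finset V) = ⊥ := mg_singleton u
  -- the indicator
  set χ : Setoid V → ℝ := fun t => if (∀ v ∈ ends G (D \ Y) Y, t v k₀) then 1 else 0 with hχ
  have hχ1 : ∀ t, |χ t| ≤ 1 := by
    intro t
    simp only [hχ]
    split_ifs <;> simp
  have hχB : ∀ B : Finset I, χ (pat (WT Y) (conn G B ⊔ mg K)) =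
      if (∀ v ∈ ends G (D \ Y) Y, (conn G B ⊔ mg K) v k₀) then 1 else 0 := by
    intro B
    simp only [hχ]
    refine if_congr ?_ rfl rfl
    constructor
    · intro h v hv
      rcases h v hv with h1 | ⟨_, _, h1⟩
      · rw [h1]
      · exact h1
    · intro h v hv
      exact Or.inr ⟨hWT1 (Finset.mem_union_right _ hv), hk₀WT, h v hv⟩
  -- the patterns
  have hpat1 : ∀ A ∈ (E G Y).powerset, ∀ B ∈ (E G (D \ Y)).powerset,
      pat W (conn G (A ∪ B) ⊔ mg K) =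
        pat W (pat (WY Y) (conn G A ⊔ mg {u}) ⊔ pat (WT Y) (conn G B ⊔ mg K) ⊔ ⊥) := by
    intro A hA B hB
    rw [Finset.mem_powerset] at hA hB
    have h1 := a5_agree (W := W) (X := ⊥) hYT hWY2 hWT2 (supp_conn G hA)
      (a5_supp_sup (supp_conn G hB) (a5_supp_mg (K := K) (by exact_mod_cast hKT))) hW1 hW2
      (fun a b hab => Or.inl hab)
    have e : conn G A ⊔ mg {u} = conn G A := by rw [hmgu, sup_bot_eq]
    rw [e, ← h1, conn_union, sup_bot_eq, sup_assoc]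
  have hpat2 : ∀ A ∈ (E G Y).powerset, ∀ B ∈ (E G (D \ Y)).powerset,
      pat W (conn G (A ∪ B) ⊔ mg (insert u K)) =
        pat W (pat (WY Y) (conn G A ⊔ mg {u}) ⊔ pat (WT Y) (conn G B ⊔ mg K) ⊔ pr k₀ u) := by
    intro A hA B hB
    rw [Finset.mem_powerset] at hA hB
    have h1 := a5_agree (W := W) (X := pr k₀ u) hYT hWY2 hWT2 (supp_conn G hA)
      (a5_supp_sup (supp_conn G hB) (a5_supp_mg (K := K) (by exact_mod_cast hKT))) hW1 hW2
      (a5_supp_pr ⟨fun h => absurd h (hKY _ hk₀), fun _ => hk₀WT⟩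
        ⟨fun _ => huWY, fun h => absurd huY (Finset.mem_sdiff.1 h).2⟩)
    have e : conn G A ⊔ mg {u} = conn G A := by rw [hmgu, sup_bot_eq]
    rw [e, ← h1, conn_union, mg_insert hk₀]
    simp only [sup_assoc]
  -- freeness
  have hsubY : Y \ WY Y ⊆ D \ W := by
    intro v hv
    obtain ⟨h1, h2⟩ := Finset.mem_sdiff.1 hv
    exact Finset.mem_sdiff.2 ⟨hYD h1, fun h => h2 (hW1 (Finset.mem_inter.2 ⟨h, h1⟩))⟩
  have hsubT : (D \ Y) \ WT Y ⊆ D \ W := by
    intro v hv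
    obtain ⟨h1, h2⟩ := Finset.mem_sdiff.1 hv
    exact Finset.mem_sdiff.2 ⟨(Finset.mem_sdiff.1 h1).1,
      fun h => h2 (hW2 (Finset.mem_inter.2 ⟨h, h1⟩))⟩
  have hfree' : Free (r ⊔ pr k₀ u) (D \ W) := by
    intro a ha b hab
    rcases sup_pr_iff.1 hab with h | ⟨h, _⟩ | ⟨h, _⟩
    · exact hfree a ha b h
    · have := hfree a ha _ h
      rw [this] at ha
      exact absurd (hKW hk₀) (Finset.mem_sdiff.1 ha).2
    · have := hfree a ha _ h
      rw [this] at ha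
      exact absurd huW (Finset.mem_sdiff.1 ha).2
  have hmono : ∀ {s : Setoid V} {Z Z' : Finset V}, Z ⊆ Z' → Free s Z' → Free s Z :=
    fun hZ h a ha => h a (hZ ha)
  -- the edges between the two sides are loops
  have hloops : m G q (r ⊔ mg (WY Y ∪ WT Y)) (E G Y ∪ E G (D \ Y) ∪ O) =
      m G q (r ⊔ mg (WY Y ∪ WT Y)) (E G D ∪ O) := by
    have hcut : ∀ e ∈ cut G Y (D \ Y), (r ⊔ mg (WY Y ∪ WT Y)) (G.x e) (G.y e) := by
      intro e he
      have hle : mg (WY Y ∪ WT Y) ≤ r ⊔ mg (WY Y ∪ WT Y) := le_sup_right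
      have he2 : e ∈ cut G (D \ Y) Y := by
        rw [a5_mem_cut] at he ⊢
        tauto
      refine hle (Or.inr ?_)
      rcases (a5_mem_cut G).1 he with ⟨h1, h2⟩ | ⟨h1, h2⟩
      · refine ⟨Finset.mem_union_left _ (hWY1 (Finset.mem_union_right _ ?_)),
          Finset.mem_union_right _ (hWT1 (Finset.mem_union_right _ ?_))⟩
        · exact Finset.mem_filter.2 ⟨h1, e, he, Or.inl rfl⟩
        · exact Finset.mem_filter.2 ⟨h2, e, he2, Or.inr rfl⟩
      · refine ⟨Finset.mem_union_right _ (hWT1 (Finset.mem_union_right _ ?_)),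
          Finset.mem_union_left _ (hWY1 (Finset.mem_union_right _ ?_))⟩
        · exact Finset.mem_filter.2 ⟨h1, e, he2, Or.inl rfl⟩
        · exact Finset.mem_filter.2 ⟨h2, e, he, Or.inr rfl⟩
    rw [a5_E G hYD, ← m_loops G q (O := E G Y ∪ E G (D \ Y) ∪ O) _ hcut]
    congr 1
    rw [Finset.union_right_comm]
  -- the first sum
  have hS1 : |∑ A ∈ (E G Y).powerset, ∑ B ∈ (E G (D \ Y)).powerset.filter
              (fun B => ∀ v ∈ ends G (D \ Y) Y, (conn G B ⊔ mg K) v k₀),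
                wt q (E G Y) A * wt q (E G (D \ Y)) B * φ1 (A ∪ B)| ≤
      β Y * q * m G q (r ⊔ mg (WY Y ∪ WT Y)) (E G D ∪ O) := by
    have h1 := hPB Y hY r (by rw [hmgu]; exact bot_le) hr (hmono hsubY hfree)
      (hmono hsubT hfree) (fun s t => f (pat W (s ⊔ t ⊔ ⊥)) * χ t)
      (fun s t => by
        rw [abs_mul]
        exact mul_le_one₀ (hf _) (abs_nonneg _) (hχ1 t)) q (Or.inl rfl)
    rw [hloops] at h1
    refine le_trans (le_of_eq ?_) h1
    congr 1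
    refine Finset.sum_congr rfl fun A hA => ?_
    rw [Finset.sum_filter]
    refine Finset.sum_congr rfl fun B hB => ?_
    rw [hχB B, ← hpat1 A hA B hB]
    simp only [hφ1]
    rw [conn_union, ← sup_assoc]
    split_ifs
    · ring
    · ring
  have hS2 : |∑ A ∈ (E G Y).powerset, ∑ B ∈ (E G (D \ Y)).powerset.filter
              (fun B => ∀ v ∈ ends G (D \ Y) Y, (conn G B ⊔ mg K) v k₀),
                wt q (E G Y) A * wt q (E G (D \ Y)) B * φ2 (A ∪ B)| ≤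
      β Y * 1 * m G q (r ⊔ mg (WY Y ∪ WT Y)) (E G D ∪ O) := by
    have h1 := hPB Y hY (r ⊔ pr k₀ u) (by rw [hmgu]; exact bot_le) (hr.trans le_sup_left)
      (hmono hsubY hfree') (hmono hsubT hfree')
      (fun s t => f (pat W (s ⊔ t ⊔ pr k₀ u)) * χ t)
      (fun s t => by
        rw [abs_mul]
        exact mul_le_one₀ (hf _) (abs_nonneg _) (hχ1 t)) 1
      (Or.inr ⟨rfl, u, huWY, k₀, hk₀WT, sup_pr_iff.2 (Or.inr (Or.inr ⟨r.refl u, r.refl k₀⟩))⟩)
    have e1 : r ⊔ pr k₀ u ⊔ mg (WY Y ∪ WT Y) = r ⊔ mg (WY Y ∪ WT Y) := by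
      rw [sup_assoc]
      congr 1
      refine sup_eq_right.2 ?_
      rw [pr_le_iff]
      exact Or.inr ⟨Finset.mem_union_right _ hk₀WT, Finset.mem_union_left _ huWY⟩
    rw [e1, hloops] at h1
    refine le_trans (le_of_eq ?_) h1
    congr 1
    refine Finset.sum_congr rfl fun A hA => ?_
    rw [Finset.sum_filter]
    refine Finset.sum_congr rfl fun B hB => ?_
    rw [hχB B, ← hpat2 A hA B hB]
    simp only [hφ2]
    rw [conn_union, ← sup_assoc]
    split_ifs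
    · ring
    · ring
  rw [abs_mul, abs_pow, abs_neg, abs_of_pos (by positivity : (0 : ℝ) < 1 / (q - 1))]
  refine mul_le_mul_of_nonneg_left ?_ (by positivity)
  have hsplit : ∑ A ∈ (E G Y).powerset, ∑ B ∈ (E G (D \ Y)).powerset.filter
              (fun B => ∀ v ∈ ends G (D \ Y) Y, (conn G B ⊔ mg K) v k₀),
                wt q (E G Y) A * wt q (E G (D \ Y)) B * (φ1 (A ∪ B) - φ2 (A ∪ B)) =
      ∑ A ∈ (E G Y).powerset, ∑ B ∈ (E G (D \ Y)).powerset.filter
              (fun B => ∀ v ∈ ends G (D \ Y) Y, (conn G B ⊔ mg K) v k₀),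
                wt q (E G Y) A * wt q (E G (D \ Y)) B * φ1 (A ∪ B) -
      ∑ A ∈ (E G Y).powerset, ∑ B ∈ (E G (D \ Y)).powerset.filter
              (fun B => ∀ v ∈ ends G (D \ Y) Y, (conn G B ⊔ mg K) v k₀),
                wt q (E G Y) A * wt q (E G (D \ Y)) B * φ2 (A ∪ B) := by
    rw [← Finset.sum_sub_distrib]
    refine Finset.sum_congr rfl fun A _ => ?_
    rw [← Finset.sum_sub_distrib]
    refine Finset.sum_congr rfl fun B _ => ?_
    ring
  rw [hsplit]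
  refine (abs_sub _ _).trans ?_
  refine (add_le_add hS1 hS2).trans (le_of_eq ?_)
  ring

end A5

end Pool.Agent.H753R2.FR
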