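import Mathlib
import Pool.Agent.H753R2.FR.Defs
import Pool.Agent.H753R2.FR.T_A1
import Pool.Agent.H753R2.FR.T_A2
set_option autoImplicit false

namespace Pool.Agent.H753R2.FR

open Finset


section A6h
variable {V : Type}

theorem a6_pat_agree {U : Set V} {W : Finset V} {s t : Setoid V} (h : AgreeOn U s t)
    (hW : ∀ a ∈ W, a ∈ U) : pat W s = pat W t := by
  ext a b
  show (a = b ∨ (a ∈ W ∧ b ∈ W ∧ s a b)) ↔ (a = b ∨ (a ∈ W ∧ b ∈ W ∧ t a b))
  constructor
  · rintro (h1 | ⟨h1, h2, h3⟩)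
    · exact Or.inl h1
    · exact Or.inr ⟨h1, h2, (h a (hW a h1) b (hW b h2)).1 h3⟩
  · rintro (h1 | ⟨h1, h2, h3⟩)
    · exact Or.inl h1
    · exact Or.inr ⟨h1, h2, (h a (hW a h1) b (hW b h2)).2 h3⟩

theorem a6_agree_trans {U : Set V} {s t v : Setoid V} (h : AgreeOn U s t) (h' : AgreeOn U t v) :
    AgreeOn U s v := fun a ha b hb => (h a ha b hb).trans (h' a ha b hb)

theorem a6_agree_mono {U U' : Set V} {s t : Setoid V} (h : AgreeOn U s t) (h' : U' ⊆ U) :
    AgreeOn U' s t := fun a ha b hb => h a (h' ha) b (h' hb)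

/-- restricting to `W` does not change anything for pairs of `W ∪ T` if `s` lives on `Z` -/
theorem a6_agree_pat {Z : Set V} {W : Finset V} {s : Setoid V} {U : Set V} (hs : Supp Z s)
    (hU : ∀ a ∈ U, a ∈ Z → a ∈ W) : AgreeOn U s (pat W s) := by
  intro a ha b hb
  constructor
  · intro h
    rcases hs a b h with h1 | ⟨h1, h2⟩
    · exact Or.inl h1
    · exact Or.inr ⟨hU a ha h1, hU b hb h2, h⟩
  · rintro (h1 | ⟨h1, h2, h3⟩)
    · rw [h1]
    · exact h3

theorem a6_supp_pat (W : Finset V) (s : Setoid V) : Supp (↑W : Set V) (pat W s) := by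
  rintro a b (h1 | ⟨h1, h2, h3⟩)
  · exact Or.inl h1
  · exact Or.inr ⟨h1, h2⟩

theorem a6_supp_mono {U U' : Set V} {s : Setoid V} (h : Supp U s) (h' : U ⊆ U') : Supp U' s := by
  intro a b hab
  rcases h a b hab with h1 | ⟨h1, h2⟩
  · exact Or.inl h1
  · exact Or.inr ⟨h' h1, h' h2⟩

theorem a6_supp_iff {K : Finset V} {s : Setoid V} : Supp (↑K : Set V) s ↔ s ≤ mg K := by
  constructor
  · intro h a b hab
    exact h a b hab
  · intro h a b hab
    exact h hab

theorem a6_free_iff [Fintype V] [DecidableEq V] {X : Finset V} {s : Setoid V} :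
    Free s X ↔ s ≤ mg Xᶜ := by
  constructor
  · intro h a b hab
    by_cases ha : a ∈ X
    · exact Or.inl (h a ha b hab)
    · by_cases hb : b ∈ X
      · exact Or.inl (h b hb a (s.symm hab)).symm
      · exact Or.inr ⟨by simpa using ha, by simpa using hb⟩
  · intro h a ha b hab
    rcases h hab with h1 | ⟨h1, h2⟩
    · exact h1
    · exact absurd ha (by simpa using h1)

theorem a6_supp_sup [Fintype V] [DecidableEq V] {K : Finset V} {s t : Setoid V}
    (hs : Supp (↑K : Set V) s) (ht : Supp (↑K : Set V) t) : Supp (↑K : Set V) (s ⊔ t) := by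
  rw [a6_supp_iff] at *
  exact sup_le hs ht

end A6h

section A6
variable {V I : Type} [DecidableEq V] [DecidableEq I] [Fintype V] [Fintype I] (G : MG V I) (q : ℝ)

theorem a6_wt_abs (hq : 1 < q) {S A : Finset I} (hA : A ⊆ S) :
    |wt q S A| = (1 + 1 / (q - 1)) ^ A.card * (1 / (q - 1)) ^ (S.card - A.card) := by
  have hp : 0 < 1 / (q - 1) := by
    have : 0 < q - 1 := by linarith
    positivity
  rw [wt_eq q hA, abs_mul, abs_pow, abs_pow, abs_neg, abs_of_pos hp,
    abs_of_pos (by linarith : (0:ℝ) < 1 + 1 / (q - 1)), Finset.card_sdiff_of_subset hA]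

theorem a6_wt_sum (hq : 1 < q) (S : Finset I) :
    ∑ A ∈ S.powerset, |wt q S A| = (1 + 2 / (q - 1)) ^ S.card := by
  have h1 : ∑ A ∈ S.powerset, |wt q S A| = ∑ A ∈ S.powerset,
      (1 + 1 / (q - 1)) ^ A.card * (1 / (q - 1)) ^ (S.card - A.card) :=
    Finset.sum_congr rfl fun A hA => a6_wt_abs q hq (Finset.mem_powerset.1 hA)
  rw [h1, Finset.sum_pow_mul_eq_add_pow]
  congr 1
  ring

theorem a6_E_split {D Z : Finset V} (hZ : Z ⊆ D) :
    E G D = (E G Z ∪ E G (D \ Z)) ∪ cut G Z (D \ Z) := by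
  ext e
  have h1 : G.x e ∈ Z → G.x e ∈ D := fun h => hZ h
  have h2 : G.y e ∈ Z → G.y e ∈ D := fun h => hZ h
  simp only [E, cut, mem_union, mem_filter, mem_univ, true_and, mem_sdiff]
  tauto

theorem a6_disj1 {D Z : Finset V} : Disjoint (E G Z) (E G (D \ Z)) := by
  rw [Finset.disjoint_left]
  intro e he he'
  simp only [E, mem_filter, mem_univ, true_and, mem_sdiff] at he he'
  exact he'.1.2 he.1

theorem a6_disj2 {D Z : Finset V} :
    Disjoint (E G Z ∪ E G (D \ Z)) (cut G Z (D \ Z)) := by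
  rw [Finset.disjoint_left]
  intro e he he'
  simp only [E, cut, mem_union, mem_filter, mem_univ, true_and, mem_sdiff] at he he'
  tauto

theorem a6_cut_ends {D Z : Finset V} {e : I} (he : e ∈ cut G Z (D \ Z)) :
    (G.x e ∈ ends G Z (D \ Z) ∧ G.y e ∈ ends G (D \ Z) Z) ∨
    (G.x e ∈ ends G (D \ Z) Z ∧ G.y e ∈ ends G Z (D \ Z)) := by
  have he' : e ∈ cut G (D \ Z) Z := by
    simp only [cut, mem_filter, mem_univ, true_and] at he ⊢
    tauto
  have h0 := he
  simp only [cut, mem_filter, mem_univ, true_and] at h0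
  rcases h0 with ⟨h1, h2⟩ | ⟨h1, h2⟩
  · left
    exact ⟨by simp only [ends, mem_filter]; exact ⟨h1, e, he, Or.inl rfl⟩,
      by simp only [ends, mem_filter]; exact ⟨h2, e, he', Or.inr rfl⟩⟩
  · right
    exact ⟨by simp only [ends, mem_filter]; exact ⟨h1, e, he', Or.inl rfl⟩,
      by simp only [ends, mem_filter]; exact ⟨h2, e, he, Or.inr rfl⟩⟩

theorem cutstep (hq : 1 < q) {O : Finset I} {D K W Z WZ WT : Finset V} {z₀ : V} {β : ℝ}
    (hK : K.Nonempty) (hKW : K ⊆ W) (hWD : W ⊆ D) (hZ : Z ⊆ D \ K) (hz₀ : z₀ ∈ Z)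
    (hO : Disjoint O (E G D))
    (hWZ : (W ∩ Z) ∪ ends G Z (D \ Z) ⊆ WZ) (hWZ' : WZ ⊆ Z)
    (hWT : (W \ Z) ∪ ends G (D \ Z) Z ⊆ WT) (hWT' : WT ⊆ D \ Z)
    (hPB : PB2 G q O Z {z₀} WZ (D \ Z) K WT β)
    (r : Setoid V) (hr : mg K ≤ r) (hfree : Free r (D \ W))
    (f : Setoid V → ℝ) (hf : ∀ s, |f s| ≤ 1) :
    |∑ A ∈ (E G D).powerset,
        f (pat W (conn G A ⊔ mg K)) * (wt q (E G D) A * m G q (r ⊔ conn G A) O)|
      ≤ β * ((1 + 2 / (q - 1)) ^ (cut G Z (D \ Z)).card +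
              q * (1 / (q - 1)) ^ (cut G Z (D \ Z)).card) *
          m G q (r ⊔ mg (WZ ∪ WT)) (E G D ∪ O) := by
  classical
  set T := D \ Z with hT
  set c := cut G Z T with hc
  have hZD : Z ⊆ D := hZ.trans Finset.sdiff_subset
  have hKT : K ⊆ T := by
    intro k hk
    rw [hT, mem_sdiff]
    exact ⟨hWD (hKW hk), fun h => (mem_sdiff.1 (hZ h)).2 hk⟩
  have hZT : Disjoint Z T := by rw [hT]; exact Finset.disjoint_sdiff
  set M := m G q (r ⊔ mg (WZ ∪ WT)) (E G D ∪ O) with hM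
  -- ends of the cut edges
  have hends : ∀ e ∈ c, (G.x e ∈ WZ ∧ G.y e ∈ WT) ∨ (G.x e ∈ WT ∧ G.y e ∈ WZ) := by
    intro e he
    rcases a6_cut_ends G he with ⟨h1, h2⟩ | ⟨h1, h2⟩
    · exact Or.inl ⟨hWZ (mem_union_right _ h1), hWT (mem_union_right _ h2)⟩
    · exact Or.inr ⟨hWT (mem_union_right _ h1), hWZ (mem_union_right _ h2)⟩
  have hendsU : ∀ e ∈ c, G.x e ∈ WZ ∪ WT ∧ G.y e ∈ WZ ∪ WT := by
    intro e he
    rcases hends e he with ⟨h1, h2⟩ | ⟨h1, h2⟩
    · exact ⟨mem_union_left _ h1, mem_union_right _ h2⟩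
    · exact ⟨mem_union_right _ h1, mem_union_left _ h2⟩
  have hconnU : ∀ B ⊆ c, conn G B ≤ mg (WZ ∪ WT) := by
    intro B hB
    rw [conn_le_iff]
    intro e he
    exact Or.inr (hendsU e (hB he))
  -- the value of the right hand side
  have hval : ∀ B ⊆ c, m G q (r ⊔ conn G B ⊔ mg (WZ ∪ WT)) (E G Z ∪ E G T ∪ O) = M := by
    intro B hB
    have h1 : r ⊔ conn G B ⊔ mg (WZ ∪ WT) = r ⊔ mg (WZ ∪ WT) := by
      rw [sup_assoc, sup_eq_right.2 (hconnU B hB)]
    rw [h1, hM, a6_E_split G hZD]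
    have h2 : E G Z ∪ E G (D \ Z) ∪ cut G Z (D \ Z) ∪ O
        = (E G Z ∪ E G T ∪ O) ∪ c := by
      rw [hc, hT]
      ext e
      simp only [mem_union]
      tauto
    rw [h2]
    refine (m_loops G q (S := c) (O := E G Z ∪ E G T ∪ O) (r ⊔ mg (WZ ∪ WT)) ?_).symm
    intro e he
    exact (le_sup_right : mg (WZ ∪ WT) ≤ r ⊔ mg (WZ ∪ WT)) (Or.inr (hendsU e he))
  -- the inner sums
  have hinner : ∀ B ⊆ c, ∀ κ : ℝ, (κ = q ∧ B = ∅ ∨ κ = 1 ∧ B.Nonempty) →
      |∑ A ∈ (E G Z).powerset, ∑ A' ∈ (E G T).powerset,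
          f (pat W (conn G (A ∪ A' ∪ B) ⊔ mg K)) *
            (wt q (E G Z) A * wt q (E G T) A' * m G q (r ⊔ conn G (A ∪ A' ∪ B)) O)|
        ≤ β * κ * M := by
    intro B hB κ hκ
    have hfr : ∀ X : Finset V, X ⊆ D \ W → (∀ e ∈ B, G.x e ∉ X ∧ G.y e ∉ X) →
        Free (r ⊔ conn G B) X := by
      intro X hX hXB
      rw [a6_free_iff]
      refine sup_le (a6_free_iff.1 fun a ha => hfree a (hX ha)) ?_
      rw [conn_le_iff]
      intro e he
      exact Or.inr ⟨by simpa using (hXB e he).1, by simpa using (hXB e he).2⟩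
    have hfr1 : Free (r ⊔ conn G B) (Z \ WZ) := by
      apply hfr
      · intro a ha
        rw [mem_sdiff] at ha ⊢
        exact ⟨hZD ha.1, fun h => ha.2 (hWZ (mem_union_left _ (mem_inter.2 ⟨h, ha.1⟩)))⟩
      · intro e he
        rcases hends e (hB he) with ⟨h1, h2⟩ | ⟨h1, h2⟩
        · exact ⟨fun h => (mem_sdiff.1 h).2 h1,
            fun h => (Finset.disjoint_left.1 hZT (mem_sdiff.1 h).1) (hWT' h2)⟩
        · exact ⟨fun h => (Finset.disjoint_left.1 hZT (mem_sdiff.1 h).1) (hWT' h1),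
            fun h => (mem_sdiff.1 h).2 h2⟩
    have hfr2 : Free (r ⊔ conn G B) (T \ WT) := by
      apply hfr
      · intro a ha
        rw [mem_sdiff] at ha ⊢
        have h1 := mem_sdiff.1 ha.1
        exact ⟨h1.1, fun h => ha.2 (hWT (mem_union_left _ (mem_sdiff.2 ⟨h, h1.2⟩)))⟩
      · intro e he
        rcases hends e (hB he) with ⟨h1, h2⟩ | ⟨h1, h2⟩
        · exact ⟨fun h => (Finset.disjoint_left.1 hZT (hWZ' h1)) (mem_sdiff.1 h).1,
            fun h => (mem_sdiff.1 h).2 h2⟩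
        · exact ⟨fun h => (mem_sdiff.1 h).2 h1,
            fun h => (Finset.disjoint_left.1 hZT (hWZ' h2)) (mem_sdiff.1 h).1⟩
    have hκ' : κ = q ∨ (κ = 1 ∧ ∃ k₁ ∈ WZ, ∃ k₂ ∈ WT, (r ⊔ conn G B) k₁ k₂) := by
      rcases hκ with ⟨h1, -⟩ | ⟨h1, e, he⟩
      · exact Or.inl h1
      · right
        refine ⟨h1, ?_⟩
        have hrel : (r ⊔ conn G B) (G.x e) (G.y e) :=
          (le_sup_right : conn G B ≤ r ⊔ conn G B) ((conn_le_iff G).1 le_rfl e he)
        rcases hends e (hB he) with ⟨h2, h3⟩ | ⟨h2, h3⟩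
        · exact ⟨_, h2, _, h3, hrel⟩
        · exact ⟨_, h3, _, h2, (r ⊔ conn G B).symm hrel⟩
    have hmain := hPB (r ⊔ conn G B) (by rw [mg_singleton]; exact bot_le)
      (hr.trans le_sup_left) hfr1 hfr2 (fun s t => f (pat W (s ⊔ t ⊔ conn G B)))
      (fun s t => hf _) κ hκ'
    rw [hval B hB] at hmain
    refine le_trans (le_of_eq ?_) hmain
    congr 1
    refine Finset.sum_congr rfl fun A hA => Finset.sum_congr rfl fun A' hA' => ?_
    rw [mem_powerset] at hA hA'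
    have e1 : r ⊔ conn G (A ∪ A' ∪ B) = r ⊔ conn G B ⊔ conn G A ⊔ conn G A' := by
      rw [conn_union, conn_union]
      ac_rfl
    have e2 : pat W (conn G (A ∪ A' ∪ B) ⊔ mg K)
        = pat W (pat WZ (conn G A ⊔ mg {z₀}) ⊔ pat WT (conn G A' ⊔ mg K) ⊔ conn G B) := by
      have h0 : conn G (A ∪ A' ∪ B) ⊔ mg K = (conn G A ⊔ (conn G A' ⊔ mg K)) ⊔ conn G B := by
        rw [conn_union, conn_union]
        ac_rfl
      rw [h0, mg_singleton, sup_bot_eq]
      have hs1 : Supp (↑Z : Set V) (conn G A) := supp_conn G hA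
      have hs2 : Supp (↑T : Set V) (conn G A' ⊔ mg K) := by
        apply a6_supp_sup (supp_conn G hA')
        rw [a6_supp_iff]
        intro a b hab
        rcases hab with h | ⟨h1, h2⟩
        · exact Or.inl h
        · exact Or.inr ⟨hKT h1, hKT h2⟩
      have k1 : AgreeOn (↑WZ ∪ ↑T : Set V) (conn G A ⊔ (conn G A' ⊔ mg K))
          (pat WZ (conn G A) ⊔ (conn G A' ⊔ mg K)) := by
        apply agree_sup
        · apply a6_agree_pat hs1
          rintro a (ha | ha) haZ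
          · exact ha
          · exact absurd ha (Finset.disjoint_left.1 hZT haZ)
        · exact a6_supp_mono hs2 Set.subset_union_right
      have k2 : AgreeOn (↑WZ ∪ ↑WT : Set V) ((conn G A' ⊔ mg K) ⊔ pat WZ (conn G A))
          (pat WT (conn G A' ⊔ mg K) ⊔ pat WZ (conn G A)) := by
        apply agree_sup
        · apply a6_agree_pat hs2
          rintro a (ha | ha) haT
          · exact absurd haT (Finset.disjoint_left.1 hZT (hWZ' ha))
          · exact ha
        · exact a6_supp_mono (a6_supp_pat _ _) Set.subset_union_left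
      have k3 : AgreeOn (↑WZ ∪ ↑WT : Set V) (conn G A ⊔ (conn G A' ⊔ mg K))
          (pat WZ (conn G A) ⊔ pat WT (conn G A' ⊔ mg K)) := by
        refine a6_agree_trans (a6_agree_mono k1 ?_) ?_
        · apply Set.union_subset_union_right
          intro a ha
          exact hWT' ha
        · rw [sup_comm (pat WZ (conn G A)) (conn G A' ⊔ mg K),
            sup_comm (pat WZ (conn G A)) (pat WT (conn G A' ⊔ mg K))]
          exact k2
      have k4 := agree_sup k3 (t := conn G B) (by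
        have := a6_supp_iff.2 (hconnU B hB)
        rwa [Finset.coe_union] at this)
      apply a6_pat_agree k4
      intro a ha
      by_cases haZ : a ∈ Z
      · exact Or.inl (hWZ (mem_union_left _ (mem_inter.2 ⟨ha, haZ⟩)))
      · exact Or.inr (hWT (mem_union_left _ (mem_sdiff.2 ⟨ha, haZ⟩)))
    rw [e1, e2]
  -- splitting the sum
  have hsplit : ∑ A ∈ (E G D).powerset,
        f (pat W (conn G A ⊔ mg K)) * (wt q (E G D) A * m G q (r ⊔ conn G A) O)
      = ∑ B ∈ c.powerset, wt q c B * ∑ A ∈ (E G Z).powerset, ∑ A' ∈ (E G T).powerset,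
          f (pat W (conn G (A ∪ A' ∪ B) ⊔ mg K)) *
            (wt q (E G Z) A * wt q (E G T) A' * m G q (r ⊔ conn G (A ∪ A' ∪ B)) O) := by
    have hE : E G D = (E G Z ∪ E G T) ∪ c := a6_E_split G hZD
    rw [hE, sum_powerset_union (a6_disj2 G), sum_powerset_union (a6_disj1 G)]
    have : ∀ A ∈ (E G Z).powerset, ∀ A' ∈ (E G T).powerset,
        ∑ B ∈ c.powerset, f (pat W (conn G (A ∪ A' ∪ B) ⊔ mg K)) *
          (wt q (E G Z ∪ E G T ∪ c) (A ∪ A' ∪ B) * m G q (r ⊔ conn G (A ∪ A' ∪ B)) O)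
        = ∑ B ∈ c.powerset, wt q c B * (f (pat W (conn G (A ∪ A' ∪ B) ⊔ mg K)) *
            (wt q (E G Z) A * wt q (E G T) A' * m G q (r ⊔ conn G (A ∪ A' ∪ B)) O)) := by
      intro A hA A' hA'
      refine Finset.sum_congr rfl fun B hB => ?_
      rw [mem_powerset] at hA hA' hB
      rw [wt_union q (a6_disj2 G) (union_subset_union hA hA') hB,
        wt_union q (a6_disj1 G) hA hA']
      ring
    have h2 : ∑ A ∈ (E G Z).powerset, ∑ A' ∈ (E G T).powerset,
        ∑ B ∈ c.powerset, f (pat W (conn G (A ∪ A' ∪ B) ⊔ mg K)) *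
          (wt q (E G Z ∪ E G T ∪ c) (A ∪ A' ∪ B) * m G q (r ⊔ conn G (A ∪ A' ∪ B)) O)
        = ∑ A ∈ (E G Z).powerset, ∑ A' ∈ (E G T).powerset,
          ∑ B ∈ c.powerset, wt q c B * (f (pat W (conn G (A ∪ A' ∪ B) ⊔ mg K)) *
            (wt q (E G Z) A * wt q (E G T) A' * m G q (r ⊔ conn G (A ∪ A' ∪ B)) O)) :=
      Finset.sum_congr rfl fun A hA => Finset.sum_congr rfl fun A' hA' => this A hA A' hA'
    refine h2.trans ?_
    simp_rw [Finset.mul_sum]
    rw [Finset.sum_congr rfl fun A _ => Finset.sum_comm, Finset.sum_comm]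
  have hq1 : 0 < q - 1 := by linarith
  have hp : 0 < 1 / (q - 1) := by positivity
  have hβM : 0 ≤ β * M := by
    have := (abs_nonneg _).trans (hinner ∅ (Finset.empty_subset _) q (Or.inl ⟨rfl, rfl⟩))
    have h2 : 0 ≤ (β * M) * q := by linarith [this, mul_right_comm β q M]
    exact nonneg_of_mul_nonneg_left h2 (by linarith)
  rw [hsplit]
  refine (Finset.abs_sum_le_sum_abs _ _).trans ?_
  have hb : ∀ B ∈ c.powerset, |wt q c B * ∑ A ∈ (E G Z).powerset, ∑ A' ∈ (E G T).powerset,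
          f (pat W (conn G (A ∪ A' ∪ B) ⊔ mg K)) *
            (wt q (E G Z) A * wt q (E G T) A' * m G q (r ⊔ conn G (A ∪ A' ∪ B)) O)|
      ≤ |wt q c B| * (β * M) + (if B = ∅ then q * (1 / (q - 1)) ^ c.card * (β * M) else 0) := by
    intro B hB
    rw [mem_powerset] at hB
    rw [abs_mul]
    by_cases hB0 : B = ∅
    · rw [if_pos hB0]
      have h1 := hinner B hB q (Or.inl ⟨rfl, hB0⟩)
      have h2 : |wt q c B| = (1 / (q - 1)) ^ c.card := by
        rw [a6_wt_abs q hq hB, hB0]; simp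
      have h3 := mul_le_mul_of_nonneg_left h1 (abs_nonneg (wt q c B))
      refine h3.trans ?_
      rw [h2]
      have h4 : 0 ≤ (1 / (q - 1)) ^ c.card * (β * M) := by positivity
      nlinarith [h4]
    · rw [if_neg hB0, add_zero]
      have h1 := hinner B hB 1 (Or.inr ⟨rfl, Finset.nonempty_iff_ne_empty.2 hB0⟩)
      rw [mul_one] at h1
      exact mul_le_mul_of_nonneg_left h1 (abs_nonneg _)
  refine (Finset.sum_le_sum hb).trans ?_
  rw [Finset.sum_add_distrib, ← Finset.sum_mul, a6_wt_sum q hq, Finset.sum_ite_eq',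
    if_pos (Finset.empty_mem_powerset c)]
  apply le_of_eq
  ring

end A6

end Pool.Agent.H753R2.FR
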