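import Mathlib
import Pool.Agent.H753R2.FR.Defs
import Pool.Agent.H753R2.FR.T_A1
import Pool.Agent.H753R2.FR.T_A2
set_option autoImplicit false

namespace Pool.Agent.H753R2.FR

open Finset


section A7
variable {V I : Type} [DecidableEq V] [DecidableEq I] [Fintype V] [Fintype I] (G : MG V I) (q : ℝ)

theorem A7_mg_mono {V : Type} {K K' : Finset V} (h : K ⊆ K') : mg K ≤ mg K' :=
  mg_le_iff.mpr fun _ ha _ hb => Or.inr ⟨h ha, h hb⟩

/-- everything in `Z` isolated, everything else glued -/
def A7_iso {V : Type} (Z : Finset V) : Setoid V where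
  r a b := a = b ∨ (a ∉ Z ∧ b ∉ Z)
  iseqv := by
    refine ⟨fun a => Or.inl rfl, ?_, ?_⟩
    · rintro a b (h | h)
      · exact Or.inl h.symm
      · exact Or.inr ⟨h.2, h.1⟩
    · rintro a b c (h | h) (h' | h')
      · exact Or.inl (h.trans h')
      · exact Or.inr (by rw [h]; exact h')
      · exact Or.inr (by rw [← h']; exact h)
      · exact Or.inr ⟨h.1, h'.2⟩

theorem A7_free_iff {V : Type} {r : Setoid V} {Z : Finset V} : Free r Z ↔ r ≤ A7_iso Z := by
  constructor
  · intro h a b hab
    by_cases ha : a ∈ Z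
    · exact Or.inl (h a ha b hab)
    · by_cases hb : b ∈ Z
      · exact Or.inl (h b hb a (r.symm hab)).symm
      · exact Or.inr ⟨ha, hb⟩
  · intro h a ha b hab
    rcases h hab with h1 | h1
    · exact h1
    · exact absurd ha h1.1

theorem A7_free_sup {V : Type} {r s : Setoid V} {Z : Finset V} (hr : Free r Z) (hs : Free s Z) :
    Free (r ⊔ s) Z :=
  A7_free_iff.mpr (sup_le (A7_free_iff.mp hr) (A7_free_iff.mp hs))

theorem A7_free_mono {V : Type} {r : Setoid V} {Z Z' : Finset V} (h : Z ⊆ Z') (hr : Free r Z') :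
    Free r Z := fun a ha b hab => hr a (h ha) b hab

theorem A7_free_mg {D K : Finset V} : Free (mg K) (D \ K) := by
  intro a ha b hab
  rw [Finset.mem_sdiff] at ha
  rcases hab with h | h
  · exact h
  · exact absurd h.1 ha.2

theorem bd_self {O : Finset I} {D K : Finset V} (_hKD : K ⊆ D) (hO : Disjoint O (E G D))
    (hnn : ∀ r, 0 ≤ m G q r (E G D ∪ O)) : Bd G q O D K K 1 := by
  intro r hr _ f hf
  have h1 : ∀ A : Finset I, pat K (conn G A ⊔ mg K) = mg K := by
    intro A
    apply le_antisymm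
    · rintro a b (h | h)
      · exact Or.inl h
      · exact Or.inr ⟨h.1, h.2.1⟩
    · rintro a b (h | h)
      · exact Or.inl h
      · refine Or.inr ⟨h.1, h.2, ?_⟩
        have h2 : mg K ≤ conn G A ⊔ mg K := le_sup_right
        exact h2 (Or.inr h)
  simp only [h1]
  rw [← Finset.mul_sum, ← m_union G q hO.symm r, abs_mul, one_mul, sup_eq_left.mpr hr,
    abs_of_nonneg (hnn r)]
  exact mul_le_of_le_one_left (hnn r) (hf _)

/-- adding special vertices -/
theorem lcost {O : Finset I} {D W W' : Finset V} (_hW : W.Nonempty) (hWW' : W ⊆ W')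
    (hW'D : W' ⊆ D)
    (hL : ∀ K', W ⊆ K' → K' ⊆ D → LC G q O D K')
    (r : Setoid V) (hfree : Free r (D \ W)) :
    m G q (r ⊔ mg W') (E G D ∪ O) ≤ 2 ^ (W' \ W).card * m G q (r ⊔ mg W) (E G D ∪ O) := by
  have key : ∀ U : Finset V, U ⊆ W' \ W →
      m G q (r ⊔ mg (W ∪ U)) (E G D ∪ O) ≤ 2 ^ U.card * m G q (r ⊔ mg W) (E G D ∪ O) := by
    intro U
    induction U using Finset.induction_on with
    | empty => intro _; simp
    | insert v U hv ih =>
      intro hU
      have hU' : U ⊆ W' \ W := (Finset.subset_insert v U).trans hU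
      have hvm := Finset.mem_sdiff.mp (hU (Finset.mem_insert_self v U))
      have ih' := ih hU'
      have hsub : W ∪ U ⊆ D := by
        apply Finset.union_subset (hWW'.trans hW'D)
        exact (hU'.trans Finset.sdiff_subset).trans hW'D
      have hvD : v ∈ D \ (W ∪ U) := by
        rw [Finset.mem_sdiff, Finset.mem_union]
        exact ⟨hW'D hvm.1, fun h => h.elim hvm.2 hv⟩
      have hfr : Free (r ⊔ mg (W ∪ U)) (D \ (W ∪ U)) := by
        apply A7_free_sup
        · exact A7_free_mono (Finset.sdiff_subset_sdiff (Finset.Subset.refl D)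
            Finset.subset_union_left) hfree
        · exact A7_free_mg
      have h2 := hL (W ∪ U) Finset.subset_union_left hsub v hvD (r ⊔ mg (W ∪ U)) le_sup_right hfr
      have h3 : r ⊔ mg (W ∪ U) ⊔ mg (insert v (W ∪ U)) = r ⊔ mg (W ∪ insert v U) := by
        rw [Finset.union_insert, sup_assoc,
          sup_eq_right.mpr (A7_mg_mono (Finset.subset_insert v (W ∪ U)))]
      rw [h3] at h2
      rw [Finset.card_insert_of_notMem hv, pow_succ]
      calc m G q (r ⊔ mg (W ∪ insert v U)) (E G D ∪ O)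
          ≤ 2 * m G q (r ⊔ mg (W ∪ U)) (E G D ∪ O) := h2
        _ ≤ 2 * (2 ^ U.card * m G q (r ⊔ mg W) (E G D ∪ O)) := by linarith
        _ = 2 ^ U.card * 2 * m G q (r ⊔ mg W) (E G D ∪ O) := by ring
  have h := key (W' \ W) (Finset.Subset.refl _)
  rwa [Finset.union_sdiff_of_subset hWW'] at h

/-- small domains -/
theorem small (hq : 2 ≤ q) (hH : Hyp G q) {O : Finset I} {D K W : Finset V} (hK : K.Nonempty)
    (hKW : K ⊆ W) (hWD : W ⊆ D) (hD : Kconn G D K) (hO : Disjoint O (E G D))
    (hcard : O.card + 2 ≤ Fintype.card I)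
    (hL : ∀ K', W ⊆ K' → K' ⊆ D → LC G q O D K') :
    Bd G q O D K W (4 ^ (E G D).card * 2 ^ D.card) := by
  intro r hr hfree f hf
  have hq1 : 1 < q := by linarith
  have hp0 : 0 < q - 1 := by linarith
  have hOu : O ≠ univ := by
    intro h
    rw [h, Finset.card_univ] at hcard
    omega
  have hnn : ∀ s : Setoid V, 0 ≤ m G q s O := fun s => hH.nn s O (Or.inr hOu)
  -- gluing all of `D`
  have hconnD : conn G (E G D) ≤ mg D := by
    rw [conn_le_iff]
    intro e he
    rw [E, Finset.mem_filter] at he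
    exact Or.inr he.2
  have hmgD : r ⊔ conn G (E G D) = r ⊔ mg D := by
    apply le_antisymm (sup_le_sup_left hconnD r)
    apply sup_le le_sup_left
    have h1 := kconn_mg G (hKW.trans hWD) hK hD
    exact h1.trans (sup_le le_sup_right (hr.trans le_sup_left))
  set p : ℝ := 1 / (q - 1) with hp
  have hp0' : 0 ≤ p := by positivity
  have hp1 : p ≤ 1 := by
    rw [hp, div_le_one hp0]
    linarith
  have hpq : p * q = 1 + p := by
    rw [hp]
    field_simp
    ring
  have hterm : ∀ A ∈ (E G D).powerset,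
      |f (pat W (conn G A ⊔ mg K)) * (wt q (E G D) A * m G q (r ⊔ conn G A) O)| ≤
        2 ^ (E G D).card * m G q (r ⊔ mg D) O := by
    intro A hA
    rw [Finset.mem_powerset] at hA
    rw [abs_mul, abs_mul, abs_of_nonneg (hnn _)]
    have h1 : m G q (r ⊔ conn G A) O ≤ q ^ (E G D \ A).card * m G q (r ⊔ mg D) O := by
      have h2 : r ⊔ conn G A ≤ r ⊔ mg D := by
        rw [← hmgD]
        exact sup_le_sup_left (conn_mono G hA) r
      have h3 := m_mono G q hq1 hH hcard h2
      refine h3.trans ?_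
      apply mul_le_mul_of_nonneg_right _ (hnn _)
      apply pow_le_pow_right₀ hq1.le
      have h4 := cl_conn G (r ⊔ conn G A) (E G D \ A)
      have h5 : r ⊔ conn G A ⊔ conn G (E G D \ A) = r ⊔ mg D := by
        rw [sup_assoc, ← conn_union, Finset.union_sdiff_of_subset hA, hmgD]
      rw [h5] at h4
      omega
    have hwt : |wt q (E G D) A| = (1 + p) ^ A.card * p ^ (E G D \ A).card := by
      rw [wt_eq q hA, abs_mul, abs_pow, abs_pow, abs_neg, ← hp, abs_of_nonneg hp0',
        abs_of_nonneg (by linarith : (0 : ℝ) ≤ 1 + p)]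
    calc |f (pat W (conn G A ⊔ mg K))| * (|wt q (E G D) A| * m G q (r ⊔ conn G A) O)
        ≤ 1 * (|wt q (E G D) A| * m G q (r ⊔ conn G A) O) :=
          mul_le_mul_of_nonneg_right (hf _) (mul_nonneg (abs_nonneg _) (hnn _))
      _ ≤ (1 + p) ^ A.card * p ^ (E G D \ A).card *
          (q ^ (E G D \ A).card * m G q (r ⊔ mg D) O) := by
          rw [one_mul, hwt]
          exact mul_le_mul_of_nonneg_left h1 (by positivity)
      _ = (1 + p) ^ (E G D).card * m G q (r ⊔ mg D) O := by
          have h6 : A.card + (E G D \ A).card = (E G D).card := by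
            rw [Finset.card_sdiff_of_subset hA]
            have := Finset.card_le_card hA
            omega
          rw [← h6, pow_add, ← hpq, mul_pow p q]
          ring
      _ ≤ 2 ^ (E G D).card * m G q (r ⊔ mg D) O := by
          apply mul_le_mul_of_nonneg_right _ (hnn _)
          exact pow_le_pow_left₀ (by linarith) (by linarith) _
  have hW : W.Nonempty := hK.mono hKW
  have hloops : m G q (r ⊔ mg D) (E G D ∪ O) = m G q (r ⊔ mg D) O := by
    rw [Finset.union_comm]
    apply m_loops
    intro e he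
    rw [E, Finset.mem_filter] at he
    have h1 : mg D ≤ r ⊔ mg D := le_sup_right
    exact h1 (Or.inr he.2)
  have hlc := lcost G q hW hWD (Finset.Subset.refl D) hL r hfree
  rw [hloops] at hlc
  have hWnn : 0 ≤ m G q (r ⊔ mg W) (E G D ∪ O) := by
    have h1 : 0 ≤ 2 ^ (D \ W).card * m G q (r ⊔ mg W) (E G D ∪ O) := (hnn _).trans hlc
    exact nonneg_of_mul_nonneg_right h1 (by positivity)
  have hcardD : (D \ W).card ≤ D.card := Finset.card_le_card Finset.sdiff_subset
  calc |∑ A ∈ (E G D).powerset,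
          f (pat W (conn G A ⊔ mg K)) * (wt q (E G D) A * m G q (r ⊔ conn G A) O)|
      ≤ ∑ A ∈ (E G D).powerset,
          |f (pat W (conn G A ⊔ mg K)) * (wt q (E G D) A * m G q (r ⊔ conn G A) O)| :=
        Finset.abs_sum_le_sum_abs _ _
    _ ≤ ∑ _A ∈ (E G D).powerset, 2 ^ (E G D).card * m G q (r ⊔ mg D) O :=
        Finset.sum_le_sum hterm
    _ = 4 ^ (E G D).card * m G q (r ⊔ mg D) O := by
        rw [Finset.sum_const, Finset.card_powerset, nsmul_eq_mul]
        push_cast
        rw [← mul_assoc, ← mul_pow]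
        norm_num
    _ ≤ 4 ^ (E G D).card * (2 ^ D.card * m G q (r ⊔ mg W) (E G D ∪ O)) := by
        apply mul_le_mul_of_nonneg_left _ (by positivity)
        refine hlc.trans (mul_le_mul_of_nonneg_right ?_ hWnn)
        exact pow_le_pow_right₀ (by norm_num) hcardD
    _ = 4 ^ (E G D).card * 2 ^ D.card * m G q (r ⊔ mg W) (E G D ∪ O) := by ring

end A7

end Pool.Agent.H753R2.FR
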