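import Mathlib
import Pool.Agent.H753R2.FR.Defs
set_option autoImplicit false

/-!
Task B: the counting lemma.
-/

namespace Pool.Agent.H753R2.FR

open Finset

namespace TB

/-! ### Real inequalities -/

theorem real_step {k j : ℕ} (hj : j + 1 ≤ k) :
    (k : ℝ) ≤ Real.exp (4 * j / Real.sqrt k) * ((k : ℝ) - j) := by
  have hk1 : (1 : ℝ) ≤ k := by
    have : 1 ≤ k := by omega
    exact_mod_cast this
  have hk0 : (0 : ℝ) < k := by linarith
  have hj' : (j : ℝ) + 1 ≤ k := by exact_mod_cast hj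
  have hj0 : (0 : ℝ) ≤ j := Nat.cast_nonneg j
  have hs1 : 1 ≤ Real.sqrt k := by
    rw [Real.one_le_sqrt]
    exact hk1
  have hs0 : 0 < Real.sqrt k := by linarith
  have hss : Real.sqrt k * Real.sqrt k = k := Real.mul_self_sqrt hk0.le
  rcases le_or_gt (2 * (j : ℝ)) k with h | h
  · have h1 : 1 + 4 * (j : ℝ) / k ≤ Real.exp (4 * j / Real.sqrt k) := by
      have h2 : 4 * (j : ℝ) / k ≤ 4 * j / Real.sqrt k := by
        apply div_le_div_of_nonneg_left (by positivity) hs0
        nlinarith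
      have h3 := Real.add_one_le_exp (4 * (j : ℝ) / Real.sqrt k)
      linarith
    have h4 : (k : ℝ) ≤ (1 + 4 * (j : ℝ) / k) * ((k : ℝ) - j) := by
      have h5 : (1 + 4 * (j : ℝ) / k) * ((k : ℝ) - j) - k = j * (3 * k - 4 * j) / k := by
        field_simp
        ring
      have h6 : 0 ≤ j * (3 * k - 4 * j) / (k : ℝ) := by
        apply div_nonneg _ hk0.le
        apply mul_nonneg hj0
        linarith
      linarith
    refine h4.trans (mul_le_mul_of_nonneg_right h1 (by linarith))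
  · have h1 : 2 * Real.sqrt k ≤ 4 * j / Real.sqrt k := by
      rw [le_div_iff₀ hs0]
      nlinarith
    have h2 : (k : ℝ) ≤ Real.exp (4 * j / Real.sqrt k) := by
      have h3 := Real.quadratic_le_exp_of_nonneg (x := 2 * Real.sqrt k) (by positivity)
      have h4 := Real.exp_le_exp.2 h1
      nlinarith
    have h5 : (1 : ℝ) ≤ (k : ℝ) - j := by linarith
    have h6 : 0 < Real.exp (4 * j / Real.sqrt k) := Real.exp_pos _
    nlinarith

/-- the constant `B0` -/
noncomputable def B0 (c : ℝ) : ℝ := 4 / (Real.sqrt c * (1 - (2 : ℝ) ^ (-(1 : ℝ) / 6)))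

theorem two_pow_lt : (2 : ℝ) ^ (-(1 : ℝ) / 6) < 1 := by
  apply Real.rpow_lt_one_of_one_lt_of_neg <;> norm_num

theorem B0_pos {c : ℝ} (hc : 0 < c) : 0 < B0 c := by
  unfold B0
  have := two_pow_lt
  have h1 : 0 < 1 - (2 : ℝ) ^ (-(1 : ℝ) / 6) := by linarith
  have h2 := Real.sqrt_pos.2 hc
  positivity

theorem real_pot {c : ℝ} (hc : 0 < c) {n n' k : ℕ} (hn : 1 ≤ n) (hn' : 2 * n ≤ n')
    (hk : c * (n : ℝ) ^ ((1 : ℝ) / 3) ≤ k) :
    B0 c * (1 - (n : ℝ) ^ (-(1 : ℝ) / 6)) + 4 / Real.sqrt k ≤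
      B0 c * (1 - (n' : ℝ) ^ (-(1 : ℝ) / 6)) := by
  have hn0 : (0 : ℝ) < n := by exact_mod_cast hn
  have hB := B0_pos hc
  have h1 : (n' : ℝ) ^ (-(1 : ℝ) / 6) ≤ (2 * (n : ℝ)) ^ (-(1 : ℝ) / 6) := by
    apply Real.rpow_le_rpow_of_nonpos (by positivity) _ (by norm_num)
    exact_mod_cast hn'
  rw [Real.mul_rpow (by norm_num) hn0.le] at h1
  have h2 : 4 / Real.sqrt k ≤ B0 c * ((n : ℝ) ^ (-(1 : ℝ) / 6) * (1 - (2 : ℝ) ^ (-(1 : ℝ) / 6))) := by
    have h3 : 0 < 1 - (2 : ℝ) ^ (-(1 : ℝ) / 6) := by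
      have := two_pow_lt
      linarith
    have h4 : 0 < Real.sqrt c := Real.sqrt_pos.2 hc
    have h5 : B0 c * ((n : ℝ) ^ (-(1 : ℝ) / 6) * (1 - (2 : ℝ) ^ (-(1 : ℝ) / 6))) =
        4 / (Real.sqrt c * (n : ℝ) ^ ((1 : ℝ) / 6)) := by
      have h6 : (n : ℝ) ^ (-(1 : ℝ) / 6) = ((n : ℝ) ^ ((1 : ℝ) / 6))⁻¹ := by
        rw [← Real.rpow_neg hn0.le]
        norm_num
      have h7 : (n : ℝ) ^ ((1 : ℝ) / 6) ≠ 0 := (Real.rpow_pos_of_pos hn0 _).ne'
      rw [h6]
      unfold B0
      generalize (2 : ℝ) ^ (-(1 : ℝ) / 6) = t at h3 ⊢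
      have h3' := h3.ne'
      have h4' := h4.ne'
      field_simp
    rw [h5]
    apply div_le_div_of_nonneg_left (by norm_num) (by positivity)
    rw [← Real.sqrt_sq (x := Real.sqrt c * (n : ℝ) ^ ((1 : ℝ) / 6)) (by positivity)]
    apply Real.sqrt_le_sqrt
    have h8 : (Real.sqrt c * (n : ℝ) ^ ((1 : ℝ) / 6)) ^ 2 = c * (n : ℝ) ^ ((1 : ℝ) / 3) := by
      rw [mul_pow, Real.sq_sqrt hc.le, ← Real.rpow_natCast ((n : ℝ) ^ ((1 : ℝ) / 6)) 2,
        ← Real.rpow_mul hn0.le]
      norm_num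
    rw [h8]
    exact hk
  nlinarith

theorem real_two {k : ℕ} (hk : 2 ≤ k) : 4 / Real.sqrt k ≤ 3 := by
  have h1 : (4 : ℝ) / 3 ≤ Real.sqrt k := by
    apply Real.le_sqrt_of_sq_le
    have : (2 : ℝ) ≤ k := by exact_mod_cast hk
    linarith
  rw [div_le_iff₀ (by linarith)]
  linarith

/-! ### States -/

section states

variable {V I : Type} [DecidableEq V] [DecidableEq I] [Fintype V] [Fintype I]

/-- size of a class -/
def nf (D : Finset V) (f : V → V) (a : V) : ℕ := (D.filter (fun b => f b = f a)).card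

/-- the potential of a vertex -/
noncomputable def hf (c : ℝ) (D : Finset V) (u k0 : V) (f : V → V) (a : V) : ℝ :=
  if f a = f u ∨ f a = f k0 then B0 c + 3 else B0 c * (1 - (nf D f a : ℝ) ^ (-(1 : ℝ) / 6))

/-- compatibility -/
def Cmp (D Y : Finset V) (f : V → V) : Prop := ∀ a ∈ D, ∀ b ∈ D, f a = f b → (a ∈ Y ↔ b ∈ Y)

/-- the weight -/
noncomputable def Wf (G : MG V I) (lam : ℝ) (h : V → ℝ) (D Y : Finset V) : ℝ :=
  ∏ e ∈ cut G Y (D \ Y), (lam * Real.exp (h (G.x e) + h (G.y e)))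

open Classical in
/-- the weighted sum of a state -/
noncomputable def Sf (G : MG V I) (c lam : ℝ) (D K : Finset V) (u k0 : V) (f : V → V) : ℝ :=
  ∑ Y ∈ (fam G D K u).filter (fun Y => Cmp D Y f), Wf G lam (hf c D u k0 f) D Y

/-- merging the class `z` into the class `z'` -/
def mrg (f : V → V) (z z' : V) (v : V) : V := if f v = z then z' else f v

theorem mem_fam {G : MG V I} {D K : Finset V} {u : V} {Y : Finset V} :
    Y ∈ fam G D K u ↔ Y ⊆ D \ K ∧ u ∈ Y ∧ Kconn G Y {u} ∧ Kconn G (D \ Y) K := by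
  simp only [fam, Finset.mem_filter, Finset.mem_powerset]

theorem nf_pos {D : Finset V} {f : V → V} {a : V} (ha : a ∈ D) : 1 ≤ nf D f a := by
  unfold nf
  exact Finset.card_pos.2 ⟨a, Finset.mem_filter.2 ⟨ha, rfl⟩⟩

theorem hf_le {c : ℝ} (hc : 0 < c) {D : Finset V} {u k0 : V} {f : V → V} {a : V} (ha : a ∈ D) :
    hf c D u k0 f a ≤ B0 c + 3 := by
  unfold hf
  have hB := B0_pos hc
  split_ifs
  · exact le_rfl
  · have h1 : 0 ≤ (nf D f a : ℝ) ^ (-(1 : ℝ) / 6) := by positivity
    nlinarith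

theorem hf_nonneg {c : ℝ} (hc : 0 < c) {D : Finset V} {u k0 : V} {f : V → V} {a : V}
    (ha : a ∈ D) : 0 ≤ hf c D u k0 f a := by
  unfold hf
  have hB := B0_pos hc
  split_ifs
  · linarith
  · apply mul_nonneg hB.le
    have h2 : (1 : ℝ) ≤ nf D f a := by exact_mod_cast nf_pos ha
    have h1 : (nf D f a : ℝ) ^ (-(1 : ℝ) / 6) ≤ 1 :=
      Real.rpow_le_one_of_one_le_of_nonpos h2 (by norm_num)
    linarith

section merge

variable {c : ℝ} {D K : Finset V} {u k0 : V} {f : V → V} {a0 b0 : V}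

theorem mrg_ne {v z z' : V} (h : f v ≠ z) : mrg f z z' v = f v := if_neg h

theorem mrg_eq {v z z' : V} (h : f v = z) : mrg f z z' v = z' := if_pos h

/-- the class of `a` grows -/
theorem nf_mrg (a : V) : nf D f a ≤ nf D (mrg f (f a0) (f b0)) a := by
  unfold nf
  apply Finset.card_le_card
  intro b hb
  rw [Finset.mem_filter] at hb ⊢
  refine ⟨hb.1, ?_⟩
  unfold mrg
  rw [hb.2]

/-- the class of `a0` doubles -/
theorem nf_mrg2 (hne : f b0 ≠ f a0) (hmin : nf D f a0 ≤ nf D f b0) {a : V} (ha : f a = f a0) :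
    2 * nf D f a0 ≤ nf D (mrg f (f a0) (f b0)) a := by
  have h1 : nf D (mrg f (f a0) (f b0)) a = nf D f a0 + nf D f b0 := by
    unfold nf
    rw [← Finset.card_union_of_disjoint]
    · congr 1
      ext b
      simp only [Finset.mem_filter, Finset.mem_union]
      unfold mrg
      rw [if_pos ha]
      by_cases hb : f b = f a0
      · simp only [hb, if_true, and_true]
        constructor
        · exact fun h => Or.inl h
        · rintro (h | h)
          · exact h
          · exact h.1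
      · simp only [hb, if_false, and_false, false_or]
    · rw [Finset.disjoint_left]
      intro b hb hb'
      rw [Finset.mem_filter] at hb hb'
      exact hne (hb'.2.symm.trans hb.2)
  omega

/-- monotonicity of the potential -/
theorem hf_mrg (hc : 0 < c) (hu : f a0 ≠ f u) (hk : f a0 ≠ f k0) {a : V} (ha : a ∈ D) :
    hf c D u k0 f a ≤ hf c D u k0 (mrg f (f a0) (f b0)) a := by
  have hB := B0_pos hc
  have eu : mrg f (f a0) (f b0) u = f u := mrg_ne hu.symm
  have ek : mrg f (f a0) (f b0) k0 = f k0 := mrg_ne hk.symm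
  by_cases h1 : mrg f (f a0) (f b0) a = f u ∨ mrg f (f a0) (f b0) a = f k0
  · have h2 : hf c D u k0 (mrg f (f a0) (f b0)) a = B0 c + 3 := by
      unfold hf
      rw [eu, ek, if_pos h1]
    rw [h2]
    exact hf_le hc ha
  · have h3 : ¬ (f a = f u ∨ f a = f k0) := by
      intro h4
      apply h1
      have h5 : f a ≠ f a0 := by
        rcases h4 with h4 | h4
        · rw [h4]; exact hu.symm
        · rw [h4]; exact hk.symm
      rw [mrg_ne h5]
      exact h4
    unfold hf
    rw [eu, ek, if_neg h1, if_neg h3]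
    apply mul_le_mul_of_nonneg_left _ hB.le
    have h6 : (1 : ℝ) ≤ nf D f a := by exact_mod_cast nf_pos ha
    have h7 : (nf D f a : ℝ) ≤ nf D (mrg f (f a0) (f b0)) a := by exact_mod_cast nf_mrg a
    have h8 := Real.rpow_le_rpow_of_nonpos (by linarith : (0 : ℝ) < nf D f a) h7
      (by norm_num : (-(1 : ℝ) / 6) ≤ 0)
    linarith

/-- the potential of the smallest class increases by `4 / √k` -/
theorem hf_gain (hc : 0 < c) (hu : f a0 ≠ f u) (hk : f a0 ≠ f k0) (hne : f b0 ≠ f a0)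
    (ha0 : a0 ∈ D) {k : ℕ} (hk2 : 2 ≤ k)
    (hkc : ¬ (f b0 = f u ∨ f b0 = f k0) → c * (nf D f a0 : ℝ) ^ ((1 : ℝ) / 3) ≤ k)
    (hmin : ¬ (f b0 = f u ∨ f b0 = f k0) → nf D f a0 ≤ nf D f b0) {a : V}
    (ha' : f a = f a0) :
    hf c D u k0 f a + 4 / Real.sqrt k ≤ hf c D u k0 (mrg f (f a0) (f b0)) a := by
  have hB := B0_pos hc
  have eu : mrg f (f a0) (f b0) u = f u := mrg_ne hu.symm
  have ek : mrg f (f a0) (f b0) k0 = f k0 := mrg_ne hk.symm
  have ea : mrg f (f a0) (f b0) a = f b0 := mrg_eq ha'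
  have h3 : ¬ (f a = f u ∨ f a = f k0) := by
    rw [ha']
    rintro (h | h)
    · exact hu h
    · exact hk h
  have en : nf D f a = nf D f a0 := by
    unfold nf
    rw [ha']
  have e1 : hf c D u k0 f a = B0 c * (1 - (nf D f a0 : ℝ) ^ (-(1 : ℝ) / 6)) := by
    unfold hf
    rw [if_neg h3, en]
  rw [e1]
  by_cases h1 : f b0 = f u ∨ f b0 = f k0
  · have h2 : hf c D u k0 (mrg f (f a0) (f b0)) a = B0 c + 3 := by
      unfold hf
      rw [eu, ek, ea, if_pos h1]
    rw [h2]
    have h4 := real_two hk2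
    have h5 : 0 ≤ (nf D f a0 : ℝ) ^ (-(1 : ℝ) / 6) := by positivity
    nlinarith
  · have h2 : hf c D u k0 (mrg f (f a0) (f b0)) a =
        B0 c * (1 - (nf D (mrg f (f a0) (f b0)) a : ℝ) ^ (-(1 : ℝ) / 6)) := by
      unfold hf
      rw [eu, ek, ea, if_neg h1]
    rw [h2]
    exact real_pot hc (nf_pos ha0) (nf_mrg2 hne (hmin h1) ha') (hkc h1)

end merge

section main

variable {G : MG V I} {c lam : ℝ} {D K : Finset V} {u k0 : V}

theorem mem_cut {Y T : Finset V} {e : I} :
    e ∈ cut G Y T ↔ (G.x e ∈ Y ∧ G.y e ∈ T) ∨ (G.x e ∈ T ∧ G.y e ∈ Y) := by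
  unfold cut
  rw [Finset.mem_filter]
  simp

theorem Wf_nonneg (hlam : 0 ≤ lam) (h : V → ℝ) (Y : Finset V) : 0 ≤ Wf G lam h D Y :=
  Finset.prod_nonneg fun _ _ => mul_nonneg hlam (Real.exp_pos _).le

/-- the weight after merging -/
theorem Wf_step (hc : 0 < c) (hlam : 0 ≤ lam) {f : V → V} {a0 b0 : V} (hu : f a0 ≠ f u)
    (hk : f a0 ≠ f k0) (hne : f b0 ≠ f a0) (ha0 : a0 ∈ D) {k : ℕ} (hk2 : 2 ≤ k)
    (hkc : ¬ (f b0 = f u ∨ f b0 = f k0) → c * (nf D f a0 : ℝ) ^ ((1 : ℝ) / 3) ≤ k)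
    (hmin : ¬ (f b0 = f u ∨ f b0 = f k0) → nf D f a0 ≤ nf D f b0) {Y : Finset V} (hY : Y ⊆ D)
    (N : Finset I) (hN : N = cut G (D.filter (fun b => f b = f a0))
      (D \ D.filter (fun b => f b = f a0))) :
    Real.exp (4 * ((cut G Y (D \ Y)).filter (· ∈ N)).card / Real.sqrt k) *
      Wf G lam (hf c D u k0 f) D Y ≤ Wf G lam (hf c D u k0 (mrg f (f a0) (f b0))) D Y := by
  have e1 : Real.exp (4 * ((cut G Y (D \ Y)).filter (· ∈ N)).card / Real.sqrt k) =
      ∏ e ∈ cut G Y (D \ Y), (if e ∈ N then Real.exp (4 / Real.sqrt k) else 1) := by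
    rw [Finset.prod_ite, Finset.prod_const, Finset.prod_const_one, mul_one, ← Real.exp_nat_mul]
    congr 1
    ring
  unfold Wf
  rw [e1, ← Finset.prod_mul_distrib]
  refine Finset.prod_le_prod (fun e _ => ?_) fun e he => ?_
  · split_ifs
    · exact mul_nonneg (Real.exp_pos _).le (mul_nonneg hlam (Real.exp_pos _).le)
    · exact mul_nonneg zero_le_one (mul_nonneg hlam (Real.exp_pos _).le)
  · have hends : G.x e ∈ D ∧ G.y e ∈ D := by
      rw [mem_cut] at he
      rcases he with ⟨h1, h2⟩ | ⟨h1, h2⟩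
      · exact ⟨hY h1, (Finset.mem_sdiff.1 h2).1⟩
      · exact ⟨(Finset.mem_sdiff.1 h1).1, hY h2⟩
    have hx := hf_mrg (b0 := b0) hc hu hk hends.1
    have hy := hf_mrg (b0 := b0) hc hu hk hends.2
    split_ifs with heN
    · rw [mul_left_comm, ← Real.exp_add]
      apply mul_le_mul_of_nonneg_left _ hlam
      apply Real.exp_le_exp.2
      rw [hN, mem_cut] at heN
      rcases heN with ⟨h1, _⟩ | ⟨_, h1⟩
      · have := hf_gain hc hu hk hne ha0 hk2 hkc hmin (Finset.mem_filter.1 h1).2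
        linarith
      · have := hf_gain hc hu hk hne ha0 hk2 hkc hmin (Finset.mem_filter.1 h1).2
        linarith
    · rw [one_mul]
      apply mul_le_mul_of_nonneg_left _ hlam
      apply Real.exp_le_exp.2
      linarith

/-- some edge at the class is not in the cut of `Y` -/
theorem cut_lt {f : V → V} (hKf : ∀ k ∈ K, f k = f k0) {a0 : V} (hu : f a0 ≠ f u)
    (hk : f a0 ≠ f k0) (ha0 : a0 ∈ D) {Y : Finset V} (hY : Y ∈ fam G D K u) (hC : Cmp D Y f)
    (N : Finset I) (hN : N = cut G (D.filter (fun b => f b = f a0))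
      (D \ D.filter (fun b => f b = f a0))) :
    ∃ e ∈ N, e ∉ cut G Y (D \ Y) := by
  obtain ⟨h1, h2, h3, h4⟩ := mem_fam.1 hY
  by_cases haY : a0 ∈ Y
  · have h5 : D.filter (fun b => f b = f a0) ⊆ Y \ {u} := by
      intro b hb
      rw [Finset.mem_filter] at hb
      rw [Finset.mem_sdiff, Finset.mem_singleton]
      refine ⟨(hC b hb.1 a0 ha0 hb.2).2 haY, ?_⟩
      rintro rfl
      exact hu hb.2.symm
    obtain ⟨e, he⟩ := h3 _ h5 ⟨a0, Finset.mem_filter.2 ⟨ha0, rfl⟩⟩
    rw [mem_cut] at he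
    refine ⟨e, ?_, ?_⟩
    · rw [hN, mem_cut]
      rcases he with ⟨h6, h7⟩ | ⟨h6, h7⟩
      · left
        rw [Finset.mem_sdiff] at h7
        exact ⟨h6, Finset.mem_sdiff.2 ⟨(Finset.mem_sdiff.1 (h1 h7.1)).1, h7.2⟩⟩
      · right
        rw [Finset.mem_sdiff] at h6
        exact ⟨Finset.mem_sdiff.2 ⟨(Finset.mem_sdiff.1 (h1 h6.1)).1, h6.2⟩, h7⟩
    · rw [mem_cut]
      have hsub : D.filter (fun b => f b = f a0) ⊆ Y := fun b hb => (Finset.mem_sdiff.1 (h5 hb)).1
      rintro (⟨h8, h9⟩ | ⟨h8, h9⟩)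
      · rw [Finset.mem_sdiff] at h9
        rcases he with ⟨h6, h7⟩ | ⟨h6, h7⟩
        · exact h9.2 (Finset.mem_sdiff.1 h7).1
        · exact h9.2 (hsub h7)
      · rw [Finset.mem_sdiff] at h8
        rcases he with ⟨h6, h7⟩ | ⟨h6, h7⟩
        · exact h8.2 (hsub h6)
        · exact h8.2 (Finset.mem_sdiff.1 h6).1
  · have h5 : D.filter (fun b => f b = f a0) ⊆ (D \ Y) \ K := by
      intro b hb
      rw [Finset.mem_filter] at hb
      rw [Finset.mem_sdiff, Finset.mem_sdiff]
      refine ⟨⟨hb.1, fun hbY => haY ((hC b hb.1 a0 ha0 hb.2).1 hbY)⟩, ?_⟩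
      intro hbK
      exact hk (hb.2.symm.trans (hKf b hbK))
    obtain ⟨e, he⟩ := h4 _ h5 ⟨a0, Finset.mem_filter.2 ⟨ha0, rfl⟩⟩
    rw [mem_cut] at he
    have hsub : D.filter (fun b => f b = f a0) ⊆ D \ Y := fun b hb =>
      (Finset.mem_sdiff.1 (h5 hb)).1
    refine ⟨e, ?_, ?_⟩
    · rw [hN, mem_cut]
      rcases he with ⟨h6, h7⟩ | ⟨h6, h7⟩
      · left
        rw [Finset.mem_sdiff] at h7
        exact ⟨h6, Finset.mem_sdiff.2 ⟨(Finset.mem_sdiff.1 h7.1).1, h7.2⟩⟩
      · right
        rw [Finset.mem_sdiff] at h6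
        exact ⟨Finset.mem_sdiff.2 ⟨(Finset.mem_sdiff.1 h6.1).1, h6.2⟩, h7⟩
    · rw [mem_cut]
      rintro (⟨h8, h9⟩ | ⟨h8, h9⟩)
      · rcases he with ⟨h6, h7⟩ | ⟨h6, h7⟩
        · exact (Finset.mem_sdiff.1 (hsub h6)).2 h8
        · exact (Finset.mem_sdiff.1 (Finset.mem_sdiff.1 h6).1).2 h8
      · rcases he with ⟨h6, h7⟩ | ⟨h6, h7⟩
        · exact (Finset.mem_sdiff.1 (Finset.mem_sdiff.1 h7).1).2 h9
        · exact (Finset.mem_sdiff.1 (hsub h7)).2 h9

/-- the other end of an edge at the class of `a0` -/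
def oe (G : MG V I) (f : V → V) (a0 : V) (e : I) : V :=
  if f (G.x e) = f a0 then G.y e else G.x e

theorem oe_spec {f : V → V} {a0 : V} {e : I}
    (he : e ∈ cut G (D.filter (fun b => f b = f a0)) (D \ D.filter (fun b => f b = f a0))) :
    oe G f a0 e ∈ D ∧ f (oe G f a0 e) ≠ f a0 := by
  rw [mem_cut] at he
  unfold oe
  rcases he with ⟨h1, h2⟩ | ⟨h1, h2⟩
  · rw [Finset.mem_filter] at h1
    rw [Finset.mem_sdiff, Finset.mem_filter] at h2
    rw [if_pos h1.2]
    exact ⟨h2.1, fun h => h2.2 ⟨h2.1, h⟩⟩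
  · rw [Finset.mem_filter] at h2
    rw [Finset.mem_sdiff, Finset.mem_filter] at h1
    have h3 : f (G.x e) ≠ f a0 := fun h => h1.2 ⟨h1.1, h⟩
    rw [if_neg h3]
    exact ⟨h1.1, h3⟩

/-- compatibility after merging -/
theorem Cmp_step {f : V → V} {a0 : V} {e : I} {Y : Finset V} (hC : Cmp D Y f) (ha0 : a0 ∈ D)
    (hYD : Y ⊆ D)
    (he : e ∈ cut G (D.filter (fun b => f b = f a0)) (D \ D.filter (fun b => f b = f a0)))
    (heY : e ∉ cut G Y (D \ Y)) : Cmp D Y (mrg f (f a0) (f (oe G f a0 e))) := by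
  -- the two ends are on the same side
  have hD : G.x e ∈ D ∧ G.y e ∈ D := by
    rw [mem_cut] at he
    rcases he with ⟨h1, h2⟩ | ⟨h1, h2⟩
    · exact ⟨(Finset.mem_filter.1 h1).1, (Finset.mem_sdiff.1 h2).1⟩
    · exact ⟨(Finset.mem_sdiff.1 h1).1, (Finset.mem_filter.1 h2).1⟩
  have hside : G.x e ∈ Y ↔ G.y e ∈ Y := by
    rw [mem_cut] at heY
    constructor
    · intro hx
      by_contra hy
      exact heY (Or.inl ⟨hx, Finset.mem_sdiff.2 ⟨hD.2, hy⟩⟩)
    · intro hy
      by_contra hx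
      exact heY (Or.inr ⟨Finset.mem_sdiff.2 ⟨hD.1, hx⟩, hy⟩)
  have hkey : a0 ∈ Y ↔ oe G f a0 e ∈ Y := by
    rw [mem_cut] at he
    unfold oe
    rcases he with ⟨h1, h2⟩ | ⟨h1, h2⟩
    · rw [Finset.mem_filter] at h1
      rw [if_pos h1.2, ← hside]
      exact hC a0 ha0 _ h1.1 h1.2.symm
    · rw [Finset.mem_filter] at h2
      rw [Finset.mem_sdiff, Finset.mem_filter] at h1
      have h3 : f (G.x e) ≠ f a0 := fun h => h1.2 ⟨h1.1, h⟩
      rw [if_neg h3, hside]
      exact hC a0 ha0 _ h2.1 h2.2.symm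
  have hoD := (oe_spec he).1
  have hnew : ∀ a ∈ D, f a = f a0 → (a ∈ Y ↔ oe G f a0 e ∈ Y) := fun a ha h =>
    (hC a ha a0 ha0 h).trans hkey
  intro a ha b hb hab
  unfold mrg at hab
  by_cases h1 : f a = f a0
  · by_cases h2 : f b = f a0
    · exact hC a ha b hb (h1.trans h2.symm)
    · rw [if_pos h1, if_neg h2] at hab
      exact (hnew a ha h1).trans (hC _ hoD b hb hab)
  · by_cases h2 : f b = f a0
    · rw [if_neg h1, if_pos h2] at hab
      exact (hC a ha _ hoD hab).trans (hnew b hb h2).symm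
    · rw [if_neg h1, if_neg h2] at hab
      exact hC a ha b hb hab

/-- the base case -/
theorem base (hc : 0 < c) (hlam : 0 ≤ lam) (hlam1 : lam * Real.exp (2 * (B0 c + 3)) ≤ 1)
    (hk0 : k0 ∈ K) (hKD : K ⊆ D) (hu : u ∈ D \ K)
    (h2 : ∀ Z, Z ⊆ D \ K → Z.Nonempty → 2 ≤ (cut G Z (D \ Z)).card) (f : V → V)
    (hall : ∀ a ∈ D, f a = f u ∨ f a = f k0) :
    Sf G c lam D K u k0 f ≤ (lam * Real.exp (2 * (B0 c + 3))) ^ 2 := by
  classical
  unfold Sf
  have _ := hc
  rcases ((fam G D K u).filter (fun Y => Cmp D Y f)).eq_empty_or_nonempty with h | ⟨Y, hY⟩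
  · rw [h, Finset.sum_empty]
    positivity
  · have huniq : ∀ Y' ∈ (fam G D K u).filter (fun Y => Cmp D Y f),
        Y' = D.filter (fun a => f a = f u) := by
      intro Y' hY'
      rw [Finset.mem_filter] at hY'
      obtain ⟨hf, hC⟩ := hY'
      obtain ⟨h3, h4, _, _⟩ := mem_fam.1 hf
      ext a
      rw [Finset.mem_filter]
      constructor
      · intro ha
        have haD := (Finset.mem_sdiff.1 (h3 ha)).1
        refine ⟨haD, ?_⟩
        rcases hall a haD with h5 | h5
        · exact h5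
        · exfalso
          have h6 := (hC a haD k0 (hKD hk0) h5).1 ha
          exact (Finset.mem_sdiff.1 (h3 h6)).2 hk0
      · rintro ⟨haD, h5⟩
        exact (hC a haD u (Finset.mem_sdiff.1 hu).1 h5).2 h4
    have hsub : (fam G D K u).filter (fun Y => Cmp D Y f) = {Y} := by
      apply Finset.Subset.antisymm
      · intro Y' hY'
        rw [Finset.mem_singleton, huniq Y' hY', huniq Y hY]
      · exact Finset.singleton_subset_iff.2 hY
    rw [hsub, Finset.sum_singleton]
    rw [Finset.mem_filter] at hY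
    obtain ⟨h3, h4, _, _⟩ := mem_fam.1 hY.1
    have hYD : Y ⊆ D := fun a ha => (Finset.mem_sdiff.1 (h3 ha)).1
    have hW : Wf G lam (hf c D u k0 f) D Y =
        (lam * Real.exp (2 * (B0 c + 3))) ^ (cut G Y (D \ Y)).card := by
      unfold Wf
      rw [← Finset.prod_const]
      refine Finset.prod_congr rfl fun e he => ?_
      have hends : G.x e ∈ D ∧ G.y e ∈ D := by
        rw [mem_cut] at he
        rcases he with ⟨h1, h2⟩ | ⟨h1, h2⟩
        · exact ⟨hYD h1, (Finset.mem_sdiff.1 h2).1⟩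
        · exact ⟨(Finset.mem_sdiff.1 h1).1, hYD h2⟩
      unfold hf
      rw [if_pos (hall _ hends.1), if_pos (hall _ hends.2)]
      congr 2
      ring
    rw [hW]
    exact pow_le_pow_of_le_one (by positivity) hlam1 (h2 Y h3 ⟨u, h4⟩)

/-- **the claim** -/
theorem claim (hc : 0 < c) (hlam : 0 ≤ lam) (hlam1 : lam * Real.exp (2 * (B0 c + 3)) ≤ 1)
    (hk0 : k0 ∈ K) (hKD : K ⊆ D) (hu : u ∈ D \ K)
    (h2 : ∀ Z, Z ⊆ D \ K → Z.Nonempty → 2 ≤ (cut G Z (D \ Z)).card)
    (h3 : ∀ Z, Z ⊆ D \ K → Z.Nonempty →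
        c * ((min Z.card (D \ Z).card : ℕ) : ℝ) ^ ((1 : ℝ) / 3) ≤ ((cut G Z (D \ Z)).card : ℝ)) :
    ∀ (n : ℕ) (f : V → V), (D.image f).card ≤ n → (∀ k ∈ K, f k = f k0) →
      Sf G c lam D K u k0 f ≤ (lam * Real.exp (2 * (B0 c + 3))) ^ 2 := by
  classical
  intro n
  induction n with
  | zero =>
    intro f hn
    exfalso
    have h4 : f k0 ∈ D.image f := Finset.mem_image_of_mem f (hKD hk0)
    have h5 := Finset.card_pos.2 ⟨_, h4⟩
    omega
  | succ n ih =>
    intro f hn hKf
    by_cases hall : ∀ a ∈ D, f a = f u ∨ f a = f k0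
    · exact base hc hlam hlam1 hk0 hKD hu h2 f hall
    · push Not at hall
      obtain ⟨a1, ha1, ha1'⟩ := hall
      obtain ⟨a0, ha0, hmin⟩ := Finset.exists_min_image
        (D.filter (fun a => ¬ (f a = f u ∨ f a = f k0))) (nf D f)
        ⟨a1, Finset.mem_filter.2 ⟨ha1, by
          rintro (h | h)
          · exact ha1'.1 h
          · exact ha1'.2 h⟩⟩
      rw [Finset.mem_filter] at ha0
      obtain ⟨ha0D, ha0n⟩ := ha0
      have hau : f a0 ≠ f u := fun h => ha0n (Or.inl h)
      have hak : f a0 ≠ f k0 := fun h => ha0n (Or.inr h)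
      set Z := D.filter (fun b => f b = f a0) with hZ
      have hZK : Z ⊆ D \ K := by
        intro b hb
        rw [hZ, Finset.mem_filter] at hb
        rw [Finset.mem_sdiff]
        refine ⟨hb.1, fun hbK => hak ?_⟩
        rw [← hb.2]
        exact hKf b hbK
      have hZn : Z.Nonempty := ⟨a0, Finset.mem_filter.2 ⟨ha0D, rfl⟩⟩
      set N := cut G Z (D \ Z) with hN
      have hk2 : 2 ≤ N.card := h2 Z hZK hZn
      have hZc : Z.card = nf D f a0 := rfl
      have hN0 : (0 : ℝ) < N.card := by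
        have : 0 < N.card := by omega
        exact_mod_cast this
      -- facts about the other ends
      have hminb : ∀ b ∈ D, ¬ (f b = f u ∨ f b = f k0) → nf D f a0 ≤ nf D f b := fun b hb hb' =>
        hmin b (Finset.mem_filter.2 ⟨hb, hb'⟩)
      have hkc : ∀ b ∈ D, f b ≠ f a0 → ¬ (f b = f u ∨ f b = f k0) →
          c * (nf D f a0 : ℝ) ^ ((1 : ℝ) / 3) ≤ (N.card : ℝ) := by
        intro b hb hne hb'
        have h4 := h3 Z hZK hZn
        have h5 : nf D f b ≤ (D \ Z).card := by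
          unfold nf
          apply Finset.card_le_card
          intro x hx
          rw [Finset.mem_filter] at hx
          rw [Finset.mem_sdiff, hZ, Finset.mem_filter]
          exact ⟨hx.1, fun h => hne (hx.2.symm.trans h.2)⟩
        have h6 : min Z.card (D \ Z).card = nf D f a0 := by
          have := hminb b hb hb'
          rw [hZc]
          exact min_eq_left (this.trans h5)
        rw [h6] at h4
        exact h4
      -- the new states
      have hnew : ∀ e ∈ N, Sf G c lam D K u k0 (mrg f (f a0) (f (oe G f a0 e))) ≤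
          (lam * Real.exp (2 * (B0 c + 3))) ^ 2 := by
        intro e he
        obtain ⟨ho1, ho2⟩ := oe_spec he
        apply ih
        · have h4 : D.image (mrg f (f a0) (f (oe G f a0 e))) ⊆ (D.image f).erase (f a0) := by
            intro x hx
            rw [Finset.mem_image] at hx
            obtain ⟨b, hb, rfl⟩ := hx
            rw [Finset.mem_erase]
            unfold mrg
            by_cases h5 : f b = f a0
            · rw [if_pos h5]
              exact ⟨ho2, Finset.mem_image_of_mem f ho1⟩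
            · rw [if_neg h5]
              exact ⟨h5, Finset.mem_image_of_mem f hb⟩
          have h6 := Finset.card_le_card h4
          rw [Finset.card_erase_of_mem (Finset.mem_image_of_mem f ha0D)] at h6
          omega
        · intro k hk
          have h7 : f k ≠ f a0 := fun h => hak (h.symm.trans (hKf k hk))
          rw [mrg_ne h7, mrg_ne hak.symm]
          exact hKf k hk
      -- the inequality for each `Y`
      have hY1 : ∀ Y ∈ (fam G D K u).filter (fun Y => Cmp D Y f),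
          (N.card : ℝ) * Wf G lam (hf c D u k0 f) D Y ≤
            ∑ e ∈ N, if e ∉ cut G Y (D \ Y) then
              Wf G lam (hf c D u k0 (mrg f (f a0) (f (oe G f a0 e)))) D Y else 0 := by
        intro Y hY
        rw [Finset.mem_filter] at hY
        obtain ⟨hYf, hC⟩ := hY
        obtain ⟨h4, _, _, _⟩ := mem_fam.1 hYf
        have hYD : Y ⊆ D := fun a ha => (Finset.mem_sdiff.1 (h4 ha)).1
        set j := ((cut G Y (D \ Y)).filter (· ∈ N)).card with hj
        have hjN : (N.filter (fun e => e ∉ cut G Y (D \ Y))).card + j = N.card := by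
          have e1 : (cut G Y (D \ Y)).filter (· ∈ N) =
              N.filter (fun e => ¬ (e ∉ cut G Y (D \ Y))) := by
            ext e
            rw [Finset.mem_filter, Finset.mem_filter, not_not]
            exact and_comm
          rw [hj, e1]
          exact Finset.card_filter_add_card_filter_not _
        have hj1 : j + 1 ≤ N.card := by
          obtain ⟨e, he1, he2⟩ := cut_lt hKf hau hak ha0D hYf hC N hN
          have : 0 < (N.filter (fun e => e ∉ cut G Y (D \ Y))).card :=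
            Finset.card_pos.2 ⟨e, Finset.mem_filter.2 ⟨he1, he2⟩⟩
          omega
        have h5 := real_step hj1
        have hW0 : 0 ≤ Wf G lam (hf c D u k0 f) D Y := Wf_nonneg hlam _ _
        rw [← Finset.sum_filter]
        calc (N.card : ℝ) * Wf G lam (hf c D u k0 f) D Y
            ≤ (Real.exp (4 * j / Real.sqrt N.card) * ((N.card : ℝ) - j)) *
                Wf G lam (hf c D u k0 f) D Y := mul_le_mul_of_nonneg_right h5 hW0
          _ = ∑ _e ∈ N.filter (fun e => e ∉ cut G Y (D \ Y)),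
                Real.exp (4 * j / Real.sqrt N.card) * Wf G lam (hf c D u k0 f) D Y := by
              rw [Finset.sum_const, nsmul_eq_mul]
              have : ((N.filter (fun e => e ∉ cut G Y (D \ Y))).card : ℝ) =
                  (N.card : ℝ) - j := by
                rw [← hjN]
                push_cast
                ring
              rw [this]
              ring
          _ ≤ _ := by
              refine Finset.sum_le_sum fun e he => ?_
              rw [Finset.mem_filter] at he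
              obtain ⟨ho1, ho2⟩ := oe_spec he.1
              exact Wf_step hc hlam hau hak ho2 ha0D hk2 (hkc _ ho1 ho2) (hminb _ ho1) hYD N hN
      have hsum : (N.card : ℝ) * Sf G c lam D K u k0 f ≤
          (N.card : ℝ) * (lam * Real.exp (2 * (B0 c + 3))) ^ 2 := by
        calc (N.card : ℝ) * Sf G c lam D K u k0 f
            = ∑ Y ∈ (fam G D K u).filter (fun Y => Cmp D Y f),
                (N.card : ℝ) * Wf G lam (hf c D u k0 f) D Y := by
              unfold Sf
              rw [Finset.mul_sum]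
          _ ≤ ∑ Y ∈ (fam G D K u).filter (fun Y => Cmp D Y f),
                ∑ e ∈ N, if e ∉ cut G Y (D \ Y) then
                  Wf G lam (hf c D u k0 (mrg f (f a0) (f (oe G f a0 e)))) D Y else 0 :=
              Finset.sum_le_sum hY1
          _ = ∑ e ∈ N, ∑ Y ∈ (fam G D K u).filter (fun Y => Cmp D Y f),
                if e ∉ cut G Y (D \ Y) then
                  Wf G lam (hf c D u k0 (mrg f (f a0) (f (oe G f a0 e)))) D Y else 0 :=
              Finset.sum_comm
          _ ≤ ∑ e ∈ N, Sf G c lam D K u k0 (mrg f (f a0) (f (oe G f a0 e))) := by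
              refine Finset.sum_le_sum fun e he => ?_
              have e2 : Sf G c lam D K u k0 (mrg f (f a0) (f (oe G f a0 e))) =
                  ∑ Y ∈ (fam G D K u).filter
                    (fun Y => Cmp D Y (mrg f (f a0) (f (oe G f a0 e)))),
                    Wf G lam (hf c D u k0 (mrg f (f a0) (f (oe G f a0 e)))) D Y := by
                unfold Sf
                exact Finset.sum_congr (by congr) fun _ _ => rfl
              rw [e2, Finset.sum_filter, Finset.sum_filter]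
              refine Finset.sum_le_sum fun Y hY => ?_
              have hYD : Y ⊆ D := fun a ha => (Finset.mem_sdiff.1 ((mem_fam.1 hY).1 ha)).1
              have hW0 : 0 ≤ Wf G lam (hf c D u k0 (mrg f (f a0) (f (oe G f a0 e)))) D Y :=
                Wf_nonneg hlam _ _
              by_cases h6 : Cmp D Y f
              · rw [if_pos h6]
                by_cases h7 : e ∉ cut G Y (D \ Y)
                · rw [if_pos h7, if_pos (Cmp_step h6 ha0D hYD he h7)]
                · rw [if_neg h7]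
                  split_ifs
                  · exact hW0
                  · exact le_rfl
              · rw [if_neg h6]
                split_ifs
                · exact hW0
                · exact le_rfl
          _ ≤ ∑ _e ∈ N, (lam * Real.exp (2 * (B0 c + 3))) ^ 2 := Finset.sum_le_sum hnew
          _ = _ := by rw [Finset.sum_const, nsmul_eq_mul]
      exact le_of_mul_le_mul_left hsum hN0

end main

end states

end TB

open TB in
theorem counting (c : ℝ) (hc : 0 < c) : ∃ B : ℝ, 0 ≤ B ∧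
    ∀ (V I : Type) [DecidableEq V] [DecidableEq I] [Fintype V] [Fintype I] (G : MG V I)
      (D K : Finset V) (u : V), K ⊆ D → K.Nonempty → u ∈ D \ K →
      (∀ Z, Z ⊆ D \ K → Z.Nonempty → 2 ≤ (cut G Z (D \ Z)).card) →
      (∀ Z, Z ⊆ D \ K → Z.Nonempty →
        c * ((min Z.card (D \ Z).card : ℕ) : ℝ) ^ ((1 : ℝ) / 3) ≤ ((cut G Z (D \ Z)).card : ℝ)) →
      ∀ lam : ℝ, 0 ≤ lam → lam * Real.exp B ≤ 1 →
        ∑ Y ∈ fam G D K u, lam ^ (cut G Y (D \ Y)).card ≤ (lam * Real.exp B) ^ 2 := by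
  refine ⟨2 * (B0 c + 3), ?_, ?_⟩
  · have := B0_pos hc
    positivity
  intro V I _ _ _ _ G D K u hKD hK hu h2 h3 lam hlam hlam1
  classical
  obtain ⟨k0, hk0⟩ := hK
  have hcl := claim (lam := lam) hc hlam hlam1 hk0 hKD hu h2 h3 _
    (fun a => if a ∈ K then k0 else a) le_rfl (fun k hk => by simp [hk, hk0])
  refine le_trans ?_ hcl
  unfold Sf
  rw [Finset.filter_true_of_mem]
  · refine Finset.sum_le_sum fun Y hY => ?_
    have hYD : Y ⊆ D := fun a ha => (Finset.mem_sdiff.1 ((mem_fam.1 hY).1 ha)).1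
    unfold Wf
    rw [← Finset.prod_const]
    refine Finset.prod_le_prod (fun _ _ => hlam) fun e he => ?_
    have hends : G.x e ∈ D ∧ G.y e ∈ D := by
      rw [mem_cut] at he
      rcases he with ⟨h1, h2⟩ | ⟨h1, h2⟩
      · exact ⟨hYD h1, (Finset.mem_sdiff.1 h2).1⟩
      · exact ⟨(Finset.mem_sdiff.1 h1).1, hYD h2⟩
    apply le_mul_of_one_le_right hlam
    rw [Real.one_le_exp_iff]
    exact add_nonneg (hf_nonneg hc hends.1) (hf_nonneg hc hends.2)
  · intro Y hY a ha b hb hab
    obtain ⟨h4, _, _, _⟩ := mem_fam.1 hY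
    have hYK : ∀ x, x ∈ Y → x ∉ K := fun x hx => (Finset.mem_sdiff.1 (h4 hx)).2
    simp only at hab
    by_cases haK : a ∈ K
    · by_cases hbK : b ∈ K
      · exact ⟨fun h => absurd haK (hYK a h), fun h => absurd hbK (hYK b h)⟩
      · rw [if_pos haK, if_neg hbK] at hab
        exact absurd (hab ▸ hk0) hbK
    · by_cases hbK : b ∈ K
      · rw [if_neg haK, if_pos hbK] at hab
        exact absurd (hab.symm ▸ hk0) haK
      · rw [if_neg haK, if_neg hbK] at hab
        rw [hab]

end Pool.Agent.H753R2.FR
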