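import Mathlib
import Pool.Agent.H753R2.FR.Defs
import Pool.Agent.H753R2.FR.T_C
set_option autoImplicit false

/-!
Task D1: from a cheap cut to a cheap cut with connected sides.
-/

namespace Pool.Agent.H753R2.FR

open Finset

section D1
variable {V I : Type} [DecidableEq V] [DecidableEq I] [Fintype V] [Fintype I] (G : MG V I)

private theorem d1_mem {Y T : Finset V} {e : I} : e ∈ cut G Y T ↔
    (G.x e ∈ Y ∧ G.y e ∈ T) ∨ (G.x e ∈ T ∧ G.y e ∈ Y) := by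
  simp [cut]

private theorem d1_split {D Z Z' : Finset V} (hZ' : Z' ⊆ Z) (hZD : Z ⊆ D)
    (hno : ¬ (cut G Z' (Z \ Z')).Nonempty) :
    (cut G Z (D \ Z)).card = (cut G Z' (D \ Z')).card + (cut G (Z \ Z') (D \ (Z \ Z'))).card := by
  have hno' : ∀ e, ¬ ((G.x e ∈ Z' ∧ G.y e ∈ Z \ Z') ∨ (G.x e ∈ Z \ Z' ∧ G.y e ∈ Z')) :=
    fun e he => hno ⟨e, (d1_mem G).2 he⟩
  have hdis : Disjoint (cut G Z' (D \ Z')) (cut G (Z \ Z') (D \ (Z \ Z'))) := by
    rw [Finset.disjoint_left]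
    intro e h1 h2
    rw [d1_mem] at h1 h2
    have h3 := hno' e
    have a1 := @hZ' (G.x e)
    have a2 := @hZ' (G.y e)
    simp only [Finset.mem_sdiff] at h1 h2 h3
    by_cases p1 : G.x e ∈ Z' <;> by_cases p2 : G.y e ∈ Z' <;> by_cases p3 : G.x e ∈ Z <;>
      by_cases p4 : G.y e ∈ Z <;> simp_all
  rw [← Finset.card_union_of_disjoint hdis]
  congr 1
  ext e
  have h3 := hno' e
  have a1 := @hZ' (G.x e)
  have a2 := @hZ' (G.y e)
  have a3 := @hZD (G.x e)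
  have a4 := @hZD (G.y e)
  simp only [Finset.mem_union, d1_mem, Finset.mem_sdiff] at h3 ⊢
  by_cases p1 : G.x e ∈ Z' <;> by_cases p2 : G.y e ∈ Z' <;> by_cases p3 : G.x e ∈ Z <;>
    by_cases p4 : G.y e ∈ Z <;> simp_all

private theorem d1_split2 {D Z Z' : Finset V} (hZ' : Z' ⊆ D \ Z) (hZD : Z ⊆ D)
    (hno : ¬ (cut G Z' ((D \ Z) \ Z')).Nonempty) :
    (cut G Z (D \ Z)).card = (cut G Z' (D \ Z')).card + (cut G (Z ∪ Z') (D \ (Z ∪ Z'))).card := by
  have hno' : ∀ e, ¬ ((G.x e ∈ Z' ∧ G.y e ∈ (D \ Z) \ Z') ∨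
      (G.x e ∈ (D \ Z) \ Z' ∧ G.y e ∈ Z')) :=
    fun e he => hno ⟨e, (d1_mem G).2 he⟩
  have hdis : Disjoint (cut G Z' (D \ Z')) (cut G (Z ∪ Z') (D \ (Z ∪ Z'))) := by
    rw [Finset.disjoint_left]
    intro e h1 h2
    rw [d1_mem] at h1 h2
    have h3 := hno' e
    have a1 := @hZ' (G.x e)
    have a2 := @hZ' (G.y e)
    simp only [Finset.mem_sdiff, Finset.mem_union] at h1 h2 h3 a1 a2
    by_cases p1 : G.x e ∈ Z' <;> by_cases p2 : G.y e ∈ Z' <;> by_cases p3 : G.x e ∈ Z <;>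
      by_cases p4 : G.y e ∈ Z <;> simp_all
  rw [← Finset.card_union_of_disjoint hdis]
  congr 1
  ext e
  have h3 := hno' e
  have a1 := @hZ' (G.x e)
  have a2 := @hZ' (G.y e)
  have a3 := @hZD (G.x e)
  have a4 := @hZD (G.y e)
  simp only [Finset.mem_union, d1_mem, Finset.mem_sdiff] at h3 a1 a2 ⊢
  by_cases p1 : G.x e ∈ Z' <;> by_cases p2 : G.y e ∈ Z' <;> by_cases p3 : G.x e ∈ Z <;>
    by_cases p4 : G.y e ∈ Z <;> simp_all

theorem bridge_conn {D K Z : Finset V} (hKD : K ⊆ D) (hD : Kconn G D K) (hZ : Z ⊆ D \ K)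
    (hZn : Z.Nonempty) (h : (cut G Z (D \ Z)).card = 1) :
    (∀ z ∈ Z, Kconn G Z {z}) ∧ Kconn G (D \ Z) K := by
  have hZD : Z ⊆ D := hZ.trans Finset.sdiff_subset
  constructor
  · intro z hz Z' hZ' hZ'n
    by_contra hno
    have hZ'Z : Z' ⊆ Z := hZ'.trans Finset.sdiff_subset
    have hs := d1_split G hZ'Z hZD hno
    have h1 := Finset.card_pos.2 (hD Z' (hZ'Z.trans hZ) hZ'n)
    have hz' : z ∈ Z \ Z' := Finset.mem_sdiff.2 ⟨hz, fun hc => by
      have := Finset.mem_sdiff.1 (hZ' hc)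
      exact this.2 (Finset.mem_singleton_self z)⟩
    have h2 := Finset.card_pos.2 (hD (Z \ Z') (Finset.sdiff_subset.trans hZ) ⟨z, hz'⟩)
    omega
  · intro Z' hZ' hZ'n
    by_contra hno
    have hZ'1 : Z' ⊆ D \ Z := hZ'.trans Finset.sdiff_subset
    have hs := d1_split2 G hZ'1 hZD hno
    have hZ'K : Z' ⊆ D \ K := fun v hv => by
      have := Finset.mem_sdiff.1 (hZ' hv)
      exact Finset.mem_sdiff.2 ⟨(Finset.mem_sdiff.1 this.1).1, this.2⟩
    have h1 := Finset.card_pos.2 (hD Z' hZ'K hZ'n)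
    have h2 := Finset.card_pos.2 (hD (Z ∪ Z') (Finset.union_subset hZ hZ'K)
      (hZn.mono Finset.subset_union_left))
    omega

theorem cheap_conn {D Δ K : Finset V} (hKD : K ⊆ D) (hK : K.Nonempty) (hdisj : Disjoint D Δ)
    (hD : Kconn G D K) (Z₀ : Finset V) (hZ₀ : Z₀ ⊆ D \ K) (hZ₀n : Z₀.Nonempty)
    (h : ((cut G Z₀ (D \ Z₀)).card : ℝ) ≤ gg (min Z₀.card ((D ∪ Δ) \ Z₀).card) / 50) :
    ∃ Z, Z ⊆ D \ K ∧ Z.Nonempty ∧
      ((cut G Z (D \ Z)).card : ℝ) ≤ gg (min Z.card ((D ∪ Δ) \ Z).card) / 50 ∧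
      (∀ z ∈ Z, Kconn G Z {z}) ∧ Kconn G (D \ Z) K := by
  classical
  set N := (D ∪ Δ).card with hN
  have hcompl : ∀ Z, Z ⊆ D → ((D ∪ Δ) \ Z).card = N - Z.card ∧ Z.card ≤ N := by
    intro Z hZ
    have hsub : Z ⊆ D ∪ Δ := hZ.trans Finset.subset_union_left
    exact ⟨Finset.card_sdiff_of_subset hsub, Finset.card_le_card hsub⟩
  -- a cheap cut with the smallest number of edges
  obtain ⟨Z, hZmem, hmin⟩ := Finset.exists_min_image
    ((D \ K).powerset.filter (fun Z => Z.Nonempty ∧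
      ((cut G Z (D \ Z)).card : ℝ) ≤ gg (min Z.card ((D ∪ Δ) \ Z).card) / 50))
    (fun Z => (cut G Z (D \ Z)).card)
    ⟨Z₀, Finset.mem_filter.2 ⟨Finset.mem_powerset.2 hZ₀, hZ₀n, h⟩⟩
  obtain ⟨hZp, hZn, hZc⟩ := Finset.mem_filter.1 hZmem
  have hZ : Z ⊆ D \ K := Finset.mem_powerset.1 hZp
  have hZD : Z ⊆ D := hZ.trans Finset.sdiff_subset
  have hlt : ∀ Z', Z' ⊆ D \ K → Z'.Nonempty →
      (cut G Z' (D \ Z')).card < (cut G Z (D \ Z)).card →
      gg (min Z'.card ((D ∪ Δ) \ Z').card) / 50 < ((cut G Z' (D \ Z')).card : ℝ) := by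
    intro Z' h1 h2 h3
    by_contra hc
    push Not at hc
    have := hmin Z' (Finset.mem_filter.2 ⟨Finset.mem_powerset.2 h1, h2, hc⟩)
    omega
  refine ⟨Z, hZ, hZn, hZc, ?_, ?_⟩
  · intro z hz Z' hZ' hZ'n
    by_contra hno
    have hZ'Z : Z' ⊆ Z := hZ'.trans Finset.sdiff_subset
    have hs := d1_split G hZ'Z hZD hno
    have h1 := Finset.card_pos.2 (hD Z' (hZ'Z.trans hZ) hZ'n)
    have hz' : z ∈ Z \ Z' := Finset.mem_sdiff.2 ⟨hz, fun hc => by
      have := Finset.mem_sdiff.1 (hZ' hc)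
      exact this.2 (Finset.mem_singleton_self z)⟩
    have hZ2 : Z \ Z' ⊆ D \ K := Finset.sdiff_subset.trans hZ
    have h2 := Finset.card_pos.2 (hD (Z \ Z') hZ2 ⟨z, hz'⟩)
    have l1 := hlt Z' (hZ'Z.trans hZ) hZ'n (by omega)
    have l2 := hlt (Z \ Z') hZ2 ⟨z, hz'⟩ (by omega)
    rw [(hcompl Z' (hZ'Z.trans hZD)).1] at l1
    rw [(hcompl (Z \ Z') (Finset.sdiff_subset.trans hZD)).1] at l2
    have hcZ : (Z \ Z').card = Z.card - Z'.card := Finset.card_sdiff_of_subset hZ'Z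
    have hcle : Z'.card ≤ Z.card := Finset.card_le_card hZ'Z
    have hZle := (hcompl Z hZD).2
    have hg := gg_sym (a := Z'.card) (b := (Z \ Z').card) (N := N) (by omega)
    have e1 : Z'.card + (Z \ Z').card = Z.card := by omega
    rw [e1] at hg
    rw [(hcompl Z hZD).1, hs] at hZc
    push_cast at hZc
    linarith
  · intro Z' hZ' hZ'n
    by_contra hno
    have hZ'1 : Z' ⊆ D \ Z := hZ'.trans Finset.sdiff_subset
    have hs := d1_split2 G hZ'1 hZD hno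
    have hZ'K : Z' ⊆ D \ K := fun v hv => by
      have := Finset.mem_sdiff.1 (hZ' hv)
      exact Finset.mem_sdiff.2 ⟨(Finset.mem_sdiff.1 this.1).1, this.2⟩
    have hUK : Z ∪ Z' ⊆ D \ K := Finset.union_subset hZ hZ'K
    have hUn : (Z ∪ Z').Nonempty := hZn.mono Finset.subset_union_left
    have h1 := Finset.card_pos.2 (hD Z' hZ'K hZ'n)
    have h2 := Finset.card_pos.2 (hD (Z ∪ Z') hUK hUn)
    have l1 := hlt Z' hZ'K hZ'n (by omega)
    have l2 := hlt (Z ∪ Z') hUK hUn (by omega)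
    rw [(hcompl Z' (hZ'K.trans Finset.sdiff_subset)).1] at l1
    rw [(hcompl (Z ∪ Z') (hUK.trans Finset.sdiff_subset)).1] at l2
    have hUle := (hcompl (Z ∪ Z') (hUK.trans Finset.sdiff_subset)).2
    have hcU : (Z ∪ Z').card = Z.card + Z'.card := by
      refine Finset.card_union_of_disjoint ?_
      rw [Finset.disjoint_left]
      intro v hv hv'
      exact (Finset.mem_sdiff.1 (hZ'1 hv')).2 hv
    have hg := gg_sym (a := Z'.card) (b := N - (Z ∪ Z').card) (N := N) (by omega)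
    have e1 : Z'.card + (N - (Z ∪ Z').card) = N - Z.card := by omega
    have e2 : N - (N - Z.card) = Z.card := by omega
    have e3 : N - (N - (Z ∪ Z').card) = (Z ∪ Z').card := by omega
    rw [e1, e2, e3, min_comm (N - Z.card), min_comm (N - (Z ∪ Z').card)] at hg
    rw [(hcompl Z hZD).1, hs] at hZc
    push_cast at hZc
    linarith

end D1

end Pool.Agent.H753R2.FR
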