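import Mathlib
import Pool.Agent.H753R2.FR.Defs
import Pool.Agent.H753R2.FR.T_D1
set_option autoImplicit false
set_option linter.unusedSectionVars false

/-!
Task D2b (helper602): reference sets after removing a small pendant part.
-/

namespace Pool.Agent.H753R2.FR

open Finset



section D2b
variable {V I : Type} [DecidableEq V] [DecidableEq I] [Fintype V] [Fintype I] (G : MG V I)

theorem D2b_mem {Y T : Finset V} {e : I} :
    e ∈ cut G Y T ↔ (G.x e ∈ Y ∧ G.y e ∈ T) ∨ (G.x e ∈ T ∧ G.y e ∈ Y) := by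
  unfold cut
  simp

theorem D2b_comm (Y T : Finset V) : cut G Y T = cut G T Y := by
  ext e
  rw [D2b_mem, D2b_mem]
  exact or_comm

theorem D2b_mono {Y Y' T T' : Finset V} (h : Y ⊆ Y') (h' : T ⊆ T') : cut G Y T ⊆ cut G Y' T' := by
  intro e he
  rw [D2b_mem] at he ⊢
  rcases he with he | he
  · exact Or.inl ⟨h he.1, h' he.2⟩
  · exact Or.inr ⟨h' he.1, h he.2⟩

theorem D2b_union_right (Y A B : Finset V) : cut G Y (A ∪ B) = cut G Y A ∪ cut G Y B := by
  ext e
  rw [mem_union, D2b_mem, D2b_mem, D2b_mem, mem_union, mem_union]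
  tauto

theorem D2b_union_left (A B Y : Finset V) : cut G (A ∪ B) Y = cut G A Y ∪ cut G B Y := by
  rw [D2b_comm, D2b_union_right, D2b_comm G Y A, D2b_comm G Y B]

theorem D2b_card_union_right (Y A B : Finset V) :
    (cut G Y (A ∪ B)).card ≤ (cut G Y A).card + (cut G Y B).card := by
  rw [D2b_union_right]
  exact card_union_le _ _

theorem D2b_card_union_left {A B Y : Finset V} (h : Disjoint A B) (hA : Disjoint A Y)
    (hB : Disjoint B Y) : (cut G (A ∪ B) Y).card = (cut G A Y).card + (cut G B Y).card := by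
  rw [D2b_union_left, card_union_of_disjoint]
  rw [Finset.disjoint_left]
  intro e h1 h2
  rw [D2b_mem] at h1 h2
  rw [Finset.disjoint_left] at h hA hB
  rcases h1 with h1 | h1 <;> rcases h2 with h2 | h2
  · exact h h1.1 h2.1
  · exact hA h1.1 h2.1
  · exact hB h2.1 h1.1
  · exact h h1.2 h2.2

/-- no edges between `Z` and the dead set -/
theorem D2b_dead {X D Δ K W Z : Finset V} (h : Cfg G X D Δ K W) (hZ : Z ⊆ D \ K) :
    cut G Z Δ = ∅ := by
  rw [D2b_comm, ← subset_empty, ← h.dead]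
  exact D2b_mono G subset_rfl hZ

/-- removing a maximal small pendant part -/
theorem ref_B1 {X D Δ K W Z P : Finset V} {s₁ φ : ℕ} (h : Cfg G X D Δ K W)
    (hP : Ref G X D Δ K P s₁ φ) (hbig : 3 * s₁ < (D ∪ Δ).card)
    (hnc : ∀ Z', Z' ⊆ D \ K → Z'.Nonempty → (cut G Z' (D \ Z')).card = 1 →
      min Z'.card ((D ∪ Δ) \ Z').card ≤ s₁)
    (hZ : Z ⊆ D \ K) (hZn : Z.Nonempty) (hZ1 : (cut G Z (D \ Z)).card = 1) (hZs : Z.card ≤ s₁)
    (hmax : ∀ Z', Z' ⊆ D \ K → Z'.Nonempty → (cut G Z' (D \ Z')).card = 1 → Z'.card ≤ s₁ →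
      Z'.card ≤ Z.card) :
    Ref G X (D \ Z) Δ K (P \ Z) s₁ 1 ∧
    (cut G ((D \ Z) ∪ Δ) ((P \ Z) \ ((D \ Z) ∪ Δ))).card + 1
      ≤ (cut G (D ∪ Δ) (P \ (D ∪ Δ))).card := by
  have hKD : K ⊆ D := h.hKW.trans h.hWD
  have hZD : Z ⊆ D := hZ.trans sdiff_subset
  have hDP : D ⊆ P := subset_union_left.trans hP.hDP
  have hΔP : Δ ⊆ P := subset_union_right.trans hP.hDP
  have hZΔ : Disjoint Z Δ := h.disj.mono_left hZD
  obtain ⟨_, hTconn⟩ := bridge_conn G hKD h.con hZ hZn hZ1
  have hZΔ0 := D2b_dead G h hZ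
  refine ⟨⟨sdiff_subset.trans hP.hPX, ?_, ?_, ?_⟩, ?_⟩
  · intro v hv
    rw [mem_union, mem_sdiff] at hv
    rw [mem_sdiff]
    rcases hv with hv | hv
    · exact ⟨hDP hv.1, hv.2⟩
    · exact ⟨hΔP hv, fun hz => Finset.disjoint_left.mp hZΔ hz hv⟩
  · intro Z' hZ' hZ'n hZ's
    by_contra hcon
    push Not at hcon
    have hZ'DZ : Z' ⊆ D \ Z := hZ'.trans sdiff_subset
    have hZ'D : Z' ⊆ D := hZ'DZ.trans sdiff_subset
    have hZ'K : Z' ⊆ D \ K := by
      intro v hv
      have := hZ' hv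
      rw [mem_sdiff, mem_sdiff] at this
      exact mem_sdiff.mpr ⟨this.1.1, this.2⟩
    have hdisj : Disjoint Z Z' := by
      rw [Finset.disjoint_left]
      intro v hv hv'
      exact (mem_sdiff.mp (hZ'DZ hv')).2 hv
    have h2 := hP.free Z' hZ'K hZ'n hZ's
    have hsplit : P \ Z' = ((P \ Z) \ Z') ∪ Z := by
      ext v
      simp only [mem_sdiff, mem_union]
      constructor
      · rintro ⟨a, b⟩
        by_cases hv : v ∈ Z
        · exact Or.inr hv
        · exact Or.inl ⟨⟨a, hv⟩, b⟩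
      · rintro (⟨⟨a, _⟩, b⟩ | hv)
        · exact ⟨a, b⟩
        · exact ⟨hDP (hZD hv), fun hv' => Finset.disjoint_left.mp hdisj hv hv'⟩
    rw [hsplit] at h2
    have h3 := D2b_card_union_right G Z' ((P \ Z) \ Z') Z
    have hsub : cut G Z' Z ⊆ cut G Z (D \ Z) := by
      rw [D2b_comm]
      exact D2b_mono G subset_rfl hZ'DZ
    have h4 : (cut G Z' Z).card ≤ 1 := (card_le_card hsub).trans hZ1.le
    have h5 : (cut G Z' ((P \ Z) \ Z')).card = 1 := by omega
    have h6 : (cut G Z' Z).card = 1 := by omega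
    have heq1 : cut G Z' Z = cut G Z (D \ Z) := eq_of_subset_of_card_le hsub (by omega)
    -- the edge between Z' and the rest
    have hne := hTconn Z' hZ' hZ'n
    have hsub2 : cut G Z' ((D \ Z) \ Z') ⊆ cut G Z' ((P \ Z) \ Z') :=
      D2b_mono G subset_rfl (sdiff_subset_sdiff (sdiff_subset_sdiff hDP subset_rfl) subset_rfl)
    have h7 : (cut G Z' ((D \ Z) \ Z')).card = 1 := by
      have := card_le_card hsub2
      have := card_pos.mpr hne
      omega
    have heq2 : D \ (Z ∪ Z') = (D \ Z) \ Z' := by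
      ext v
      simp only [mem_sdiff, mem_union]
      tauto
    have h8 : cut G Z (D \ (Z ∪ Z')) = ∅ := by
      rw [eq_empty_iff_forall_notMem]
      intro e he
      have he1 : e ∈ cut G Z' Z := by
        rw [heq1]
        refine D2b_mono G subset_rfl ?_ he
        rw [heq2]
        exact sdiff_subset
      rw [D2b_mem] at he he1
      rw [Finset.disjoint_left] at hdisj
      simp only [mem_sdiff, mem_union] at he
      rcases he with he | he <;> rcases he1 with he1 | he1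
      · exact hdisj he.1 he1.1
      · exact he.2.2 (Or.inr he1.2)
      · exact he.1.2 (Or.inr he1.1)
      · exact hdisj he.2 he1.2
    have h9 : (cut G (Z ∪ Z') (D \ (Z ∪ Z'))).card = 1 := by
      rw [D2b_union_left, h8, empty_union, heq2]
      exact h7
    have hU : Z ∪ Z' ⊆ D \ K := union_subset hZ hZ'K
    have hUn : (Z ∪ Z').Nonempty := hZn.mono subset_union_left
    have hUc : (Z ∪ Z').card = Z.card + Z'.card := card_union_of_disjoint hdisj
    have h10 := hnc (Z ∪ Z') hU hUn h9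
    have h11 : ((D ∪ Δ) \ (Z ∪ Z')).card + (Z ∪ Z').card = (D ∪ Δ).card :=
      card_sdiff_add_card_eq_card ((union_subset hZD hZ'D).trans subset_union_left)
    have h12 : (Z ∪ Z').card ≤ s₁ := by
      rcases min_le_iff.mp h10 with h | h
      · exact h
      · omega
    have h13 := hmax (Z ∪ Z') hU hUn h9 h12
    have h14 := card_pos.mpr hZ'n
    omega
  · intro h0
    omega
  · have hR : (P \ Z) \ ((D \ Z) ∪ Δ) = P \ (D ∪ Δ) := by
      ext v
      simp only [mem_sdiff, mem_union]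
      constructor
      · rintro ⟨⟨a, b⟩, c⟩
        refine ⟨a, ?_⟩
        rintro (hd | hd)
        · exact c (Or.inl ⟨hd, b⟩)
        · exact c (Or.inr hd)
      · rintro ⟨a, c⟩
        refine ⟨⟨a, fun hz => c (Or.inl (hZD hz))⟩, ?_⟩
        rintro (hd | hd)
        · exact c (Or.inl hd.1)
        · exact c (Or.inr hd)
    rw [hR]
    have h1 : D ∪ Δ = ((D \ Z) ∪ Δ) ∪ Z := by
      ext v
      simp only [mem_sdiff, mem_union]
      constructor
      · rintro (hd | hd)
        · by_cases hz : v ∈ Z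
          · exact Or.inr hz
          · exact Or.inl (Or.inl ⟨hd, hz⟩)
        · exact Or.inl (Or.inr hd)
      · rintro ((hd | hd) | hd)
        · exact Or.inl hd.1
        · exact Or.inr hd
        · exact Or.inl (hZD hd)
    have hd1 : Disjoint ((D \ Z) ∪ Δ) Z := by
      rw [Finset.disjoint_union_left]
      exact ⟨sdiff_disjoint, hZΔ.symm⟩
    have hd2 : Disjoint (D ∪ Δ) (P \ (D ∪ Δ)) := disjoint_sdiff
    have hd3 : Disjoint ((D \ Z) ∪ Δ) (P \ (D ∪ Δ)) :=
      hd2.mono_left (union_subset_union sdiff_subset subset_rfl)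
    have hd4 : Disjoint Z (P \ (D ∪ Δ)) := hd2.mono_left (hZD.trans subset_union_left)
    have h2 := D2b_card_union_left G hd1 hd3 hd4
    rw [← h1] at h2
    have h3 := hP.free Z hZ hZn hZs
    have h4 : P \ Z = ((D \ Z) ∪ Δ) ∪ (P \ (D ∪ Δ)) := by
      ext v
      simp only [mem_sdiff, mem_union]
      constructor
      · rintro ⟨a, b⟩
        by_cases hd : v ∈ D
        · exact Or.inl (Or.inl ⟨hd, b⟩)
        · by_cases hdd : v ∈ Δ
          · exact Or.inl (Or.inr hdd)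
          · exact Or.inr ⟨a, fun hc => hc.elim hd hdd⟩
      · rintro ((hd | hd) | hd)
        · exact ⟨hDP hd.1, hd.2⟩
        · exact ⟨hΔP hd, fun hz => Finset.disjoint_left.mp hZΔ hz hd⟩
        · exact ⟨hd.1, fun hz => hd.2 (Or.inl (hZD hz))⟩
    rw [h4] at h3
    have h5 := D2b_card_union_right G Z ((D \ Z) ∪ Δ) (P \ (D ∪ Δ))
    have h6 := D2b_card_union_right G Z (D \ Z) Δ
    rw [hZΔ0, card_empty] at h6
    omega

/-- removing a maximal small part containing the roots -/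
theorem ref_B0 {X D Δ K W Z P : Finset V} {z₀ : V} {s₁ φ : ℕ} (h : Cfg G X D Δ K W)
    (hP : Ref G X D Δ K P s₁ φ) (hbig : 3 * s₁ < (D ∪ Δ).card)
    (hnc : ∀ Z', Z' ⊆ D \ K → Z'.Nonempty → (cut G Z' (D \ Z')).card = 1 →
      min Z'.card ((D ∪ Δ) \ Z').card ≤ s₁)
    (hZ : Z ⊆ D \ K) (hz₀ : z₀ ∈ ends G Z (D \ Z)) (hZ1 : (cut G Z (D \ Z)).card = 1)
    (hZs : ((D \ Z) ∪ Δ).card ≤ s₁)
    (hmin : ∀ Z', Z' ⊆ D \ K → Z'.Nonempty → (cut G Z' (D \ Z')).card = 1 →
      ((D \ Z') ∪ Δ).card ≤ s₁ → Z.card ≤ Z'.card) :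
    Ref G X Z ∅ {z₀} (P \ ((D \ Z) ∪ Δ)) s₁ 0 ∧
    2 * (cut G (Z ∪ ∅) ((P \ ((D \ Z) ∪ Δ)) \ (Z ∪ ∅))).card + 1
      ≤ 2 * (cut G (D ∪ Δ) (P \ (D ∪ Δ))).card + φ := by
  have hKD : K ⊆ D := h.hKW.trans h.hWD
  have hZD : Z ⊆ D := hZ.trans sdiff_subset
  have hDP : D ⊆ P := subset_union_left.trans hP.hDP
  have hΔP : Δ ⊆ P := subset_union_right.trans hP.hDP
  have hZΔ : Disjoint Z Δ := h.disj.mono_left hZD
  obtain ⟨hz₀Z, e₀, he₀, hend⟩ : z₀ ∈ Z ∧ ∃ e ∈ cut G Z (D \ Z), G.x e = z₀ ∨ G.y e = z₀ := by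
    unfold ends at hz₀
    rw [mem_filter] at hz₀
    exact hz₀
  have hZn : Z.Nonempty := ⟨z₀, hz₀Z⟩
  obtain ⟨hZconn, _⟩ := bridge_conn G hKD h.con hZ hZn hZ1
  have hZΔ0 := D2b_dead G h hZ
  -- every edge from `Z` to `D \ Z` has the end `z₀`
  have huniq : ∀ e ∈ cut G Z (D \ Z), e = e₀ := fun e he =>
    card_le_one.mp hZ1.le e he e₀ he₀
  have hcutz : ∀ Y, Y ⊆ Z \ {z₀} → cut G Y (D \ Z) = ∅ := by
    intro Y hY
    rw [eq_empty_iff_forall_notMem]
    intro e he
    have hee : e = e₀ := huniq e (D2b_mono G (hY.trans sdiff_subset) subset_rfl he)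
    subst hee
    rw [D2b_mem] at he
    rcases he with he | he
    · have h1 := mem_sdiff.mp (hY he.1)
      have h2 := mem_sdiff.mp he.2
      rcases hend with hend | hend
      · exact h1.2 (mem_singleton.mpr hend)
      · exact h2.2 (hend ▸ hz₀Z)
    · have h1 := mem_sdiff.mp (hY he.2)
      have h2 := mem_sdiff.mp he.1
      rcases hend with hend | hend
      · exact h2.2 (hend ▸ hz₀Z)
      · exact h1.2 (mem_singleton.mpr hend)
  have hZP : Z ⊆ P \ ((D \ Z) ∪ Δ) := by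
    intro v hv
    rw [mem_sdiff, mem_union, mem_sdiff]
    refine ⟨hDP (hZD hv), ?_⟩
    rintro (hd | hd)
    · exact hd.2 hv
    · exact Finset.disjoint_left.mp hZΔ hv hd
  refine ⟨⟨sdiff_subset.trans hP.hPX, ?_, ?_, ?_⟩, ?_⟩
  · rw [union_empty]
    exact hZP
  · intro Z' hZ' hZ'n hZ's
    have hZ'Z : Z' ⊆ Z := hZ'.trans sdiff_subset
    have hZ'K : Z' ⊆ D \ K := hZ'Z.trans hZ
    have h2 := hP.free Z' hZ'K hZ'n hZ's
    refine h2.trans (card_le_card ?_)
    have h3 : P \ Z' ⊆ ((P \ ((D \ Z) ∪ Δ)) \ Z') ∪ ((D \ Z) ∪ Δ) := by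
      intro v hv
      rw [mem_sdiff] at hv
      rw [mem_union]
      by_cases hd : v ∈ (D \ Z) ∪ Δ
      · exact Or.inr hd
      · exact Or.inl (mem_sdiff.mpr ⟨mem_sdiff.mpr ⟨hv.1, hd⟩, hv.2⟩)
    refine (D2b_mono G subset_rfl h3).trans ?_
    rw [D2b_union_right, D2b_union_right, hcutz Z' hZ', D2b_dead G h hZ'K, union_empty,
      union_empty]
  · intro _ T₁ hT₁ hT₁Z hT₁ne hT₁s
    rw [union_empty] at hT₁s ⊢
    rw [singleton_subset_iff] at hT₁
    by_contra hcon
    push Not at hcon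
    have hsub : T₁ ⊂ Z := hT₁Z.ssubset_of_ne hT₁ne
    have hYn : (Z \ T₁).Nonempty := sdiff_nonempty.mpr fun hc => hT₁ne (hT₁Z.antisymm hc)
    have hYz : Z \ T₁ ⊆ Z \ {z₀} := by
      intro v hv
      rw [mem_sdiff] at hv
      rw [mem_sdiff, mem_singleton]
      refine ⟨hv.1, ?_⟩
      rintro rfl
      exact hv.2 hT₁
    have hne := hZconn z₀ hz₀Z (Z \ T₁) hYz hYn
    rw [Finset.sdiff_sdiff_eq_self hT₁Z] at hne
    have hsub2 : cut G (Z \ T₁) T₁ ⊆ cut G T₁ ((P \ ((D \ Z) ∪ Δ)) \ T₁) := by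
      rw [D2b_comm]
      exact D2b_mono G subset_rfl (sdiff_subset_sdiff hZP subset_rfl)
    have h7 : (cut G (Z \ T₁) T₁).card = 1 := by
      have := card_le_card hsub2
      have := card_pos.mpr hne
      omega
    have heq2 : D \ (Z \ T₁) = T₁ ∪ (D \ Z) := by
      ext v
      simp only [mem_sdiff, mem_union]
      constructor
      · rintro ⟨a, b⟩
        by_cases hz : v ∈ Z
        · left
          by_contra hc
          exact b ⟨hz, hc⟩
        · exact Or.inr ⟨a, hz⟩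
      · rintro (a | a)
        · exact ⟨hZD (hT₁Z a), fun hc => hc.2 a⟩
        · exact ⟨a.1, fun hc => a.2 hc.1⟩
    have h9 : (cut G (Z \ T₁) (D \ (Z \ T₁))).card = 1 := by
      rw [heq2, D2b_union_right, hcutz _ hYz, union_empty]
      exact h7
    have hYK : Z \ T₁ ⊆ D \ K := sdiff_subset.trans hZ
    have h10 := hnc (Z \ T₁) hYK hYn h9
    have h11 : ((D ∪ Δ) \ (Z \ T₁)).card + (Z \ T₁).card = (D ∪ Δ).card :=
      card_sdiff_add_card_eq_card ((sdiff_subset.trans hZD).trans subset_union_left)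
    have heq3 : (D ∪ Δ) \ (Z \ T₁) = (D \ (Z \ T₁)) ∪ Δ := by
      ext v
      simp only [mem_sdiff, mem_union]
      constructor
      · rintro ⟨a | a, b⟩
        · exact Or.inl ⟨a, b⟩
        · exact Or.inr a
      · rintro (a | a)
        · exact ⟨Or.inl a.1, a.2⟩
        · exact ⟨Or.inr a, fun hc => Finset.disjoint_left.mp hZΔ hc.1 a⟩
    have h12 : ((D ∪ Δ) \ (Z \ T₁)).card ≤ T₁.card + ((D \ Z) ∪ Δ).card := by
      rw [heq3, heq2, union_assoc]
      exact card_union_le _ _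
    have h13 : ((D ∪ Δ) \ (Z \ T₁)).card ≤ s₁ := by
      rcases min_le_iff.mp h10 with h | h
      · omega
      · exact h
    rw [heq3] at h13
    have h14 := hmin (Z \ T₁) hYK hYn h9 h13
    have h15 : (Z \ T₁).card < Z.card := by
      apply card_lt_card
      exact sdiff_ssubset hT₁Z ⟨z₀, hT₁⟩
    omega
  · rw [union_empty]
    have hR : (P \ ((D \ Z) ∪ Δ)) \ Z = P \ (D ∪ Δ) := by
      ext v
      simp only [mem_sdiff, mem_union]
      constructor
      · rintro ⟨⟨a, c⟩, b⟩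
        refine ⟨a, ?_⟩
        rintro (hd | hd)
        · exact c (Or.inl ⟨hd, b⟩)
        · exact c (Or.inr hd)
      · rintro ⟨a, c⟩
        refine ⟨⟨a, ?_⟩, fun hz => c (Or.inl (hZD hz))⟩
        rintro (hd | hd)
        · exact c (Or.inl hd.1)
        · exact c (Or.inr hd)
    rw [hR]
    have h1 : D ∪ Δ = Z ∪ ((D \ Z) ∪ Δ) := by
      ext v
      simp only [mem_sdiff, mem_union]
      constructor
      · rintro (hd | hd)
        · by_cases hz : v ∈ Z
          · exact Or.inl hz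
          · exact Or.inr (Or.inl ⟨hd, hz⟩)
        · exact Or.inr (Or.inr hd)
      · rintro (hd | (hd | hd))
        · exact Or.inl (hZD hd)
        · exact Or.inl hd.1
        · exact Or.inr hd
    have hd1 : Disjoint Z ((D \ Z) ∪ Δ) := by
      rw [Finset.disjoint_union_right]
      exact ⟨disjoint_sdiff, hZΔ⟩
    have hd2 : Disjoint (D ∪ Δ) (P \ (D ∪ Δ)) := disjoint_sdiff
    have hd3 : Disjoint ((D \ Z) ∪ Δ) (P \ (D ∪ Δ)) :=
      hd2.mono_left (union_subset_union sdiff_subset subset_rfl)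
    have hd4 : Disjoint Z (P \ (D ∪ Δ)) := hd2.mono_left (hZD.trans subset_union_left)
    have h2 := D2b_card_union_left G hd1 hd4 hd3
    rw [← h1] at h2
    rcases Nat.eq_zero_or_pos φ with hφ | hφ
    · have hKT : K ⊆ D \ Z := by
        intro v hv
        rw [mem_sdiff]
        exact ⟨hKD hv, fun hz => (mem_sdiff.mp (hZ hz)).2 hv⟩
      have hTne : D \ Z ≠ D := by
        intro hc
        have : z₀ ∈ D \ Z := by rw [hc]; exact hZD hz₀Z
        exact (mem_sdiff.mp this).2 hz₀Z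
      have h3 := hP.root hφ (D \ Z) hKT sdiff_subset hTne hZs
      have h4 : P \ ((D \ Z) ∪ Δ) = Z ∪ (P \ (D ∪ Δ)) := by
        ext v
        simp only [mem_sdiff, mem_union]
        constructor
        · rintro ⟨a, b⟩
          by_cases hz : v ∈ Z
          · exact Or.inl hz
          · right
            refine ⟨a, ?_⟩
            rintro (hd | hd)
            · exact b (Or.inl ⟨hd, hz⟩)
            · exact b (Or.inr hd)
        · rintro (hz | ⟨a, b⟩)
          · refine ⟨hDP (hZD hz), ?_⟩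
            rintro (hd | hd)
            · exact hd.2 hz
            · exact Finset.disjoint_left.mp hZΔ hz hd
          · refine ⟨a, ?_⟩
            rintro (hd | hd)
            · exact b (Or.inl hd.1)
            · exact b (Or.inr hd)
      rw [h4] at h3
      have h5 := D2b_card_union_right G ((D \ Z) ∪ Δ) Z (P \ (D ∪ Δ))
      have h6 : (cut G ((D \ Z) ∪ Δ) Z).card = 1 := by
        rw [D2b_comm, D2b_union_right, hZΔ0, union_empty]
        exact hZ1
      omega
    · omega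

end D2b

end Pool.Agent.H753R2.FR
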