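import Mathlib
import Pool.Agent.H753R2.FR.Defs
import Pool.Agent.H753R2.FR.DefsD
import Pool.Agent.H753R2.FR.T_A1
import Pool.Agent.H753R2.FR.T_A2
import Pool.Agent.H753R2.FR.T_A6
import Pool.Agent.H753R2.FR.T_A7
import Pool.Agent.H753R2.FR.T_C
import Pool.Agent.H753R2.FR.T_D1
import Pool.Agent.H753R2.FR.T_D2a
import Pool.Agent.H753R2.FR.T_D2b
import Pool.Agent.H753R2.FR.T_A3
import Pool.Agent.H753R2.FR.T_A5
import Pool.Agent.H753R2.FR.T_B
set_option autoImplicit false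
set_option linter.unusedSectionVars false
set_option linter.unusedVariables false
set_option maxHeartbeats 1000000

namespace Pool.Agent.H753R2.FR

open Finset

section D3
variable {V I : Type} [DecidableEq V] [DecidableEq I] [Fintype V] [Fintype I] (G : MG V I)

variable {G}

theorem mem_cut {Y T : Finset V} {e : I} :
    e ∈ cut G Y T ↔ (G.x e ∈ Y ∧ G.y e ∈ T) ∨ (G.x e ∈ T ∧ G.y e ∈ Y) := by
  simp [cut]

theorem mem_E {D : Finset V} {e : I} : e ∈ E G D ↔ G.x e ∈ D ∧ G.y e ∈ D := by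
  simp [E]

theorem cut_comm (Y T : Finset V) : cut G Y T = cut G T Y := by
  ext e; simp only [mem_cut]; tauto

theorem outer_disj {X D : Finset V} {O : Finset I} (hO : Outer G X O) (hD : D ⊆ X) :
    Disjoint O (E G D) := by
  rw [Finset.disjoint_left]
  intro e he h
  rw [mem_E] at h
  exact hO e he ⟨hD h.1, hD h.2⟩

theorem outer_empty (X : Finset V) : Outer G X ∅ := by
  intro e he; simp at he

/-- the ends in `Y` of the edges of a cut are at most as many as the edges -/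
theorem card_ends_le {Y T : Finset V} (h : Disjoint Y T) : (ends G Y T).card ≤ (cut G Y T).card := by
  classical
  have h1 : ends G Y T ⊆ (cut G Y T).image (fun e => if G.x e ∈ Y then G.x e else G.y e) := by
    intro v hv
    simp only [ends, Finset.mem_filter] at hv
    obtain ⟨hvY, e, he, hev⟩ := hv
    rw [Finset.mem_image]
    refine ⟨e, he, ?_⟩
    rw [mem_cut] at he
    rw [Finset.disjoint_left] at h
    rcases hev with hev | hev
    · subst hev; simp [hvY]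
    · subst hev
      rcases he with he | he
      · exact absurd he.2 (fun hh => h hvY hh)
      · have : G.x e ∉ Y := fun hh => h hh he.1
        simp [this]
  exact (Finset.card_le_card h1).trans Finset.card_image_le

/-- edges available for the hypothesis `Hyp.mono` -/
theorem card_two {X Z : Finset V} (hX : Thin G X) (hZ : Z ⊆ X) (hZn : Z.Nonempty) (hZX : Z ≠ X)
    {S : Finset I} (hS : Disjoint S (cut G Z (X \ Z))) : S.card + 2 ≤ Fintype.card I := by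
  have h1 := hX.two Z hZ hZn hZX
  have h2 : (S ∪ cut G Z (X \ Z)).card ≤ Fintype.card I := Finset.card_le_univ _
  rw [Finset.card_union_of_disjoint hS] at h2
  omega

theorem disj_cut {X Z D : Finset V} {O : Finset I} (hO : Outer G X O) (hZ : Z ⊆ X) :
    Disjoint (E G (D \ Z) ∪ O) (cut G Z (X \ Z)) ∧ Disjoint (E G Z ∪ O) (cut G Z (X \ Z)) := by
  constructor
  · rw [Finset.disjoint_left]
    intro e he h
    rw [mem_cut] at h
    rw [Finset.mem_union, mem_E] at he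
    simp only [Finset.mem_sdiff] at he h
    rcases he with he | he
    · rcases h with h | h
      · exact he.1.2 h.1
      · exact he.2.2 h.2
    · refine hO e he ?_
      rcases h with h | h
      · exact ⟨hZ h.1, h.2.1⟩
      · exact ⟨h.1.1, hZ h.2⟩
  · rw [Finset.disjoint_left]
    intro e he h
    rw [mem_cut] at h
    rw [Finset.mem_union, mem_E] at he
    simp only [Finset.mem_sdiff] at he h
    rcases he with he | he
    · rcases h with h | h
      · exact h.2.2 he.2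
      · exact h.1.2 he.1
    · refine hO e he ?_
      rcases h with h | h
      · exact ⟨hZ h.1, h.2.1⟩
      · exact ⟨h.1.1, hZ h.2⟩

/-- the two possibilities for the product bound of the two sides of a cut of `D` -/
theorem split_pb {q : ℝ} (hq : 1 < q) (hH : Hyp G q) {X : Finset V} (hX : Thin G X) {O : Finset I}
    (hO : Outer G X O) {D Δ K W Z WZ WT : Finset V} {z₀ : V} (h : Cfg G X D Δ K W)
    (hZ : Z ⊆ D \ K) (hz₀ : z₀ ∈ WZ) (hWZ : WZ ⊆ Z) (hKT : K ⊆ WT) (hWT : WT ⊆ D \ Z) {ρ₁ ρ₂ : ℝ}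
    (h₁ : 0 ≤ ρ₁) (h₂ : 0 ≤ ρ₂)
    (hb : (legs G O Z ⊆ WZ ∧ Bd G q ∅ Z {z₀} WZ ρ₁ ∧ Bd G q O (D \ Z) K WT ρ₂) ∨
          (legs G O (D \ Z) ⊆ WT ∧ Bd G q O Z {z₀} WZ ρ₁ ∧ Bd G q ∅ (D \ Z) K WT ρ₂)) :
    PB2 G q O Z {z₀} WZ (D \ Z) K WT (ρ₁ * ρ₂) := by
  have hZD : Z ⊆ D := hZ.trans Finset.sdiff_subset
  have hZX : Z ⊆ X := hZD.trans h.hD
  have hTX : D \ Z ⊆ X := Finset.sdiff_subset.trans h.hD
  have hZne : Z ≠ X := by
    rintro rfl
    obtain ⟨k, hk⟩ := h.hK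
    have := hZ (h.hD (h.hWD (h.hKW hk)))
    rw [Finset.mem_sdiff] at this
    exact this.2 hk
  have hdis : Disjoint Z (D \ Z) := Finset.disjoint_sdiff
  have hz₀Z : z₀ ∈ Z := hWZ hz₀
  have hs : ({z₀} : Finset V) ⊆ WZ := by simpa using hz₀
  obtain ⟨hd1, hd2⟩ := disj_cut (G := G) (D := D) hO hZX
  have hc1 := card_two hX hZX ⟨z₀, hz₀Z⟩ hZne hd1
  have hc2 := card_two hX hZX ⟨z₀, hz₀Z⟩ hZne hd2
  have hut : ∀ {R WR : Finset V}, legs G O R ⊆ WR → Untouched G O (R \ WR) := by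
    intro R WR hl e he
    constructor
    · intro hh
      rw [Finset.mem_sdiff] at hh
      refine hh.2 (hl ?_)
      simp only [legs, Finset.mem_filter]
      exact ⟨hh.1, e, he, Or.inl rfl⟩
    · intro hh
      rw [Finset.mem_sdiff] at hh
      refine hh.2 (hl ?_)
      simp only [legs, Finset.mem_filter]
      exact ⟨hh.1, e, he, Or.inr rfl⟩
  rcases hb with ⟨hl, hb1, hb2⟩ | ⟨hl, hb1, hb2⟩
  · exact pb G q hq hH hdis hs hWZ hKT hWT ⟨z₀, by simp⟩ h.hK (hut hl)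
      (outer_disj hO hZX) (outer_disj hO hTX) hc1 h₁ h₂ hb1 hb2
  · have := pb G q hq hH hdis.symm hKT hWT hs hWZ h.hK ⟨z₀, by simp⟩ (hut hl)
      (outer_disj hO hTX) (outer_disj hO hZX) hc2 h₂ h₁ hb2 hb1
    rw [mul_comm ρ₁ ρ₂]
    exact pb2_symm G q this

theorem legs_empty (R : Finset V) : legs G ∅ R = ∅ := by
  simp [legs]

theorem two_pow_le_exp (n : ℕ) : (2:ℝ) ^ n ≤ Real.exp n := by
  have h1 : (2:ℝ) ≤ Real.exp 1 := by
    have := Real.add_one_le_exp (1:ℝ); linarith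
  calc (2:ℝ) ^ n ≤ (Real.exp 1) ^ n := pow_le_pow_left₀ (by norm_num) h1 n
    _ = Real.exp n := by rw [← Real.exp_nat_mul]; simp

/-- new special vertices -/
theorem card_new {D K W Z WZ WT L L' : Finset V} 
    (hZ : Z ⊆ D \ K) (hWZ : WZ = (W ∩ Z) ∪ ends G Z (D \ Z) ∪ L)
    (hWT : WT = (W \ Z) ∪ ends G (D \ Z) Z ∪ L') :
    ((WZ ∪ WT) \ W).card ≤ 2 * (cut G Z (D \ Z)).card + L.card + L'.card := by
  have h1 := card_ends_le (G := G) (Y := Z) (T := D \ Z) Finset.disjoint_sdiff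
  have h2 := card_ends_le (G := G) (Y := D \ Z) (T := Z) Finset.sdiff_disjoint
  rw [cut_comm (D \ Z) Z] at h2
  have h3 : (WZ ∪ WT) \ W ⊆ (ends G Z (D \ Z) ∪ ends G (D \ Z) Z) ∪ (L ∪ L') := by
    intro v hv
    subst hWZ hWT
    simp only [Finset.mem_sdiff, Finset.mem_union, Finset.mem_inter] at hv ⊢
    tauto
  have h4 := Finset.card_le_card h3
  have h5 := Finset.card_union_le (ends G Z (D \ Z) ∪ ends G (D \ Z) Z) (L ∪ L')
  have h6 := Finset.card_union_le (ends G Z (D \ Z)) (ends G (D \ Z) Z)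
  have h7 := Finset.card_union_le L L'
  omega

theorem card_WZ {D K W Z WZ L : Finset V} {u : V} 
    (hWZ : WZ = (W ∩ Z) ∪ ends G Z (D \ Z) ∪ L) :
    (WZ \ {u}).card ≤ ((W ∩ Z).erase u).card + (cut G Z (D \ Z)).card + L.card := by
  have h1 := card_ends_le (G := G) (Y := Z) (T := D \ Z) Finset.disjoint_sdiff
  have h3 : WZ \ {u} ⊆ ((W ∩ Z).erase u ∪ ends G Z (D \ Z)) ∪ L := by
    intro v hv
    subst hWZ
    simp only [Finset.mem_sdiff, Finset.mem_union, Finset.mem_inter, Finset.mem_singleton,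
      Finset.mem_erase] at hv ⊢
    tauto
  have h4 := Finset.card_le_card h3
  have h5 := Finset.card_union_le ((W ∩ Z).erase u ∪ ends G Z (D \ Z)) L
  have h6 := Finset.card_union_le ((W ∩ Z).erase u) (ends G Z (D \ Z))
  omega

theorem card_WT {D K W Z WT L : Finset V}
    (hWT : WT = (W \ Z) ∪ ends G (D \ Z) Z ∪ L) :
    (WT \ K).card ≤ ((W \ Z) \ K).card + (cut G Z (D \ Z)).card + L.card := by
  have h2 := card_ends_le (G := G) (Y := D \ Z) (T := Z) Finset.sdiff_disjoint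
  rw [cut_comm (D \ Z) Z] at h2
  have h3 : WT \ K ⊆ ((W \ Z) \ K ∪ ends G (D \ Z) Z) ∪ L := by
    intro v hv
    subst hWT
    simp only [Finset.mem_sdiff, Finset.mem_union, Finset.mem_inter] at hv ⊢
    tauto
  have h4 := Finset.card_le_card h3
  have h5 := Finset.card_union_le ((W \ Z) \ K ∪ ends G (D \ Z) Z) L
  have h6 := Finset.card_union_le ((W \ Z) \ K) (ends G (D \ Z) Z)
  omega

theorem card_erase_split {D K W Z : Finset V} {u : V} (hZ : Z ⊆ D \ K) (hu : u ∈ Z) :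
    ((W ∩ Z).erase u).card + ((W \ Z) \ K).card ≤ ((W \ K).erase u).card := by
  rw [← Finset.card_union_of_disjoint]
  · apply Finset.card_le_card
    intro v hv
    simp only [Finset.mem_union, Finset.mem_erase, Finset.mem_inter, Finset.mem_sdiff] at hv ⊢
    rcases hv with hv | hv
    · have := hZ hv.2.2
      rw [Finset.mem_sdiff] at this
      exact ⟨hv.1, hv.2.1, this.2⟩
    · refine ⟨?_, hv.1.1, hv.2⟩
      rintro rfl
      exact hv.1.2 hu
  · rw [Finset.disjoint_left]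
    intro v hv hv'
    simp only [Finset.mem_erase, Finset.mem_inter, Finset.mem_sdiff] at hv hv'
    exact hv'.1.2 hv.2.2

/-- the product bound for the two sides of a cut, with energies -/
theorem side {q : ℝ} (hq : 1 < q) (hH : Hyp G q) {X : Finset V} (hX : Thin G X) {O : Finset I}
    (hO : Outer G X O) {s₁ : ℕ} {a₀ A₀ K₀ a A : ℝ} {Q ℓ : Finset V → ℝ} {dom : Finset V → Prop}
    (ha₀ : 0 ≤ a₀) (ha : a₀ ≤ a) (hA₀ : 0 ≤ A₀) (hA : A₀ ≤ A)
    (hleg : ∀ R, R ⊆ X → R.Nonempty → 2 * R.card ≤ X.card → ((legs G O R).card : ℝ) ≤ ℓ R)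
    {D Δ K W Z : Finset V} {u : V} (h : Cfg G X D Δ K W) (hZ : Z ⊆ D \ K) (hu : u ∈ Z)
    (hcZ : Kconn G Z {u}) (hcT : Kconn G (D \ Z) K) {P₁ P₂ : Finset V} {φ₂ : ℕ}
    (hR1 : Ref G X Z ∅ {u} P₁ s₁ 0) (hR2 : Ref G X (D \ Z) Δ K P₂ s₁ φ₂)
    (huW : u ∈ W ∨ u ∈ ends G Z (D \ Z)) {n N₀ : ℕ} (hN₀ : D.card ≤ N₀)
    (IH0 : LB G q X ∅ s₁ a₀ A₀ (Q0 G X K₀) (fun S => 2 * S.card ≤ X.card) n N₀)
    (IHi : LB G q X O s₁ a A Q dom n D.card)
    (hn : (D \ W).card ≤ n) (hdZ : dom (Z ∪ ∅)) (hdT : dom ((D \ Z) ∪ Δ)) :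
    ∃ (WZ WT : Finset V) (β : ℝ), (W ∩ Z) ∪ ends G Z (D \ Z) ⊆ WZ ∧ WZ ⊆ Z ∧
      (W \ Z) ∪ ends G (D \ Z) Z ⊆ WT ∧ WT ⊆ D \ Z ∧ u ∈ WZ ∧ 0 ≤ β ∧
      PB2 G q O Z {u} WZ (D \ Z) K WT β ∧
      ∃ R T : Finset V, ((R = Z ∧ T = (D \ Z) ∪ Δ) ∨ (R = (D \ Z) ∪ Δ ∧ T = Z)) ∧
        R.card ≤ T.card ∧
        β * 2 ^ ((WZ ∪ WT) \ W).card ≤
          Real.exp (a * ((((W \ K).erase u).card : ℝ) + 2 * ((cut G Z (D \ Z)).card : ℝ))
            + A * (2 * (((cut G (Z ∪ ∅) (P₁ \ (Z ∪ ∅))).card : ℝ) +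
                ((cut G ((D \ Z) ∪ Δ) (P₂ \ ((D \ Z) ∪ Δ))).card : ℝ)) + φ₂)
            + (Q0 G X K₀ R + Q T + (a₀ + 1) * ℓ R) + 2 * ((cut G Z (D \ Z)).card : ℝ)) := by
  classical
  have hZD : Z ⊆ D := hZ.trans Finset.sdiff_subset
  have hZX : Z ⊆ X := hZD.trans h.hD
  have hTX : D \ Z ⊆ X := Finset.sdiff_subset.trans h.hD
  have hTΔX : (D \ Z) ∪ Δ ⊆ X := Finset.union_subset hTX h.hΔ
  have hdisj : Disjoint Z ((D \ Z) ∪ Δ) := by
    rw [Finset.disjoint_union_right]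
    exact ⟨Finset.disjoint_sdiff, Finset.disjoint_of_subset_left hZD h.disj⟩
  have hsum : Z.card + ((D \ Z) ∪ Δ).card ≤ X.card := by
    rw [← Finset.card_union_of_disjoint hdisj]
    exact Finset.card_le_card (Finset.union_subset hZX hTΔX)
  have hZcard : Z.card < D.card := by
    apply Finset.card_lt_card
    rw [Finset.ssubset_iff_of_subset hZD]
    obtain ⟨k, hk⟩ := h.hK
    exact ⟨k, h.hWD (h.hKW hk), fun hkZ => (Finset.mem_sdiff.mp (hZ hkZ)).2 hk⟩
  have hTcard : (D \ Z).card < D.card := by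
    apply Finset.card_lt_card
    rw [Finset.ssubset_iff_of_subset Finset.sdiff_subset]
    exact ⟨u, hZD hu, fun hh => (Finset.mem_sdiff.mp hh).2 hu⟩
  have hKT : K ⊆ W \ Z := by
    intro k hk
    rw [Finset.mem_sdiff]
    exact ⟨h.hKW hk, fun hkZ => (Finset.mem_sdiff.mp (hZ hkZ)).2 hk⟩
  have hendsZ : ends G Z (D \ Z) ⊆ Z := Finset.filter_subset _ _
  have hendsT : ends G (D \ Z) Z ⊆ D \ Z := Finset.filter_subset _ _
  have hWTD : W \ Z ⊆ D \ Z := Finset.sdiff_subset_sdiff h.hWD le_rfl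
  have hTne : (D \ Z).Nonempty := by
    obtain ⟨k, hk⟩ := h.hK
    exact ⟨k, hWTD (hKT hk)⟩
  have hes := card_erase_split (W := W) hZ hu
  have hesR : (((W ∩ Z).erase u).card : ℝ) + (((W \ Z) \ K).card : ℝ) ≤ (((W \ K).erase u).card : ℝ) := by
    exact_mod_cast hes
  by_cases hcase : Z.card ≤ ((D \ Z) ∪ Δ).card
  · -- Z resolved
    set WZ := (W ∩ Z) ∪ ends G Z (D \ Z) ∪ legs G O Z with hWZ
    set WT := (W \ Z) ∪ ends G (D \ Z) Z ∪ (∅ : Finset V) with hWT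
    have huWZ : u ∈ WZ := by
      rw [hWZ]
      simp only [Finset.mem_union, Finset.mem_inter]
      rcases huW with hh | hh
      · exact Or.inl (Or.inl ⟨hh, hu⟩)
      · exact Or.inl (Or.inr hh)
    have hWZ1 : (W ∩ Z) ∪ ends G Z (D \ Z) ⊆ WZ := Finset.subset_union_left
    have hWT1 : (W \ Z) ∪ ends G (D \ Z) Z ⊆ WT := Finset.subset_union_left
    have hWZ2 : WZ ⊆ Z := by
      rw [hWZ]
      exact Finset.union_subset (Finset.union_subset Finset.inter_subset_right hendsZ)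
        (Finset.filter_subset _ _)
    have hWT2 : WT ⊆ D \ Z := by
      rw [hWT]
      exact Finset.union_subset (Finset.union_subset hWTD hendsT) (Finset.empty_subset _)
    have hcfgZ := cfg_Z G h hZ huWZ hWZ1 hWZ2 hcZ
    have hcfgT := cfg_T G h hZ hWT1 hWT2 hcT
    have hn1 : (Z \ WZ).card ≤ n := by
      refine (Finset.card_le_card ?_).trans hn
      intro v hv
      rw [Finset.mem_sdiff] at hv ⊢
      exact ⟨hZD hv.1, fun hh => hv.2 (hWZ1 (Finset.mem_union_left _ (Finset.mem_inter.mpr ⟨hh, hv.1⟩)))⟩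
    have hn2 : ((D \ Z) \ WT).card ≤ n := by
      refine (Finset.card_le_card ?_).trans hn
      intro v hv
      rw [Finset.mem_sdiff, Finset.mem_sdiff] at hv
      rw [Finset.mem_sdiff]
      exact ⟨hv.1.1, fun hh => hv.2 (hWT1 (Finset.mem_union_left _ (Finset.mem_sdiff.mpr ⟨hh, hv.1.2⟩)))⟩
    have hb1 := IH0 Z ∅ {u} WZ P₁ 0 hcfgZ hR1 (by simp only [Finset.union_empty]; omega) hn1
      (by omega)
    have hb2 := IHi (D \ Z) Δ K WT P₂ φ₂ hcfgT hR2 hdT hn2 hTcard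
    have hpb := split_pb hq hH hX hO h hZ huWZ hWZ2 (hKT.trans (Finset.subset_union_left.trans hWT1))
      hWT2 (Real.exp_pos _).le (Real.exp_pos _).le (Or.inl ⟨Finset.subset_union_right, hb1, hb2⟩)
    refine ⟨WZ, WT, _, hWZ1, hWZ2, hWT1, hWT2, huWZ, by positivity, hpb, Z, (D \ Z) ∪ Δ,
      Or.inl ⟨rfl, rfl⟩, hcase, ?_⟩
    have hl := hleg Z hZX ⟨u, hu⟩ (by omega)
    have hnew := card_new (G := G) hZ hWZ hWT
    have hcz := card_WZ (G := G) (K := K) (u := u) hWZ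
    have hct := card_WT (G := G) (K := K) hWT
    rw [Finset.card_empty] at hnew hct
    rw [← Real.exp_add]
    refine (mul_le_mul_of_nonneg_left (two_pow_le_exp _) (Real.exp_pos _).le).trans ?_
    rw [← Real.exp_add]
    apply Real.exp_le_exp.mpr
    have hnewR : ((((WZ ∪ WT) \ W).card : ℕ) : ℝ) ≤ 2 * ((cut G Z (D \ Z)).card : ℝ) + ((legs G O Z).card : ℝ) := by
      exact_mod_cast (by omega : ((WZ ∪ WT) \ W).card ≤ 2 * (cut G Z (D \ Z)).card + (legs G O Z).card)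
    have hczR : ((WZ \ {u}).card : ℝ) ≤ (((W ∩ Z).erase u).card : ℝ) + ((cut G Z (D \ Z)).card : ℝ) + ((legs G O Z).card : ℝ) := by
      exact_mod_cast hcz
    have hctR : ((WT \ K).card : ℝ) ≤ (((W \ Z) \ K).card : ℝ) + ((cut G Z (D \ Z)).card : ℝ) := by
      exact_mod_cast (by omega : (WT \ K).card ≤ ((W \ Z) \ K).card + (cut G Z (D \ Z)).card)
    unfold en
    simp only [Finset.union_empty, Nat.cast_zero, add_zero]
    have hc0 : (0:ℝ) ≤ ((cut G Z (D \ Z)).card : ℝ) := Nat.cast_nonneg _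
    have hl0 : (0:ℝ) ≤ ((legs G O Z).card : ℝ) := Nat.cast_nonneg _
    have hx0 : (0:ℝ) ≤ (((W ∩ Z).erase u).card : ℝ) := Nat.cast_nonneg _
    have ht0 : (0:ℝ) ≤ ((cut G Z (P₁ \ Z)).card : ℝ) := Nat.cast_nonneg _
    have hstep1 : a₀ * ((WZ \ {u}).card : ℝ) ≤ a * ((((W ∩ Z).erase u).card : ℝ) + ((cut G Z (D \ Z)).card : ℝ)) + a₀ * ((legs G O Z).card : ℝ) := by
      calc a₀ * ((WZ \ {u}).card : ℝ) ≤ a₀ * ((((W ∩ Z).erase u).card : ℝ) + ((cut G Z (D \ Z)).card : ℝ) + ((legs G O Z).card : ℝ)) :=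
            mul_le_mul_of_nonneg_left hczR ha₀
        _ = a₀ * ((((W ∩ Z).erase u).card : ℝ) + ((cut G Z (D \ Z)).card : ℝ)) + a₀ * ((legs G O Z).card : ℝ) := by ring
        _ ≤ _ := by
            have := mul_le_mul_of_nonneg_right ha (add_nonneg hx0 hc0)
            linarith
    have hstep2 : a * ((WT \ K).card : ℝ) ≤ a * ((((W \ Z) \ K).card : ℝ) + ((cut G Z (D \ Z)).card : ℝ)) :=
      mul_le_mul_of_nonneg_left hctR (ha₀.trans ha)
    have hstep3 : a * ((((W ∩ Z).erase u).card : ℝ) + (((W \ Z) \ K).card : ℝ)) ≤ a * (((W \ K).erase u).card : ℝ) :=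
      mul_le_mul_of_nonneg_left hesR (ha₀.trans ha)
    have hstep4 : A₀ * (2 * ((cut G Z (P₁ \ Z)).card : ℝ)) ≤ A * (2 * ((cut G Z (P₁ \ Z)).card : ℝ)) :=
      mul_le_mul_of_nonneg_right hA (by positivity)
    have hstep5 : (a₀ + 1) * ((legs G O Z).card : ℝ) ≤ (a₀ + 1) * ℓ Z :=
      mul_le_mul_of_nonneg_left hl (by linarith)
    linarith [hstep1, hstep2, hstep3, hstep4, hstep5, hnewR]
  · -- the K side resolved
    push Not at hcase
    set WZ := (W ∩ Z) ∪ ends G Z (D \ Z) ∪ (∅ : Finset V) with hWZ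
    set WT := (W \ Z) ∪ ends G (D \ Z) Z ∪ legs G O (D \ Z) with hWT
    have huWZ : u ∈ WZ := by
      rw [hWZ]
      simp only [Finset.mem_union, Finset.mem_inter]
      rcases huW with hh | hh
      · exact Or.inl (Or.inl ⟨hh, hu⟩)
      · exact Or.inl (Or.inr hh)
    have hWZ1 : (W ∩ Z) ∪ ends G Z (D \ Z) ⊆ WZ := Finset.subset_union_left
    have hWT1 : (W \ Z) ∪ ends G (D \ Z) Z ⊆ WT := Finset.subset_union_left
    have hWZ2 : WZ ⊆ Z := by
      rw [hWZ]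
      exact Finset.union_subset (Finset.union_subset Finset.inter_subset_right hendsZ)
        (Finset.empty_subset _)
    have hWT2 : WT ⊆ D \ Z := by
      rw [hWT]
      exact Finset.union_subset (Finset.union_subset hWTD hendsT) (Finset.filter_subset _ _)
    have hcfgZ := cfg_Z G h hZ huWZ hWZ1 hWZ2 hcZ
    have hcfgT := cfg_T G h hZ hWT1 hWT2 hcT
    have hn1 : (Z \ WZ).card ≤ n := by
      refine (Finset.card_le_card ?_).trans hn
      intro v hv
      rw [Finset.mem_sdiff] at hv ⊢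
      exact ⟨hZD hv.1, fun hh => hv.2 (hWZ1 (Finset.mem_union_left _ (Finset.mem_inter.mpr ⟨hh, hv.1⟩)))⟩
    have hn2 : ((D \ Z) \ WT).card ≤ n := by
      refine (Finset.card_le_card ?_).trans hn
      intro v hv
      rw [Finset.mem_sdiff, Finset.mem_sdiff] at hv
      rw [Finset.mem_sdiff]
      exact ⟨hv.1.1, fun hh => hv.2 (hWT1 (Finset.mem_union_left _ (Finset.mem_sdiff.mpr ⟨hh, hv.1.2⟩)))⟩
    have hb1 := IHi Z ∅ {u} WZ P₁ 0 hcfgZ hR1 hdZ hn1 hZcard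
    have hb2 := IH0 (D \ Z) Δ K WT P₂ φ₂ hcfgT hR2 (by show 2 * ((D \ Z) ∪ Δ).card ≤ X.card; omega) hn2
      (by omega)
    have hpb := split_pb hq hH hX hO h hZ huWZ hWZ2 (hKT.trans (Finset.subset_union_left.trans hWT1))
      hWT2 (Real.exp_pos _).le (Real.exp_pos _).le (Or.inr ⟨Finset.subset_union_right, hb1, hb2⟩)
    refine ⟨WZ, WT, _, hWZ1, hWZ2, hWT1, hWT2, huWZ, by positivity, hpb, (D \ Z) ∪ Δ, Z,
      Or.inr ⟨rfl, rfl⟩, hcase.le, ?_⟩
    have hl := hleg ((D \ Z) ∪ Δ) hTΔX (hTne.mono Finset.subset_union_left) (by omega)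
    have hl' : ((legs G O (D \ Z)).card : ℝ) ≤ ((legs G O ((D \ Z) ∪ Δ)).card : ℝ) := by
      exact_mod_cast Finset.card_le_card (Finset.filter_subset_filter _ Finset.subset_union_left)
    have hnew := card_new (G := G) hZ hWZ hWT
    have hcz := card_WZ (G := G) (K := K) (u := u) hWZ
    have hct := card_WT (G := G) (K := K) hWT
    rw [Finset.card_empty] at hnew hcz
    rw [← Real.exp_add]
    refine (mul_le_mul_of_nonneg_left (two_pow_le_exp _) (Real.exp_pos _).le).trans ?_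
    rw [← Real.exp_add]
    apply Real.exp_le_exp.mpr
    have hnewR : ((((WZ ∪ WT) \ W).card : ℕ) : ℝ) ≤ 2 * ((cut G Z (D \ Z)).card : ℝ) + ((legs G O (D \ Z)).card : ℝ) := by
      exact_mod_cast (by omega : ((WZ ∪ WT) \ W).card ≤ 2 * (cut G Z (D \ Z)).card + (legs G O (D \ Z)).card)
    have hczR : ((WZ \ {u}).card : ℝ) ≤ (((W ∩ Z).erase u).card : ℝ) + ((cut G Z (D \ Z)).card : ℝ) := by
      exact_mod_cast (by omega : (WZ \ {u}).card ≤ ((W ∩ Z).erase u).card + (cut G Z (D \ Z)).card)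
    have hctR : ((WT \ K).card : ℝ) ≤ (((W \ Z) \ K).card : ℝ) + ((cut G Z (D \ Z)).card : ℝ) + ((legs G O (D \ Z)).card : ℝ) := by
      exact_mod_cast hct
    unfold en
    simp only [Finset.union_empty, Nat.cast_zero, add_zero]
    have hc0 : (0:ℝ) ≤ ((cut G Z (D \ Z)).card : ℝ) := Nat.cast_nonneg _
    have hl0 : (0:ℝ) ≤ ((legs G O (D \ Z)).card : ℝ) := Nat.cast_nonneg _
    have hx0 : (0:ℝ) ≤ (((W \ Z) \ K).card : ℝ) := Nat.cast_nonneg _
    have ht0 : (0:ℝ) ≤ ((cut G ((D \ Z) ∪ Δ) (P₂ \ ((D \ Z) ∪ Δ))).card : ℝ) := Nat.cast_nonneg _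
    have hphi : (0:ℝ) ≤ (φ₂ : ℝ) := Nat.cast_nonneg _
    have hstep1 : a₀ * ((WT \ K).card : ℝ) ≤ a * ((((W \ Z) \ K).card : ℝ) + ((cut G Z (D \ Z)).card : ℝ)) + a₀ * ((legs G O (D \ Z)).card : ℝ) := by
      calc a₀ * ((WT \ K).card : ℝ) ≤ a₀ * ((((W \ Z) \ K).card : ℝ) + ((cut G Z (D \ Z)).card : ℝ) + ((legs G O (D \ Z)).card : ℝ)) :=
            mul_le_mul_of_nonneg_left hctR ha₀
        _ = a₀ * ((((W \ Z) \ K).card : ℝ) + ((cut G Z (D \ Z)).card : ℝ)) + a₀ * ((legs G O (D \ Z)).card : ℝ) := by ring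
        _ ≤ _ := by
            have := mul_le_mul_of_nonneg_right ha (add_nonneg hx0 hc0)
            linarith
    have hstep2 : a * ((WZ \ {u}).card : ℝ) ≤ a * ((((W ∩ Z).erase u).card : ℝ) + ((cut G Z (D \ Z)).card : ℝ)) :=
      mul_le_mul_of_nonneg_left hczR (ha₀.trans ha)
    have hstep3 : a * ((((W ∩ Z).erase u).card : ℝ) + (((W \ Z) \ K).card : ℝ)) ≤ a * (((W \ K).erase u).card : ℝ) :=
      mul_le_mul_of_nonneg_left hesR (ha₀.trans ha)
    have hstep4 : A₀ * (2 * ((cut G ((D \ Z) ∪ Δ) (P₂ \ ((D \ Z) ∪ Δ))).card : ℝ) + φ₂) ≤ A * (2 * ((cut G ((D \ Z) ∪ Δ) (P₂ \ ((D \ Z) ∪ Δ))).card : ℝ) + φ₂) :=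
      mul_le_mul_of_nonneg_right hA (by positivity)
    have hstep5 : (a₀ + 1) * ((legs G O (D \ Z)).card : ℝ) ≤ (a₀ + 1) * ℓ ((D \ Z) ∪ Δ) :=
      mul_le_mul_of_nonneg_left (hl'.trans hl) (by linarith)
    linarith [hstep1, hstep2, hstep3, hstep4, hstep5, hnewR]

end D3

end Pool.Agent.H753R2.FR
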