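import Mathlib
import Pool.Agent.H753R2.FR.Defs
import Pool.Agent.H753R2.FR.DefsD
import Pool.Agent.H753R2.FR.T_D3
set_option autoImplicit false
set_option linter.unusedSectionVars false
set_option linter.unusedVariables false
set_option maxHeartbeats 1000000

namespace Pool.Agent.H753R2.FR

open Finset

section D5
variable {V I : Type} [DecidableEq V] [DecidableEq I] [Fintype V] [Fintype I] {G : MG V I}

theorem bd_mono {q : ℝ} {O : Finset I} {D K W : Finset V} {ρ ρ' : ℝ} (h : ρ ≤ ρ')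
    (hnn : ∀ r, 0 ≤ m G q (r ⊔ mg W) (E G D ∪ O)) (hb : Bd G q O D K W ρ) : Bd G q O D K W ρ' := by
  intro r hr hf f hf'
  exact (hb r hr hf f hf').trans (mul_le_mul_of_nonneg_right h (hnn r))

/-- in a configuration with `D ∪ Δ ≠ X` some edge inside `X` is missing -/
theorem ne_univ {X D Δ K W : Finset V} {O : Finset I} (hX : Thin G X) (hO : Outer G X O)
    (h : Cfg G X D Δ K W) (hne : D ∪ Δ ≠ X) : E G D ∪ O ≠ univ := by
  intro hu
  have hDX : D ∪ Δ ⊆ X := Finset.union_subset h.hD h.hΔ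
  have hDn : (D ∪ Δ).Nonempty := by
    obtain ⟨k, hk⟩ := h.hK
    exact ⟨k, Finset.mem_union_left _ (h.hWD (h.hKW hk))⟩
  have h2 := hX.two _ hDX hDn hne
  have h3 : (cut G (D ∪ Δ) (X \ (D ∪ Δ))).Nonempty := by
    rw [← Finset.card_pos]; omega
  obtain ⟨e, he⟩ := h3
  have heu : e ∈ E G D ∪ O := by rw [hu]; exact Finset.mem_univ _
  rw [mem_cut] at he
  rw [Finset.mem_union, mem_E] at heu
  simp only [Finset.mem_sdiff] at he
  rcases heu with heu | heu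
  · rcases he with he | he
    · exact he.2.2 (Finset.mem_union_left _ heu.2)
    · exact he.1.2 (Finset.mem_union_left _ heu.1)
  · refine hO e heu ?_
    rcases he with he | he
    · exact ⟨hDX he.1, he.2.1⟩
    · exact ⟨he.1.1, hDX he.2⟩

/-- the merging claims of a configuration -/
theorem lc_of_ll {q : ℝ} {X D Δ K W : Finset V} {O : Finset I} (hO : Outer G X O) {n : ℕ}
    (hLL : LL G q X n) (h : Cfg G X D Δ K W) (hn : (D \ W).card ≤ n) :
    ∀ K', W ⊆ K' → K' ⊆ D → LC G q O D K' := by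
  intro K' hWK' hK'D
  have hK'n : K'.Nonempty := h.hK.mono (h.hKW.trans hWK')
  refine hLL O hO D K' h.hD hK'D hK'n ?_ ?_
  · rw [Finset.eq_empty_iff_forall_notMem]
    intro e he
    have hd := h.dead
    have hb := h.bdry
    rw [Finset.eq_empty_iff_forall_notMem] at hd hb
    rw [mem_cut] at he
    simp only [Finset.mem_sdiff] at he
    rcases he with ⟨⟨hx, hxK⟩, hy, hyD⟩ | ⟨⟨hx, hxD⟩, hy, hyK⟩
    · by_cases hyΔ : G.y e ∈ Δ
      · apply hd e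
        rw [mem_cut]
        exact Or.inr ⟨Finset.mem_sdiff.mpr ⟨hx, fun hh => hxK (hWK' (h.hKW hh))⟩, hyΔ⟩
      · apply hb e
        rw [mem_cut]
        refine Or.inl ⟨Finset.mem_sdiff.mpr ⟨hx, fun hh => hxK (hWK' hh)⟩, ?_⟩
        rw [Finset.mem_sdiff, Finset.mem_union]
        exact ⟨hy, fun hh => hh.elim hyD hyΔ⟩
    · by_cases hxΔ : G.x e ∈ Δ
      · apply hd e
        rw [mem_cut]
        exact Or.inl ⟨hxΔ, Finset.mem_sdiff.mpr ⟨hy, fun hh => hyK (hWK' (h.hKW hh))⟩⟩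
      · apply hb e
        rw [mem_cut]
        refine Or.inr ⟨?_, Finset.mem_sdiff.mpr ⟨hy, fun hh => hyK (hWK' hh)⟩⟩
        rw [Finset.mem_sdiff, Finset.mem_union]
        exact ⟨hx, fun hh => hh.elim hxD hxΔ⟩
  · exact (Finset.card_le_card (Finset.sdiff_subset_sdiff le_rfl hWK')).trans hn

theorem cost_le {q : ℝ} (hq : 3 ≤ q) {c : ℕ} (hc : 1 ≤ c) :
    (1 + 2 / (q - 1)) ^ c + q * (1 / (q - 1)) ^ c ≤ Real.exp (2 * (c : ℝ)) := by
  have hq1 : 0 < q - 1 := by linarith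
  have h1 : 2 / (q - 1) ≤ 1 := by rw [div_le_one hq1]; linarith
  have h2 : (1 + 2 / (q - 1)) ^ c ≤ 2 ^ c := by
    apply pow_le_pow_left₀ (by positivity)
    linarith
  have h3 : q * (1 / (q - 1)) ^ c ≤ 2 := by
    have : (1 / (q - 1)) ^ c ≤ 1 / (q - 1) := by
      apply pow_le_of_le_one (by positivity) _ (by omega)
      rw [div_le_one hq1]; linarith
    calc q * (1 / (q - 1)) ^ c ≤ q * (1 / (q - 1)) := mul_le_mul_of_nonneg_left this (by linarith)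
      _ = q / (q - 1) := by ring
      _ ≤ 2 := by rw [div_le_iff₀ hq1]; linarith
  have h4 : (2:ℝ) ≤ 2 ^ c := by
    calc (2:ℝ) = 2 ^ 1 := by norm_num
      _ ≤ 2 ^ c := pow_le_pow_right₀ (by norm_num) hc
  have h5 : (4:ℝ) ^ c ≤ Real.exp (2 * (c : ℝ)) := by
    have := two_pow_le_exp (2 * c)
    rw [pow_mul] at this
    push_cast at this
    norm_num at this
    exact this
  have h6 : (2:ℝ) ^ c * 2 ^ c = 4 ^ c := by rw [← mul_pow]; norm_num
  nlinarith [h2, h3, h4, h5, h6]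

/-- from the product bound to the bound of the whole domain by cutting -/
theorem cut_to_bd {q : ℝ} (hq : 3 ≤ q) {X : Finset V} (hX : Thin G X) (hH : Hyp G q) {O : Finset I}
    (hO : Outer G X O) {D Δ K W Z WZ WT : Finset V} {z₀ : V} {β : ℝ} (h : Cfg G X D Δ K W)
    (hne : D ∪ Δ ≠ X)
    (hZ : Z ⊆ D \ K) (hz₀ : z₀ ∈ Z) (hc : 1 ≤ (cut G Z (D \ Z)).card)
    (hWZ : (W ∩ Z) ∪ ends G Z (D \ Z) ⊆ WZ) (hWZ' : WZ ⊆ Z)
    (hWT : (W \ Z) ∪ ends G (D \ Z) Z ⊆ WT) (hWT' : WT ⊆ D \ Z) (hβ : 0 ≤ β)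
    (hPB : PB2 G q O Z {z₀} WZ (D \ Z) K WT β)
    (hLC : ∀ K', W ⊆ K' → K' ⊆ D → LC G q O D K') {F : ℝ}
    (hF : β * 2 ^ ((WZ ∪ WT) \ W).card ≤ Real.exp F) :
    Bd G q O D K W (Real.exp (F + 2 * ((cut G Z (D \ Z)).card : ℝ))) := by
  intro r hr hfree f hf
  have hq1 : (1:ℝ) < q := by linarith
  have hZD : Z ⊆ D := hZ.trans Finset.sdiff_subset
  have h1 := cutstep G q hq1 h.hK h.hKW h.hWD hZ hz₀ (outer_disj hO h.hD) hWZ hWZ' hWT hWT' hPB r hr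
    hfree f hf
  have hWsub : W ⊆ WZ ∪ WT := by
    intro v hv
    by_cases hvZ : v ∈ Z
    · exact Finset.mem_union_left _ (hWZ (Finset.mem_union_left _ (Finset.mem_inter.mpr ⟨hv, hvZ⟩)))
    · exact Finset.mem_union_right _ (hWT (Finset.mem_union_left _ (Finset.mem_sdiff.mpr ⟨hv, hvZ⟩)))
  have hsubD : WZ ∪ WT ⊆ D :=
    Finset.union_subset (hWZ'.trans hZD) (hWT'.trans Finset.sdiff_subset)
  have h2 := lcost G q (h.hK.mono h.hKW) hWsub hsubD hLC r hfree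
  have hnn : 0 ≤ m G q (r ⊔ mg W) (E G D ∪ O) := hH.nn _ _ (Or.inr (ne_univ hX hO h hne))
  have hcost := cost_le hq hc
  have hc0 : 0 ≤ (1 + 2 / (q - 1)) ^ (cut G Z (D \ Z)).card + q * (1 / (q - 1)) ^ (cut G Z (D \ Z)).card := by
    have : 0 < q - 1 := by linarith
    positivity
  refine h1.trans ?_
  calc β * ((1 + 2 / (q - 1)) ^ (cut G Z (D \ Z)).card + q * (1 / (q - 1)) ^ (cut G Z (D \ Z)).card) *
        m G q (r ⊔ mg (WZ ∪ WT)) (E G D ∪ O)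
      ≤ β * ((1 + 2 / (q - 1)) ^ (cut G Z (D \ Z)).card + q * (1 / (q - 1)) ^ (cut G Z (D \ Z)).card) *
        (2 ^ ((WZ ∪ WT) \ W).card * m G q (r ⊔ mg W) (E G D ∪ O)) :=
        mul_le_mul_of_nonneg_left h2 (mul_nonneg hβ hc0)
    _ = ((1 + 2 / (q - 1)) ^ (cut G Z (D \ Z)).card + q * (1 / (q - 1)) ^ (cut G Z (D \ Z)).card) *
        (β * 2 ^ ((WZ ∪ WT) \ W).card) * m G q (r ⊔ mg W) (E G D ∪ O) := by ring
    _ ≤ Real.exp (2 * ((cut G Z (D \ Z)).card : ℝ)) * Real.exp F * m G q (r ⊔ mg W) (E G D ∪ O) := by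
        apply mul_le_mul_of_nonneg_right _ hnn
        exact mul_le_mul hcost hF (by positivity) (Real.exp_pos _).le
    _ = Real.exp (F + 2 * ((cut G Z (D \ Z)).card : ℝ)) * m G q (r ⊔ mg W) (E G D ∪ O) := by
        rw [← Real.exp_add, add_comm F]

/-- from the product bounds of all the sets `Y` of the expansion to the difference bound -/
theorem exp_to_bd {q : ℝ} (hq : 3 ≤ q) {X : Finset V} {O : Finset I}
    (hO : Outer G X O) {D K W : Finset V} {u k₀ : V} (hDX : D ⊆ X) (hKW : K ⊆ W) (hWD : W ⊆ D)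
    (hk₀ : k₀ ∈ K) (hu : u ∈ W \ K) (hD : Kconn G D K) (hLC : ∀ K', W ⊆ K' → K' ⊆ D → LC G q O D K')
    (C F : ℝ) 
    (hY : ∀ Y ∈ fam G D K u, ∃ (WY WT : Finset V) (β : ℝ),
      (W ∩ Y) ∪ ends G Y (D \ Y) ⊆ WY ∧ WY ⊆ Y ∧ (W \ Y) ∪ ends G (D \ Y) Y ⊆ WT ∧ WT ⊆ D \ Y ∧
      0 ≤ β ∧ PB2 G q O Y {u} WY (D \ Y) K WT β ∧
      β * 2 ^ ((WY ∪ WT) \ W).card ≤ Real.exp (F + C * ((cut G Y (D \ Y)).card : ℝ)))
    (r : Setoid V) (hr : mg K ≤ r) (hfree : Free r (D \ W))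
    (hnn : 0 ≤ m G q (r ⊔ mg W) (E G D ∪ O))
    (f : Setoid V → ℝ) (hf : ∀ s, |f s| ≤ 1) :
    |∑ A ∈ (E G D).powerset,
        f (pat W (conn G A ⊔ mg K)) * (wt q (E G D) A * m G q (r ⊔ conn G A) O)
      - ∑ A ∈ (E G D).powerset,
        f (pat W (conn G A ⊔ mg (insert u K))) *
          (wt q (E G D) A * m G q (r ⊔ pr k₀ u ⊔ conn G A) O)|
      ≤ (q + 1) * (∑ Y ∈ fam G D K u, (1 / (q - 1) * Real.exp C) ^ (cut G Y (D \ Y)).card) *
          Real.exp F * m G q (r ⊔ mg W) (E G D ∪ O) := by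
  classical
  have hq1 : (1:ℝ) < q := by linarith
  have hq0 : 0 < q - 1 := by linarith
  have hex : ∀ Y, ∃ (WY WT : Finset V) (β : ℝ), Y ∈ fam G D K u →
      ((W ∩ Y) ∪ ends G Y (D \ Y) ⊆ WY ∧ WY ⊆ Y ∧ (W \ Y) ∪ ends G (D \ Y) Y ⊆ WT ∧ WT ⊆ D \ Y ∧
      0 ≤ β ∧ PB2 G q O Y {u} WY (D \ Y) K WT β ∧
      β * 2 ^ ((WY ∪ WT) \ W).card ≤ Real.exp (F + C * ((cut G Y (D \ Y)).card : ℝ))) := by
    intro Y
    by_cases hYf : Y ∈ fam G D K u
    · obtain ⟨a, b, c, hh⟩ := hY Y hYf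
      exact ⟨a, b, c, fun _ => hh⟩
    · exact ⟨∅, ∅, 0, fun hh => absurd hh hYf⟩
  choose WY WT β hh using hex
  have h1 := expand G q hq1 hk₀ hKW hWD hu hD (outer_disj hO hDX) WY WT β
    (fun Y hYf => ⟨(hh Y hYf).1, (hh Y hYf).2.1⟩)
    (fun Y hYf => ⟨(hh Y hYf).2.2.1, (hh Y hYf).2.2.2.1⟩)
    (fun Y hYf => (hh Y hYf).2.2.2.2.2.1) r hr hfree f hf
  refine h1.trans ?_
  rw [mul_assoc, mul_assoc, Finset.sum_mul, Finset.mul_sum]
  apply Finset.sum_le_sum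
  intro Y hYf
  obtain ⟨ha, hb, hc, hd, hβ, hpb, hF⟩ := hh Y hYf
  have hYD : Y ⊆ D := by
    have : Y ∈ (D \ K).powerset := by
      unfold fam at hYf; exact (Finset.mem_filter.mp hYf).1
    exact (Finset.mem_powerset.mp this).trans Finset.sdiff_subset
  have hWsub : W ⊆ WY Y ∪ WT Y := by
    intro v hv
    by_cases hvZ : v ∈ Y
    · exact Finset.mem_union_left _ (ha (Finset.mem_union_left _ (Finset.mem_inter.mpr ⟨hv, hvZ⟩)))
    · exact Finset.mem_union_right _ (hc (Finset.mem_union_left _ (Finset.mem_sdiff.mpr ⟨hv, hvZ⟩)))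
  have hsubD : WY Y ∪ WT Y ⊆ D := Finset.union_subset (hb.trans hYD) (hd.trans Finset.sdiff_subset)
  have h2 := lcost G q (⟨k₀, hKW hk₀⟩ : W.Nonempty) hWsub hsubD hLC r hfree
  have hp0 : 0 ≤ (1 / (q - 1)) ^ (cut G Y (D \ Y)).card := by positivity
  calc (1 / (q - 1)) ^ (cut G Y (D \ Y)).card *
          ((q + 1) * β Y * m G q (r ⊔ mg (WY Y ∪ WT Y)) (E G D ∪ O))
      ≤ (1 / (q - 1)) ^ (cut G Y (D \ Y)).card *
          ((q + 1) * β Y * (2 ^ ((WY Y ∪ WT Y) \ W).card * m G q (r ⊔ mg W) (E G D ∪ O))) := by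
        apply mul_le_mul_of_nonneg_left _ hp0
        exact mul_le_mul_of_nonneg_left h2 (by positivity)
    _ = (q + 1) * ((1 / (q - 1)) ^ (cut G Y (D \ Y)).card * (β Y * 2 ^ ((WY Y ∪ WT Y) \ W).card) *
          m G q (r ⊔ mg W) (E G D ∪ O)) := by ring
    _ ≤ (q + 1) * ((1 / (q - 1)) ^ (cut G Y (D \ Y)).card *
          Real.exp (F + C * ((cut G Y (D \ Y)).card : ℝ)) * m G q (r ⊔ mg W) (E G D ∪ O)) := by
        apply mul_le_mul_of_nonneg_left _ (by linarith)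
        apply mul_le_mul_of_nonneg_right _ hnn
        exact mul_le_mul_of_nonneg_left hF hp0
    _ = (q + 1) * ((1 / (q - 1) * Real.exp C) ^ (cut G Y (D \ Y)).card *
          (Real.exp F * m G q (r ⊔ mg W) (E G D ∪ O))) := by
        rw [mul_pow, ← Real.exp_nat_mul, Real.exp_add, mul_comm C]
        ring

end D5

end Pool.Agent.H753R2.FR
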