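import Mathlib
import Pool.Agent.H753R2.FR.Defs
import Pool.Agent.H753R2.FR.DefsD
import Pool.Agent.H753R2.FR.T_D5
set_option autoImplicit false
set_option linter.unusedSectionVars false
set_option linter.unusedVariables false
set_option maxHeartbeats 1000000

namespace Pool.Agent.H753R2.FR

open Finset

section D7
variable {V I : Type} [DecidableEq V] [DecidableEq I] [Fintype V] [Fintype I] {G : MG V I}

/-- the constant in the exponent of the expansion step -/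
noncomputable def CC (a A Cq : ℝ) : ℝ := 2 * a + 4 * A + 2 + Cq

/-- all the assumptions on the constants of a level -/
structure Par (G : MG V I) (q : ℝ) (X : Finset V) (O : Finset I) (s₁ : ℕ)
    (a₀ A₀ K₀ a A Cq B : ℝ) (Q ℓ : Finset V → ℝ) (dom : Finset V → Prop) : Prop where
  hq : 3 ≤ q
  hH : Hyp G q
  hX : Thin G X
  hO : Outer G X O
  lev : Lev G X s₁ a₀ A₀ K₀ a A Cq Q ℓ dom
  ha₀ : 0 ≤ a₀
  ha : a₀ ≤ a
  hA₀ : 0 ≤ A₀
  hA : A₀ ≤ A
  hK₀ : 0 ≤ K₀
  hleg : ∀ R, R ⊆ X → R.Nonempty → 2 * R.card ≤ X.card → ((legs G O R).card : ℝ) ≤ ℓ R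
  hS : 2 * (3 * (s₁ : ℝ)) ^ 2 + 3 * (s₁ : ℝ) ≤ a
  ha1 : 1 ≤ a
  hAS : a + K₀ + 2 * (s₁ : ℝ) ^ 2 + 2 * (s₁ : ℝ) + 4 ≤ A
  hs₁ : ∀ s, s₁ < s → 50 < gg s
  hcount : ∀ (D K : Finset V) (u : V), K ⊆ D → K.Nonempty → u ∈ D \ K →
      (∀ Z, Z ⊆ D \ K → Z.Nonempty → 2 ≤ (cut G Z (D \ Z)).card) →
      (∀ Z, Z ⊆ D \ K → Z.Nonempty →
        (11 / 500 : ℝ) * ((min Z.card (D \ Z).card : ℕ) : ℝ) ^ ((1 : ℝ) / 3) ≤
          ((cut G Z (D \ Z)).card : ℝ)) →
      ∀ lam : ℝ, 0 ≤ lam → lam * Real.exp B ≤ 1 →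
        ∑ Y ∈ fam G D K u, lam ^ (cut G Y (D \ Y)).card ≤ (lam * Real.exp B) ^ 2
  hqb1 : (1 / (q - 1) * Real.exp (CC a A Cq)) * Real.exp B ≤ 1
  hqb2 : (q + 1) * ((1 / (q - 1) * Real.exp (CC a A Cq)) * Real.exp B) ^ 2 ≤ 1

variable {q : ℝ} {X : Finset V} {O : Finset I} {s₁ : ℕ} {a₀ A₀ K₀ a A Cq B : ℝ}
  {Q ℓ : Finset V → ℝ} {dom : Finset V → Prop}

theorem card_lt_of_sub {D K Z : Finset V} (hK : K.Nonempty) (hKD : K ⊆ D) (hZ : Z ⊆ D \ K) :
    Z.card < D.card := by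
  apply Finset.card_lt_card
  rw [Finset.ssubset_iff_of_subset (hZ.trans Finset.sdiff_subset)]
  obtain ⟨k, hk⟩ := hK
  exact ⟨k, hKD hk, fun hkZ => (Finset.mem_sdiff.mp (hZ hkZ)).2 hk⟩

theorem union_split {D Δ Z : Finset V} (hZD : Z ⊆ D) : Z ∪ ((D \ Z) ∪ Δ) = D ∪ Δ := by
  rw [← Finset.union_assoc, Finset.union_sdiff_of_subset hZD]

theorem disj_split {D Δ Z : Finset V} (hZD : Z ⊆ D) (h : Disjoint D Δ) :
    Disjoint Z ((D \ Z) ∪ Δ) := by
  rw [Finset.disjoint_union_right]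
  exact ⟨Finset.disjoint_sdiff, Finset.disjoint_of_subset_left hZD h⟩

/-- the bound for small domains in exponential form -/
theorem small_exp {O' : Finset I} {R Δ' K' W' : Finset V} {s : ℕ} {n : ℕ} (hq : 3 ≤ q) (hH : Hyp G q)
    (hX : Thin G X) (hO' : Outer G X O') (hLL : LL G q X n)
    (h : Cfg G X R Δ' K' W') (hRX : R ≠ X ∨ R ∪ Δ' ≠ X) (hs : R.card ≤ s) (hn : (R \ W').card ≤ n) :
    Bd G q O' R K' W' (Real.exp (2 * (s : ℝ) ^ 2 + s)) := by
  have hRn : R.Nonempty := h.hK.mono (h.hKW.trans h.hWD)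
  have hlc := lc_of_ll hO' hLL h hn
  -- number of edges
  obtain ⟨v, hv⟩ := hRn
  have hvX : ({v} : Finset V) ⊆ X := by simpa using h.hD hv
  have hvne : ({v} : Finset V) ≠ X := by
    intro hh
    have := hX.two_le
    rw [← hh] at this
    simp at this
  have hdis : Disjoint O' (cut G {v} (X \ {v})) := by
    rw [Finset.disjoint_left]
    intro e he hc
    rw [mem_cut] at hc
    simp only [Finset.mem_sdiff] at hc
    refine hO' e he ?_
    rcases hc with hc | hc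
    · exact ⟨hvX hc.1, hc.2.1⟩
    · exact ⟨hc.1.1, hvX hc.2⟩
  have hcard := card_two hX hvX ⟨v, by simp⟩ hvne hdis
  have hb := small G q (by linarith) hH h.hK h.hKW h.hWD h.con (outer_disj hO' h.hD) hcard hlc
  have hρ : (4:ℝ) ^ (E G R).card * 2 ^ R.card ≤ Real.exp (2 * (s : ℝ) ^ 2 + s) := by
    have h1 : (E G R).card ≤ s ^ 2 := (hX.simple R h.hD).trans (Nat.pow_le_pow_left hs 2)
    have h2 : (4:ℝ) ^ (E G R).card ≤ 4 ^ (s ^ 2) := pow_le_pow_right₀ (by norm_num) h1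
    have h3 : (2:ℝ) ^ R.card ≤ 2 ^ s := pow_le_pow_right₀ (by norm_num) hs
    have h4 : (4:ℝ) ^ (s ^ 2) = 2 ^ (2 * s ^ 2) := by rw [pow_mul]; norm_num
    have h5 := two_pow_le_exp (2 * s ^ 2 + s)
    rw [pow_add] at h5
    push_cast at h5
    calc (4:ℝ) ^ (E G R).card * 2 ^ R.card ≤ 2 ^ (2 * s ^ 2) * 2 ^ s := by
          rw [← h4]; exact mul_le_mul h2 h3 (by positivity) (by positivity)
      _ ≤ _ := h5
  intro r hr hf f hf'
  have hmain := hb r hr hf f hf'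
  -- non-negativity of the right-hand side
  by_cases hnn : 0 ≤ m G q (r ⊔ mg W') (E G R ∪ O')
  · exact hmain.trans (mul_le_mul_of_nonneg_right hρ hnn)
  · exfalso
    push Not at hnn
    have := hmain.trans_lt (mul_neg_of_pos_of_neg (by positivity) hnn)
    exact absurd (abs_nonneg _) (not_le.mpr this)

/-- a resolved small part: one of the sides of a single edge cut -/
theorem step_B (par : Par G q X O s₁ a₀ A₀ K₀ a A Cq B Q ℓ dom) {n N₀ : ℕ} {D Δ K W P : Finset V}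
    {φ : ℕ} (h : Cfg G X D Δ K W) (hP : Ref G X D Δ K P s₁ φ) (hdom : dom (D ∪ Δ))
    (hn : (D \ W).card ≤ n) (hLL : LL G q X n)
    (IHi : LB G q X O s₁ a A Q dom n D.card) (hbig : 3 * s₁ < (D ∪ Δ).card)
    (hnc : ∀ Z', Z' ⊆ D \ K → Z'.Nonempty → (cut G Z' (D \ Z')).card = 1 →
      min Z'.card ((D ∪ Δ) \ Z').card ≤ s₁)
    (hB : ∃ Z', Z' ⊆ D \ K ∧ Z'.Nonempty ∧ (cut G Z' (D \ Z')).card = 1) :
    Bd G q O D K W (Real.exp (en G a A Q D Δ K W P φ)) := by
  classical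
  have hKD : K ⊆ D := h.hKW.trans h.hWD
  have hDX : D ∪ Δ ⊆ X := Finset.union_subset h.hD h.hΔ
  have hDne : D ∪ Δ ≠ X := par.lev.ne _ hdom
  have hLC := lc_of_ll par.hO hLL h hn
  have hcompl : ∀ Z', Z' ⊆ D → (D ∪ Δ) \ Z' = (D \ Z') ∪ Δ := by
    intro Z' hZ'
    rw [Finset.union_sdiff_distrib]
    congr 1
    rw [Finset.sdiff_eq_self_iff_disjoint]
    exact (Finset.disjoint_of_subset_left hZ' h.disj).symm
  by_cases hB0 : ∃ Z', Z' ⊆ D \ K ∧ Z'.Nonempty ∧ (cut G Z' (D \ Z')).card = 1 ∧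
      ((D \ Z') ∪ Δ).card ≤ s₁
  · -- the small part contains the roots
    obtain ⟨Z, hZmem, hZmin⟩ := Finset.exists_min_image
      ((D \ K).powerset.filter (fun Z' => Z'.Nonempty ∧ (cut G Z' (D \ Z')).card = 1 ∧
        ((D \ Z') ∪ Δ).card ≤ s₁)) Finset.card (by
        obtain ⟨Z', h1, h2, h3, h4⟩ := hB0
        exact ⟨Z', Finset.mem_filter.mpr ⟨Finset.mem_powerset.mpr h1, h2, h3, h4⟩⟩)
    rw [Finset.mem_filter, Finset.mem_powerset] at hZmem
    obtain ⟨hZ, hZn, hZ1, hZs⟩ := hZmem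
    have hZD : Z ⊆ D := hZ.trans Finset.sdiff_subset
    obtain ⟨hcZ, hcT⟩ := bridge_conn G hKD h.con hZ hZn hZ1
    -- the end of the bridge in Z
    obtain ⟨z₀, hz₀⟩ : (ends G Z (D \ Z)).Nonempty := by
      have : (cut G Z (D \ Z)).Nonempty := by rw [← Finset.card_pos]; omega
      obtain ⟨e, he⟩ := this
      have he' := he
      rw [mem_cut] at he
      rcases he with he | he
      · exact ⟨G.x e, Finset.mem_filter.mpr ⟨he.1, e, he', Or.inl rfl⟩⟩
      · exact ⟨G.y e, Finset.mem_filter.mpr ⟨he.2, e, he', Or.inr rfl⟩⟩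
    have hz₀Z : z₀ ∈ Z := (Finset.mem_filter.mp hz₀).1
    obtain ⟨hRef, ht⟩ := ref_B0 G h hP hbig hnc hZ hz₀ hZ1 hZs (by
      intro Z' a b c d
      exact hZmin Z' (Finset.mem_filter.mpr ⟨Finset.mem_powerset.mpr a, b, c, d⟩))
    set WZ := (W ∩ Z) ∪ ends G Z (D \ Z) ∪ (∅ : Finset V) with hWZ
    set WT := (W \ Z) ∪ ends G (D \ Z) Z ∪ legs G O (D \ Z) with hWT
    have huWZ : z₀ ∈ WZ := by
      rw [hWZ]; exact Finset.mem_union_left _ (Finset.mem_union_right _ hz₀)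
    have hWZ1 : (W ∩ Z) ∪ ends G Z (D \ Z) ⊆ WZ := Finset.subset_union_left
    have hWT1 : (W \ Z) ∪ ends G (D \ Z) Z ⊆ WT := Finset.subset_union_left
    have hWZ2 : WZ ⊆ Z := Finset.union_subset
      (Finset.union_subset Finset.inter_subset_right (Finset.filter_subset _ _)) (Finset.empty_subset _)
    have hWT2 : WT ⊆ D \ Z := Finset.union_subset
      (Finset.union_subset (Finset.sdiff_subset_sdiff h.hWD le_rfl) (Finset.filter_subset _ _))
      (Finset.filter_subset _ _)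
    have hKT : K ⊆ WT := by
      intro k hk
      exact hWT1 (Finset.mem_union_left _ (Finset.mem_sdiff.mpr ⟨h.hKW hk,
        fun hkZ => (Finset.mem_sdiff.mp (hZ hkZ)).2 hk⟩))
    have hcfgZ := cfg_Z G h hZ huWZ hWZ1 hWZ2 (hcZ z₀ hz₀Z)
    have hcfgT := cfg_T G h hZ hWT1 hWT2 hcT
    have hZc := card_lt_of_sub h.hK hKD hZ
    have hn1 : (Z \ WZ).card ≤ n := by
      refine (Finset.card_le_card ?_).trans hn
      intro v hv
      rw [Finset.mem_sdiff] at hv ⊢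
      exact ⟨hZD hv.1, fun hh => hv.2 (hWZ1 (Finset.mem_union_left _ (Finset.mem_inter.mpr ⟨hh, hv.1⟩)))⟩
    have hn2 : ((D \ Z) \ WT).card ≤ n := by
      refine (Finset.card_le_card ?_).trans hn
      intro v hv
      rw [Finset.mem_sdiff, Finset.mem_sdiff] at hv
      rw [Finset.mem_sdiff]
      exact ⟨hv.1.1, fun hh => hv.2 (hWT1 (Finset.mem_union_left _ (Finset.mem_sdiff.mpr ⟨hh, hv.1.2⟩)))⟩
    have hdZ : dom (Z ∪ ∅) := by
      rw [Finset.union_empty]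
      exact par.lev.sub _ _ hdom (hZD.trans Finset.subset_union_left) hZn (hZD.trans h.hD)
    have hb1 := IHi Z ∅ {z₀} WZ _ 0 hcfgZ hRef hdZ hn1 hZc
    have hTs : (D \ Z).card ≤ s₁ := (Finset.card_le_card Finset.subset_union_left).trans hZs
    have hTne : D \ Z ≠ X ∨ (D \ Z) ∪ Δ ≠ X := by
      left
      intro hh
      have : Z ⊆ D \ Z := by rw [hh]; exact hZD.trans h.hD
      obtain ⟨z, hz⟩ := hZn
      exact (Finset.mem_sdiff.mp (this hz)).2 hz
    have hb2 := small_exp (G := G) par.hq par.hH par.hX (outer_empty X) hLL hcfgT hTne hTs hn2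
    have hpb := split_pb (by linarith [par.hq]) par.hH par.hX par.hO h hZ huWZ hWZ2 hKT hWT2
      (Real.exp_pos _).le (Real.exp_pos _).le (Or.inr ⟨Finset.subset_union_right, hb1, hb2⟩)
    have hnew := card_new (G := G) hZ hWZ hWT
    have hcz := card_WZ (G := G) (K := K) (u := z₀) hWZ
    rw [hZ1, Finset.card_empty] at hnew hcz
    have hlegs : (legs G O (D \ Z)).card ≤ s₁ :=
      (Finset.card_le_card (Finset.filter_subset _ _)).trans hTs
    have hes := card_erase_split (W := W) hZ hz₀Z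
    have hWK : ((W \ K).erase z₀).card ≤ (W \ K).card := Finset.card_le_card (Finset.erase_subset _ _)
    -- energy
    have hq3 := par.lev.q3 ((D \ Z) ∪ Δ) Z (Finset.union_subset (Finset.sdiff_subset.trans h.hD) h.hΔ)
      (hZD.trans h.hD) (disj_split hZD h.disj).symm
      (by
        obtain ⟨k, hk⟩ := h.hK
        exact ⟨k, Finset.mem_union_left _ (hWT2 (hKT hk))⟩) hZn
      (by
        have h1 : Z.card + ((D \ Z) ∪ Δ).card = (D ∪ Δ).card := by
          rw [← Finset.card_union_of_disjoint (disj_split hZD h.disj), union_split hZD]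
        omega)
      (by rw [cut_comm, cut_dead G h hZ]; exact hZ1)
    rw [Finset.union_comm ((D \ Z) ∪ Δ) Z, union_split hZD] at hq3
    have hF : Real.exp (en G a A Q Z ∅ {z₀} WZ (P \ ((D \ Z) ∪ Δ)) 0) *
          Real.exp (2 * (s₁ : ℝ) ^ 2 + s₁) * 2 ^ ((WZ ∪ WT) \ W).card
        ≤ Real.exp (en G a A Q D Δ K W P φ - 2 * ((cut G Z (D \ Z)).card : ℝ)) := by
      refine (mul_le_mul_of_nonneg_left (two_pow_le_exp _) (by positivity)).trans ?_
      rw [← Real.exp_add, ← Real.exp_add]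
      apply Real.exp_le_exp.mpr
      rw [hZ1]
      unfold en
      have hnewR : ((((WZ ∪ WT) \ W).card : ℕ) : ℝ) ≤ 2 + (s₁ : ℝ) := by
        exact_mod_cast (by omega : ((WZ ∪ WT) \ W).card ≤ 2 + s₁)
      have hczR : ((WZ \ {z₀}).card : ℝ) ≤ ((W \ K).card : ℝ) + 1 := by
        exact_mod_cast (by omega : (WZ \ {z₀}).card ≤ (W \ K).card + 1)
      have htR : 2 * ((cut G (Z ∪ ∅) ((P \ ((D \ Z) ∪ Δ)) \ (Z ∪ ∅))).card : ℝ) + 1
          ≤ 2 * ((cut G (D ∪ Δ) (P \ (D ∪ Δ))).card : ℝ) + φ := by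
        exact_mod_cast ht
      have hsn : (0:ℝ) ≤ (s₁:ℝ) := Nat.cast_nonneg _
      have ha1 := par.ha1
      have hAS := par.hAS
      have hA0 : 0 ≤ A := par.hA₀.trans par.hA
      have e1 := mul_le_mul_of_nonneg_left hczR (by linarith : (0:ℝ) ≤ a)
      have e2 := mul_le_mul_of_nonneg_left htR hA0
      simp only [Finset.union_empty, Nat.cast_zero, add_zero, Nat.cast_one, mul_one] at *
      linarith [hq3]
    have hres := cut_to_bd par.hq par.hX par.hH par.hO h hDne hZ hz₀Z (by omega) hWZ1 hWZ2 hWT1 hWT2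
      (by positivity) hpb hLC hF
    have : en G a A Q D Δ K W P φ - 2 * ((cut G Z (D \ Z)).card : ℝ) + 2 * ((cut G Z (D \ Z)).card : ℝ)
        = en G a A Q D Δ K W P φ := by ring
    rw [this] at hres
    exact hres
  · -- a small pendant part without roots, maximal
    have hB1 : ∃ Z', Z' ⊆ D \ K ∧ Z'.Nonempty ∧ (cut G Z' (D \ Z')).card = 1 ∧ Z'.card ≤ s₁ := by
      obtain ⟨Z', h1, h2, h3⟩ := hB
      refine ⟨Z', h1, h2, h3, ?_⟩
      have h4 := hnc Z' h1 h2 h3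
      rw [hcompl Z' (h1.trans Finset.sdiff_subset)] at h4
      by_contra h5
      apply hB0
      refine ⟨Z', h1, h2, h3, ?_⟩
      push Not at h5
      rcases min_le_iff.mp h4 with h6 | h6
      · omega
      · exact h6
    obtain ⟨Z, hZmem, hZmax⟩ := Finset.exists_max_image
      ((D \ K).powerset.filter (fun Z' => Z'.Nonempty ∧ (cut G Z' (D \ Z')).card = 1 ∧
        Z'.card ≤ s₁)) Finset.card (by
        obtain ⟨Z', h1, h2, h3, h4⟩ := hB1
        exact ⟨Z', Finset.mem_filter.mpr ⟨Finset.mem_powerset.mpr h1, h2, h3, h4⟩⟩)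
    rw [Finset.mem_filter, Finset.mem_powerset] at hZmem
    obtain ⟨hZ, hZn, hZ1, hZs⟩ := hZmem
    have hZD : Z ⊆ D := hZ.trans Finset.sdiff_subset
    obtain ⟨hcZ, hcT⟩ := bridge_conn G hKD h.con hZ hZn hZ1
    obtain ⟨z₀, hz₀⟩ : (ends G Z (D \ Z)).Nonempty := by
      have : (cut G Z (D \ Z)).Nonempty := by rw [← Finset.card_pos]; omega
      obtain ⟨e, he⟩ := this
      have he' := he
      rw [mem_cut] at he
      rcases he with he | he
      · exact ⟨G.x e, Finset.mem_filter.mpr ⟨he.1, e, he', Or.inl rfl⟩⟩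
      · exact ⟨G.y e, Finset.mem_filter.mpr ⟨he.2, e, he', Or.inr rfl⟩⟩
    have hz₀Z : z₀ ∈ Z := (Finset.mem_filter.mp hz₀).1
    obtain ⟨hRef, ht⟩ := ref_B1 G h hP hbig hnc hZ hZn hZ1 hZs (by
      intro Z' a b c d
      exact hZmax Z' (Finset.mem_filter.mpr ⟨Finset.mem_powerset.mpr a, b, c, d⟩))
    set WZ := (W ∩ Z) ∪ ends G Z (D \ Z) ∪ legs G O Z with hWZ
    set WT := (W \ Z) ∪ ends G (D \ Z) Z ∪ (∅ : Finset V) with hWT
    have huWZ : z₀ ∈ WZ := by
      rw [hWZ]; exact Finset.mem_union_left _ (Finset.mem_union_right _ hz₀)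
    have hWZ1 : (W ∩ Z) ∪ ends G Z (D \ Z) ⊆ WZ := Finset.subset_union_left
    have hWT1 : (W \ Z) ∪ ends G (D \ Z) Z ⊆ WT := Finset.subset_union_left
    have hWZ2 : WZ ⊆ Z := Finset.union_subset
      (Finset.union_subset Finset.inter_subset_right (Finset.filter_subset _ _))
      (Finset.filter_subset _ _)
    have hWT2 : WT ⊆ D \ Z := Finset.union_subset
      (Finset.union_subset (Finset.sdiff_subset_sdiff h.hWD le_rfl) (Finset.filter_subset _ _))
      (Finset.empty_subset _)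
    have hKT : K ⊆ WT := by
      intro k hk
      exact hWT1 (Finset.mem_union_left _ (Finset.mem_sdiff.mpr ⟨h.hKW hk,
        fun hkZ => (Finset.mem_sdiff.mp (hZ hkZ)).2 hk⟩))
    have hcfgZ := cfg_Z G h hZ huWZ hWZ1 hWZ2 (hcZ z₀ hz₀Z)
    have hcfgT := cfg_T G h hZ hWT1 hWT2 hcT
    have hTc : (D \ Z).card < D.card := by
      apply Finset.card_lt_card
      rw [Finset.ssubset_iff_of_subset Finset.sdiff_subset]
      exact ⟨z₀, hZD hz₀Z, fun hh => (Finset.mem_sdiff.mp hh).2 hz₀Z⟩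
    have hn1 : (Z \ WZ).card ≤ n := by
      refine (Finset.card_le_card ?_).trans hn
      intro v hv
      rw [Finset.mem_sdiff] at hv ⊢
      exact ⟨hZD hv.1, fun hh => hv.2 (hWZ1 (Finset.mem_union_left _ (Finset.mem_inter.mpr ⟨hh, hv.1⟩)))⟩
    have hn2 : ((D \ Z) \ WT).card ≤ n := by
      refine (Finset.card_le_card ?_).trans hn
      intro v hv
      rw [Finset.mem_sdiff, Finset.mem_sdiff] at hv
      rw [Finset.mem_sdiff]
      exact ⟨hv.1.1, fun hh => hv.2 (hWT1 (Finset.mem_union_left _ (Finset.mem_sdiff.mpr ⟨hh, hv.1.2⟩)))⟩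
    have hTΔn : ((D \ Z) ∪ Δ).Nonempty := by
      obtain ⟨k, hk⟩ := h.hK
      exact ⟨k, Finset.mem_union_left _ (hWT2 (hKT hk))⟩
    have hTΔX : (D \ Z) ∪ Δ ⊆ X := Finset.union_subset (Finset.sdiff_subset.trans h.hD) h.hΔ
    have hdT : dom ((D \ Z) ∪ Δ) :=
      par.lev.sub _ _ hdom (Finset.union_subset_union Finset.sdiff_subset le_rfl) hTΔn hTΔX
    have hb2 := IHi (D \ Z) Δ K WT _ 1 hcfgT hRef hdT hn2 hTc
    have hZne : Z ≠ X ∨ Z ∪ ∅ ≠ X := by
      left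
      rintro rfl
      obtain ⟨k, hk⟩ := h.hK
      exact (Finset.mem_sdiff.mp (hZ (h.hD (hKD hk)))).2 hk
    have hb1 := small_exp (G := G) par.hq par.hH par.hX (outer_empty X) hLL hcfgZ hZne hZs hn1
    have hpb := split_pb (by linarith [par.hq]) par.hH par.hX par.hO h hZ huWZ hWZ2 hKT hWT2
      (Real.exp_pos _).le (Real.exp_pos _).le (Or.inl ⟨Finset.subset_union_right, hb1, hb2⟩)
    have hnew := card_new (G := G) hZ hWZ hWT
    have hct := card_WT (G := G) (K := K) hWT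
    rw [hZ1, Finset.card_empty] at hnew hct
    have hlegs : (legs G O Z).card ≤ s₁ :=
      (Finset.card_le_card (Finset.filter_subset _ _)).trans hZs
    have hWK : ((W \ Z) \ K).card ≤ (W \ K).card :=
      Finset.card_le_card (Finset.sdiff_subset_sdiff Finset.sdiff_subset le_rfl)
    have hcardsum : Z.card + ((D \ Z) ∪ Δ).card = (D ∪ Δ).card := by
      rw [← Finset.card_union_of_disjoint (disj_split hZD h.disj), union_split hZD]
    have hq3 := par.lev.q3 Z ((D \ Z) ∪ Δ) (hZD.trans h.hD) hTΔX (disj_split hZD h.disj)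
      hZn hTΔn (by omega)
      (by rw [cut_dead G h hZ]; exact hZ1)
    rw [union_split hZD] at hq3
    have hF : Real.exp (2 * (s₁ : ℝ) ^ 2 + s₁) * Real.exp (en G a A Q (D \ Z) Δ K WT (P \ Z) 1) *
          2 ^ ((WZ ∪ WT) \ W).card
        ≤ Real.exp (en G a A Q D Δ K W P φ - 2 * ((cut G Z (D \ Z)).card : ℝ)) := by
      refine (mul_le_mul_of_nonneg_left (two_pow_le_exp _) (by positivity)).trans ?_
      rw [← Real.exp_add, ← Real.exp_add]
      apply Real.exp_le_exp.mpr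
      rw [hZ1]
      unfold en
      have hnewR : ((((WZ ∪ WT) \ W).card : ℕ) : ℝ) ≤ 2 + (s₁ : ℝ) := by
        exact_mod_cast (by omega : ((WZ ∪ WT) \ W).card ≤ 2 + s₁)
      have hczR : ((WT \ K).card : ℝ) ≤ ((W \ K).card : ℝ) + 1 := by
        exact_mod_cast (by omega : (WT \ K).card ≤ (W \ K).card + 1)
      have htR : ((cut G ((D \ Z) ∪ Δ) ((P \ Z) \ ((D \ Z) ∪ Δ))).card : ℝ) + 1
          ≤ ((cut G (D ∪ Δ) (P \ (D ∪ Δ))).card : ℝ) := by
        exact_mod_cast ht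
      have hsn : (0:ℝ) ≤ (s₁:ℝ) := Nat.cast_nonneg _
      have hφ : (0:ℝ) ≤ (φ:ℝ) := Nat.cast_nonneg _
      have ha1 := par.ha1
      have hAS := par.hAS
      have hA0 : 0 ≤ A := par.hA₀.trans par.hA
      have e1 := mul_le_mul_of_nonneg_left hczR (by linarith : (0:ℝ) ≤ a)
      have htR2 : 2 * ((cut G ((D \ Z) ∪ Δ) ((P \ Z) \ ((D \ Z) ∪ Δ))).card : ℝ) + 1 + 1
          ≤ 2 * ((cut G (D ∪ Δ) (P \ (D ∪ Δ))).card : ℝ) + φ := by linarith
      have e2 := mul_le_mul_of_nonneg_left htR2 hA0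
      simp only [Nat.cast_one, mul_one] at *
      linarith [hq3]
    have hres := cut_to_bd par.hq par.hX par.hH par.hO h hDne hZ hz₀Z (by omega) hWZ1 hWZ2 hWT1 hWT2
      (by positivity) hpb hLC hF
    have : en G a A Q D Δ K W P φ - 2 * ((cut G Z (D \ Z)).card : ℝ) + 2 * ((cut G Z (D \ Z)).card : ℝ)
        = en G a A Q D Δ K W P φ := by ring
    rw [this] at hres
    exact hres

end D7

end Pool.Agent.H753R2.FR
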