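import Mathlib
import Pool.Agent.H753R2.FR.Defs
import Pool.Agent.H753R2.FR.DefsD
import Pool.Agent.H753R2.FR.T_D7
set_option autoImplicit false
set_option linter.unusedSectionVars false
set_option linter.unusedVariables false
set_option maxHeartbeats 1000000

namespace Pool.Agent.H753R2.FR

open Finset

section D8
variable {V I : Type} [DecidableEq V] [DecidableEq I] [Fintype V] [Fintype I] {G : MG V I}
variable {q : ℝ} {X : Finset V} {O : Finset I} {s₁ : ℕ} {a₀ A₀ K₀ a A Cq B : ℝ}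
  {Q ℓ : Finset V → ℝ} {dom : Finset V → Prop}

/-- the cheap cut case -/
theorem step_C (par : Par G q X O s₁ a₀ A₀ K₀ a A Cq B Q ℓ dom) {n N₀ : ℕ} {D Δ K W P : Finset V}
    {φ : ℕ} (h : Cfg G X D Δ K W) (hP : Ref G X D Δ K P s₁ φ) (hdom : dom (D ∪ Δ))
    (hn : (D \ W).card ≤ n) (hLL : LL G q X n) (hN₀ : D.card ≤ N₀)
    (IH0 : LB G q X ∅ s₁ a₀ A₀ (Q0 G X K₀) (fun S => 2 * S.card ≤ X.card) n N₀)
    (IHi : LB G q X O s₁ a A Q dom n D.card)
    (hC : ∃ Z', Z' ⊆ D \ K ∧ Z'.Nonempty ∧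
      ((cut G Z' (D \ Z')).card : ℝ) ≤ gg (min Z'.card ((D ∪ Δ) \ Z').card) / 50) :
    Bd G q O D K W (Real.exp (en G a A Q D Δ K W P φ)) := by
  classical
  have hKD : K ⊆ D := h.hKW.trans h.hWD
  have hDne : D ∪ Δ ≠ X := par.lev.ne _ hdom
  have hLC := lc_of_ll par.hO hLL h hn
  obtain ⟨Z', hZ'1, hZ'2, hZ'3⟩ := hC
  obtain ⟨Z, hZ, hZn, hZcheap, hcZ, hcT⟩ := cheap_conn G hKD h.hK h.disj h.con Z' hZ'1 hZ'2 hZ'3
  have hZD : Z ⊆ D := hZ.trans Finset.sdiff_subset
  have hcompl : (D ∪ Δ) \ Z = (D \ Z) ∪ Δ := by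
    rw [Finset.union_sdiff_distrib]
    congr 1
    rw [Finset.sdiff_eq_self_iff_disjoint]
    exact (Finset.disjoint_of_subset_left hZD h.disj).symm
  have hcutn : (cut G Z (D \ Z)).Nonempty := h.con Z hZ hZn
  obtain ⟨z₀, hz₀⟩ : (ends G Z (D \ Z)).Nonempty := by
    obtain ⟨e, he⟩ := hcutn
    have he' := he
    rw [mem_cut] at he
    rcases he with he | he
    · exact ⟨G.x e, Finset.mem_filter.mpr ⟨he.1, e, he', Or.inl rfl⟩⟩
    · exact ⟨G.y e, Finset.mem_filter.mpr ⟨he.2, e, he', Or.inr rfl⟩⟩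
  have hz₀Z : z₀ ∈ Z := (Finset.mem_filter.mp hz₀).1
  obtain ⟨hR1, hR2, ht⟩ := ref_C G h hP hZ hz₀Z
  have hTΔn : ((D \ Z) ∪ Δ).Nonempty := by
    obtain ⟨k, hk⟩ := h.hK
    exact ⟨k, Finset.mem_union_left _ (Finset.mem_sdiff.mpr ⟨hKD hk,
      fun hkZ => (Finset.mem_sdiff.mp (hZ hkZ)).2 hk⟩)⟩
  have hTΔX : (D \ Z) ∪ Δ ⊆ X := Finset.union_subset (Finset.sdiff_subset.trans h.hD) h.hΔ
  have hdT : dom ((D \ Z) ∪ Δ) :=
    par.lev.sub _ _ hdom (Finset.union_subset_union Finset.sdiff_subset le_rfl) hTΔn hTΔX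
  have hdZ : dom (Z ∪ ∅) := by
    rw [Finset.union_empty]
    exact par.lev.sub _ _ hdom (hZD.trans Finset.subset_union_left) hZn (hZD.trans h.hD)
  obtain ⟨WZ, WT, β, hWZ1, hWZ2, hWT1, hWT2, huWZ, hβ, hpb, R, T, hRT, hRTc, hE⟩ :=
    side (by linarith [par.hq]) par.hH par.hX par.hO par.ha₀ par.ha par.hA₀ par.hA par.hleg h hZ hz₀Z
      (hcZ z₀ hz₀Z) hcT hR1 hR2 (Or.inr hz₀) hN₀ IH0 IHi hn hdZ hdT
  have hF : β * 2 ^ ((WZ ∪ WT) \ W).card
      ≤ Real.exp (en G a A Q D Δ K W P φ - 2 * ((cut G Z (D \ Z)).card : ℝ)) := by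
    refine hE.trans (Real.exp_le_exp.mpr ?_)
    have hq2 : Q0 G X K₀ R + Q T + (a₀ + 1) * ℓ R + (2 * a + 4 * A + 4) * ((cut G Z (D \ Z)).card : ℝ)
        ≤ Q (D ∪ Δ) := by
      rcases hRT with ⟨rfl, rfl⟩ | ⟨rfl, rfl⟩
      · have := par.lev.q2 R ((D \ R) ∪ Δ) (hZD.trans h.hD) hTΔX (disj_split hZD h.disj) hZn hTΔn hRTc
          (by
            rw [cut_dead G h hZ]
            rw [hcompl, min_eq_left hRTc] at hZcheap
            exact hZcheap)
        rw [union_split hZD, cut_dead G h hZ] at this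
        exact this
      · have := par.lev.q2 ((D \ T) ∪ Δ) T hTΔX (hZD.trans h.hD) (disj_split hZD h.disj).symm hTΔn hZn hRTc
          (by
            rw [cut_comm, cut_dead G h hZ]
            rw [hcompl, min_eq_right hRTc] at hZcheap
            exact hZcheap)
        rw [Finset.union_comm _ T, union_split hZD, cut_comm, cut_dead G h hZ] at this
        exact this
    have hWK : (((W \ K).erase z₀).card : ℝ) ≤ ((W \ K).card : ℝ) := by
      exact_mod_cast Finset.card_le_card (Finset.erase_subset _ _)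
    have htR : ((cut G (Z ∪ ∅) (P \ (Z ∪ ∅))).card : ℝ) + ((cut G ((D \ Z) ∪ Δ) (P \ ((D \ Z) ∪ Δ))).card : ℝ)
        = ((cut G (D ∪ Δ) (P \ (D ∪ Δ))).card : ℝ) + 2 * ((cut G Z (D \ Z)).card : ℝ) := by
      exact_mod_cast ht
    rw [htR]
    unfold en
    have ha1 := par.ha1
    have e1 := mul_le_mul_of_nonneg_left hWK (by linarith : (0:ℝ) ≤ a)
    linarith [hq2]
  have hres := cut_to_bd par.hq par.hX par.hH par.hO h hDne hZ hz₀Z
    (by rw [← Finset.card_pos] at hcutn; omega) hWZ1 hWZ2 hWT1 hWT2 hβ hpb hLC hF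
  have : en G a A Q D Δ K W P φ - 2 * ((cut G Z (D \ Z)).card : ℝ) + 2 * ((cut G Z (D \ Z)).card : ℝ)
      = en G a A Q D Δ K W P φ := by ring
  rw [this] at hres
  exact hres

/-- the piece case -/
theorem step_P (par : Par G q X O s₁ a₀ A₀ K₀ a A Cq B Q ℓ dom) {n N₀ : ℕ} {D Δ K W P : Finset V}
    {φ : ℕ} (h : Cfg G X D Δ K W) (hP : Ref G X D Δ K P s₁ φ) (hdom : dom (D ∪ Δ))
    (hn : (D \ W).card ≤ n) (hLL : LL G q X n) (hN₀ : D.card ≤ N₀)
    (IH0 : LB G q X ∅ s₁ a₀ A₀ (Q0 G X K₀) (fun S => 2 * S.card ≤ X.card) n N₀)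
    (IHi : LB G q X O s₁ a A Q dom n D.card)
    (hWK : (W \ K).Nonempty)
    (IHu : ∀ u ∈ W \ K, Bd G q O D (insert u K) W
      (Real.exp (en G a A Q D Δ (insert u K) W P φ)))
    (h2 : ∀ Z, Z ⊆ D \ K → Z.Nonempty → 2 ≤ (cut G Z (D \ Z)).card)
    (hiso : ∀ Z, Z ⊆ D \ K → Z.Nonempty →
      (11 / 500 : ℝ) * ((min Z.card (D \ Z).card : ℕ) : ℝ) ^ ((1 : ℝ) / 3) ≤
          ((cut G Z (D \ Z)).card : ℝ)) :
    Bd G q O D K W (Real.exp (en G a A Q D Δ K W P φ)) := by
  classical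
  have hKD : K ⊆ D := h.hKW.trans h.hWD
  have hDne : D ∪ Δ ≠ X := par.lev.ne _ hdom
  have hLC := lc_of_ll par.hO hLL h hn
  obtain ⟨u, hu⟩ := hWK
  obtain ⟨k₀, hk₀⟩ := h.hK
  have huD : u ∈ D \ K := Finset.mem_sdiff.mpr ⟨h.hWD (Finset.mem_sdiff.mp hu).1, (Finset.mem_sdiff.mp hu).2⟩
  have hA0 : 0 ≤ A := par.hA₀.trans par.hA
  have ha1 := par.ha1
  have hq3 := par.hq
  intro r hr hfree f hf
  set F : ℝ := a * (((W \ K).card : ℝ) - 1) + Q (D ∪ Δ) with hFdef
  have hnn : 0 ≤ m G q (r ⊔ mg W) (E G D ∪ O) := par.hH.nn _ _ (Or.inr (ne_univ par.hX par.hO h hDne))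
  have herase : (((W \ K).erase u).card : ℝ) = ((W \ K).card : ℝ) - 1 := by
    rw [Finset.card_erase_of_mem hu, Nat.cast_sub (Finset.card_pos.mpr ⟨u, hu⟩)]; simp
  have hdiff := exp_to_bd par.hq par.hO h.hD h.hKW h.hWD hk₀ hu h.con hLC (CC a A Cq) F (by
    intro Y hY
    have hYf := hY
    unfold fam at hY
    rw [Finset.mem_filter, Finset.mem_powerset] at hY
    obtain ⟨hZ, huY, hcZ, hcT⟩ := hY
    have hZn : Y.Nonempty := ⟨u, huY⟩
    have hZD : Y ⊆ D := hZ.trans Finset.sdiff_subset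
    obtain ⟨⟨hR1, ht1⟩, ⟨hR2, ht2⟩⟩ := ref_P G s₁ h hZ huY h2
    have hTΔn : ((D \ Y) ∪ Δ).Nonempty :=
      ⟨k₀, Finset.mem_union_left _ (Finset.mem_sdiff.mpr ⟨hKD hk₀,
        fun hkZ => (Finset.mem_sdiff.mp (hZ hkZ)).2 hk₀⟩)⟩
    have hTΔX : (D \ Y) ∪ Δ ⊆ X := Finset.union_subset (Finset.sdiff_subset.trans h.hD) h.hΔ
    have hdT : dom ((D \ Y) ∪ Δ) :=
      par.lev.sub _ _ hdom (Finset.union_subset_union Finset.sdiff_subset le_rfl) hTΔn hTΔX
    have hdZ : dom (Y ∪ ∅) := by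
      rw [Finset.union_empty]
      exact par.lev.sub _ _ hdom (hZD.trans Finset.subset_union_left) hZn (hZD.trans h.hD)
    obtain ⟨WZ, WT, β, hWZ1, hWZ2, hWT1, hWT2, huWZ, hβ, hpb, R, T, hRT, hRTc, hE⟩ :=
      side (by linarith) par.hH par.hX par.hO par.ha₀ par.ha par.hA₀ par.hA par.hleg h hZ huY
        hcZ hcT hR1 hR2 (Or.inl (Finset.mem_sdiff.mp hu).1) hN₀ IH0 IHi hn hdZ hdT
    refine ⟨WZ, WT, β, hWZ1, hWZ2, hWT1, hWT2, hβ, hpb, hE.trans (Real.exp_le_exp.mpr ?_)⟩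
    have hq1 : Q0 G X K₀ R + Q T + (a₀ + 1) * ℓ R ≤ Q (D ∪ Δ) + Cq * ((cut G Y (D \ Y)).card : ℝ) := by
      rcases hRT with ⟨rfl, rfl⟩ | ⟨rfl, rfl⟩
      · have := par.lev.q1 R ((D \ R) ∪ Δ) (hZD.trans h.hD) hTΔX (disj_split hZD h.disj) hZn hTΔn hRTc
        rw [union_split hZD, cut_dead G h hZ] at this
        exact this
      · have := par.lev.q1 ((D \ T) ∪ Δ) T hTΔX (hZD.trans h.hD) (disj_split hZD h.disj).symm hTΔn hZn hRTc
        rw [Finset.union_comm _ T, union_split hZD, cut_comm, cut_dead G h hZ] at this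
        exact this
    rw [ht1, ht2, herase, hFdef]
    unfold CC
    push_cast
    linarith [hq1]) r hr hfree hnn f hf
  have hcount := par.hcount D K u hKD ⟨k₀, hk₀⟩ huD h2 hiso (1 / (q - 1) * Real.exp (CC a A Cq))
    (by have : 0 < q - 1 := by linarith
        positivity) par.hqb1
  have hIHu := IHu u hu (r ⊔ pr k₀ u) (by
      rw [mg_insert hk₀]; exact sup_le_sup_right hr _)
    (by
      intro b hb c hc
      rw [sup_pr_iff] at hc
      have hbW : b ∉ W := (Finset.mem_sdiff.mp hb).2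
      rcases hc with hc | hc | hc
      · exact hfree b hb c hc
      · have := hfree b hb _ hc.1
        exact absurd (h.hKW hk₀) (by rw [← this]; exact hbW)
      · have := hfree b hb _ hc.1
        exact absurd (Finset.mem_sdiff.mp hu).1 (by rw [← this]; exact hbW)) f hf
  have hsup : r ⊔ pr k₀ u ⊔ mg W = r ⊔ mg W := by
    rw [sup_assoc]
    congr 1
    apply sup_eq_right.mpr
    rw [pr_le_iff]
    exact Or.inr ⟨h.hKW hk₀, (Finset.mem_sdiff.mp hu).1⟩
  rw [hsup] at hIHu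
  set M := m G q (r ⊔ mg W) (E G D ∪ O) with hM
  set S1 := ∑ A ∈ (E G D).powerset,
        f (pat W (conn G A ⊔ mg K)) * (wt q (E G D) A * m G q (r ⊔ conn G A) O) with hS1
  set S2 := ∑ A ∈ (E G D).powerset,
        f (pat W (conn G A ⊔ mg (insert u K))) *
          (wt q (E G D) A * m G q (r ⊔ pr k₀ u ⊔ conn G A) O) with hS2
  have hd2 : |S1 - S2| ≤ Real.exp F * M := by
    refine hdiff.trans ?_
    have h1 : (q + 1) * (∑ Y ∈ fam G D K u, (1 / (q - 1) * Real.exp (CC a A Cq)) ^ (cut G Y (D \ Y)).card) ≤ 1 :=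
      (mul_le_mul_of_nonneg_left hcount (by linarith)).trans par.hqb2
    calc _ = ((q + 1) * (∑ Y ∈ fam G D K u, (1 / (q - 1) * Real.exp (CC a A Cq)) ^ (cut G Y (D \ Y)).card)) *
          (Real.exp F * M) := by ring
      _ ≤ 1 * (Real.exp F * M) := mul_le_mul_of_nonneg_right h1 (mul_nonneg (Real.exp_pos _).le hnn)
      _ = _ := one_mul _
  have hen : en G a A Q D Δ (insert u K) W P φ = en G a A Q D Δ K W P φ - a := by
    unfold en
    have : (W \ insert u K).card = ((W \ K).erase u).card := by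
      congr 1
      ext v
      simp only [Finset.mem_sdiff, Finset.mem_insert, Finset.mem_erase]
      tauto
    rw [this, herase]
    ring
  have hFle : F ≤ en G a A Q D Δ K W P φ - a := by
    rw [hFdef]
    unfold en
    have : 0 ≤ A * (2 * ((cut G (D ∪ Δ) (P \ (D ∪ Δ))).card : ℝ) + φ) := by positivity
    linarith
  rw [hen] at hIHu
  have habs : |S1| ≤ |S1 - S2| + |S2| := by
    calc |S1| = |(S1 - S2) + S2| := by ring_nf
      _ ≤ _ := abs_add_le _ _
  have hexp : 2 * Real.exp (en G a A Q D Δ K W P φ - a) ≤ Real.exp (en G a A Q D Δ K W P φ) := by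
    have h2e : (2:ℝ) ≤ Real.exp a := by
      have := Real.add_one_le_exp a
      linarith
    calc 2 * Real.exp (en G a A Q D Δ K W P φ - a) ≤ Real.exp a * Real.exp (en G a A Q D Δ K W P φ - a) :=
          mul_le_mul_of_nonneg_right h2e (Real.exp_pos _).le
      _ = _ := by rw [← Real.exp_add]; congr 1; ring
  calc |S1| ≤ |S1 - S2| + |S2| := habs
    _ ≤ Real.exp F * M + Real.exp (en G a A Q D Δ K W P φ - a) * M := add_le_add hd2 hIHu
    _ ≤ Real.exp (en G a A Q D Δ K W P φ - a) * M + Real.exp (en G a A Q D Δ K W P φ - a) * M := by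
        have := mul_le_mul_of_nonneg_right (Real.exp_le_exp.mpr hFle) hnn
        linarith
    _ = (2 * Real.exp (en G a A Q D Δ K W P φ - a)) * M := by ring
    _ ≤ Real.exp (en G a A Q D Δ K W P φ) * M := mul_le_mul_of_nonneg_right hexp hnn

/-- one step of the induction -/
theorem step (par : Par G q X O s₁ a₀ A₀ K₀ a A Cq B Q ℓ dom) {n N₀ : ℕ} {D Δ K W P : Finset V}
    {φ : ℕ} (h : Cfg G X D Δ K W) (hP : Ref G X D Δ K P s₁ φ) (hdom : dom (D ∪ Δ))
    (hn : (D \ W).card ≤ n) (hLL : LL G q X n) (hN₀ : D.card ≤ N₀)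
    (IH0 : LB G q X ∅ s₁ a₀ A₀ (Q0 G X K₀) (fun S => 2 * S.card ≤ X.card) n N₀)
    (IHi : LB G q X O s₁ a A Q dom n D.card)
    (IHu : ∀ u ∈ W \ K, Bd G q O D (insert u K) W
      (Real.exp (en G a A Q D Δ (insert u K) W P φ))) :
    Bd G q O D K W (Real.exp (en G a A Q D Δ K W P φ)) := by
  classical
  have hKD : K ⊆ D := h.hKW.trans h.hWD
  have hDX : D ∪ Δ ⊆ X := Finset.union_subset h.hD h.hΔ
  have hDn : (D ∪ Δ).Nonempty := (h.hK.mono hKD).mono Finset.subset_union_left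
  have hDne : D ∪ Δ ≠ X := par.lev.ne _ hdom
  have hneu := ne_univ par.hX par.hO h hDne
  have hA0 : 0 ≤ A := par.hA₀.trans par.hA
  have ha1 := par.ha1
  have hQ := par.lev.nn _ hdom hDX hDn
  have hAt : 0 ≤ A * (2 * ((cut G (D ∪ Δ) (P \ (D ∪ Δ))).card : ℝ) + φ) := by positivity
  by_cases hWK : (W \ K).Nonempty
  swap
  · rw [Finset.not_nonempty_iff_eq_empty, Finset.sdiff_eq_empty_iff_subset] at hWK
    have hEq : K = W := Finset.Subset.antisymm h.hKW hWK
    subst hEq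
    refine bd_mono ?_ (fun r => par.hH.nn _ _ (Or.inr hneu))
      (bd_self G q hKD (outer_disj par.hO h.hD) (fun r => par.hH.nn _ _ (Or.inr hneu)))
    rw [← Real.exp_zero]
    apply Real.exp_le_exp.mpr
    unfold en
    simp only [Finset.sdiff_self, Finset.card_empty, Nat.cast_zero, mul_zero, zero_add]
    linarith
  by_cases hS : (D ∪ Δ).card ≤ 3 * s₁
  · have hs : D.card ≤ 3 * s₁ := (Finset.card_le_card Finset.subset_union_left).trans hS
    have hb := small_exp (G := G) par.hq par.hH par.hX par.hO hLL h (Or.inr hDne) hs hn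
    refine bd_mono ?_ (fun r => par.hH.nn _ _ (Or.inr hneu)) hb
    apply Real.exp_le_exp.mpr
    have h1 : (1:ℝ) ≤ ((W \ K).card : ℝ) := by
      exact_mod_cast Finset.card_pos.mpr hWK
    have h2 := par.hS
    unfold en
    push_cast
    have h3 : a * 1 ≤ a * ((W \ K).card : ℝ) := mul_le_mul_of_nonneg_left h1 (by linarith)
    linarith
  push Not at hS
  by_cases hC : ∃ Z', Z' ⊆ D \ K ∧ Z'.Nonempty ∧
      ((cut G Z' (D \ Z')).card : ℝ) ≤ gg (min Z'.card ((D ∪ Δ) \ Z').card) / 50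
  · exact step_C par h hP hdom hn hLL hN₀ IH0 IHi hC
  push Not at hC
  by_cases hB : ∃ Z', Z' ⊆ D \ K ∧ Z'.Nonempty ∧ (cut G Z' (D \ Z')).card = 1
  · refine step_B (N₀ := N₀) par h hP hdom hn hLL IHi hS ?_ hB
    intro Z' h1 h2 h3
    by_contra h4
    push Not at h4
    have h5 := par.hs₁ _ h4
    have h6 := hC Z' h1 h2
    rw [h3] at h6
    push_cast at h6
    linarith
  push Not at hB
  refine step_P par h hP hdom hn hLL hN₀ IH0 IHi hWK IHu ?_ ?_
  · intro Z hZ hZn
    have h1 : 0 < (cut G Z (D \ Z)).card := Finset.card_pos.mpr (h.con Z hZ hZn)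
    have h2 := hB Z hZ hZn
    omega
  · intro Z hZ hZn
    have h1 := hC Z hZ hZn
    have h2 : (D \ Z).card ≤ ((D ∪ Δ) \ Z).card :=
      Finset.card_le_card (Finset.sdiff_subset_sdiff Finset.subset_union_left le_rfl)
    have h3 : gg (min Z.card (D \ Z).card) ≤ gg (min Z.card ((D ∪ Δ) \ Z).card) :=
      gg_mono (min_le_min le_rfl h2)
    have h4 : (11 / 500 : ℝ) * ((min Z.card (D \ Z).card : ℕ) : ℝ) ^ ((1 : ℝ) / 3)
        = gg (min Z.card (D \ Z).card) / 50 := by
      unfold gg; ring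
    rw [h4]
    linarith

/-- the bounds of a level -/
theorem lb_level (par : Par G q X O s₁ a₀ A₀ K₀ a A Cq B Q ℓ dom) {n : ℕ} (hLL : LL G q X n)
    (N : ℕ)
    (IH0 : ∀ N', N' ≤ N → LB G q X O s₁ a A Q dom n N' →
      LB G q X ∅ s₁ a₀ A₀ (Q0 G X K₀) (fun S => 2 * S.card ≤ X.card) n N') :
    LB G q X O s₁ a A Q dom n N := by
  induction N with
  | zero =>
      intro D Δ K W P φ h hP hd hn hN
      omega
  | succ N ih =>
      have ihN := ih (fun N' hN' => IH0 N' (by omega))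
      intro D Δ K W P φ h hP hd hn hN
      have hDN : D.card ≤ N := by omega
      have hi : LB G q X O s₁ a A Q dom n D.card := by
        intro D' Δ' K' W' P' φ' h1 h2 h3 h4 h5
        exact ihN D' Δ' K' W' P' φ' h1 h2 h3 h4 (by omega)
      have h0 := IH0 D.card (by omega) hi
      -- induction on the number of special vertices outside K
      obtain ⟨k, hk⟩ : ∃ k, (W \ K).card = k := ⟨_, rfl⟩
      induction k generalizing K with
      | zero =>
          refine step par h hP hd hn hLL le_rfl h0 hi ?_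
          intro u hu
          rw [Finset.card_eq_zero] at hk
          rw [hk] at hu
          simp at hu
      | succ k ihk =>
          refine step par h hP hd hn hLL le_rfl h0 hi ?_
          intro u hu
          have huW : u ∈ W := (Finset.mem_sdiff.mp hu).1
          have huK : u ∉ K := (Finset.mem_sdiff.mp hu).2
          refine ihk (insert u K) ?_ ?_ ?_
          · refine ⟨h.hD, h.hΔ, h.disj, Finset.insert_subset huW h.hKW, h.hWD,
              ⟨u, Finset.mem_insert_self _ _⟩, ?_, ?_, h.bdry⟩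
            · intro Z hZ hZn
              exact h.con Z (hZ.trans (Finset.sdiff_subset_sdiff le_rfl (Finset.subset_insert _ _))) hZn
            · rw [Finset.eq_empty_iff_forall_notMem]
              intro e he
              have hdead := h.dead
              rw [Finset.eq_empty_iff_forall_notMem] at hdead
              apply hdead e
              rw [mem_cut] at he ⊢
              simp only [Finset.mem_sdiff, Finset.mem_insert, not_or] at he ⊢
              tauto
          · refine ⟨hP.hPX, hP.hDP, ?_, ?_⟩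
            · intro Z hZ hZn hZs
              exact hP.free Z (hZ.trans (Finset.sdiff_subset_sdiff le_rfl (Finset.subset_insert _ _))) hZn hZs
            · intro hφ T hT hTD hTne hTs
              exact hP.root hφ T ((Finset.subset_insert _ _).trans hT) hTD hTne hTs
          · have : W \ insert u K = (W \ K).erase u := by
              ext v
              simp only [Finset.mem_sdiff, Finset.mem_insert, Finset.mem_erase]
              tauto
            rw [this, Finset.card_erase_of_mem hu, hk]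
            rfl

end D8

end Pool.Agent.H753R2.FR
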