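import Mathlib
import Pool.Agent.H753R2.FR.Defs
import Pool.Agent.H753R2.FR.DefsD
import Pool.Agent.H753R2.FR.T_D8
import Pool.Agent.H753R2.FR.T_D4
set_option autoImplicit false
set_option linter.unusedSectionVars false
set_option linter.unusedVariables false
set_option maxHeartbeats 1000000

namespace Pool.Agent.H753R2.FR

open Finset

section D9
variable {V I : Type} [DecidableEq V] [DecidableEq I] [Fintype V] [Fintype I] {G : MG V I}
variable {q : ℝ} {X : Finset V} {s₁ : ℕ} {a₀ A₀ K₀ a A K₁ B : ℝ}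

/-- the configuration of a gluing claim -/
theorem cfg_L (hX : Thin G X) {D K : Finset V} (hDX : D ⊆ X) (hKD : K ⊆ D) (hK : K.Nonempty)
    (hcut : cut G (D \ K) (X \ D) = ∅) {v : V} (hv : v ∈ D \ K) :
    Cfg G X D (X \ D) K (insert v K) ∧ Ref G X D (X \ D) K X s₁ 0 ∧
    (∀ Z, Z ⊆ D \ K → cut G Z (D \ Z) = cut G Z (X \ Z)) := by
  classical
  have hcutZ : ∀ Z, Z ⊆ D \ K → cut G Z (D \ Z) = cut G Z (X \ Z) := by
    intro Z hZ
    rw [Finset.eq_empty_iff_forall_notMem] at hcut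
    ext e
    have h1 := hcut e
    rw [mem_cut] at h1 ⊢
    rw [mem_cut]
    simp only [Finset.mem_sdiff] at h1 ⊢
    constructor
    · rintro (⟨h2, h3, h4⟩ | ⟨⟨h3, h4⟩, h2⟩)
      · exact Or.inl ⟨h2, hDX h3, h4⟩
      · exact Or.inr ⟨⟨hDX h3, h4⟩, h2⟩
    · rintro (⟨h2, h3, h4⟩ | ⟨⟨h3, h4⟩, h2⟩)
      · refine Or.inl ⟨h2, ?_, h4⟩
        by_contra h5
        have h6 := Finset.mem_sdiff.mp (hZ h2)
        exact h1 (Or.inl ⟨h6, h3, h5⟩)
      · refine Or.inr ⟨⟨?_, h4⟩, h2⟩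
        by_contra h5
        have h6 := Finset.mem_sdiff.mp (hZ h2)
        exact h1 (Or.inr ⟨⟨h3, h5⟩, h6⟩)
  have hZX : ∀ Z, Z ⊆ D \ K → Z ≠ X := by
    rintro Z hZ rfl
    obtain ⟨k, hk⟩ := hK
    exact (Finset.mem_sdiff.mp (hZ (hDX (hKD hk)))).2 hk
  have hDΔ : D ∪ (X \ D) = X := Finset.union_sdiff_of_subset hDX
  refine ⟨⟨hDX, Finset.sdiff_subset, Finset.disjoint_sdiff, Finset.subset_insert _ _,
    Finset.insert_subset (Finset.mem_sdiff.mp hv).1 hKD, hK, ?_, ?_, ?_⟩,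
    ⟨le_rfl, hDΔ.le, ?_, ?_⟩, hcutZ⟩
  · intro Z hZ hZn
    rw [hcutZ Z hZ, ← Finset.card_pos]
    have := hX.two Z (hZ.trans (Finset.sdiff_subset.trans hDX)) hZn (hZX Z hZ)
    omega
  · rw [cut_comm]; exact hcut
  · rw [hDΔ, Finset.sdiff_self]
    unfold cut
    simp
  · intro Z hZ hZn _
    exact hX.two Z (hZ.trans (Finset.sdiff_subset.trans hDX)) hZn (hZX Z hZ)
  · intro _ T hKT hTD hTne _
    refine hX.two _ (Finset.union_subset (hTD.trans hDX) Finset.sdiff_subset)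
      ((hK.mono hKT).mono Finset.subset_union_left) ?_
    intro hh
    apply hTne
    apply Finset.Subset.antisymm hTD
    intro x hx
    have : x ∈ T ∪ (X \ D) := by rw [hh]; exact hDX hx
    rcases Finset.mem_union.mp this with h | h
    · exact h
    · exact absurd hx (Finset.mem_sdiff.mp h).2

/-- the gluing step -/
theorem lstep {n : ℕ} (hLL : LL G q X n)
    (par : ∀ O, Outer G X O → Par G q X O s₁ a₀ A₀ K₀ a A (2 * K₁) B (Q1 G X K₁)
      (fun S => 2 * ((cut G S (X \ S)).card : ℝ)) (fun S => S ≠ X ∧ S ⊆ X))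
    (hqb3 : (q + 1) * ((1 / (q - 1) * Real.exp (CC a A (2 * K₁))) * Real.exp B) ^ 2 ≤ 1 / 2)
    (IH0 : ∀ N, LB G q X ∅ s₁ a₀ A₀ (Q0 G X K₀) (fun S => 2 * S.card ≤ X.card) n N)
    (IH1 : ∀ O, Outer G X O → ∀ N, LB G q X O s₁ a A (Q1 G X K₁) (fun S => S ≠ X ∧ S ⊆ X) n N) :
    LL G q X (n + 1) := by
  classical
  intro O hO D K hDX hKD hK hcut hcard v hv r hr hfree
  have pr1 := par O hO
  have hX := pr1.hX
  obtain ⟨h, hRef, hcutZ⟩ := cfg_L (s₁ := s₁) hX hDX hKD hK hcut hv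
  obtain ⟨k₀, hk₀⟩ := hK
  have hvD : v ∈ D := (Finset.mem_sdiff.mp hv).1
  have hvK : v ∉ K := (Finset.mem_sdiff.mp hv).2
  have hDΔ : D ∪ (X \ D) = X := Finset.union_sdiff_of_subset hDX
  have hn : (D \ insert v K).card ≤ n := by
    have h1 : D \ insert v K = (D \ K).erase v := by
      ext x; simp only [Finset.mem_sdiff, Finset.mem_insert, Finset.mem_erase]; tauto
    rw [h1, Finset.card_erase_of_mem hv]; omega
  have hLC := lc_of_ll hO hLL h hn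
  have hZX : ∀ Z, Z ⊆ D \ K → Z ≠ X := by
    rintro Z hZ rfl
    exact (Finset.mem_sdiff.mp (hZ (hDX (hKD hk₀)))).2 hk₀
  have h2 : ∀ Z, Z ⊆ D \ K → Z.Nonempty → 2 ≤ (cut G Z (D \ Z)).card := by
    intro Z hZ hZn
    rw [hcutZ Z hZ]
    exact hX.two Z (hZ.trans (Finset.sdiff_subset.trans hDX)) hZn (hZX Z hZ)
  have hiso : ∀ Z, Z ⊆ D \ K → Z.Nonempty →
      (11 / 500 : ℝ) * ((min Z.card (D \ Z).card : ℕ) : ℝ) ^ ((1 : ℝ) / 3) ≤
          ((cut G Z (D \ Z)).card : ℝ) := by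
    intro Z hZ hZn
    rw [hcutZ Z hZ]
    have h3 := hX.iso Z (hZ.trans (Finset.sdiff_subset.trans hDX)) hZn (hZX Z hZ)
    have h4 : gg (min Z.card (D \ Z).card) ≤ gg (min Z.card (X \ Z).card) :=
      gg_mono (min_le_min le_rfl (Finset.card_le_card (Finset.sdiff_subset_sdiff hDX le_rfl)))
    have h5 : (11 / 500 : ℝ) * ((min Z.card (D \ Z).card : ℕ) : ℝ) ^ ((1 : ℝ) / 3)
        = gg (min Z.card (D \ Z).card) / 50 := by
      unfold gg; ring
    have h6 := gg_nonneg (min Z.card (D \ Z).card)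
    rw [h5]; linarith
  have hu : v ∈ insert v K \ K := Finset.mem_sdiff.mpr ⟨Finset.mem_insert_self _ _, hvK⟩
  have herase : ((insert v K \ K).erase v).card = 0 := by
    rw [Finset.card_eq_zero]
    ext x; simp only [Finset.mem_erase, Finset.mem_sdiff, Finset.mem_insert, Finset.notMem_empty, iff_false]
    tauto
  have hfreeW : Free r (D \ insert v K) := by
    intro b hb c hc
    exact hfree b (Finset.sdiff_subset_sdiff le_rfl (Finset.subset_insert _ _) hb) c hc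
  have hrel : (r ⊔ mg (insert v K)) k₀ v := by
    have : mg (insert v K) ≤ r ⊔ mg (insert v K) := le_sup_right
    exact this (Or.inr ⟨Finset.mem_insert_of_mem hk₀, Finset.mem_insert_self _ _⟩)
  have hkv : k₀ ≠ v := fun hh => hvK (hh ▸ hk₀)
  have hnn : 0 ≤ m G q (r ⊔ mg (insert v K)) (E G D ∪ O) := by
    refine pr1.hH.nn _ _ (Or.inl ?_)
    intro hh
    rw [hh] at hrel
    exact hkv hrel
  have hq3 := pr1.hq
  have ha1 := pr1.ha1
  have hdiff := exp_to_bd hq3 hO hDX h.hKW h.hWD hk₀ hu h.con hLC (CC a A (2 * K₁)) 0 (by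
    intro Y hY
    unfold fam at hY
    rw [Finset.mem_filter, Finset.mem_powerset] at hY
    obtain ⟨hZ, huY, hcZ, hcT⟩ := hY
    have hZn : Y.Nonempty := ⟨v, huY⟩
    have hZD : Y ⊆ D := hZ.trans Finset.sdiff_subset
    obtain ⟨hR1, hR2, ht⟩ := ref_C G h hRef hZ huY
    have hTΔn : ((D \ Y) ∪ (X \ D)).Nonempty :=
      ⟨k₀, Finset.mem_union_left _ (Finset.mem_sdiff.mpr ⟨hKD hk₀,
        fun hkZ => (Finset.mem_sdiff.mp (hZ hkZ)).2 hk₀⟩)⟩
    have hTΔX : (D \ Y) ∪ (X \ D) ⊆ X :=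
      Finset.union_subset (Finset.sdiff_subset.trans hDX) Finset.sdiff_subset
    have hdT : ((D \ Y) ∪ (X \ D)) ≠ X ∧ ((D \ Y) ∪ (X \ D)) ⊆ X := by
      refine ⟨?_, hTΔX⟩
      intro hh
      have : v ∈ (D \ Y) ∪ (X \ D) := by rw [hh]; exact hDX hvD
      rcases Finset.mem_union.mp this with h' | h'
      · exact (Finset.mem_sdiff.mp h').2 huY
      · exact (Finset.mem_sdiff.mp h').2 hvD
    have hdZ : (Y ∪ ∅) ≠ X ∧ (Y ∪ ∅) ⊆ X := by
      rw [Finset.union_empty]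
      exact ⟨hZX Y hZ, hZD.trans hDX⟩
    obtain ⟨WZ, WT, β, hWZ1, hWZ2, hWT1, hWT2, huWZ, hβ, hpb, R, T, hRT, hRTc, hE⟩ :=
      side (dom := fun S => S ≠ X ∧ S ⊆ X) (by linarith) pr1.hH hX hO pr1.ha₀ pr1.ha pr1.hA₀ pr1.hA pr1.hleg h hZ huY
        hcZ hcT hR1 hR2 (Or.inl (Finset.mem_insert_self _ _)) (n := n) (N₀ := D.card) le_rfl
        (IH0 _) (IH1 O hO _) hn hdZ hdT
    refine ⟨WZ, WT, β, hWZ1, hWZ2, hWT1, hWT2, hβ, hpb, hE.trans (Real.exp_le_exp.mpr ?_)⟩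
    have hQX : Q1 G X K₁ X = 0 := by
      unfold Q1
      rw [Finset.sdiff_self]
      have : cut G X ∅ = ∅ := by unfold cut; simp
      rw [this]; simp
    have hq1 : Q0 G X K₀ R + Q1 G X K₁ T + (a₀ + 1) * (2 * ((cut G R (X \ R)).card : ℝ))
        ≤ (2 * K₁) * ((cut G Y (D \ Y)).card : ℝ) := by
      rcases hRT with ⟨rfl, rfl⟩ | ⟨rfl, rfl⟩
      · have := pr1.lev.q1 R ((D \ R) ∪ (X \ D)) (hZD.trans h.hD) hTΔX (disj_split hZD h.disj) hZn hTΔn hRTc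
        rw [union_split hZD, cut_dead G h hZ, hDΔ, hQX] at this
        linarith
      · have := pr1.lev.q1 ((D \ T) ∪ (X \ D)) T hTΔX (hZD.trans h.hD) (disj_split hZD h.disj).symm hTΔn hZn hRTc
        rw [Finset.union_comm _ T, union_split hZD, cut_comm ((D \ T) ∪ (X \ D)) T, cut_dead G h hZ, hDΔ, hQX] at this
        linarith
    have htt : ((cut G (Y ∪ ∅) (X \ (Y ∪ ∅))).card : ℝ) +
        ((cut G ((D \ Y) ∪ (X \ D)) (X \ ((D \ Y) ∪ (X \ D)))).card : ℝ)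
        = 2 * ((cut G Y (D \ Y)).card : ℝ) := by
      have h0 : (cut G (D ∪ (X \ D)) (X \ (D ∪ (X \ D)))).card = 0 := by
        rw [hDΔ, Finset.sdiff_self]; unfold cut; simp
      rw [h0] at ht
      have : (cut G (Y ∪ ∅) (X \ (Y ∪ ∅))).card +
        (cut G ((D \ Y) ∪ (X \ D)) (X \ ((D \ Y) ∪ (X \ D)))).card = 2 * (cut G Y (D \ Y)).card := by
        omega
      exact_mod_cast this
    rw [htt, herase]
    unfold CC
    push_cast
    linarith [hq1]) r hr hfreeW hnn (fun _ => 1) (fun _ => by simp)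
  have hcount := pr1.hcount D K v hKD ⟨k₀, hk₀⟩ hv h2 hiso (1 / (q - 1) * Real.exp (CC a A (2 * K₁)))
    (by have : 0 < q - 1 := by linarith
        positivity) pr1.hqb1
  simp only [one_mul] at hdiff
  rw [← m_union G q (outer_disj hO hDX).symm r, ← m_union G q (outer_disj hO hDX).symm (r ⊔ pr k₀ v),
    Real.exp_zero] at hdiff
  have hsup : r ⊔ mg (insert v K) = r ⊔ pr k₀ v := by
    rw [mg_insert hk₀, ← sup_assoc, sup_eq_left.mpr hr]
  rw [hsup] at hnn hdiff ⊢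
  have h1 : (q + 1) * (∑ Y ∈ fam G D K v, (1 / (q - 1) * Real.exp (CC a A (2 * K₁))) ^ (cut G Y (D \ Y)).card) ≤ 1 / 2 :=
    (mul_le_mul_of_nonneg_left hcount (by linarith)).trans hqb3
  have h3 : |m G q r (E G D ∪ O) - m G q (r ⊔ pr k₀ v) (E G D ∪ O)|
      ≤ 1 / 2 * m G q (r ⊔ pr k₀ v) (E G D ∪ O) := by
    refine hdiff.trans ?_
    rw [mul_one]
    exact mul_le_mul_of_nonneg_right h1 hnn
  have h4 := (abs_le.mp h3).1
  linarith

/-- result of the induction -/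
theorem main_ind : ∃ q₀ : ℝ, ∀ q : ℝ, q₀ ≤ q → ∀ (V I : Type) [DecidableEq V] [DecidableEq I]
    [Fintype V] [Fintype I] (G : MG V I) (X : Finset V), Hyp G q → Thin G X → ∀ n, LL G q X n := by
  obtain ⟨s₁, hs₁⟩ := gg_large 50
  obtain ⟨B, hB0, hB⟩ := counting (11 / 500) (by norm_num)
  have hs0 : (0:ℝ) ≤ (s₁:ℝ) := Nat.cast_nonneg _
  set a₀ : ℝ := 2 * (3 * (s₁ : ℝ)) ^ 2 + 3 * (s₁ : ℝ) + 1 with ha₀
  set K₀ : ℝ := a₀ + (s₁ : ℝ) ^ 2 + (s₁ : ℝ) + 2 with hK₀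
  set A₀ : ℝ := a₀ + K₀ + 2 * (s₁ : ℝ) ^ 2 + 2 * (s₁ : ℝ) + 4 with hA₀
  set K₁ : ℝ := 2 * (K₀ + 2 * (a₀ + 1) + (2 * a₀ + 4 * A₀ + 4)) with hK₁
  have ha₀1 : 1 ≤ a₀ := by rw [ha₀]; nlinarith
  have hs2 : (0:ℝ) ≤ (s₁:ℝ)^2 := by positivity
  have hK₀1 : 0 ≤ K₀ := by rw [hK₀]; linarith
  have hA₀1 : 0 ≤ A₀ := by rw [hA₀]; linarith
  have hK₁1 : K₀ ≤ K₁ := by rw [hK₁]; linarith
  set M : ℝ := Real.exp (CC a₀ A₀ (2 * K₁)) * Real.exp B with hM
  have hCC1 : 0 ≤ CC a₀ A₀ (2 * K₁) := by unfold CC; linarith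
  have hM1 : 1 ≤ M := by
    rw [hM]
    have h1 := Real.one_le_exp hCC1
    have h2 := Real.one_le_exp hB0
    nlinarith
  have hCC0 : CC a₀ A₀ (2 * K₀) ≤ CC a₀ A₀ (2 * K₁) := by unfold CC; linarith
  refine ⟨4 * M ^ 2 + 3, ?_⟩
  intro q hq V I _ _ _ _ G X hH hX
  have hq3 : 3 ≤ q := by nlinarith
  have hq1 : 0 < q - 1 := by linarith
  have hqM : 4 * M ^ 2 ≤ q - 1 := by linarith
  have hlam1 : (1 / (q - 1) * Real.exp (CC a₀ A₀ (2 * K₁))) * Real.exp B = M / (q - 1) := by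
    rw [hM]; field_simp
  have hlam0 : (1 / (q - 1) * Real.exp (CC a₀ A₀ (2 * K₀))) * Real.exp B ≤ M / (q - 1) := by
    rw [← hlam1]
    have := Real.exp_le_exp.mpr hCC0
    have h1 : 0 ≤ 1 / (q - 1) := by positivity
    exact mul_le_mul_of_nonneg_right (mul_le_mul_of_nonneg_left this h1) (Real.exp_pos _).le
  have hMq : M / (q - 1) ≤ 1 := by
    rw [div_le_one hq1]; nlinarith
  have hMq2 : (q + 1) * (M / (q - 1)) ^ 2 ≤ 1 / 2 := by
    rw [div_pow, mul_div_assoc', div_le_iff₀ (by positivity)]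
    nlinarith [mul_nonneg (by linarith : (0:ℝ) ≤ q - 3) (sq_nonneg M), mul_le_mul_of_nonneg_right hqM hq1.le]
  have hMq0 : 0 ≤ M / (q - 1) := by positivity
  have hlam00 : 0 ≤ (1 / (q - 1) * Real.exp (CC a₀ A₀ (2 * K₀))) * Real.exp B := by positivity
  have hcount : ∀ (D K : Finset V) (u : V), K ⊆ D → K.Nonempty → u ∈ D \ K →
      (∀ Z, Z ⊆ D \ K → Z.Nonempty → 2 ≤ (cut G Z (D \ Z)).card) →
      (∀ Z, Z ⊆ D \ K → Z.Nonempty →
        (11 / 500 : ℝ) * ((min Z.card (D \ Z).card : ℕ) : ℝ) ^ ((1 : ℝ) / 3) ≤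
          ((cut G Z (D \ Z)).card : ℝ)) →
      ∀ lam : ℝ, 0 ≤ lam → lam * Real.exp B ≤ 1 →
        ∑ Y ∈ fam G D K u, lam ^ (cut G Y (D \ Y)).card ≤ (lam * Real.exp B) ^ 2 :=
    fun D K u => hB V I G D K u
  have par0 : Par G q X ∅ s₁ a₀ A₀ K₀ a₀ A₀ (2 * K₀) B (Q0 G X K₀) (fun _ => 0)
      (fun S => 2 * S.card ≤ X.card) :=
    { hq := hq3, hH := hH, hX := hX, hO := outer_empty X
      lev := lev0 G hX hK₀1 (by rw [hA₀]; linarith) s₁
      ha₀ := by linarith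
      ha := le_rfl
      hA₀ := hA₀1
      hA := le_rfl
      hK₀ := hK₀1
      hleg := by intro R _ _ _; rw [legs_empty]; simp
      hS := by rw [ha₀]; linarith
      ha1 := ha₀1
      hAS := by rw [hA₀]
      hs₁ := hs₁
      hcount := hcount
      hqb1 := hlam0.trans hMq
      hqb2 := by
        have h1 : ((1 / (q - 1) * Real.exp (CC a₀ A₀ (2 * K₀))) * Real.exp B) ^ 2 ≤ (M / (q - 1)) ^ 2 :=
          pow_le_pow_left₀ hlam00 hlam0 2
        have h2 := mul_le_mul_of_nonneg_left h1 (by linarith : (0:ℝ) ≤ q + 1)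
        linarith }
  have par1 : ∀ O, Outer G X O → Par G q X O s₁ a₀ A₀ K₀ a₀ A₀ (2 * K₁) B (Q1 G X K₁)
      (fun S => 2 * ((cut G S (X \ S)).card : ℝ)) (fun S => S ≠ X ∧ S ⊆ X) := by
    intro O hO
    exact
    { hq := hq3, hH := hH, hX := hX, hO := hO
      lev := lev1 G hX (by linarith) hK₀1 (by linarith) hA₀1 (by rw [hK₁]; linarith) s₁
      ha₀ := by linarith
      ha := le_rfl
      hA₀ := hA₀1
      hA := le_rfl
      hK₀ := hK₀1
      hleg := by intro R h1 h2 h3; exact legs_le G hX hO h1 h2 h3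
      hS := by rw [ha₀]; linarith
      ha1 := ha₀1
      hAS := by rw [hA₀]
      hs₁ := hs₁
      hcount := hcount
      hqb1 := by rw [hlam1]; exact hMq
      hqb2 := by rw [hlam1]; linarith }
  intro n
  induction n with
  | zero =>
      intro O hO D K hDX hKD hK hcut hcard v hv
      have : (D \ K).card = 0 := by omega
      rw [Finset.card_eq_zero] at this
      rw [this] at hv
      simp at hv
  | succ n ih =>
      have hl0 : ∀ N, LB G q X ∅ s₁ a₀ A₀ (Q0 G X K₀) (fun S => 2 * S.card ≤ X.card) n N :=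
        fun N => lb_level par0 ih N (fun N' _ h => h)
      have hl1 : ∀ O, Outer G X O → ∀ N,
          LB G q X O s₁ a₀ A₀ (Q1 G X K₁) (fun S => S ≠ X ∧ S ⊆ X) n N :=
        fun O hO N => lb_level (par1 O hO) ih N (fun N' _ _ => hl0 N')
      exact lstep ih par1 (by rw [hlam1]; exact hMq2) hl0 hl1

end D9

end Pool.Agent.H753R2.FR
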