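import Mathlib
import Pool.Agent.H753R2.FR.Defs
import Pool.Agent.H753R2.FR.T_A1
import Pool.Agent.H753R2.FR.T_A2
set_option autoImplicit false
set_option linter.unusedSectionVars false

/-! Task E1 (helper19): the minimal counterexample. -/

namespace Pool.Agent.H753R2.FR

open Finset


namespace E1

/-! #### Transport of a graph -/

section transport

variable {V I V' I' : Type} [DecidableEq V] [DecidableEq I] [Fintype V] [Fintype I]
  [DecidableEq V'] [DecidableEq I'] [Fintype V'] [Fintype I']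

theorem conn_comap (φ : V → V') (ψ : I' ↪ I) (G : MG V I) (G' : MG V' I')
    (hx : ∀ i, G'.x i = φ (G.x (ψ i))) (hy : ∀ i, G'.y i = φ (G.y (ψ i)))
    (r' : Setoid V') (A' : Finset I') :
    Setoid.comap φ r' ⊔ conn G (A'.map ψ) = Setoid.comap φ (r' ⊔ conn G' A') := by
  induction A' using Finset.induction_on with
  | empty => rw [Finset.map_empty, conn_empty, conn_empty, sup_bot_eq, sup_bot_eq]
  | insert i A' hi ih =>
    rw [Finset.map_insert, conn_insert, conn_insert, ← sup_assoc, ih, ← sup_assoc]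
    ext c d
    have h1 : (r' ⊔ conn G' A' ⊔ pr (φ (G.x (ψ i))) (φ (G.y (ψ i)))) (φ c) (φ d) ↔ _ := sup_pr_iff
    rw [sup_pr_iff, hx, hy]
    exact h1.symm

theorem cl_comap (φ : V → V') (hφ : Function.Surjective φ) (s : Setoid V') :
    cl (Setoid.comap φ s) = cl s := by
  unfold cl
  rw [Nat.card_congr (Setoid.comapQuotientEquiv φ s)]
  have : Set.range (Quotient.mk'' (s₁ := s) ∘ φ) = Set.univ :=
    (Quotient.mk''_surjective.comp hφ).range_eq
  rw [this]
  exact Nat.card_congr (Equiv.Set.univ _)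

theorem wt_map (q : ℝ) (ψ : I' ↪ I) (S' A' : Finset I') :
    wt q (S'.map ψ) (A'.map ψ) = wt q S' A' := by
  unfold wt
  rw [Finset.prod_map]
  refine Finset.prod_congr rfl fun i _ => ?_
  simp only [Finset.mem_map']

theorem m_comap (q : ℝ) (φ : V → V') (hφ : Function.Surjective φ) (ψ : I' ↪ I)
    (G : MG V I) (G' : MG V' I')
    (hx : ∀ i, G'.x i = φ (G.x (ψ i))) (hy : ∀ i, G'.y i = φ (G.y (ψ i)))
    (r' : Setoid V') (S' : Finset I') :
    m G q (Setoid.comap φ r') (S'.map ψ) = m G' q r' S' := by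
  unfold m
  symm
  refine Finset.sum_nbij (fun A' => A'.map ψ) ?_ ?_ ?_ ?_
  · intro A' hA'
    rw [Finset.mem_powerset] at hA' ⊢
    exact Finset.map_subset_map.2 hA'
  · intro A _ B _ h
    exact Finset.map_injective ψ h
  · intro A hA
    rw [Finset.mem_coe, Finset.mem_powerset, Finset.subset_map_iff] at hA
    obtain ⟨u, hu, rfl⟩ := hA
    exact ⟨u, by simpa using hu, rfl⟩
  · intro A' _
    rw [wt_map, conn_comap φ ψ G G' hx hy, cl_comap φ hφ]

/-- every minor is (up to renaming) a graph on `Fin n` with edges `Fin k` -/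
theorem exists_fin (q : ℝ) (G : MG V I) (r : Setoid V) (S : Finset I) :
    ∃ G' : MG (Fin (cl r)) (Fin S.card), m G' q ⊥ univ = m G q r S ∧
      ((∀ e ∈ S, (r ⊔ conn G (S.erase e)) (G.x e) (G.y e)) → Bridgeless G') := by
  classical
  have hfin : Finite (Quotient r) := Quotient.finite r
  let eV : Quotient r ≃ Fin (cl r) := Finite.equivFin (Quotient r)
  let φ : V → Fin (cl r) := fun v => eV (Quotient.mk r v)
  have hφ : Function.Surjective φ := eV.surjective.comp Quotient.mk_surjective
  let ψ : Fin S.card ↪ I := S.equivFin.symm.toEmbedding.trans (Function.Embedding.subtype _)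
  have hψ : (univ : Finset (Fin S.card)).map ψ = S := by
    rw [← Finset.map_map, Finset.map_univ_equiv, ← Finset.attach_eq_univ, Finset.attach_map_val]
  have hψm : ∀ i, ψ i ∈ S := fun i => (S.equivFin.symm i).2
  let G' : MG (Fin (cl r)) (Fin S.card) := ⟨fun i => φ (G.x (ψ i)), fun i => φ (G.y (ψ i))⟩
  have hr : Setoid.comap φ ⊥ = r := by
    ext a b
    rw [Setoid.comap_rel]
    show φ a = φ b ↔ r a b
    simp only [φ, EmbeddingLike.apply_eq_iff_eq]
    exact Quotient.eq
  refine ⟨G', ?_, ?_⟩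
  · rw [← m_comap q φ hφ ψ G G' (fun _ => rfl) (fun _ => rfl) ⊥ univ, hr, hψ]
  · intro h i
    have h1 := h (ψ i) (hψm i)
    have h2 : S.erase (ψ i) = ((univ : Finset (Fin S.card)).erase i).map ψ := by
      rw [Finset.map_erase, hψ]
    have h3 := conn_comap φ ψ G G' (fun _ => rfl) (fun _ => rfl) ⊥ (univ.erase i)
    rw [hr] at h3
    rw [h2, h3, Setoid.comap_rel, bot_sup_eq] at h1
    exact h1

end transport

section small

variable {V I : Type} [DecidableEq V] [DecidableEq I] [Fintype V] [Fintype I]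

/-- no counterexample with parameters `(n, k)` -/
def Ok (q : ℝ) (n k : ℕ) : Prop :=
  ∀ G : MG (Fin n) (Fin k), 0 < n → Bridgeless G → 0 < m G q ⊥ univ

theorem cl_pos [Nonempty V] (r : Setoid V) : 0 < cl r := by
  unfold cl
  have : Finite (Quotient r) := Quotient.finite r
  have : Nonempty (Quotient r) := ⟨Quotient.mk r (Classical.arbitrary V)⟩
  exact Nat.card_pos

theorem pos_of_ok [Nonempty V] (q : ℝ) (G : MG V I) (r : Setoid V) (S : Finset I)
    (h : Ok q (cl r) S.card) (hb : ∀ e ∈ S, (r ⊔ conn G (S.erase e)) (G.x e) (G.y e)) :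
    0 < m G q r S := by
  obtain ⟨G', h1, h2⟩ := exists_fin q G r S
  rw [← h1]
  exact h G' (cl_pos r) (h2 hb)

theorem nonneg_of_ok [Nonempty V] {q : ℝ} (hq : 1 < q) (G : MG V I) (r : Setoid V) (S : Finset I)
    (h : Ok q (cl r) S.card) : 0 ≤ m G q r S := by
  by_cases hb : ∀ e ∈ S, (r ⊔ conn G (S.erase e)) (G.x e) (G.y e)
  · exact (pos_of_ok q G r S h hb).le
  · push Not at hb
    obtain ⟨e, he, hbr⟩ := hb
    rw [← Finset.insert_erase he]
    exact (m_bridge G q hq (Finset.notMem_erase e S) r hbr).ge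

theorem sup_pr_of_rel {r : Setoid V} {a b : V} (h : r a b) : r ⊔ pr a b = r :=
  sup_eq_left.2 (pr_le_iff.2 h)

theorem pr_ne_bot {a b : V} (h : a ≠ b) : pr a b ≠ ⊥ := by
  intro h1
  have h2 : (pr a b) a b := Or.inr ⟨Or.inl rfl, Or.inr rfl⟩
  rw [h1] at h2
  exact h h2

theorem pr_comm (a b : V) : pr a b = pr b a := by
  ext c d
  show (c = d ∨ ((c = a ∨ c = b) ∧ (d = a ∨ d = b))) ↔ (c = d ∨ ((c = b ∨ c = a) ∧ (d = b ∨ d = a)))
  tauto

theorem cl_lt_of_ne_bot {r : Setoid V} (h : r ≠ ⊥) : cl r < Fintype.card V := by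
  have h1 : cl r ≤ cl (⊥ : Setoid V) := cl_anti bot_le
  rw [cl_bot] at h1
  rcases h1.lt_or_eq with h2 | h2
  · exact h2
  · exact absurd (eq_of_cl_eq bot_le (by rw [cl_bot, h2])).symm h

theorem cl_le_card (r : Setoid V) : cl r ≤ Fintype.card V := by
  have h1 : cl r ≤ cl (⊥ : Setoid V) := cl_anti bot_le
  rwa [cl_bot] at h1

/-- a vertex all of whose edges are in `C` is isolated in the graph without `C` -/
theorem conn_star_le (G : MG V I) (v : V) (A : Finset I) (h : Disjoint A (cut G {v} {v}ᶜ))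
    (hl : ∀ e, G.x e ≠ G.y e) : conn G A ≤ mg ({v}ᶜ : Finset V) := by
  rw [conn_le_iff]
  intro e he
  have h1 : e ∉ cut G {v} {v}ᶜ := Finset.disjoint_left.1 h he
  simp only [cut, Finset.mem_filter, Finset.mem_univ, true_and, Finset.mem_singleton,
    Finset.mem_compl, not_or, not_and, not_not] at h1
  have h2 := hl e
  refine Or.inr ⟨?_, ?_⟩
  · rw [Finset.mem_compl, Finset.mem_singleton]
    intro h3
    exact h2 (h3.trans (h1.1 h3).symm)
  · rw [Finset.mem_compl, Finset.mem_singleton]
    intro h3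
    exact h2 (by
      by_contra h4
      have h5 : G.x e ≠ v := fun h6 => h4 (h6.trans h3.symm)
      exact h1.2 h5 h3)

theorem not_mg_compl {v w : V} (h : w ≠ v) : ¬ (mg ({v}ᶜ : Finset V)) v w := by
  rintro (h1 | h1)
  · exact h h1.symm
  · have := h1.1
    simp at this

theorem not_mg_compl' {v w : V} (h : w ≠ v) : ¬ (mg ({v}ᶜ : Finset V)) w v := by
  rintro (h1 | h1)
  · exact h h1
  · have := h1.2
    simp at this

/-- an edge of the cut of `v` is a bridge of the graph without the other edges of the cut -/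
theorem cut_edge_bridge (G : MG V I) (v : V) (A : Finset I) (h : Disjoint A (cut G {v} {v}ᶜ))
    (hl : ∀ e, G.x e ≠ G.y e) {e : I} (he : e ∈ cut G {v} {v}ᶜ) :
    ¬ (conn G A) (G.x e) (G.y e) := by
  intro h1
  have h2 := conn_star_le G v A h hl h1
  simp only [cut, Finset.mem_filter, Finset.mem_univ, true_and, Finset.mem_singleton,
    Finset.mem_compl] at he
  rcases he with ⟨h3, h4⟩ | ⟨h3, h4⟩
  · rw [h3] at h2
    exact not_mg_compl h4 h2
  · rw [h4] at h2
    exact not_mg_compl' h3 h2


variable {n k : ℕ} {q : ℝ}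

/-- the pair `(n, k)` is minimal -/
structure Min (q : ℝ) (n k : ℕ) : Prop where
  ok1 : ∀ n' k', n' < n → Ok q n' k'
  ok2 : ∀ k', k' < k → Ok q n k'

theorem Min.small (h : Min q n k) {n' k' : ℕ} (hn : n' ≤ n) (hk : n' < n ∨ k' < k) :
    Ok q n' k' := by
  rcases hn.lt_or_eq with h1 | h1
  · exact h.ok1 _ _ h1
  · rcases hk with h2 | h2
    · exact h.ok1 _ _ h2
    · rw [h1]; exact h.ok2 _ h2

theorem nn_aux (h : Min q n k) (hn : 0 < n) (hq : 1 < q) (G : MG (Fin n) (Fin k))
    (r : Setoid (Fin n)) (S : Finset (Fin k)) (hrS : r ≠ ⊥ ∨ S ≠ univ) : 0 ≤ m G q r S := by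
  have : Nonempty (Fin n) := ⟨⟨0, hn⟩⟩
  apply nonneg_of_ok hq
  apply h.small
  · simpa using cl_le_card r
  · rcases hrS with h1 | h1
    · left; simpa using cl_lt_of_ne_bot h1
    · right
      have h2 : S ⊂ univ := Finset.ssubset_univ_iff.2 h1
      simpa using Finset.card_lt_card h2

theorem mono_aux (h : Min q n k) (hn : 0 < n) (hq : 1 < q) (G : MG (Fin n) (Fin k))
    (r : Setoid (Fin n)) (S : Finset (Fin k)) (a b : Fin n) (hS : S.card + 2 ≤ k) :
    m G q r S ≤ q * m G q (r ⊔ pr a b) S := by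
  have hne : Nonempty (Fin n) := ⟨⟨0, hn⟩⟩
  have hSu : S ≠ univ := by
    intro h1
    rw [h1, Finset.card_univ, Fintype.card_fin] at hS
    omega
  by_cases hab : r a b
  · rw [sup_pr_of_rel hab]
    have h1 := nn_aux h hn hq G r S (Or.inr hSu)
    nlinarith
  · -- add a new edge
    let G' : MG (Fin n) (Option (Fin k)) :=
      ⟨fun o => o.elim a G.x, fun o => o.elim b G.y⟩
    have h1 : ∀ r : Setoid (Fin n), m G' q r (S.map Function.Embedding.some) = m G q r S := by
      intro r
      have := m_comap q (id : Fin n → Fin n) Function.surjective_id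
        (Function.Embedding.some : Fin k ↪ Option (Fin k)) G' G (fun _ => rfl) (fun _ => rfl) r S
      exact this
    have h2 : (none : Option (Fin k)) ∉ S.map Function.Embedding.some := by simp
    have h3 : 0 ≤ m G' q r (insert none (S.map Function.Embedding.some)) := by
      apply nonneg_of_ok hq
      apply h.small
      · simpa using cl_le_card r
      · right
        rw [Finset.card_insert_of_notMem h2, Finset.card_map]
        omega
    have h4 : m G' q (r ⊔ pr (G'.x none) (G'.y none)) (S.map Function.Embedding.some)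
        = m G q (r ⊔ pr a b) S := h1 _
    rw [m_insert G' q h2, h4, h1 r] at h3
    have hq1 : 0 < q - 1 := by linarith
    have h5 : (1 + 1 / (q - 1)) = q * (1 / (q - 1)) := by field_simp; ring
    rw [h5] at h3
    have h6 : 0 ≤ (1 / (q - 1)) * (q * m G q (r ⊔ pr a b) S - m G q r S) := by linarith
    have h7 : 0 < 1 / (q - 1) := by positivity
    have h8 := nonneg_of_mul_nonneg_right h6 h7
    linarith

theorem pos_aux (h : Min q n k) (hn : 0 < n) (G : MG (Fin n) (Fin k)) (hbl : Bridgeless G)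
    (r : Setoid (Fin n)) (hr : r ≠ ⊥) : 0 < m G q r univ := by
  have : Nonempty (Fin n) := ⟨⟨0, hn⟩⟩
  apply pos_of_ok
  · apply h.small
    · simpa using cl_le_card r
    · left; simpa using cl_lt_of_ne_bot hr
  · intro e _
    exact (le_sup_right : conn G (univ.erase e) ≤ r ⊔ conn G (univ.erase e)) (hbl e)

theorem loop_aux (h : Min q n k) (hn : 0 < n) (G : MG (Fin n) (Fin k)) (hbl : Bridgeless G)
    (hG : m G q ⊥ univ ≤ 0) (e : Fin k) : G.x e ≠ G.y e := by
  intro hl
  have : Nonempty (Fin n) := ⟨⟨0, hn⟩⟩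
  have h1 : m G q ⊥ univ = m G q ⊥ (univ.erase e) := by
    have := m_loops G q (S := {e}) (O := univ.erase e) ⊥ (by
      intro e' he'
      rw [Finset.mem_singleton] at he'
      subst he'
      exact hl)
    rw [← this]
    congr 1
    ext x
    simp
  have h2 : 0 < m G q ⊥ (univ.erase e) := by
    apply pos_of_ok
    · apply h.small
      · simpa using cl_le_card (⊥ : Setoid (Fin n))
      · right
        have := Finset.card_lt_card (Finset.erase_ssubset (Finset.mem_univ e))
        simpa using this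
    · intro e' he'
      have hne : e ≠ e' := (Finset.ne_of_mem_erase he').symm
      have h3 := hbl e'
      have h4 : univ.erase e' = insert e ((univ.erase e).erase e') := by
        ext x
        simp only [Finset.mem_erase, Finset.mem_univ, and_true, Finset.mem_insert]
        by_cases hx : x = e
        · simp [hx, hne]
        · simp [hx]
      rw [h4, conn_insert, sup_pr_of_rel (by rw [hl])] at h3
      rw [bot_sup_eq]
      exact h3
  linarith

theorem par_aux (h : Min q n k) (hn : 0 < n) (hq : 2 < q) (G : MG (Fin n) (Fin k))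
    (hbl : Bridgeless G) (hG : m G q ⊥ univ ≤ 0) (e e' : Fin k)
    (hp : (G.x e = G.x e' ∧ G.y e = G.y e') ∨ (G.x e = G.y e' ∧ G.y e = G.x e')) : e = e' := by
  by_contra hne
  have hpr : pr (G.x e') (G.y e') = pr (G.x e) (G.y e) := by
    rcases hp with ⟨h1, h2⟩ | ⟨h1, h2⟩
    · rw [h1, h2]
    · rw [h1, h2, pr_comm]
  have hab := loop_aux h hn G hbl hG e
  have hr : pr (G.x e) (G.y e) ≠ ⊥ := pr_ne_bot hab
  have hrel : (pr (G.x e) (G.y e)) (G.x e) (G.y e) := Or.inr ⟨Or.inl rfl, Or.inr rfl⟩
  have hrel' : (pr (G.x e) (G.y e)) (G.x e') (G.y e') := by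
    rw [← hpr]
    exact Or.inr ⟨Or.inl rfl, Or.inr rfl⟩
  set S : Finset (Fin k) := (univ.erase e).erase e' with hS
  have he' : e' ∉ S := Finset.notMem_erase _ _
  have hU : univ.erase e = insert e' S := by
    rw [hS, Finset.insert_erase]
    simp [Ne.symm hne]
  have hU2 : (univ : Finset (Fin k)) = insert e (univ.erase e) := by
    rw [Finset.insert_erase (Finset.mem_univ e)]
  have e1 : m G q ⊥ univ = (1 + 1 / (q - 1)) * m G q (pr (G.x e) (G.y e)) (univ.erase e)
      - 1 / (q - 1) * m G q ⊥ (univ.erase e) := by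
    conv_lhs => rw [hU2]
    rw [m_insert G q (Finset.notMem_erase e univ), bot_sup_eq]
  have e2 : m G q ⊥ (univ.erase e) = (1 + 1 / (q - 1)) * m G q (pr (G.x e) (G.y e)) S
      - 1 / (q - 1) * m G q ⊥ S := by
    rw [hU, m_insert G q he', bot_sup_eq, hpr]
  have e3 : m G q (pr (G.x e) (G.y e)) (univ.erase e) = m G q (pr (G.x e) (G.y e)) S := by
    have := m_loops G q (S := {e'}) (O := S) (pr (G.x e) (G.y e)) (by
      intro x hx
      rw [Finset.mem_singleton] at hx
      subst hx
      exact hrel')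
    rw [← this, hU]
    congr 1
    rw [Finset.insert_eq, Finset.union_comm]
  have e4 : m G q (pr (G.x e) (G.y e)) univ = m G q (pr (G.x e) (G.y e)) (univ.erase e) := by
    have := m_loops G q (S := {e}) (O := univ.erase e) (pr (G.x e) (G.y e)) (by
      intro x hx
      rw [Finset.mem_singleton] at hx
      subst hx
      exact hrel)
    rw [← this]
    congr 1
    rw [Finset.union_comm, ← Finset.insert_eq, Finset.insert_erase (Finset.mem_univ e)]
  have h1 := pos_aux h hn G hbl _ hr
  rw [e4, e3] at h1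
  have h2 : 0 ≤ m G q ⊥ S := by
    apply nn_aux h hn (by linarith) G
    right
    intro h3
    rw [h3] at he'
    exact he' (Finset.mem_univ _)
  rw [e1, e2, e3] at hG
  have hp0 : 0 < 1 / (q - 1) := by apply div_pos one_pos; linarith
  have hp1 : 1 / (q - 1) < 1 := by
    rw [div_lt_one (by linarith)]; linarith
  set p := 1 / (q - 1)
  set M1 := m G q (pr (G.x e) (G.y e)) S
  set M0 := m G q ⊥ S
  have h5 : (1 + p) * M1 - p * ((1 + p) * M1 - p * M0) = (1 - p ^ 2) * M1 + p ^ 2 * M0 := by ring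
  have h6 : 0 < 1 - p ^ 2 := by nlinarith
  have h7 : 0 < (1 - p ^ 2) * M1 := mul_pos h6 h1
  have h8 : 0 ≤ p ^ 2 * M0 := mul_nonneg (sq_nonneg p) h2
  linarith

theorem deg_aux (h : Min q n k) (hn : 0 < n) (hq : 2 < q) (G : MG (Fin n) (Fin k))
    (hbl : Bridgeless G) (hG : m G q ⊥ univ ≤ 0) (v : Fin n) :
    3 ≤ (cut G {v} {v}ᶜ).card := by
  have hl := loop_aux h hn G hbl hG
  by_contra hcon
  have hle : (cut G {v} {v}ᶜ).card ≤ 2 := by omega
  have hq0 : 0 < q := by linarith
  rcases Nat.lt_or_ge (cut G {v} {v}ᶜ).card 2 with hlt | hge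
  · rcases Nat.eq_zero_or_pos (cut G {v} {v}ᶜ).card with h0 | h0
    · -- isolated vertex
      rw [Finset.card_eq_zero] at h0
      by_cases hw : ∃ w, w ≠ v
      · obtain ⟨w, hw⟩ := hw
        have h1 : ¬ (⊥ ⊔ conn G univ) v w := by
          rw [bot_sup_eq]
          intro h2
          exact not_mg_compl hw (conn_star_le G v univ (by rw [h0]; exact Finset.disjoint_empty_right _)
            hl h2)
        have h2 := m_disc G q (by linarith) ⊥ h1
        rw [bot_sup_eq] at h2
        have h3 := pos_aux h hn G hbl _ (pr_ne_bot hw.symm)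
        have h4 : 0 < q * m G q (pr v w) univ := mul_pos hq0 h3
        linarith
      · push Not at hw
        have h1 : (univ : Finset (Fin k)) = ∅ := by
          apply Finset.eq_empty_of_forall_notMem
          intro e _
          exact hl e ((hw _).trans (hw _).symm)
        rw [h1, m_empty] at hG
        have := pow_pos hq0 (cl (⊥ : Setoid (Fin n)))
        linarith
    · have h1 : (cut G {v} {v}ᶜ).card = 1 := by omega
      obtain ⟨e, he⟩ := Finset.card_eq_one.1 h1
      refine cut_edge_bridge G v (univ.erase e) ?_ hl (e := e) (by rw [he]; simp) (hbl e)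
      rw [he, Finset.disjoint_singleton_right]
      exact Finset.notMem_erase _ _
  · have h2 : (cut G {v} {v}ᶜ).card = 2 := by omega
    obtain ⟨e1, e2, hne, he⟩ := Finset.card_eq_two.1 h2
    have hU2 : (univ : Finset (Fin k)) = insert e1 (univ.erase e1) := by
      rw [Finset.insert_erase (Finset.mem_univ e1)]
    have hU : univ.erase e1 = insert e2 ((univ.erase e1).erase e2) := by
      rw [Finset.insert_erase]
      simp [hne.symm]
    have k1 : m G q ⊥ univ = (1 + 1 / (q - 1)) * m G q (pr (G.x e1) (G.y e1)) (univ.erase e1)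
        - 1 / (q - 1) * m G q ⊥ (univ.erase e1) := by
      conv_lhs => rw [hU2]
      rw [m_insert G q (Finset.notMem_erase e1 univ), bot_sup_eq]
    have k2 : m G q ⊥ (univ.erase e1) = 0 := by
      rw [hU]
      apply m_bridge G q (by linarith) (Finset.notMem_erase _ _)
      rw [bot_sup_eq]
      refine cut_edge_bridge G v _ ?_ hl (by rw [he]; simp)
      rw [he, Finset.disjoint_left]
      intro x hx hx2
      rw [Finset.mem_insert, Finset.mem_singleton] at hx2
      rw [Finset.mem_erase, Finset.mem_erase] at hx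
      rcases hx2 with h3 | h3
      · exact hx.2.1 h3
      · exact hx.1 h3
    have k3 : m G q (pr (G.x e1) (G.y e1)) univ
        = m G q (pr (G.x e1) (G.y e1)) (univ.erase e1) := by
      have := m_loops G q (S := {e1}) (O := univ.erase e1) (pr (G.x e1) (G.y e1)) (by
        intro x hx
        rw [Finset.mem_singleton] at hx
        subst hx
        exact Or.inr ⟨Or.inl rfl, Or.inr rfl⟩)
      rw [← this]
      congr 1
      rw [Finset.union_comm, ← Finset.insert_eq, Finset.insert_erase (Finset.mem_univ e1)]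
    have k4 := pos_aux h hn G hbl _ (pr_ne_bot (hl e1))
    rw [k3] at k4
    rw [k1, k2, mul_zero, sub_zero] at hG
    have hp0 : 0 < 1 / (q - 1) := by apply div_pos one_pos; linarith
    have : 0 < (1 + 1 / (q - 1)) * m G q (pr (G.x e1) (G.y e1)) (univ.erase e1) :=
      mul_pos (by linarith) k4
    linarith

end small

end E1

open E1 in
theorem min_ce (q : ℝ) (hq : 2 < q)
    (h : ∃ (n k : ℕ) (G : MG (Fin n) (Fin k)), 0 < n ∧ Bridgeless G ∧ m G q ⊥ univ ≤ 0) :
    ∃ (n k : ℕ) (G : MG (Fin n) (Fin k)), 0 < n ∧ Bridgeless G ∧ m G q ⊥ univ ≤ 0 ∧ Hyp G q ∧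
      (∀ r : Setoid (Fin n), r ≠ ⊥ → 0 < m G q r univ) ∧
      (∀ v, 3 ≤ (cut G {v} {v}ᶜ).card) ∧ (∀ e, G.x e ≠ G.y e) ∧
      (∀ e e', ((G.x e = G.x e' ∧ G.y e = G.y e') ∨ (G.x e = G.y e' ∧ G.y e = G.x e')) →
        e = e') := by
  classical
  have hn1 := Nat.find_spec h
  obtain ⟨G, hn0, hbl, hG⟩ := Nat.find_spec hn1
  have hmin : Min q (Nat.find h) (Nat.find hn1) := by
    constructor
    · intro n' k' hlt G' h0 hb
      by_contra hcon
      exact Nat.find_min h hlt ⟨k', G', h0, hb, not_lt.1 hcon⟩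
    · intro k' hlt G' h0 hb
      by_contra hcon
      exact Nat.find_min hn1 hlt ⟨G', h0, hb, not_lt.1 hcon⟩
  have hq1 : 1 < q := by linarith
  refine ⟨Nat.find h, Nat.find hn1, G, hn0, hbl, hG, ⟨?_, ?_⟩, ?_, ?_, ?_, ?_⟩
  · exact nn_aux hmin hn0 hq1 G
  · intro r S a b hS
    exact mono_aux hmin hn0 hq1 G r S a b (by simpa using hS)
  · exact pos_aux hmin hn0 G hbl
  · exact deg_aux hmin hn0 hq G hbl hG
  · exact loop_aux hmin hn0 G hbl hG
  · exact par_aux hmin hn0 hq G hbl hG

end Pool.Agent.H753R2.FR
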