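import Mathlib
import Pool.Agent.H753R2.FR.Defs
import Pool.Agent.H753R2.FR.DefsD
import Pool.Agent.H753R2.FR.T_A1
import Pool.Agent.H753R2.FR.T_C
import Pool.Agent.H753R2.FR.T_E1
import Pool.Agent.H753R2.FR.T_D9
set_option autoImplicit false

namespace Pool.Agent.H753R2.FR

open Finset


/-! ### Task D6 : final assembly -/

section D6
variable {V I : Type} [DecidableEq V] [DecidableEq I] [Fintype V] [Fintype I] (G : MG V I)

/-- gluing one more vertex of `X` -/
theorem D6_step {q : ℝ} {X : Finset V} (hLL : ∀ n, LL G q X n) {K : Finset V} (hK : K.Nonempty)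
    (hKX : K ⊆ X) {v : V} (hv : v ∈ X \ K) :
    m G q (mg (insert v K)) univ ≤ 2 * m G q (mg K) univ := by
  set O : Finset I := univ.filter (fun e => ¬ (G.x e ∈ X ∧ G.y e ∈ X)) with hO
  have hOut : Outer G X O := by
    intro e he
    exact (Finset.mem_filter.1 he).2
  have hEO : E G X ∪ O = univ := by
    rw [hO]
    unfold E
    exact Finset.filter_union_filter_not_eq _ _
  have hcut : cut G (X \ K) (X \ X) = ∅ := by
    unfold cut
    rw [Finset.sdiff_self]
    simp
  have h1 := hLL (X \ K).card O hOut X K (Finset.Subset.refl X) hKX hK hcut le_rfl v hv (mg K)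
    le_rfl (by
      intro a ha b hab
      have hab' : a = b ∨ (a ∈ K ∧ b ∈ K) := hab
      rcases hab' with h | h
      · exact h
      · exact absurd h.1 (Finset.mem_sdiff.1 ha).2)
  have h2 : mg K ⊔ mg (insert v K) = mg (insert v K) := by
    rw [sup_eq_right]
    intro a b hab
    have hab' : a = b ∨ (a ∈ K ∧ b ∈ K) := hab
    rcases hab' with h | h
    · exact Or.inl h
    · exact Or.inr ⟨Finset.mem_insert_of_mem h.1, Finset.mem_insert_of_mem h.2⟩
  rwa [h2, hEO] at h1

theorem D6_nonpos {q : ℝ} {X : Finset V} (hLL : ∀ n, LL G q X n) (h0 : m G q ⊥ univ ≤ 0) {x₀ : V}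
    (S : Finset V) : insert x₀ S ⊆ X → m G q (mg (insert x₀ S)) univ ≤ 0 := by
  induction S using Finset.induction_on with
  | empty =>
    intro _
    have : insert x₀ (∅ : Finset V) = {x₀} := rfl
    rw [this, mg_singleton]
    exact h0
  | insert v S hv ih =>
    intro hX
    by_cases hvx : v ∈ insert x₀ S
    · have : insert x₀ (insert v S) = insert x₀ S := by
        rw [Finset.insert_comm, Finset.insert_eq_of_mem hvx]
      rw [this] at hX ⊢
      exact ih hX
    · rw [Finset.insert_comm] at hX ⊢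
      have hS : insert x₀ S ⊆ X := (Finset.subset_insert _ _).trans hX
      have h1 := D6_step G hLL (K := insert x₀ S) (Finset.insert_nonempty _ _) hS (v := v)
        (Finset.mem_sdiff.2 ⟨hX (Finset.mem_insert_self _ _), hvx⟩)
      have h2 := ih hS
      linarith

end D6

theorem flow_pos : ∃ q₀ : ℝ, 2 ≤ q₀ ∧ ∀ q : ℝ, q₀ ≤ q → ∀ (n k : ℕ) (G : MG (Fin n) (Fin k)),
    0 < n → Bridgeless G → 0 < m G q ⊥ univ := by
  obtain ⟨q₁, hq₁⟩ := main_ind
  refine ⟨max q₁ 3, (by norm_num : (2 : ℝ) ≤ 3).trans (le_max_right _ _), ?_⟩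
  intro q hq n k G hn hG
  by_contra hneg
  push Not at hneg
  have hq3 : (3 : ℝ) ≤ q := (le_max_right _ _).trans hq
  obtain ⟨n', k', G', hn', hb', hm', hH, hpos, hdeg, hloop, hsimple⟩ :=
    min_ce q (by linarith) ⟨n, k, G, hn, hG, hneg⟩
  haveI : Nonempty (Fin n') := ⟨⟨0, hn'⟩⟩
  obtain ⟨X, hX⟩ := exists_thin G' hdeg hloop hsimple
  have hLL : ∀ N, LL G' q X N := hq₁ q ((le_max_left _ _).trans hq) (Fin n') (Fin k') G' X hH hX
  have h2 := hX.two_le
  obtain ⟨a, ha, b, hb, hab⟩ := Finset.one_lt_card.1 (by omega : 1 < X.card)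
  have h3 := D6_nonpos G' hLL hm' (x₀ := a) X (Finset.insert_subset ha (Finset.Subset.refl X))
  rw [Finset.insert_eq_of_mem ha] at h3
  have h4 : mg X ≠ ⊥ := by
    intro h
    have h5 : mg X a b := Or.inr ⟨ha, hb⟩
    rw [h] at h5
    exact hab h5
  exact absurd (hpos (mg X) h4) (not_lt.2 h3)

end Pool.Agent.H753R2.FR
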