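import Mathlib
import Pool.Agent.H753R2.FR.Defs
set_option autoImplicit false

namespace Pool.Agent.H753R2.FR

open Finset

namespace E2

section A1
variable {V : Type}

theorem sup_pr_iff' {r : Setoid V} {a b c d : V} :
    (r ⊔ pr a b) c d ↔ r c d ∨ (r c a ∧ r b d) ∨ (r c b ∧ r a d) := by
  constructor
  · intro h
    let t : Setoid V :=
      { r := fun c d => r c d ∨ (r c a ∧ r b d) ∨ (r c b ∧ r a d)
        iseqv := by
          refine ⟨fun c => Or.inl (r.refl c), ?_, ?_⟩
          · rintro c d (h | ⟨h1, h2⟩ | ⟨h1, h2⟩)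
            · exact Or.inl (r.symm h)
            · exact Or.inr (Or.inr ⟨r.symm h2, r.symm h1⟩)
            · exact Or.inr (Or.inl ⟨r.symm h2, r.symm h1⟩)
          · rintro c d e (h | ⟨h1, h2⟩ | ⟨h1, h2⟩) (h' | ⟨h3, h4⟩ | ⟨h3, h4⟩)
            · exact Or.inl (r.trans h h')
            · exact Or.inr (Or.inl ⟨r.trans h h3, h4⟩)
            · exact Or.inr (Or.inr ⟨r.trans h h3, h4⟩)
            · exact Or.inr (Or.inl ⟨h1, r.trans h2 h'⟩)
            · exact Or.inr (Or.inl ⟨h1, h4⟩)
            · exact Or.inl (r.trans h1 h4)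
            · exact Or.inr (Or.inr ⟨h1, r.trans h2 h'⟩)
            · exact Or.inl (r.trans h1 h4)
            · exact Or.inr (Or.inr ⟨h1, h4⟩) }
    have hle : r ⊔ pr a b ≤ t := by
      refine sup_le ?_ ?_
      · intro c d h
        exact Or.inl h
      · intro c d h
        change r c d ∨ (r c a ∧ r b d) ∨ (r c b ∧ r a d)
        have h' : c = d ∨ ((c = a ∨ c = b) ∧ (d = a ∨ d = b)) := h
        rcases h' with h | ⟨h1 | h1, h2 | h2⟩
        · rw [h]; exact Or.inl (r.refl d)
        · rw [h1, h2]; exact Or.inl (r.refl a)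
        · rw [h1, h2]; exact Or.inr (Or.inl ⟨r.refl a, r.refl b⟩)
        · rw [h1, h2]; exact Or.inr (Or.inr ⟨r.refl b, r.refl a⟩)
        · rw [h1, h2]; exact Or.inl (r.refl b)
    exact hle h
  · have h1 : r ≤ r ⊔ pr a b := le_sup_left
    have h2 : (r ⊔ pr a b) a b := by
      have h3 : pr a b ≤ r ⊔ pr a b := le_sup_right
      exact h3 (show a = b ∨ ((a = a ∨ a = b) ∧ (b = a ∨ b = b)) from
        Or.inr ⟨Or.inl rfl, Or.inr rfl⟩)
    rintro (h | ⟨h3, h4⟩ | ⟨h3, h4⟩)
    · exact h1 h
    · exact (r ⊔ pr a b).trans (h1 h3) ((r ⊔ pr a b).trans h2 (h1 h4))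
    · exact (r ⊔ pr a b).trans (h1 h3) ((r ⊔ pr a b).trans ((r ⊔ pr a b).symm h2) (h1 h4))

theorem cl_sup_pr_of_not' [Finite V] {s : Setoid V} {a b : V} (h : ¬ s a b) :
    cl (s ⊔ pr a b) + 1 = cl s := by
  classical
  let f : {x : Quotient s // x ≠ Quotient.mk s b} → Quotient (s ⊔ pr a b) :=
    fun x => Quotient.map' (s₁ := s) (s₂ := s ⊔ pr a b) id
      (fun _ _ h => (le_sup_left : s ≤ s ⊔ pr a b) h) x.1
  have hf : Function.Bijective f := by
    constructor
    · rintro ⟨x, hx⟩ ⟨y, hy⟩ hxy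
      induction x using Quotient.inductionOn with
      | h x =>
      induction y using Quotient.inductionOn with
      | h y =>
      have h1 : (s ⊔ pr a b) x y := Quotient.exact hxy
      rw [sup_pr_iff'] at h1
      apply Subtype.ext
      have hx' : ¬ s x b := fun h => hx (Quotient.sound h)
      have hy' : ¬ s b y := fun h => hy (Quotient.sound (s.symm h))
      rcases h1 with h1 | ⟨_, h1⟩ | ⟨h1, _⟩
      · exact Quotient.sound h1
      · exact absurd h1 hy'
      · exact absurd h1 hx'
    · intro y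
      induction y using Quotient.inductionOn with
      | h y =>
      by_cases hy : s y b
      · refine ⟨⟨Quotient.mk s a, fun h' => h (Quotient.exact h')⟩, ?_⟩
        apply Quotient.sound
        change (s ⊔ pr a b) a y
        rw [sup_pr_iff']
        exact Or.inr (Or.inl ⟨s.refl a, s.symm hy⟩)
      · exact ⟨⟨Quotient.mk s y, fun h' => hy (Quotient.exact h')⟩, rfl⟩
  unfold cl
  rw [← Nat.card_congr (Equiv.ofBijective f hf)]
  haveI : Fintype (Quotient s) := Fintype.ofFinite _
  rw [Nat.card_eq_fintype_card, Nat.card_eq_fintype_card, Fintype.card_subtype_compl,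
    Fintype.card_subtype_eq]
  have : 0 < Fintype.card (Quotient s) := Fintype.card_pos_iff.2 ⟨Quotient.mk s a⟩
  omega

theorem cl_sup_pr_of_rel' {s : Setoid V} {a b : V} (h : s a b) : cl (s ⊔ pr a b) = cl s := by
  have : s ⊔ pr a b = s := by
    rw [sup_eq_left]
    intro c d hcd
    have hcd' : c = d ∨ ((c = a ∨ c = b) ∧ (d = a ∨ d = b)) := hcd
    rcases hcd' with h0 | ⟨h1 | h1, h2 | h2⟩
    · rw [h0]
    · rw [h1, h2]
    · rw [h1, h2]; exact h
    · rw [h1, h2]; exact s.symm h
    · rw [h1, h2]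
  rw [this]

theorem cl_bot' [Fintype V] : cl (⊥ : Setoid V) = Fintype.card V := by
  unfold cl
  rw [← Nat.card_eq_fintype_card]
  refine (Nat.card_congr (Equiv.ofBijective (Quotient.mk (⊥ : Setoid V)) ⟨?_, ?_⟩)).symm
  · intro x y h
    exact Quotient.exact h
  · exact Quotient.mk_surjective

variable {I : Type} [DecidableEq V] [DecidableEq I] [Fintype V] [Fintype I] (G : MG V I)

theorem conn_insert' (e : I) (A : Finset I) :
    conn G (insert e A) = conn G A ⊔ pr (G.x e) (G.y e) := by
  unfold conn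
  rw [Finset.sup_insert, sup_comm]

theorem conn_mono' {A B : Finset I} (h : A ⊆ B) : conn G A ≤ conn G B :=
  Finset.sup_mono h

theorem cl_conn' (B : Finset I) : Fintype.card V ≤ B.card + cl (conn G B) := by
  induction B using Finset.induction_on with
  | empty =>
    have : conn G ∅ = ⊥ := rfl
    rw [this, cl_bot']
    omega
  | insert e B he ih =>
    rw [conn_insert', Finset.card_insert_of_notMem he]
    by_cases h : conn G B (G.x e) (G.y e)
    · rw [cl_sup_pr_of_rel' h]; omega
    · have := cl_sup_pr_of_not' h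
      omega

end A1

section A2
variable {V I : Type} [DecidableEq V] [DecidableEq I] [Fintype V] [Fintype I] (G : MG V I) (q : ℝ)

theorem wt_eq' {S A : Finset I} (hA : A ⊆ S) :
    wt q S A = (1 + 1 / (q - 1)) ^ A.card * (-(1 / (q - 1))) ^ (S \ A).card := by
  unfold wt
  rw [Finset.prod_ite, Finset.prod_const, Finset.prod_const]
  congr 3
  · congr 1
    ext i
    simp only [Finset.mem_filter]
    exact ⟨fun h => h.2, fun h => ⟨hA h, h⟩⟩
  · congr 1
    ext i
    simp only [Finset.mem_filter, Finset.mem_sdiff]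

theorem m_bridge' (hq : 1 < q) {S : Finset I} {e : I} (he : e ∉ S)
    (h : ¬ (conn G S) (G.x e) (G.y e)) : m G q ⊥ (insert e S) = 0 := by
  unfold m
  rw [Finset.sum_powerset_insert he, ← Finset.sum_add_distrib]
  refine Finset.sum_eq_zero fun A hA => ?_
  rw [Finset.mem_powerset] at hA
  have heA : e ∉ A := fun h' => he (hA h')
  have h1 : wt q (insert e S) A = -(1 / (q - 1)) * wt q S A := by
    unfold wt
    rw [Finset.prod_insert he, if_neg heA]
  have h2 : wt q (insert e S) (insert e A) = (1 + 1 / (q - 1)) * wt q S A := by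
    unfold wt
    rw [Finset.prod_insert he, if_pos (Finset.mem_insert_self _ _)]
    congr 1
    refine Finset.prod_congr rfl fun i hi => ?_
    have hie : i ≠ e := fun h' => he (h' ▸ hi)
    simp only [Finset.mem_insert, hie, false_or]
  have hn : ¬ (conn G A) (G.x e) (G.y e) := fun h' => h (conn_mono' G hA h')
  have h3 := cl_sup_pr_of_not' hn
  rw [h1, h2, bot_sup_eq, bot_sup_eq, conn_insert', ← h3, pow_succ]
  have hq1 : q - 1 ≠ 0 := by linarith
  field_simp
  ring

end A2

end E2

/-! ### Task E2 : link with the frozen statement -/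

namespace E2

section
variable {n : ℕ} (G : SimpleGraph (Fin n)) [DecidableRel G.Adj]

/-- enumeration of the edges -/
noncomputable def ed : Fin G.edgeFinset.card ↪ Sym2 (Fin n) :=
  (G.edgeFinset.equivFin.symm.toEmbedding).trans (Function.Embedding.subtype _)

theorem ed_mem (i : Fin G.edgeFinset.card) : ed G i ∈ G.edgeFinset :=
  (G.edgeFinset.equivFin.symm i).2

theorem ed_surj {e : Sym2 (Fin n)} (he : e ∈ G.edgeFinset) : ∃ i, ed G i = e :=
  ⟨G.edgeFinset.equivFin ⟨e, he⟩, by simp [ed]⟩

/-- the multigraph -/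
noncomputable def mgr : MG (Fin n) (Fin G.edgeFinset.card) where
  x i := (Quot.out (ed G i)).1
  y i := (Quot.out (ed G i)).2

theorem mgr_s (i : Fin G.edgeFinset.card) : s((mgr G).x i, (mgr G).y i) = ed G i := by
  exact Quot.out_eq (ed G i)

theorem mgr_adj (i : Fin G.edgeFinset.card) : G.Adj ((mgr G).x i) ((mgr G).y i) := by
  rw [← SimpleGraph.mem_edgeSet, mgr_s]
  exact SimpleGraph.mem_edgeFinset.1 (ed_mem G i)

theorem conn_eq (A : Finset (Fin G.edgeFinset.card)) :
    conn (mgr G) A =
      (SimpleGraph.fromEdgeSet (↑(A.map (ed G)) : Set (Sym2 (Fin n)))).reachableSetoid := by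
  apply le_antisymm
  · refine Finset.sup_le fun e he => ?_
    have hadj : (SimpleGraph.fromEdgeSet (↑(A.map (ed G)) : Set (Sym2 (Fin n)))).Adj
        ((mgr G).x e) ((mgr G).y e) := by
      rw [SimpleGraph.fromEdgeSet_adj]
      refine ⟨?_, (mgr_adj G e).ne⟩
      rw [mgr_s]
      exact Finset.mem_coe.2 (Finset.mem_map_of_mem _ he)
    intro a b hab
    have hab' : a = b ∨ ((a = (mgr G).x e ∨ a = (mgr G).y e) ∧
        (b = (mgr G).x e ∨ b = (mgr G).y e)) := hab
    change (SimpleGraph.fromEdgeSet (↑(A.map (ed G)) : Set (Sym2 (Fin n)))).Reachable a b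
    rcases hab' with h | ⟨h1 | h1, h2 | h2⟩
    · rw [h]
    · rw [h1, h2]
    · rw [h1, h2]; exact hadj.reachable
    · rw [h1, h2]; exact hadj.reachable.symm
    · rw [h1, h2]
  · intro a b hab
    have hab' : (SimpleGraph.fromEdgeSet (↑(A.map (ed G)) : Set (Sym2 (Fin n)))).Reachable a b :=
      hab
    obtain ⟨w⟩ := hab'
    induction w with
    | nil => exact (conn (mgr G) A).refl _
    | @cons u v w hadj _ ih =>
      refine (conn (mgr G) A).trans ?_ (ih ⟨‹_›⟩)
      rw [SimpleGraph.fromEdgeSet_adj] at hadj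
      obtain ⟨hm, hne⟩ := hadj
      obtain ⟨i, hi, hie⟩ := Finset.mem_map.1 (Finset.mem_coe.1 hm)
      rw [← mgr_s] at hie
      have hle : pr ((mgr G).x i) ((mgr G).y i) ≤ conn (mgr G) A :=
        Finset.le_sup (f := fun e => pr ((mgr G).x e) ((mgr G).y e)) hi
      apply hle
      change u = v ∨ ((u = (mgr G).x i ∨ u = (mgr G).y i) ∧ (v = (mgr G).x i ∨ v = (mgr G).y i))
      rw [Sym2.eq_iff] at hie
      rcases hie with ⟨h1, h2⟩ | ⟨h1, h2⟩
      · exact Or.inr ⟨Or.inl h1.symm, Or.inr h2.symm⟩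
      · exact Or.inr ⟨Or.inr h2.symm, Or.inl h1.symm⟩

theorem cl_conn_eq (A : Finset (Fin G.edgeFinset.card)) :
    Nat.card (SimpleGraph.fromEdgeSet (↑(A.map (ed G)) : Set (Sym2 (Fin n)))).ConnectedComponent
      = cl (conn (mgr G) A) := by
  rw [conn_eq]
  rfl

/-- the polynomial -/
noncomputable def fp : Polynomial ℝ :=
  ∑ A ∈ G.edgeFinset.powerset,
      Polynomial.C ((-1 : ℝ) ^ (G.edgeFinset.card - A.card)) *
        Polynomial.X ^ (A.card
          + Nat.card (SimpleGraph.fromEdgeSet (↑A : Set (Sym2 (Fin n)))).ConnectedComponent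
          - n)

theorem fp_eq : fp G = ∑ A ∈ (univ : Finset (Fin G.edgeFinset.card)).powerset,
      Polynomial.C ((-1 : ℝ) ^ (G.edgeFinset.card - A.card)) *
        Polynomial.X ^ (A.card + cl (conn (mgr G) A) - n) := by
  symm
  unfold fp
  refine Finset.sum_bij (fun A _ => A.map (ed G)) ?_ ?_ ?_ ?_
  · intro A _
    rw [Finset.mem_powerset]
    intro e he
    obtain ⟨i, _, rfl⟩ := Finset.mem_map.1 he
    exact ed_mem G i
  · intro A _ B _ h
    exact Finset.map_injective _ h
  · intro B hB
    refine ⟨univ.filter (fun i => ed G i ∈ B), by simp, ?_⟩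
    ext e
    simp only [Finset.mem_map, Finset.mem_filter, Finset.mem_univ, true_and]
    constructor
    · rintro ⟨i, hi, rfl⟩
      exact hi
    · intro he
      obtain ⟨i, hi⟩ := ed_surj G (Finset.mem_powerset.1 hB he)
      exact ⟨i, by rw [hi]; exact he, hi⟩
  · intro A _
    rw [cl_conn_eq, Finset.card_map]

theorem fp_eval (x : ℝ) (hx : 1 < x) :
    (fp G).eval x * x ^ n = m (mgr G) x ⊥ univ * (x - 1) ^ G.edgeFinset.card := by
  rw [fp_eq, Polynomial.eval_finsetSum, Finset.sum_mul, m, Finset.sum_mul]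
  refine Finset.sum_congr rfl fun A hA => ?_
  have hA' : A ⊆ univ := Finset.subset_univ A
  have hcc : n ≤ A.card + cl (conn (mgr G) A) := by
    have h1 := cl_conn' (mgr G) A
    rwa [Fintype.card_fin] at h1
  have hx1 : x - 1 ≠ 0 := by linarith
  have hk : (univ \ A : Finset (Fin G.edgeFinset.card)).card = G.edgeFinset.card - A.card := by
    rw [Finset.card_sdiff_of_subset hA', Finset.card_univ, Fintype.card_fin]
  have hAk : A.card ≤ G.edgeFinset.card := by
    have := Finset.card_le_card hA'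
    rwa [Finset.card_univ, Fintype.card_fin] at this
  rw [wt_eq' _ hA', hk, bot_sup_eq]
  simp only [Polynomial.eval_mul, Polynomial.eval_C, Polynomial.eval_pow, Polynomial.eval_X]
  rw [mul_assoc, ← pow_add, Nat.sub_add_cancel hcc, pow_add]
  have h1 : (1 + 1 / (x - 1)) = x / (x - 1) := by field_simp; ring
  have h2 : (-(1 / (x - 1))) ^ (G.edgeFinset.card - A.card)
      = (-1) ^ (G.edgeFinset.card - A.card) / (x - 1) ^ (G.edgeFinset.card - A.card) := by
    rw [← neg_div, div_pow]
  have h3 : (x - 1) ^ G.edgeFinset.card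
      = (x - 1) ^ A.card * (x - 1) ^ (G.edgeFinset.card - A.card) := by
    rw [← pow_add, Nat.add_sub_cancel' hAk]
  rw [h1, h2, h3, div_pow]
  have h4 : (x - 1) ^ A.card ≠ 0 := pow_ne_zero _ hx1
  have h5 : (x - 1) ^ (G.edgeFinset.card - A.card) ≠ 0 := pow_ne_zero _ hx1
  field_simp

end

end E2

open E2 in
theorem link (c : ℝ) (hc : 2 ≤ c)
    (h : ∀ q : ℝ, c ≤ q → ∀ (n k : ℕ) (G : MG (Fin n) (Fin k)), 0 < n → Bridgeless G →
      0 < m G q ⊥ univ) :
    ∃ c : ℝ, ∀ (n : ℕ) (G : SimpleGraph (Fin n)) [DecidableRel G.Adj] (x : ℝ),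
    x ∈ (∑ A ∈ G.edgeFinset.powerset,
      Polynomial.C ((-1 : ℝ) ^ (G.edgeFinset.card - A.card)) *
        Polynomial.X ^ (A.card
          + Nat.card (SimpleGraph.fromEdgeSet (↑A : Set (Sym2 (Fin n)))).ConnectedComponent
          - n)).roots → x ≤ c := by
  refine ⟨c, fun n G _ x hx => ?_⟩
  change x ∈ (fp G).roots at hx
  by_contra hlt
  push Not at hlt
  have hx1 : 1 < x := by linarith
  have hne : fp G ≠ 0 := Polynomial.ne_zero_of_mem_roots hx
  have hroot : (fp G).eval x = 0 := (Polynomial.mem_roots'.1 hx).2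
  have hm : m (mgr G) x ⊥ univ = 0 := by
    have h1 := fp_eval G x hx1
    rw [hroot, zero_mul] at h1
    have h2 : (x - 1) ^ G.edgeFinset.card ≠ 0 := pow_ne_zero _ (by linarith)
    rcases mul_eq_zero.1 h1.symm with h3 | h3
    · exact h3
    · exact absurd h3 h2
  by_cases hB : Bridgeless (mgr G)
  · rcases Nat.eq_zero_or_pos n with hn | hn
    · subst hn
      have hE : G.edgeFinset = ∅ := by
        rw [Finset.eq_empty_iff_forall_notMem]
        intro e
        exact IsEmpty.elim inferInstance e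
      have hfp : fp G = 1 := by
        unfold fp
        rw [hE]
        simp
      rw [hfp] at hroot
      simp at hroot
    · exact absurd hm (h x hlt.le n _ (mgr G) hn hB).ne'
  · unfold Bridgeless at hB
    push Not at hB
    obtain ⟨e, he⟩ := hB
    apply hne
    apply Polynomial.eq_zero_of_infinite_isRoot
    refine Set.Infinite.mono (s := Set.Ioi (1 : ℝ)) ?_ (Set.Ioi_infinite 1)
    intro y hy
    have hy1 : 1 < y := hy
    have h0 : m (mgr G) y ⊥ univ = 0 := by
      have := m_bridge' (mgr G) y hy1 (Finset.notMem_erase e univ) he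
      rwa [Finset.insert_erase (Finset.mem_univ e)] at this
    have h1 := fp_eval G y hy1
    rw [h0, zero_mul] at h1
    rcases mul_eq_zero.1 h1 with h3 | h3
    · exact h3
    · exact absurd h3 (pow_ne_zero _ (by linarith))

end Pool.Agent.H753R2.FR
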