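import Mathlib
import Pool.Agent.H753R2.FR.Defs
import Pool.Agent.H753R2.FR.T_A1
import Pool.Agent.H753R2.FR.T_E2
import Pool.Agent.H753R2.FR.T_D6
set_option autoImplicit false

/-! The flow polynomial of a multigraph given by the pairs of ends of its edges. -/

namespace Pool.Agent.H753R2.FR

open Finset

namespace D6b

/-- the multigraph with the ends `ends` -/
def gr {n k : ℕ} (ends : Fin k → Fin n × Fin n) : MG (Fin n) (Fin k) where
  x e := (ends e).1
  y e := (ends e).2

theorem conn_eq {n k : ℕ} (ends : Fin k → Fin n × Fin n) (A : Finset (Fin k)) :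
    conn (gr ends) A =
      (SimpleGraph.fromRel (fun u v : Fin n => ∃ f ∈ A, ends f = (u, v))).reachableSetoid := by
  apply le_antisymm
  · refine Finset.sup_le fun e he => ?_
    have hreach : (SimpleGraph.fromRel (fun u v : Fin n => ∃ f ∈ A, ends f = (u, v))).Reachable
        ((gr ends).x e) ((gr ends).y e) := by
      by_cases hne : (gr ends).x e = (gr ends).y e
      · rw [hne]
      · apply SimpleGraph.Adj.reachable
        rw [SimpleGraph.fromRel_adj]
        exact ⟨hne, Or.inl ⟨e, he, rfl⟩⟩
    intro a b hab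
    have hab' : a = b ∨ ((a = (gr ends).x e ∨ a = (gr ends).y e) ∧
        (b = (gr ends).x e ∨ b = (gr ends).y e)) := hab
    change (SimpleGraph.fromRel (fun u v : Fin n => ∃ f ∈ A, ends f = (u, v))).Reachable a b
    rcases hab' with h | ⟨h1 | h1, h2 | h2⟩
    · rw [h]
    · rw [h1, h2]
    · rw [h1, h2]; exact hreach
    · rw [h1, h2]; exact hreach.symm
    · rw [h1, h2]
  · intro a b hab
    have hab' : (SimpleGraph.fromRel (fun u v : Fin n => ∃ f ∈ A, ends f = (u, v))).Reachable a b :=
      hab
    obtain ⟨w⟩ := hab'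
    induction w with
    | nil => exact (conn (gr ends) A).refl _
    | @cons u v w hadj _ ih =>
      refine (conn (gr ends) A).trans ?_ (ih ⟨‹_›⟩)
      rw [SimpleGraph.fromRel_adj] at hadj
      obtain ⟨_, ⟨f, hf, hfe⟩ | ⟨f, hf, hfe⟩⟩ := hadj
      · have hle : pr ((gr ends).x f) ((gr ends).y f) ≤ conn (gr ends) A :=
          Finset.le_sup (f := fun e => pr ((gr ends).x e) ((gr ends).y e)) hf
        apply hle
        have h1 : (gr ends).x f = u := by change (ends f).1 = u; rw [hfe]
        have h2 : (gr ends).y f = v := by change (ends f).2 = v; rw [hfe]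
        change u = v ∨ ((u = (gr ends).x f ∨ u = (gr ends).y f) ∧
          (v = (gr ends).x f ∨ v = (gr ends).y f))
        exact Or.inr ⟨Or.inl h1.symm, Or.inr h2.symm⟩
      · have hle : pr ((gr ends).x f) ((gr ends).y f) ≤ conn (gr ends) A :=
          Finset.le_sup (f := fun e => pr ((gr ends).x e) ((gr ends).y e)) hf
        apply hle
        have h1 : (gr ends).x f = v := by change (ends f).1 = v; rw [hfe]
        have h2 : (gr ends).y f = u := by change (ends f).2 = u; rw [hfe]
        change u = v ∨ ((u = (gr ends).x f ∨ u = (gr ends).y f) ∧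
          (v = (gr ends).x f ∨ v = (gr ends).y f))
        exact Or.inr ⟨Or.inr h2.symm, Or.inl h1.symm⟩

theorem cl_conn_eq {n k : ℕ} (ends : Fin k → Fin n × Fin n) (A : Finset (Fin k)) :
    Nat.card (SimpleGraph.fromRel
      (fun u v : Fin n => ∃ f ∈ A, ends f = (u, v))).ConnectedComponent
      = cl (conn (gr ends) A) := by
  rw [conn_eq]
  rfl

theorem flow_eval {n k : ℕ} (G : MG (Fin n) (Fin k)) (x : ℝ) (hx : 1 < x) :
    (∑ A ∈ (univ : Finset (Fin k)).powerset,
      (-1 : ℝ) ^ (k - A.card) * x ^ (A.card + cl (conn G A) - n)) * x ^ n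
      = m G x ⊥ univ * (x - 1) ^ k := by
  rw [Finset.sum_mul, m, Finset.sum_mul]
  refine Finset.sum_congr rfl fun A hA => ?_
  have hA' : A ⊆ univ := Finset.subset_univ A
  have hcc : n ≤ A.card + cl (conn G A) := by
    have h1 := E2.cl_conn' G A
    rwa [Fintype.card_fin] at h1
  have hx1 : x - 1 ≠ 0 := by linarith
  have hk : (univ \ A : Finset (Fin k)).card = k - A.card := by
    rw [Finset.card_sdiff_of_subset hA', Finset.card_univ, Fintype.card_fin]
  have hAk : A.card ≤ k := by
    have := Finset.card_le_card hA'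
    rwa [Finset.card_univ, Fintype.card_fin] at this
  rw [E2.wt_eq' _ hA', hk, bot_sup_eq]
  rw [mul_assoc, ← pow_add, Nat.sub_add_cancel hcc, pow_add]
  have h1 : (1 + 1 / (x - 1)) = x / (x - 1) := by field_simp; ring
  have h2 : (-(1 / (x - 1))) ^ (k - A.card)
      = (-1) ^ (k - A.card) / (x - 1) ^ (k - A.card) := by
    rw [← neg_div, div_pow]
  have h3 : (x - 1) ^ k = (x - 1) ^ A.card * (x - 1) ^ (k - A.card) := by
    rw [← pow_add, Nat.add_sub_cancel' hAk]
  rw [h1, h2, h3, div_pow]
  have h4 : (x - 1) ^ A.card ≠ 0 := pow_ne_zero _ hx1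
  have h5 : (x - 1) ^ (k - A.card) ≠ 0 := pow_ne_zero _ hx1
  field_simp

theorem bridgeless_gr {n k : ℕ} (ends : Fin k → Fin n × Fin n)
    (h : ∀ e : Fin k,
      Nat.card (SimpleGraph.fromRel
          (fun u v : Fin n => ∃ f ∈ (Finset.univ : Finset (Fin k)).erase e,
            ends f = (u, v))).ConnectedComponent
        = Nat.card (SimpleGraph.fromRel
          (fun u v : Fin n => ∃ f : Fin k, ends f = (u, v))).ConnectedComponent) :
    Bridgeless (gr ends) := by
  intro e
  have h1 : (fun u v : Fin n => ∃ f : Fin k, ends f = (u, v)) =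
      (fun u v : Fin n => ∃ f ∈ (Finset.univ : Finset (Fin k)), ends f = (u, v)) := by
    funext u v
    simp
  have h2 := h e
  rw [h1, cl_conn_eq, cl_conn_eq] at h2
  have h3 := eq_of_cl_eq (conn_mono (gr ends) (Finset.erase_subset e univ)) h2
  rw [h3]
  exact (Finset.le_sup (f := fun e => pr ((gr ends).x e) ((gr ends).y e)) (Finset.mem_univ e) :
    pr ((gr ends).x e) ((gr ends).y e) ≤ conn (gr ends) univ) (Or.inr ⟨Or.inl rfl, Or.inr rfl⟩)

theorem flow_pos_ends : ∃ C : ℝ, ∀ (n k : ℕ) (ends : Fin k → Fin n × Fin n),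
    (∀ e : Fin k,
      Nat.card (SimpleGraph.fromRel
          (fun u v : Fin n => ∃ f ∈ (Finset.univ : Finset (Fin k)).erase e,
            ends f = (u, v))).ConnectedComponent
        = Nat.card (SimpleGraph.fromRel
          (fun u v : Fin n => ∃ f : Fin k, ends f = (u, v))).ConnectedComponent) →
    ∀ q : ℝ, C ≤ q →
      0 < ∑ A ∈ (Finset.univ : Finset (Fin k)).powerset,
        (-1 : ℝ) ^ (k - A.card) *
          q ^ (A.card + Nat.card (SimpleGraph.fromRel
                (fun u v : Fin n => ∃ f ∈ A, ends f = (u, v))).ConnectedComponent - n) := by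
  obtain ⟨C, hC, h⟩ := flow_pos
  refine ⟨C, fun n k ends hb q hq => ?_⟩
  have hq2 : 2 ≤ q := hC.trans hq
  simp only [cl_conn_eq]
  rcases Nat.eq_zero_or_pos n with hn | hn
  · subst hn
    have hk : k = 0 := by
      rcases Nat.eq_zero_or_pos k with hk | hk
      · exact hk
      · exact (ends ⟨0, hk⟩).1.elim0
    subst hk
    have h0 : cl (conn (gr ends) ∅) = 0 := by
      unfold cl
      have : IsEmpty (Quotient (conn (gr ends) ∅)) := ⟨fun x => by
        induction x using Quotient.inductionOn with
        | h a => exact a.elim0⟩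
      exact Nat.card_of_isEmpty
    simp [h0]
  · have h1 := flow_eval (gr ends) q (by linarith)
    have h2 := h q hq n k (gr ends) hn (bridgeless_gr ends hb)
    have h3 : 0 < (q - 1) ^ k := pow_pos (by linarith) k
    have h4 : 0 < q ^ n := pow_pos (by linarith) n
    by_contra hneg
    push Not at hneg
    have h5 := mul_nonpos_of_nonpos_of_nonneg hneg h4.le
    rw [h1] at h5
    have h6 := mul_pos h2 h3
    linarith

end D6b

end Pool.Agent.H753R2.FR
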