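import Mathlib
import Pool.Agent.H753R2.FR.Defs
import Pool.Agent.H753R2.FR.T_A1
import Pool.Agent.H753R2.FR.T_A2
import Pool.Agent.H753R2.FR.T_E1
import Pool.Agent.H753R2.FR.T_D6
import Pool.Agent.H753R2.FR.T_D6b
set_option autoImplicit false
set_option linter.unusedSectionVars false

/-! The dichromatic polynomial at `q` large, `v < -q`. -/

namespace Pool.Agent.H753R2.FR

open Finset

namespace F1

/-- all minors have non-negative normalised flow polynomial for large q -/
theorem all_nonneg : ∃ C : ℝ, 2 ≤ C ∧ ∀ q : ℝ, C ≤ q → ∀ (n k : ℕ) (G : MG (Fin n) (Fin k)),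
    0 < n → ∀ (r : Setoid (Fin n)) (S : Finset (Fin k)), 0 ≤ m G q r S := by
  obtain ⟨C, hC, h⟩ := flow_pos
  refine ⟨C, hC, ?_⟩
  intro q hq n k G hn r S
  have : Nonempty (Fin n) := ⟨⟨0, hn⟩⟩
  apply E1.nonneg_of_ok (by linarith)
  intro G' hn' hb
  exact h q hq _ _ G' hn' hb

section
variable {V I : Type} [DecidableEq V] [DecidableEq I] [Fintype V] [Fintype I] (G : MG V I) (q : ℝ)

/-- mixed sums: weight `p` on the edges of `S`, flow weight on the edges of `O` -/
noncomputable def X (p : ℝ) (r : Setoid V) (S O : Finset I) : ℝ :=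
  ∑ A ∈ S.powerset, (1 + p) ^ A.card * (-p) ^ (S.card - A.card) * m G q (r ⊔ conn G A) O

theorem X_empty (p : ℝ) (r : Setoid V) (O : Finset I) : X G q p r ∅ O = m G q r O := by
  unfold X
  rw [Finset.powerset_empty, Finset.sum_singleton, conn_empty]
  simp

theorem X_insert (p : ℝ) (r : Setoid V) {S : Finset I} (O : Finset I) {e : I} (he : e ∉ S) :
    X G q p r (insert e S) O = (1 + p) * X G q p (r ⊔ pr (G.x e) (G.y e)) S O - p * X G q p r S O := by
  unfold X
  rw [Finset.sum_powerset_insert he, Finset.mul_sum, Finset.mul_sum, add_comm, sub_eq_add_neg,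
    ← Finset.sum_neg_distrib]
  congr 1
  · refine Finset.sum_congr rfl fun A hA => ?_
    have hA' : A ⊆ S := Finset.mem_powerset.mp hA
    have heA : e ∉ A := fun h => he (hA' h)
    have hc := Finset.card_le_card hA'
    rw [Finset.card_insert_of_notMem he, Finset.card_insert_of_notMem heA, conn_insert]
    have h1 : S.card + 1 - (A.card + 1) = S.card - A.card := by omega
    have h2 : r ⊔ (conn G A ⊔ pr (G.x e) (G.y e)) = r ⊔ pr (G.x e) (G.y e) ⊔ conn G A := by
      rw [← sup_assoc, sup_right_comm]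
    rw [h1, h2, pow_succ]
    ring
  · refine Finset.sum_congr rfl fun A hA => ?_
    have hA' : A ⊆ S := Finset.mem_powerset.mp hA
    have hc := Finset.card_le_card hA'
    rw [Finset.card_insert_of_notMem he]
    have h1 : S.card + 1 - A.card = (S.card - A.card) + 1 := by omega
    rw [h1, pow_succ]
    ring

theorem X_O_insert (p : ℝ) (r : Setoid V) {S : Finset I} {O : Finset I} {e : I} (he : e ∉ O) :
    X G q p r S (insert e O) = (1 + 1 / (q - 1)) * X G q p (r ⊔ pr (G.x e) (G.y e)) S O
      - 1 / (q - 1) * X G q p r S O := by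
  unfold X
  rw [Finset.mul_sum, Finset.mul_sum, ← Finset.sum_sub_distrib]
  refine Finset.sum_congr rfl fun A hA => ?_
  rw [m_insert G q he, sup_right_comm]
  ring

/-- the weight `p = t / (q-1)` is a convex combination of contraction and the flow weight -/
theorem X_split (t : ℝ) (r : Setoid V) {S : Finset I} {O : Finset I} {e : I} (he : e ∉ S)
    (heO : e ∉ O) :
    X G q (t * (1 / (q - 1))) r (insert e S) O
      = (1 - t) * X G q (t * (1 / (q - 1))) (r ⊔ pr (G.x e) (G.y e)) S O
        + t * X G q (t * (1 / (q - 1))) r S (insert e O) := by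
  rw [X_insert G q _ r O he, X_O_insert G q _ r heO]
  ring

theorem X_nonneg {t : ℝ} (ht0 : 0 ≤ t) (ht1 : t ≤ 1)
    (hnn : ∀ (r : Setoid V) (S : Finset I), 0 ≤ m G q r S) (S : Finset I) :
    ∀ (r : Setoid V) (O : Finset I), Disjoint S O → 0 ≤ X G q (t * (1 / (q - 1))) r S O := by
  induction S using Finset.induction_on with
  | empty => intro r O _; rw [X_empty]; exact hnn r O
  | insert e S he ih =>
      intro r O hd
      rw [Finset.disjoint_insert_left] at hd
      rw [X_split G q t r he hd.1]
      have h1 := ih (r ⊔ pr (G.x e) (G.y e)) O hd.2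
      have h2 := ih r (insert e O) (by
        rw [Finset.disjoint_insert_right]; exact ⟨he, hd.2⟩)
      have h3 : 0 ≤ 1 - t := by linarith
      positivity

theorem X_pos {t : ℝ} (ht0 : 0 ≤ t) (ht1 : t < 1) (hq : 0 < q)
    (hnn : ∀ (r : Setoid V) (S : Finset I), 0 ≤ m G q r S) (S : Finset I) :
    ∀ (r : Setoid V), 0 < X G q (t * (1 / (q - 1))) r S ∅ := by
  induction S using Finset.induction_on with
  | empty => intro r; rw [X_empty, m_empty]; positivity
  | insert e S he ih =>
      intro r
      rw [X_split G q t r he (Finset.notMem_empty e)]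
      have h1 := ih (r ⊔ pr (G.x e) (G.y e))
      have h2 := X_nonneg G q ht0 ht1.le hnn S r (insert e ∅) (by
        rw [Finset.disjoint_insert_right]; exact ⟨he, Finset.disjoint_empty_right _⟩)
      have h3 : 0 < 1 - t := by linarith
      have h4 := mul_pos h3 h1
      have h5 := mul_nonneg ht0 h2
      linarith

/-- `X` at `O = ∅` is the dichromatic polynomial up to a factor -/
theorem X_eq {v p : ℝ} (hv : 1 + v ≠ 0) (hp : p = -(1 / (1 + v))) (S : Finset I) :
    ∑ A ∈ S.powerset, q ^ cl (conn G A) * v ^ A.card = (1 + v) ^ S.card * X G q p ⊥ S ∅ := by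
  unfold X
  rw [Finset.mul_sum]
  refine Finset.sum_congr rfl fun A hA => ?_
  have hA' : A ⊆ S := Finset.mem_powerset.mp hA
  have hc := Finset.card_le_card hA'
  rw [m_empty, bot_sup_eq]
  have h1 : 1 + p = v / (1 + v) := by rw [hp]; field_simp; ring
  have h2 : -p = 1 / (1 + v) := by rw [hp]; ring
  rw [h1, h2, div_pow, div_pow, one_pow]
  have h3 : (1 + v) ^ S.card = (1 + v) ^ A.card * (1 + v) ^ (S.card - A.card) := by
    rw [← pow_add, Nat.add_sub_cancel' hc]
  rw [h3]
  have h4 : (1 + v) ^ A.card ≠ 0 := pow_ne_zero _ hv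
  have h5 : (1 + v) ^ (S.card - A.card) ≠ 0 := pow_ne_zero _ hv
  field_simp

end

/-- the sign of the dichromatic polynomial -/
theorem dichr_pos : ∃ C : ℝ, 2 ≤ C ∧ ∀ q v : ℝ, C ≤ q → v < -q →
    ∀ (n k : ℕ) (G : MG (Fin n) (Fin k)),
      0 < (-1) ^ k * ∑ A ∈ (univ : Finset (Fin k)).powerset, q ^ cl (conn G A) * v ^ A.card := by
  obtain ⟨C, hC, h⟩ := all_nonneg
  refine ⟨C, hC, ?_⟩
  intro q v hq hv n k G
  rcases Nat.eq_zero_or_pos n with hn | hn
  · subst hn
    have hk : k = 0 := by
      rcases Nat.eq_zero_or_pos k with hk | hk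
      · exact hk
      · exact (G.x ⟨0, hk⟩).elim0
    subst hk
    have hq0 : 0 < q := by linarith
    simp only [univ_eq_empty, powerset_empty, sum_singleton, card_empty, pow_zero, mul_one, one_mul]
    positivity
  · have hv1 : 1 + v < 0 := by linarith
    have hv0 : 1 + v ≠ 0 := hv1.ne
    have hq1 : 0 < q - 1 := by linarith
    set p : ℝ := -(1 / (1 + v)) with hp
    have hp0 : 0 < p := by
      rw [hp, ← div_neg, neg_eq_neg_one_mul]
      apply div_pos one_pos
      linarith
    have hpt : p = (p * (q - 1)) * (1 / (q - 1)) := by field_simp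
    have ht1 : p * (q - 1) < 1 := by
      have h1 : p * (-(1 + v)) = 1 := by rw [hp]; field_simp
      have h2 : q - 1 < -(1 + v) := by linarith
      calc p * (q - 1) < p * (-(1 + v)) := mul_lt_mul_of_pos_left h2 hp0
        _ = 1 := h1
    have hpos := X_pos G q (t := p * (q - 1)) (by positivity) ht1 (by linarith) (h q hq n k G hn)
      univ ⊥
    rw [← hpt] at hpos
    rw [X_eq G q hv0 hp univ, Finset.card_univ, Fintype.card_fin, ← mul_assoc, ← mul_pow]
    apply mul_pos _ hpos
    apply pow_pos
    linarith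

end F1

end Pool.Agent.H753R2.FR
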