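import Mathlib
import Pool.Agent.H753R2.FR.Defs
set_option autoImplicit false

namespace Pool.Agent.H753R2.FR

open Finset

/-! ### Task A1 : equivalence relations and number of classes -/
section A1
variable {V : Type}

theorem pr_le_iff {r : Setoid V} {a b : V} : pr a b ≤ r ↔ r a b := by sorry

theorem mg_le_iff {r : Setoid V} {K : Finset V} : mg K ≤ r ↔ ∀ a ∈ K, ∀ b ∈ K, r a b := by sorry

theorem sup_pr_iff {r : Setoid V} {a b c d : V} :
    (r ⊔ pr a b) c d ↔ r c d ∨ (r c a ∧ r b d) ∨ (r c b ∧ r a d) := by sorry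

theorem mg_insert [DecidableEq V] {K : Finset V} {k v : V} (hk : k ∈ K) :
    mg (insert v K) = mg K ⊔ pr k v := by sorry

theorem mg_singleton (v : V) : mg ({v} : Finset V) = ⊥ := by sorry

theorem cl_sup_pr_of_rel {s : Setoid V} {a b : V} (h : s a b) : cl (s ⊔ pr a b) = cl s := by sorry

theorem cl_sup_pr_of_not [Finite V] {s : Setoid V} {a b : V} (h : ¬ s a b) :
    cl (s ⊔ pr a b) + 1 = cl s := by sorry

theorem cl_bot [Fintype V] : cl (⊥ : Setoid V) = Fintype.card V := by sorry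

theorem cl_anti [Finite V] {r s : Setoid V} (h : r ≤ s) : cl s ≤ cl r := by sorry

/-- if `r ≤ s` and the number of classes is the same, then `r = s` -/
theorem eq_of_cl_eq [Finite V] {r s : Setoid V} (h : r ≤ s) (hc : cl r = cl s) : r = s := by sorry

/-- go from `r` to `s ≥ r` by gluing one pair at a time -/
theorem chain_induction [Finite V] {r s : Setoid V} (h : r ≤ s) (P : Setoid V → Prop) (h0 : P r)
    (h1 : ∀ t a b, r ≤ t → t ≤ s → s a b → ¬ t a b → P t → P (t ⊔ pr a b)) : P s := by sorry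

/-- submodularity -/
theorem cl_submod [Finite V] {a b : Setoid V} (h : a ≤ b) (s : Setoid V) :
    cl (a ⊔ s) + cl b ≤ cl a + cl (b ⊔ s) := by sorry

theorem agree_sup {U : Set V} {s s' t : Setoid V} (h : AgreeOn U s s') (ht : Supp U t) :
    AgreeOn U (s ⊔ t) (s' ⊔ t) := by sorry

theorem agree_cl [Finite V] {U : Set V} {s s' t : Setoid V} (h : AgreeOn U s s') (ht : Supp U t) :
    cl s + cl (s' ⊔ t) = cl s' + cl (s ⊔ t) := by sorry

variable {I : Type} [DecidableEq V] [DecidableEq I] [Fintype V] [Fintype I] (G : MG V I)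

theorem conn_empty : conn G ∅ = ⊥ := by sorry

theorem conn_insert (e : I) (A : Finset I) :
    conn G (insert e A) = conn G A ⊔ pr (G.x e) (G.y e) := by sorry

theorem conn_union (A B : Finset I) : conn G (A ∪ B) = conn G A ⊔ conn G B := by sorry

theorem conn_mono {A B : Finset I} (h : A ⊆ B) : conn G A ≤ conn G B := by sorry

theorem conn_le_iff {A : Finset I} {r : Setoid V} :
    conn G A ≤ r ↔ ∀ e ∈ A, r (G.x e) (G.y e) := by sorry

theorem cl_conn (s : Setoid V) (B : Finset I) : cl s ≤ cl (s ⊔ conn G B) + B.card := by sorry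

/-- `conn G A` for edges inside `D` relates only elements of `D` -/
theorem supp_conn {D : Finset V} {A : Finset I} (h : A ⊆ E G D) : Supp (↑D : Set V) (conn G A) := by
  sorry

/-- `D` connected after gluing `K`: all the edges of `D` together with `K` glue the whole of `D` -/
theorem kconn_mg {D K : Finset V} (hKD : K ⊆ D) (hK : K.Nonempty) (h : Kconn G D K) :
    mg D ≤ conn G (E G D) ⊔ mg K := by sorry

end A1

/-! ### Task A2 : the polynomial m -/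
section A2
variable {V I : Type} [DecidableEq V] [DecidableEq I] [Fintype V] [Fintype I] (G : MG V I) (q : ℝ)

theorem wt_union {S S' A A' : Finset I} (h : Disjoint S S') (hA : A ⊆ S) (hA' : A' ⊆ S') :
    wt q (S ∪ S') (A ∪ A') = wt q S A * wt q S' A' := by sorry

theorem wt_eq {S A : Finset I} (hA : A ⊆ S) :
    wt q S A = (1 + 1 / (q - 1)) ^ A.card * (-(1 / (q - 1))) ^ (S \ A).card := by sorry

/-- sum over the subsets of a disjoint union -/
theorem sum_powerset_union {S T : Finset I} (h : Disjoint S T) (φ : Finset I → ℝ) :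
    ∑ A ∈ (S ∪ T).powerset, φ A = ∑ A ∈ S.powerset, ∑ B ∈ T.powerset, φ (A ∪ B) := by sorry

theorem m_union {S O : Finset I} (h : Disjoint S O) (r : Setoid V) :
    m G q r (S ∪ O) = ∑ A ∈ S.powerset, wt q S A * m G q (r ⊔ conn G A) O := by sorry

theorem m_empty (r : Setoid V) : m G q r ∅ = q ^ cl r := by sorry

theorem m_insert {S : Finset I} {e : I} (h : e ∉ S) (r : Setoid V) :
    m G q r (insert e S) =
      (1 + 1 / (q - 1)) * m G q (r ⊔ pr (G.x e) (G.y e)) S - 1 / (q - 1) * m G q r S := by sorry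

/-- loops may be removed -/
theorem m_loops {S O : Finset I} (r : Setoid V) (h : ∀ e ∈ S, r (G.x e) (G.y e)) :
    m G q r (O ∪ S) = m G q r O := by sorry

theorem m_bridge (hq : 1 < q) {S : Finset I} {e : I} (he : e ∉ S) (r : Setoid V)
    (h : ¬ (r ⊔ conn G S) (G.x e) (G.y e)) : m G q r (insert e S) = 0 := by sorry

theorem m_disc (hq : 1 < q) {S : Finset I} {a b : V} (r : Setoid V)
    (h : ¬ (r ⊔ conn G S) a b) : q * m G q (r ⊔ pr a b) S = m G q r S := by sorry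

/-- iterated merging inequality -/
theorem m_mono (hq : 1 < q) (hH : Hyp G q) {S : Finset I} (hS : S.card + 2 ≤ Fintype.card I)
    {r s : Setoid V} (h : r ≤ s) : m G q r S ≤ q ^ (cl r - cl s) * m G q s S := by sorry

/-- only the restriction to the touched vertices matters -/
theorem m_agree {U : Set V} {s s' r : Setoid V} {O : Finset I} (h : AgreeOn U s s') (hr : Supp U r)
    (hO : ∀ e ∈ O, G.x e ∈ U ∧ G.y e ∈ U) :
    q ^ cl s' * m G q (s ⊔ r) O = q ^ cl s * m G q (s' ⊔ r) O := by sorry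

end A2

/-! ### Task A3 : the product bound -/
section A3
variable {V I : Type} [DecidableEq V] [DecidableEq I] [Fintype V] [Fintype I] (G : MG V I) (q : ℝ)

theorem pb2_symm {O : Finset I} {D₁ K₁ W₁ D₂ K₂ W₂ : Finset V} {β : ℝ}
    (h : PB2 G q O D₁ K₁ W₁ D₂ K₂ W₂ β) : PB2 G q O D₂ K₂ W₂ D₁ K₁ W₁ β := by sorry

/-- `R` is resolved (bound without outer edges, all touched vertices special) -/
theorem pb (hq : 1 < q) (hH : Hyp G q) {O : Finset I} {R KR WR T KT WT : Finset V} {ρR ρT : ℝ}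
    (hRT : Disjoint R T) (hKR : KR ⊆ WR) (hWR : WR ⊆ R) (hKT : KT ⊆ WT) (hWT : WT ⊆ T)
    (hKR' : KR.Nonempty) (hKT' : KT.Nonempty)
    (hO : Untouched G O (R \ WR)) (hOR : Disjoint O (E G R)) (hOT : Disjoint O (E G T))
    (hcard : (E G T ∪ O).card + 2 ≤ Fintype.card I)
    (hρR : 0 ≤ ρR) (hρT : 0 ≤ ρT)
    (hR : Bd G q ∅ R KR WR ρR) (hT : Bd G q O T KT WT ρT) :
    PB2 G q O R KR WR T KT WT (ρR * ρT) := by sorry

end A3

/-! ### Task A4 : the decomposition of the configurations where `u` is not joined to `K` -/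
section A4
variable {V I : Type} [DecidableEq V] [DecidableEq I] [Fintype V] [Fintype I] (G : MG V I) (q : ℝ)

open Classical in
theorem comb {D K : Finset V} {u k₀ : V} (hk₀ : k₀ ∈ K) (hKD : K ⊆ D) (hu : u ∈ D \ K)
    (hD : Kconn G D K) (φ : Finset I → ℝ) :
    ∑ A ∈ (E G D).powerset.filter (fun A => ¬ (conn G A ⊔ mg K) u k₀), wt q (E G D) A * φ A
      = ∑ Y ∈ fam G D K u, (-(1 / (q - 1))) ^ (cut G Y (D \ Y)).card *
          ∑ A ∈ (E G Y).powerset,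
            ∑ B ∈ (E G (D \ Y)).powerset.filter
              (fun B => ∀ v ∈ ends G (D \ Y) Y, (conn G B ⊔ mg K) v k₀),
                wt q (E G Y) A * wt q (E G (D \ Y)) B * φ (A ∪ B) := by sorry

end A4

/-! ### Task A5 : the expansion step -/
section A5
variable {V I : Type} [DecidableEq V] [DecidableEq I] [Fintype V] [Fintype I] (G : MG V I) (q : ℝ)

theorem expand (hq : 1 < q) {O : Finset I} {D K W : Finset V} {u k₀ : V} (hk₀ : k₀ ∈ K)
    (hKW : K ⊆ W) (hWD : W ⊆ D) (hu : u ∈ W \ K) (hD : Kconn G D K) (hO : Disjoint O (E G D))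
    (WY WT : Finset V → Finset V) (β : Finset V → ℝ)
    (hWY : ∀ Y ∈ fam G D K u, (W ∩ Y) ∪ ends G Y (D \ Y) ⊆ WY Y ∧ WY Y ⊆ Y)
    (hWT : ∀ Y ∈ fam G D K u, (W \ Y) ∪ ends G (D \ Y) Y ⊆ WT Y ∧ WT Y ⊆ D \ Y)
    (hPB : ∀ Y ∈ fam G D K u, PB2 G q O Y {u} (WY Y) (D \ Y) K (WT Y) (β Y))
    (r : Setoid V) (hr : mg K ≤ r) (hfree : Free r (D \ W))
    (f : Setoid V → ℝ) (hf : ∀ s, |f s| ≤ 1) :
    |∑ A ∈ (E G D).powerset,
        f (pat W (conn G A ⊔ mg K)) * (wt q (E G D) A * m G q (r ⊔ conn G A) O)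
      - ∑ A ∈ (E G D).powerset,
        f (pat W (conn G A ⊔ mg (insert u K))) *
          (wt q (E G D) A * m G q (r ⊔ pr k₀ u ⊔ conn G A) O)|
      ≤ ∑ Y ∈ fam G D K u, (1 / (q - 1)) ^ (cut G Y (D \ Y)).card *
          ((q + 1) * β Y * m G q (r ⊔ mg (WY Y ∪ WT Y)) (E G D ∪ O)) := by sorry

end A5

/-! ### Task A6 : the cutting step -/
section A6
variable {V I : Type} [DecidableEq V] [DecidableEq I] [Fintype V] [Fintype I] (G : MG V I) (q : ℝ)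

theorem cutstep (hq : 1 < q) {O : Finset I} {D K W Z WZ WT : Finset V} {z₀ : V} {β : ℝ}
    (hK : K.Nonempty) (hKW : K ⊆ W) (hWD : W ⊆ D) (hZ : Z ⊆ D \ K) (hz₀ : z₀ ∈ Z)
    (hO : Disjoint O (E G D))
    (hWZ : (W ∩ Z) ∪ ends G Z (D \ Z) ⊆ WZ) (hWZ' : WZ ⊆ Z)
    (hWT : (W \ Z) ∪ ends G (D \ Z) Z ⊆ WT) (hWT' : WT ⊆ D \ Z)
    (hPB : PB2 G q O Z {z₀} WZ (D \ Z) K WT β)
    (r : Setoid V) (hr : mg K ≤ r) (hfree : Free r (D \ W))
    (f : Setoid V → ℝ) (hf : ∀ s, |f s| ≤ 1) :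
    |∑ A ∈ (E G D).powerset,
        f (pat W (conn G A ⊔ mg K)) * (wt q (E G D) A * m G q (r ⊔ conn G A) O)|
      ≤ β * ((1 + 2 / (q - 1)) ^ (cut G Z (D \ Z)).card +
              q * (1 / (q - 1)) ^ (cut G Z (D \ Z)).card) *
          m G q (r ⊔ mg (WZ ∪ WT)) (E G D ∪ O) := by sorry

end A6

/-! ### Task A7 : trivial cases -/
section A7
variable {V I : Type} [DecidableEq V] [DecidableEq I] [Fintype V] [Fintype I] (G : MG V I) (q : ℝ)

theorem bd_self {O : Finset I} {D K : Finset V} (hKD : K ⊆ D) (hO : Disjoint O (E G D))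
    (hnn : ∀ r, 0 ≤ m G q r (E G D ∪ O)) : Bd G q O D K K 1 := by sorry

/-- adding special vertices -/
theorem lcost {O : Finset I} {D W W' : Finset V} (hW : W.Nonempty) (hWW' : W ⊆ W')
    (hW'D : W' ⊆ D)
    (hL : ∀ K', W ⊆ K' → K' ⊆ D → LC G q O D K')
    (r : Setoid V) (hfree : Free r (D \ W)) :
    m G q (r ⊔ mg W') (E G D ∪ O) ≤ 2 ^ (W' \ W).card * m G q (r ⊔ mg W) (E G D ∪ O) := by sorry

/-- small domains -/
theorem small (hq : 2 ≤ q) (hH : Hyp G q) {O : Finset I} {D K W : Finset V} (hK : K.Nonempty)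
    (hKW : K ⊆ W) (hWD : W ⊆ D) (hD : Kconn G D K) (hO : Disjoint O (E G D))
    (hcard : O.card + 2 ≤ Fintype.card I)
    (hL : ∀ K', W ⊆ K' → K' ⊆ D → LC G q O D K') :
    Bd G q O D K W (4 ^ (E G D).card * 2 ^ D.card) := by sorry

end A7

/-! ### Task B : the counting lemma -/
theorem counting (c : ℝ) (hc : 0 < c) : ∃ B : ℝ, 0 ≤ B ∧
    ∀ (V I : Type) [DecidableEq V] [DecidableEq I] [Fintype V] [Fintype I] (G : MG V I)
      (D K : Finset V) (u : V), K ⊆ D → K.Nonempty → u ∈ D \ K →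
      (∀ Z, Z ⊆ D \ K → Z.Nonempty → 2 ≤ (cut G Z (D \ Z)).card) →
      (∀ Z, Z ⊆ D \ K → Z.Nonempty →
        c * ((min Z.card (D \ Z).card : ℕ) : ℝ) ^ ((1 : ℝ) / 3) ≤ ((cut G Z (D \ Z)).card : ℝ)) →
      ∀ lam : ℝ, 0 ≤ lam → lam * Real.exp B ≤ 1 →
        ∑ Y ∈ fam G D K u, lam ^ (cut G Y (D \ Y)).card ≤ (lam * Real.exp B) ^ 2 := by sorry

/-! ### Task C : the isoperimetric profile and the thin set -/
section C

theorem gg_nonneg (s : ℕ) : 0 ≤ gg s := by sorry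
theorem gg_mono {a b : ℕ} (h : a ≤ b) : gg a ≤ gg b := by sorry
theorem gg_one_le {a : ℕ} (h : 1 ≤ a) : 1 < gg a := by sorry
theorem gg_gap {a b : ℕ} (h : a ≤ b) : gg (a + b) + (37 / 50) * gg a ≤ gg a + gg b := by sorry
theorem gg_large (N : ℝ) : ∃ s₁ : ℕ, ∀ s, s₁ < s → N < gg s := by sorry
/-- subadditivity of the symmetrised profile -/
theorem gg_sym {a b N : ℕ} (h : a + b ≤ N) :
    gg (min (a + b) (N - (a + b))) ≤ gg (min a (N - a)) + gg (min b (N - b)) := by sorry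

variable {V I : Type} [DecidableEq V] [DecidableEq I] [Fintype V] [Fintype I] (G : MG V I)

theorem exists_thin [Nonempty V] (hdeg : ∀ v, 3 ≤ (cut G {v} {v}ᶜ).card)
    (hloop : ∀ e, G.x e ≠ G.y e)
    (hsimple : ∀ e e', ((G.x e = G.x e' ∧ G.y e = G.y e') ∨ (G.x e = G.y e' ∧ G.y e = G.x e')) →
      e = e') : ∃ X, Thin G X := by sorry

end C

/-! ### Task D1 : from a cheap cut to a cheap cut with connected sides -/
section D1
variable {V I : Type} [DecidableEq V] [DecidableEq I] [Fintype V] [Fintype I] (G : MG V I)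

theorem bridge_conn {D K Z : Finset V} (hKD : K ⊆ D) (hD : Kconn G D K) (hZ : Z ⊆ D \ K)
    (hZn : Z.Nonempty) (h : (cut G Z (D \ Z)).card = 1) :
    (∀ z ∈ Z, Kconn G Z {z}) ∧ Kconn G (D \ Z) K := by sorry

theorem cheap_conn {D Δ K : Finset V} (hKD : K ⊆ D) (hK : K.Nonempty) (hdisj : Disjoint D Δ)
    (hD : Kconn G D K) (Z₀ : Finset V) (hZ₀ : Z₀ ⊆ D \ K) (hZ₀n : Z₀.Nonempty)
    (h : ((cut G Z₀ (D \ Z₀)).card : ℝ) ≤ gg (min Z₀.card ((D ∪ Δ) \ Z₀).card) / 50) :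
    ∃ Z, Z ⊆ D \ K ∧ Z.Nonempty ∧
      ((cut G Z (D \ Z)).card : ℝ) ≤ gg (min Z.card ((D ∪ Δ) \ Z).card) / 50 ∧
      (∀ z ∈ Z, Kconn G Z {z}) ∧ Kconn G (D \ Z) K := by sorry

end D1

/-! ### Task D2 : sub-configurations -/
section D2
variable {V I : Type} [DecidableEq V] [DecidableEq I] [Fintype V] [Fintype I] (G : MG V I)

/-- counting boundary edges of a disjoint union -/
theorem cut_split {A B P : Finset V} (hAB : Disjoint A B) (hP : A ∪ B ⊆ P) :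
    (cut G A (P \ A)).card + (cut G B (P \ B)).card
      = (cut G (A ∪ B) (P \ (A ∪ B))).card + 2 * (cut G A B).card := by sorry

/-- no edges between `Z` and the dead set -/
theorem cut_dead {X D Δ K W Z : Finset V} (h : Cfg G X D Δ K W) (hZ : Z ⊆ D \ K) :
    cut G Z ((D \ Z) ∪ Δ) = cut G Z (D \ Z) := by sorry

theorem cfg_Z {X D Δ K W Z WZ : Finset V} {z₀ : V} (h : Cfg G X D Δ K W) (hZ : Z ⊆ D \ K)
    (hz₀ : z₀ ∈ WZ) (hWZ : (W ∩ Z) ∪ ends G Z (D \ Z) ⊆ WZ) (hWZ' : WZ ⊆ Z)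
    (hc : Kconn G Z {z₀}) : Cfg G X Z ∅ {z₀} WZ := by sorry

theorem cfg_T {X D Δ K W Z WT : Finset V} (h : Cfg G X D Δ K W) (hZ : Z ⊆ D \ K)
    (hWT : (W \ Z) ∪ ends G (D \ Z) Z ⊆ WT) (hWT' : WT ⊆ D \ Z)
    (hc : Kconn G (D \ Z) K) : Cfg G X (D \ Z) Δ K WT := by sorry

/-- reference sets in the piece case -/
theorem ref_P {X D Δ K W Z : Finset V} {u : V} (s₁ : ℕ) (h : Cfg G X D Δ K W) (hZ : Z ⊆ D \ K)
    (hu : u ∈ Z)
    (h2 : ∀ Z', Z' ⊆ D \ K → Z'.Nonempty → 2 ≤ (cut G Z' (D \ Z')).card) :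
    (Ref G X Z ∅ {u} (D ∪ Δ) s₁ 0 ∧
      (cut G (Z ∪ ∅) ((D ∪ Δ) \ (Z ∪ ∅))).card = (cut G Z (D \ Z)).card) ∧
    (Ref G X (D \ Z) Δ K (D ∪ Δ) s₁ 0 ∧
      (cut G ((D \ Z) ∪ Δ) ((D ∪ Δ) \ ((D \ Z) ∪ Δ))).card = (cut G Z (D \ Z)).card) := by sorry

/-- reference sets in the cheap cut case -/
theorem ref_C {X D Δ K W Z P : Finset V} {z₀ : V} {s₁ φ : ℕ} (h : Cfg G X D Δ K W)
    (hP : Ref G X D Δ K P s₁ φ) (hZ : Z ⊆ D \ K) (hz₀ : z₀ ∈ Z) :
    Ref G X Z ∅ {z₀} P s₁ 0 ∧ Ref G X (D \ Z) Δ K P s₁ φ ∧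
    (cut G (Z ∪ ∅) (P \ (Z ∪ ∅))).card + (cut G ((D \ Z) ∪ Δ) (P \ ((D \ Z) ∪ Δ))).card
      = (cut G (D ∪ Δ) (P \ (D ∪ Δ))).card + 2 * (cut G Z (D \ Z)).card := by sorry

/-- removing a maximal small pendant part -/
theorem ref_B1 {X D Δ K W Z P : Finset V} {s₁ φ : ℕ} (h : Cfg G X D Δ K W)
    (hP : Ref G X D Δ K P s₁ φ) (hbig : 3 * s₁ < (D ∪ Δ).card)
    (hnc : ∀ Z', Z' ⊆ D \ K → Z'.Nonempty → (cut G Z' (D \ Z')).card = 1 →
      min Z'.card ((D ∪ Δ) \ Z').card ≤ s₁)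
    (hZ : Z ⊆ D \ K) (hZn : Z.Nonempty) (hZ1 : (cut G Z (D \ Z)).card = 1) (hZs : Z.card ≤ s₁)
    (hmax : ∀ Z', Z' ⊆ D \ K → Z'.Nonempty → (cut G Z' (D \ Z')).card = 1 → Z'.card ≤ s₁ →
      Z'.card ≤ Z.card) :
    Ref G X (D \ Z) Δ K (P \ Z) s₁ 1 ∧
    (cut G ((D \ Z) ∪ Δ) ((P \ Z) \ ((D \ Z) ∪ Δ))).card + 1
      ≤ (cut G (D ∪ Δ) (P \ (D ∪ Δ))).card := by sorry

/-- removing a maximal small part containing the roots -/
theorem ref_B0 {X D Δ K W Z P : Finset V} {z₀ : V} {s₁ φ : ℕ} (h : Cfg G X D Δ K W)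
    (hP : Ref G X D Δ K P s₁ φ) (hbig : 3 * s₁ < (D ∪ Δ).card)
    (hnc : ∀ Z', Z' ⊆ D \ K → Z'.Nonempty → (cut G Z' (D \ Z')).card = 1 →
      min Z'.card ((D ∪ Δ) \ Z').card ≤ s₁)
    (hZ : Z ⊆ D \ K) (hz₀ : z₀ ∈ ends G Z (D \ Z)) (hZ1 : (cut G Z (D \ Z)).card = 1)
    (hZs : ((D \ Z) ∪ Δ).card ≤ s₁)
    (hmin : ∀ Z', Z' ⊆ D \ K → Z'.Nonempty → (cut G Z' (D \ Z')).card = 1 →
      ((D \ Z') ∪ Δ).card ≤ s₁ → Z.card ≤ Z'.card) :
    Ref G X Z ∅ {z₀} (P \ ((D \ Z) ∪ Δ)) s₁ 0 ∧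
    2 * (cut G (Z ∪ ∅) ((P \ ((D \ Z) ∪ Δ)) \ (Z ∪ ∅))).card + 1
      ≤ 2 * (cut G (D ∪ Δ) (P \ (D ∪ Δ))).card + φ := by sorry

end D2

/-! ### Task E1 : the minimal counterexample -/

theorem min_ce (q : ℝ) (hq : 2 < q)
    (h : ∃ (n k : ℕ) (G : MG (Fin n) (Fin k)), 0 < n ∧ Bridgeless G ∧ m G q ⊥ univ ≤ 0) :
    ∃ (n k : ℕ) (G : MG (Fin n) (Fin k)), 0 < n ∧ Bridgeless G ∧ m G q ⊥ univ ≤ 0 ∧ Hyp G q ∧
      (∀ r : Setoid (Fin n), r ≠ ⊥ → 0 < m G q r univ) ∧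
      (∀ v, 3 ≤ (cut G {v} {v}ᶜ).card) ∧ (∀ e, G.x e ≠ G.y e) ∧
      (∀ e e', ((G.x e = G.x e' ∧ G.y e = G.y e') ∨ (G.x e = G.y e' ∧ G.y e = G.x e')) →
        e = e') := by sorry

/-! ### Task E2 : link with the frozen statement -/

theorem link (c : ℝ) (hc : 2 ≤ c)
    (h : ∀ q : ℝ, c ≤ q → ∀ (n k : ℕ) (G : MG (Fin n) (Fin k)), 0 < n → Bridgeless G →
      0 < m G q ⊥ univ) :
    ∃ c : ℝ, ∀ (n : ℕ) (G : SimpleGraph (Fin n)) [DecidableRel G.Adj] (x : ℝ),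
    x ∈ (∑ A ∈ G.edgeFinset.powerset,
      Polynomial.C ((-1 : ℝ) ^ (G.edgeFinset.card - A.card)) *
        Polynomial.X ^ (A.card
          + Nat.card (SimpleGraph.fromEdgeSet (↑A : Set (Sym2 (Fin n)))).ConnectedComponent
          - n)).roots → x ≤ c := by sorry

end Pool.Agent.H753R2.FR
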