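import Mathlib
import Pool.Agent.H753R2.FR.Defs
import Pool.Agent.H753R2.FR.DefsD
set_option autoImplicit false

namespace Pool.Agent.H753R2.FR

open Finset

/-! ### Task D4 : the two levels -/
section D4
variable {V I : Type} [DecidableEq V] [DecidableEq I] [Fintype V] [Fintype I] (G : MG V I)

theorem lev0 {X : Finset V} (hX : Thin G X) {a₀ A₀ K₀ : ℝ} (hK : 0 ≤ K₀)
    (h : 2 * a₀ + 4 * A₀ + 4 ≤ 16 * K₀) (s₁ : ℕ) :
    Lev G X s₁ a₀ A₀ K₀ a₀ A₀ (2 * K₀) (Q0 G X K₀) (fun _ => 0) (fun S => 2 * S.card ≤ X.card) := by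
  sorry

theorem lev1 {X : Finset V} (hX : Thin G X) {a₀ A₀ K₀ a A K₁ : ℝ} (ha₀ : 0 ≤ a₀) (hK : 0 ≤ K₀)
    (ha : 0 ≤ a) (hA : 0 ≤ A)
    (h : K₀ + 2 * (a₀ + 1) + (2 * a + 4 * A + 4) / 50 ≤ (24 / 25) * K₁) (s₁ : ℕ) :
    Lev G X s₁ a₀ A₀ K₀ a A (2 * K₁) (Q1 G X K₁) (fun S => 2 * ((cut G S (X \ S)).card : ℝ))
      (fun S => S ≠ X ∧ S ⊆ X) := by sorry

/-- touched vertices of a set are at most twice its inner boundary -/
theorem legs_le {X : Finset V} (hX : Thin G X) {O : Finset I} (hO : Outer G X O) {R : Finset V}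
    (hR : R ⊆ X) (hRn : R.Nonempty) (hc : 2 * R.card ≤ X.card) :
    ((legs G O R).card : ℝ) ≤ 2 * ((cut G R (X \ R)).card : ℝ) := by sorry

end D4

/-! ### Task D6 : final assembly -/

/-- result of the induction (helper753) -/
theorem main_ind : ∃ q₀ : ℝ, ∀ q : ℝ, q₀ ≤ q → ∀ (V I : Type) [DecidableEq V] [DecidableEq I]
    [Fintype V] [Fintype I] (G : MG V I) (X : Finset V), Hyp G q → Thin G X → ∀ n, LL G q X n := by
  sorry

theorem flow_pos : ∃ q₀ : ℝ, 2 ≤ q₀ ∧ ∀ q : ℝ, q₀ ≤ q → ∀ (n k : ℕ) (G : MG (Fin n) (Fin k)),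
    0 < n → Bridgeless G → 0 < m G q ⊥ univ := by sorry

end Pool.Agent.H753R2.FR
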